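import Pool.Agent.H75B.Conv

set_option autoImplicit false

open scoped ContDiff commutatorElement
open Set Filter Topology

namespace Pool.Agent.H75B

open Pool.Agent.H45F Pool.Agent.H75S Pool.Agent.H75T

/-- the neighbourhoods of `1` among the diffeomorphisms supported in the disc of radius `R` -/
noncomputable def NF (R : ℝ) : Filter DiffC := 𝓝[(discSub R : Set DiffC)] 1

theorem discSub_mono {R R' : ℝ} (h : R ≤ R') : discSub R ≤ discSub R' :=
  fun _ hg z hz => hg z (le_trans h hz)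

theorem NF_mono {R R' : ℝ} (h : R ≤ R') : NF R ≤ NF R' :=
  nhdsWithin_mono _ (discSub_mono h)

theorem tendsto_NF {ι : Type*} {l : Filter ι} {s : ι → DiffC} {R : ℝ} :
    Tendsto s l (NF R) ↔ Tendsto s l (𝓝 1) ∧ ∀ᶠ i in l, s i ∈ discSub R :=
  tendsto_nhdsWithin_iff

theorem exists_disc (g : DiffC) : ∃ R : ℝ, g ∈ discSub R := by
  obtain ⟨R, hR⟩ := g.2.2.2
  exact ⟨R, hR⟩

/-- products of `k` commutators of elements of `V` -/
def Q (k : ℕ) (V : Set DiffC) : Set DiffC :=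
  {g | ∃ L : List (DiffC × DiffC), L.length = k ∧ (∀ q ∈ L, q.1 ∈ V ∧ q.2 ∈ V) ∧ g = lw L}

theorem Q_mul {k k' : ℕ} {V : Set DiffC} {g h : DiffC} (hg : g ∈ Q k V) (hh : h ∈ Q k' V) :
    g * h ∈ Q (k + k') V := by
  obtain ⟨L, h1, h2, rfl⟩ := hg
  obtain ⟨L', h1', h2', rfl⟩ := hh
  refine ⟨L ++ L', by rw [List.length_append, h1, h1'], fun q hq => ?_, (lw_append _ _).symm⟩
  rcases List.mem_append.mp hq with hq | hq
  · exact h2 q hq
  · exact h2' q hq

theorem Q_inv {k : ℕ} {V : Set DiffC} {g : DiffC} (hg : g ∈ Q k V) : g⁻¹ ∈ Q k V := by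
  obtain ⟨L, h1, h2, rfl⟩ := hg
  refine ⟨L.reverse.map fun q => (q.2, q.1), by simp [h1], fun q hq => ?_, (lw_inv L).symm⟩
  rw [List.mem_map] at hq
  obtain ⟨q', hq', rfl⟩ := hq
  exact ⟨(h2 q' (List.mem_reverse.mp hq')).2, (h2 q' (List.mem_reverse.mp hq')).1⟩

theorem Q_mono {k : ℕ} {V V' : Set DiffC} (h : V ⊆ V') : Q k V ⊆ Q k V' := by
  rintro g ⟨L, h1, h2, rfl⟩
  exact ⟨L, h1, fun q hq => ⟨h (h2 q hq).1, h (h2 q hq).2⟩, rfl⟩

theorem Q_one {V : Set DiffC} : (1 : DiffC) ∈ Q 0 V := ⟨[], rfl, by simp, by simp [lw]⟩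

theorem Q_comm {V : Set DiffC} {a b : DiffC} (ha : a ∈ V) (hb : b ∈ V) : ⁅a, b⁆ ∈ Q 1 V := by
  refine ⟨[(a, b)], rfl, ?_, by simp [lw]⟩
  intro q hq
  rw [List.mem_singleton] at hq
  subst hq
  exact ⟨ha, hb⟩

theorem Q_conj {k : ℕ} {V V' : Set DiffC} {g c : DiffC} (hg : g ∈ Q k V)
    (h : ∀ x ∈ V, c * x * c⁻¹ ∈ V') : c * g * c⁻¹ ∈ Q k V' := by
  obtain ⟨L, h1, h2, rfl⟩ := hg
  refine ⟨L.map fun q => (c * q.1 * c⁻¹, c * q.2 * c⁻¹), by simp [h1], ?_, ?_⟩
  · intro q hq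
    rw [List.mem_map] at hq
    obtain ⟨q', hq', rfl⟩ := hq
    exact ⟨h _ (h2 q' hq').1, h _ (h2 q' hq').2⟩
  · have := map_lw (MulAut.conj c).toMonoidHom L
    simpa using this

section neg

variable {ι : Type*} {l : Filter ι}

/-- products of boundedly many commutators of small elements -/
def Neg (l : Filter ι) (f : ι → DiffC) : Prop :=
  ∃ (k : ℕ) (R : ℝ), ∀ V ∈ NF R, ∀ᶠ i in l, f i ∈ Q k V

/-- small elements -/
def Sm (l : Filter ι) (s : ι → DiffC) : Prop := ∃ R : ℝ, Tendsto s l (NF R)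

theorem Sm.mul {s t : ι → DiffC} (hs : Sm l s) (ht : Sm l t) : Sm l (fun i => s i * t i) := by
  obtain ⟨R, hR⟩ := hs
  obtain ⟨R', hR'⟩ := ht
  rw [tendsto_NF] at hR hR'
  refine ⟨max R R', tendsto_NF.mpr ⟨?_, ?_⟩⟩
  · simpa using hR.1.mul hR'.1
  · filter_upwards [hR.2, hR'.2] with i h1 h2
    exact (discSub _).mul_mem (discSub_mono (le_max_left _ _) h1)
      (discSub_mono (le_max_right _ _) h2)

theorem Sm.inv {s : ι → DiffC} (hs : Sm l s) : Sm l (fun i => (s i)⁻¹) := by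
  obtain ⟨R, hR⟩ := hs
  rw [tendsto_NF] at hR
  refine ⟨R, tendsto_NF.mpr ⟨?_, ?_⟩⟩
  · simpa using hR.1.inv
  · filter_upwards [hR.2] with i h1
    exact (discSub _).inv_mem h1

theorem tendsto_conj (c : DiffC) (R : ℝ) : ∃ R' : ℝ, R ≤ R' ∧
    Tendsto (fun x => c * x * c⁻¹) (NF R) (NF R') := by
  obtain ⟨R₁, h₁⟩ := exists_disc c
  refine ⟨max R R₁, le_max_left _ _, tendsto_NF.mpr ⟨?_, ?_⟩⟩
  · have h : Tendsto (fun x : DiffC => c * x * c⁻¹) (𝓝 1) (𝓝 (c * 1 * c⁻¹)) :=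
      (tendsto_id.const_mul c).mul_const c⁻¹
    rw [mul_one, mul_inv_cancel] at h
    exact h.mono_left nhdsWithin_le_nhds
  · filter_upwards [self_mem_nhdsWithin] with x hx
    have hx' : x ∈ discSub (max R R₁) := discSub_mono (le_max_left _ _) hx
    have hc : c ∈ discSub (max R R₁) := discSub_mono (le_max_right _ _) h₁
    exact (discSub _).mul_mem ((discSub _).mul_mem hc hx') ((discSub _).inv_mem hc)

theorem Sm.conj {s : ι → DiffC} (hs : Sm l s) (c : DiffC) : Sm l (fun i => c * s i * c⁻¹) := by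
  obtain ⟨R, hR⟩ := hs
  obtain ⟨R', -, hR'⟩ := tendsto_conj c R
  exact ⟨R', hR'.comp hR⟩

theorem Neg.mul {f g : ι → DiffC} (hf : Neg l f) (hg : Neg l g) : Neg l (fun i => f i * g i) := by
  obtain ⟨k, R, h⟩ := hf
  obtain ⟨k', R', h'⟩ := hg
  refine ⟨k + k', max R R', fun V hV => ?_⟩
  filter_upwards [h V (NF_mono (le_max_left _ _) hV), h' V (NF_mono (le_max_right _ _) hV)]
    with i h1 h2
  exact Q_mul h1 h2

theorem Neg.inv {f : ι → DiffC} (hf : Neg l f) : Neg l (fun i => (f i)⁻¹) := by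
  obtain ⟨k, R, h⟩ := hf
  refine ⟨k, R, fun V hV => ?_⟩
  filter_upwards [h V hV] with i h1
  exact Q_inv h1

theorem Neg.conj {f : ι → DiffC} (hf : Neg l f) (c : DiffC) :
    Neg l (fun i => c * f i * c⁻¹) := by
  obtain ⟨k, R, h⟩ := hf
  obtain ⟨R', -, hR'⟩ := tendsto_conj c R
  refine ⟨k, R', fun V hV => ?_⟩
  filter_upwards [h _ (hR' hV)] with i h1
  exact Q_conj h1 (fun x hx => hx)

theorem Neg.conjSm {f s : ι → DiffC} (hf : Neg l f) (hs : Sm l s) :
    Neg l (fun i => s i * f i * (s i)⁻¹) := by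
  obtain ⟨k, R, h⟩ := hf
  obtain ⟨R', hR'⟩ := hs
  refine ⟨k, max R R', fun V hV => ?_⟩
  have ht : Tendsto (fun q : DiffC × DiffC => q.1 * q.2 * q.1⁻¹) (NF R' ×ˢ NF R)
      (NF (max R R')) := by
    refine tendsto_NF.mpr ⟨?_, ?_⟩
    · have h1 : Tendsto (fun q : DiffC × DiffC => q.1 * q.2 * q.1⁻¹) (𝓝 1 ×ˢ 𝓝 1)
          (𝓝 (1 * 1 * 1⁻¹)) := (tendsto_fst.mul tendsto_snd).mul tendsto_fst.inv
      rw [mul_one, inv_one, mul_one] at h1
      exact h1.mono_left (Filter.prod_mono nhdsWithin_le_nhds nhdsWithin_le_nhds)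
    · have h1 : ∀ᶠ x in NF R', x ∈ discSub (max R R') := by
        filter_upwards [self_mem_nhdsWithin] with x hx
        exact discSub_mono (le_max_right _ _) hx
      have h2 : ∀ᶠ x in NF R, x ∈ discSub (max R R') := by
        filter_upwards [self_mem_nhdsWithin] with x hx
        exact discSub_mono (le_max_left _ _) hx
      filter_upwards [h1.prod_mk h2] with q hq
      exact (discSub _).mul_mem ((discSub _).mul_mem hq.1 hq.2) ((discSub _).inv_mem hq.1)
  obtain ⟨V1, hV1, V2, hV2, hVV⟩ := Filter.mem_prod_iff.mp (ht hV)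
  filter_upwards [h V2 hV2, hR' hV1] with i h1 h2
  exact Q_conj h1 (fun x hx => hVV (Set.mk_mem_prod h2 hx))

theorem Neg.comm {s t : ι → DiffC} (hs : Sm l s) (ht : Sm l t) : Neg l (fun i => ⁅s i, t i⁆) := by
  obtain ⟨R, hR⟩ := hs
  obtain ⟨R', hR'⟩ := ht
  refine ⟨1, max R R', fun V hV => ?_⟩
  filter_upwards [hR (NF_mono (le_max_left _ _) hV), hR' (NF_mono (le_max_right _ _) hV)]
    with i h1 h2
  exact Q_comm h1 h2

theorem Neg.one : Neg l (fun _ => (1 : DiffC)) :=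
  ⟨0, 0, fun _ _ => Eventually.of_forall fun _ => Q_one⟩

theorem Neg.congr {f g : ι → DiffC} (hf : Neg l f) (h : ∀ i, f i = g i) : Neg l g := by
  have : f = g := funext h
  rwa [← this]

theorem Neg.comp {κ : Type*} {l' : Filter κ} {f : ι → DiffC} (hf : Neg l f) {s : κ → ι}
    (hs : Tendsto s l' l) : Neg l' (fun j => f (s j)) := by
  obtain ⟨k, R, h⟩ := hf
  exact ⟨k, R, fun V hV => hs.eventually (h V hV)⟩

end neg

/-- the commutators with small elements are products of boundedly many commutators of small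
elements -/
def Good (c : DiffC) : Prop := ∀ R : ℝ, Neg (NF R) (fun u => ⁅c, u⁆)

theorem Good.sm {ι : Type*} {l : Filter ι} {c : DiffC} (hc : Good c) {s : ι → DiffC}
    (hs : Sm l s) : Neg l (fun i => ⁅c, s i⁆) := by
  obtain ⟨R, hR⟩ := hs
  exact (hc R).comp hR

theorem sm_id (R : ℝ) : Sm (NF R) (fun u => u) := ⟨R, tendsto_id⟩

theorem Good.mul {c d : DiffC} (hc : Good c) (hd : Good d) : Good (c * d) := by
  intro R
  refine (((hd R).conj c).mul (hc R)).congr fun u => ?_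
  simp only [commutatorElement_def]; group

theorem Good.inv {c : DiffC} (hc : Good c) : Good c⁻¹ := by
  intro R
  refine ((hc R).inv.conj c⁻¹).congr fun u => ?_
  simp only [commutatorElement_def]; group

theorem Good.one : Good 1 := by
  intro R
  refine (Neg.one (l := NF R)).congr fun u => ?_
  simp only [commutatorElement_def]; group

theorem Good.conj {c : DiffC} (hc : Good c) (t : DiffC) : Good (t * c * t⁻¹) := by
  intro R
  have h1 : Sm (NF R) (fun u => t⁻¹ * u * t⁻¹⁻¹) := (sm_id R).conj t⁻¹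
  refine ((hc.sm h1).conj t).congr fun u => ?_
  simp only [commutatorElement_def]; group

theorem conj_partial {G : Type*} [Group G] (T u : G) (A : ℕ → G) (hA0 : A 0 = 1)
    (hA : ∀ j, A (j + 1) = A j * (T ^ j * u * (T ^ j)⁻¹)) (j : ℕ) :
    T * A j * T⁻¹ = u⁻¹ * A (j + 1) := by
  induction j with
  | zero => rw [hA, hA0]; group
  | succ j ih =>
    rw [hA (j + 1), ← mul_assoc, ← ih, hA j, pow_succ' T j]; group

/-- an element with arbitrarily small roots is good -/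
theorem good_of_roots {c : DiffC} {R₀ : ℝ}
    (h : ∀ V ∈ NF R₀, ∃ (m : ℕ) (T : DiffC), T ∈ V ∧ T ^ m = c) : Good c := by
  intro R
  refine ⟨2, max R R₀, fun V hV => ?_⟩
  have hV0 : V ∩ (discSub R₀ : Set DiffC) ∈ NF R₀ :=
    inter_mem (NF_mono (le_max_right _ _) hV) self_mem_nhdsWithin
  obtain ⟨m, T, ⟨hT, hTR⟩, hTm⟩ := h _ hV0
  have hTR' : T ∈ discSub (max R R₀) := discSub_mono (le_max_right _ _) hTR
  -- the partial products
  let A : ℕ → DiffC → DiffC := fun j u =>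
    Nat.rec 1 (fun j a => a * (T ^ j * u * (T ^ j)⁻¹)) j
  have hA0 : ∀ u, A 0 u = 1 := fun u => rfl
  have hA : ∀ u j, A (j + 1) u = A j u * (T ^ j * u * (T ^ j)⁻¹) := fun u j => rfl
  have hu : ∀ j : ℕ, Tendsto (fun u => T ^ j * u * (T ^ j)⁻¹) (NF R) (NF (max R R₀)) := by
    intro j
    refine tendsto_NF.mpr ⟨?_, ?_⟩
    · have h : Tendsto (fun x : DiffC => T ^ j * x * (T ^ j)⁻¹) (𝓝 1)
          (𝓝 (T ^ j * 1 * (T ^ j)⁻¹)) := (tendsto_id.const_mul _).mul_const _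
      rw [mul_one, mul_inv_cancel] at h
      exact h.mono_left nhdsWithin_le_nhds
    · filter_upwards [self_mem_nhdsWithin] with x hx
      have hx' : x ∈ discSub (max R R₀) := discSub_mono (le_max_left _ _) hx
      have hc : T ^ j ∈ discSub (max R R₀) := (discSub _).pow_mem hTR' j
      exact (discSub _).mul_mem ((discSub _).mul_mem hc hx') ((discSub _).inv_mem hc)
  have hAt : ∀ j : ℕ, Tendsto (A j) (NF R) (NF (max R R₀)) := by
    intro j
    induction j with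
    | zero =>
      refine tendsto_NF.mpr ⟨tendsto_const_nhds, Eventually.of_forall fun u => ?_⟩
      exact (discSub _).one_mem
    | succ j ih =>
      rw [tendsto_NF] at ih
      have h2 := tendsto_NF.mp (hu j)
      refine tendsto_NF.mpr ⟨?_, ?_⟩
      · have := ih.1.mul h2.1
        simpa using this
      · filter_upwards [ih.2, h2.2] with u h3 h4
        exact (discSub _).mul_mem h3 h4
  have hP : Tendsto (fun u => u⁻¹ * A m u) (NF R) (NF (max R R₀)) := by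
    have h1 := tendsto_NF.mp (hAt m)
    refine tendsto_NF.mpr ⟨?_, ?_⟩
    · have h2 : Tendsto (fun u : DiffC => u⁻¹) (NF R) (𝓝 1) := by
        have h3 : Tendsto (fun u : DiffC => u⁻¹) (𝓝 1) (𝓝 1⁻¹) := tendsto_inv (1 : DiffC)
        rw [inv_one] at h3
        exact h3.mono_left nhdsWithin_le_nhds
      simpa using h2.mul h1.1
    · filter_upwards [h1.2, self_mem_nhdsWithin] with u h3 h4
      exact (discSub _).mul_mem ((discSub _).inv_mem (discSub_mono (le_max_left _ _) h4)) h3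
  filter_upwards [hu m hV, hP hV, hAt m hV] with u h1 h2 h3
  have h1' : T ^ m * u * (T ^ m)⁻¹ ∈ V := h1
  have h2' : u⁻¹ * A m u ∈ V := h2
  have h3' : A m u ∈ V := h3
  have key : ⁅c, u⁆ = ⁅T ^ m * u * (T ^ m)⁻¹, u⁻¹ * A m u⁆ * ⁅T, A m u⁆ := by
    have e1 := conj_partial T u (fun j => A j u) (hA0 u) (hA u) m
    have e2 : T * A m u * T⁻¹ = u⁻¹ * (A m u * (T ^ m * u * (T ^ m)⁻¹)) := by
      rw [e1]
    have e3 : ⁅T, A m u⁆ = u⁻¹ * A m u * (T ^ m * u * (T ^ m)⁻¹) * (A m u)⁻¹ := by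
      rw [commutatorElement_def, e2]; group
    rw [e3, ← hTm]
    simp only [commutatorElement_def]
    group
  rw [key]
  exact Q_mul (Q_comm h1' h2') (Q_comm hT h3')

/-- the subgroup of the good elements -/
def goodSub : Subgroup DiffC where
  carrier := {c | Good c}
  mul_mem' := fun ha hb => Good.mul ha hb
  one_mem' := Good.one
  inv_mem' := fun ha => Good.inv ha

theorem goodSub_normal : goodSub.Normal := ⟨fun _ hn g => Good.conj hn g⟩

/-- a normal subgroup containing an element which displaces a disc is everything -/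
theorem normal_eq_top (hG : commutator DiffC = ⊤) {N : Subgroup DiffC} (hN : N.Normal)
    {c : DiffC} (hc : c ∈ N) {x : ℂ} {ρ : ℝ} (hρ : 0 < ρ)
    (hcx : ∀ z : ℂ, ‖z - x‖ ≤ ρ → ρ < ‖(c : Equiv.Perm ℂ) z - x‖) : N = ⊤ := by
  have key : ∀ a b : DiffC, (∀ z : ℂ, ρ < ‖z - x‖ → (a : Equiv.Perm ℂ) z = z) →
      (∀ z : ℂ, ρ < ‖z - x‖ → (b : Equiv.Perm ℂ) z = z) → ⁅a, b⁆ ∈ N := by
    intro a b ha hb
    have h1 : ⁅b, c⁆ ∈ N := by
      rw [commutatorElement_def]
      exact N.mul_mem (hN.conj_mem c hc b) (N.inv_mem hc)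
    have h2 : ⁅a, ⁅b, c⁆⁆ ∈ N := by
      rw [commutatorElement_def a]
      exact N.mul_mem (hN.conj_mem _ h1 a) (N.inv_mem h1)
    have h3 : a * (c * b⁻¹ * c⁻¹) = (c * b⁻¹ * c⁻¹) * a := by
      apply Subtype.ext
      refine perm_comm_of_fix {z | ‖z - x‖ ≤ ρ} (a : Equiv.Perm ℂ)
        ((c * b⁻¹ * c⁻¹ : DiffC) : Equiv.Perm ℂ) (fun z hz => ha z (not_le.mp hz)) ?_
      intro z hz
      have hb' : ∀ w : ℂ, ρ < ‖w - x‖ → ((b⁻¹ : DiffC) : Equiv.Perm ℂ) w = w := by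
        intro w hw
        rw [Subgroup.coe_inv, Equiv.Perm.inv_eq_iff_eq, hb w hw]
      change (c : Equiv.Perm ℂ) (((b⁻¹ : DiffC) : Equiv.Perm ℂ)
        (((c⁻¹ : DiffC) : Equiv.Perm ℂ) z)) = z
      have h4 : (c : Equiv.Perm ℂ) (((c⁻¹ : DiffC) : Equiv.Perm ℂ) z) = z := by
        rw [Subgroup.coe_inv]; exact Equiv.apply_symm_apply _ _
      have h5 : ρ < ‖((c⁻¹ : DiffC) : Equiv.Perm ℂ) z - x‖ := by
        by_contra hcon
        have h6 := hcx _ (not_lt.mp hcon)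
        rw [h4] at h6
        exact absurd hz (not_le.mpr h6)
      rw [hb' _ h5, h4]
    have h4 : ⁅a, ⁅b, c⁆⁆ = ⁅a, b⁆ := by
      set β := c * b⁻¹ * c⁻¹ with hβ
      have e1 : ⁅b, c⁆ = b * β := by rw [commutatorElement_def, hβ]; group
      have e2 : β * a⁻¹ = a⁻¹ * β := by
        calc β * a⁻¹ = a⁻¹ * (a * β) * a⁻¹ := by group
          _ = a⁻¹ * (β * a) * a⁻¹ := by rw [h3]
          _ = a⁻¹ * β := by group
      rw [e1, commutatorElement_def, commutatorElement_def]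
      calc a * (b * β) * a⁻¹ * (b * β)⁻¹ = a * b * (β * a⁻¹) * β⁻¹ * b⁻¹ := by group
        _ = a * b * (a⁻¹ * β) * β⁻¹ * b⁻¹ := by rw [e2]
        _ = a * b * a⁻¹ * b⁻¹ := by group
    rw [← h4]; exact h2
  rw [eq_top_iff]
  intro g _
  obtain ⟨L, hL⟩ := exists_list_of_commutator_top hG g
  obtain ⟨R, hR⟩ := exists_radius_list (L.map (fun q => q.1) ++ L.map (fun q => q.2))
  have hR1 : ∀ q ∈ L, ∀ z : ℂ, R ≤ ‖z‖ → (q.1 : Equiv.Perm ℂ) z = z := fun q hq =>
    hR _ (List.mem_append_left _ (List.mem_map_of_mem hq))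
  have hR2 : ∀ q ∈ L, ∀ z : ℂ, R ≤ ‖z‖ → (q.2 : Equiv.Perm ℂ) z = z := fun q hq =>
    hR _ (List.mem_append_right _ (List.mem_map_of_mem hq))
  set s : ℝ := ρ / (|R| + 1) with hs
  have hs0 : 0 < s := by positivity
  obtain ⟨t, ht⟩ := exists_similarity x s hs0 (|R| + 1)
  have hsupp : ∀ a : DiffC, (∀ z : ℂ, R ≤ ‖z‖ → (a : Equiv.Perm ℂ) z = z) →
      ∀ z : ℂ, ρ < ‖z - x‖ → ((t * a * t⁻¹ : DiffC) : Equiv.Perm ℂ) z = z := by
    intro a ha z hz
    change (t : Equiv.Perm ℂ) ((a : Equiv.Perm ℂ) (((t⁻¹ : DiffC) : Equiv.Perm ℂ) z)) = z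
    have h4 : (t : Equiv.Perm ℂ) (((t⁻¹ : DiffC) : Equiv.Perm ℂ) z) = z := by
      rw [Subgroup.coe_inv]; exact Equiv.apply_symm_apply _ _
    have h5 : R ≤ ‖((t⁻¹ : DiffC) : Equiv.Perm ℂ) z‖ := by
      by_contra hcon
      rw [not_le] at hcon
      have h6 := ht (((t⁻¹ : DiffC) : Equiv.Perm ℂ) z) (by linarith [le_abs_self R])
      rw [h4] at h6
      have h7 : ‖z - x‖ = s * ‖((t⁻¹ : DiffC) : Equiv.Perm ℂ) z‖ := by
        conv_lhs => rw [h6]
        rw [add_sub_cancel_left, norm_smul, Real.norm_eq_abs, abs_of_pos hs0]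
      have h8 : s * ‖((t⁻¹ : DiffC) : Equiv.Perm ℂ) z‖ ≤ s * (|R| + 1) :=
        mul_le_mul_of_nonneg_left (by linarith [le_abs_self R]) hs0.le
      have h9 : s * (|R| + 1) = ρ := by rw [hs]; field_simp
      rw [h7] at hz
      linarith
    rw [ha _ h5, h4]
  have hconj : t * g * t⁻¹ ∈ N := by
    have h1 : ∀ L' : List (DiffC × DiffC), (∀ q ∈ L', q ∈ L) → t * lw L' * t⁻¹ ∈ N := by
      intro L'
      induction L' with
      | nil => intro _; simp [lw, N.one_mem]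
      | cons q L' ih =>
        intro hL'
        have e : t * lw (q :: L') * t⁻¹ =
            ⁅t * q.1 * t⁻¹, t * q.2 * t⁻¹⁆ * (t * lw L' * t⁻¹) := by
          have : lw (q :: L') = ⁅q.1, q.2⁆ * lw L' := by simp [lw]
          rw [this]; simp only [commutatorElement_def]; group
        rw [e]
        have hq := hL' q List.mem_cons_self
        exact N.mul_mem (key _ _ (hsupp _ (hR1 q hq)) (hsupp _ (hR2 q hq)))
          (ih fun q' hq' => hL' q' (List.mem_cons_of_mem _ hq'))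
    rw [hL]
    exact h1 L (fun q hq => hq)
  have h2 := hN.conj_mem _ hconj t⁻¹
  have h3 : t⁻¹ * (t * g * t⁻¹) * t⁻¹⁻¹ = g := by group
  rwa [h3] at h2

end Pool.Agent.H75B
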