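import Pool.Agent.H75B.Defs

set_option autoImplicit false

open scoped ContDiff
open Set Filter Topology

namespace Pool.Agent.H75B

open Pool.Agent.H45F Pool.Agent.H75S

namespace Po

/-- the derivative from the two partial derivatives -/
noncomputable def cD (a b : ℂ) : ℂ →L[ℝ] ℂ :=
  ContinuousLinearMap.smulRightL ℝ ℂ ℂ Complex.reCLM a +
    ContinuousLinearMap.smulRightL ℝ ℂ ℂ Complex.imCLM b

theorem norm_cD_sub (a b a' b' : ℂ) : ‖cD a b - cD a' b'‖ ≤ ‖a - a'‖ + ‖b - b'‖ := by
  have hL0 : ‖ContinuousLinearMap.smulRightL ℝ ℂ ℂ Complex.reCLM‖ = 1 := by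
    rw [ContinuousLinearMap.norm_smulRightL, Complex.reCLM_norm]
  have hL1 : ‖ContinuousLinearMap.smulRightL ℝ ℂ ℂ Complex.imCLM‖ = 1 := by
    rw [ContinuousLinearMap.norm_smulRightL, Complex.imCLM_norm]
  have h1 : cD a b - cD a' b' = ContinuousLinearMap.smulRightL ℝ ℂ ℂ Complex.reCLM (a - a') +
      ContinuousLinearMap.smulRightL ℝ ℂ ℂ Complex.imCLM (b - b') := by
    unfold cD
    rw [map_sub, map_sub]
    abel
  rw [h1]
  refine (norm_add_le _ _).trans (add_le_add ?_ ?_)
  · have h := (ContinuousLinearMap.smulRightL ℝ ℂ ℂ Complex.reCLM).le_opNorm (a - a')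
    rwa [hL0, one_mul] at h
  · have h := (ContinuousLinearMap.smulRightL ℝ ℂ ℂ Complex.imCLM).le_opNorm (b - b')
    rwa [hL1, one_mul] at h

/-- the derivative in terms of the partial derivatives -/
theorem fderiv_eq (f : ℂ → ℂ) (z : ℂ) : fderiv ℝ f z = cD (pdir false f z) (pdir true f z) := by
  apply ContinuousLinearMap.ext
  intro v
  have h1 : v = v.re • (1 : ℂ) + v.im • Complex.I := by
    apply Complex.ext <;> simp
  have h2 : fderiv ℝ f z v = v.re • fderiv ℝ f z 1 + v.im • fderiv ℝ f z Complex.I := by
    conv_lhs => rw [h1]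
    rw [map_add, map_smul, map_smul]
  rw [h2]
  simp [pdir, cD]

theorem pd_append (w : List Bool) (b : Bool) (f : ℂ → ℂ) : pd (w ++ [b]) f = pdir b (pd w f) := by
  induction w generalizing f with
  | nil => rfl
  | cons c w ih => exact ih (pdir c f)

/-- Limits of sequences of smooth maps in the topology of all partial derivatives are smooth. -/
theorem lim_smooth {G : ℕ → ℂ → ℂ} (hG : ∀ n, ContDiff ℝ ∞ (G n)) {F : List Bool → C(ℂ, ℂ)}
    (h : ∀ w, Tendsto (fun n => (⟨pd w (G n), (pd_smooth (hG n) w).continuous⟩ : C(ℂ, ℂ)))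
      atTop (𝓝 (F w))) :
    ContDiff ℝ ∞ (F []) ∧ ∀ w, pd w (F []) = F w := by
  have hlu : ∀ w, TendstoLocallyUniformly (fun n => pd w (G n)) (F w) atTop := fun w =>
    ContinuousMap.tendsto_iff_tendstoLocallyUniformly.1 (h w)
  have hD : ∀ w z, HasFDerivAt (F w) (cD (F (w ++ [false]) z) (F (w ++ [true]) z)) z := by
    intro w z
    refine hasFDerivAt_of_tendstoLocallyUniformlyOn (f := fun n => pd w (G n))
      (f' := fun n => fderiv ℝ (pd w (G n)))
      (g' := fun z => cD (F (w ++ [false]) z) (F (w ++ [true]) z))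
      (l := atTop) isOpen_univ ?_
      (fun n x _ => ((pd_smooth (hG n) w).differentiable (by simp) x).hasFDerivAt) ?_
      (mem_univ z)
    · rw [tendstoLocallyUniformlyOn_univ, Metric.tendstoLocallyUniformly_iff]
      intro ε hε x
      obtain ⟨t, ht, h1⟩ := Metric.tendstoLocallyUniformly_iff.1 (hlu (w ++ [false])) (ε / 2)
        (by positivity) x
      obtain ⟨t', ht', h1'⟩ := Metric.tendstoLocallyUniformly_iff.1 (hlu (w ++ [true])) (ε / 2)
        (by positivity) x
      refine ⟨t ∩ t', inter_mem ht ht', ?_⟩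
      filter_upwards [h1, h1'] with n h2 h3 y hy
      have h4 := h2 y hy.1
      have h5 := h3 y hy.2
      rw [fderiv_eq, ← pd_append, ← pd_append, dist_eq_norm]
      rw [dist_eq_norm] at h4 h5
      have h6 := norm_cD_sub (F (w ++ [false]) y) (F (w ++ [true]) y)
        (pd (w ++ [false]) (G n) y) (pd (w ++ [true]) (G n) y)
      linarith
    · intro x _
      exact ((continuous_eval_const x).tendsto (F w)).comp (h w)
  have hs : ∀ n : ℕ, ∀ w, ContDiff ℝ n (F w) := by
    intro n
    induction n with
    | zero => exact fun w => contDiff_zero.2 (F w).continuous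
    | succ n ih =>
      intro w
      have h1 : fderiv ℝ (F w) = fun z => cD (F (w ++ [false]) z) (F (w ++ [true]) z) :=
        funext fun z => (hD w z).fderiv
      have h2 : ContDiff ℝ ((n : WithTop ℕ∞) + 1) (F w) := by
        rw [contDiff_succ_iff_fderiv]
        refine ⟨fun z => (hD w z).differentiableAt, fun h => absurd h (by simp), ?_⟩
        rw [h1]
        unfold cD
        exact ((ContinuousLinearMap.contDiff _).comp (ih _)).add
          ((ContinuousLinearMap.contDiff _).comp (ih _))
      exact_mod_cast h2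
  have hp : ∀ w v, pd w (F v) = F (v ++ w) := by
    intro w
    induction w with
    | nil => intro v; simp [pd]
    | cons b w ih =>
      intro v
      have h1 : pdir b (F v) = F (v ++ [b]) := by
        funext z
        unfold pdir
        rw [(hD v z).fderiv]
        cases b <;> simp [cD]
      rw [pd, h1, ih, List.append_assoc]
      rfl
  refine ⟨contDiff_infty.2 fun n => hs n [], fun w => ?_⟩
  rw [hp w []]
  rfl

theorem isClosed_image (R : ℝ) : IsClosed (emb '' ((discSub R : Subgroup DiffC) : Set DiffC)) := by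
  apply IsSeqClosed.isClosed
  intro x F hx hF
  choose g hg hgx using hx
  obtain rfl : x = fun n => emb (g n) := funext fun n => (hgx n).symm
  have hF' : ∀ q, Tendsto (fun n => emb (g n) q) atTop (𝓝 (F q)) := tendsto_pi_nhds.1 hF
  have h1 := lim_smooth (G := fun n => ((g n : DiffC) : Equiv.Perm ℂ)) (fun n => (g n).2.1)
    (F := fun w => F (w, true)) (fun w => hF' (w, true))
  have h2 := lim_smooth (G := fun n => (((g n)⁻¹ : DiffC) : Equiv.Perm ℂ))
    (fun n => ((g n)⁻¹ : DiffC).2.1)
    (F := fun w => F (w, false)) (fun w => hF' (w, false))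
  have hev : ∀ q z, Tendsto (fun n => emb (g n) q z) atTop (𝓝 (F q z)) := fun q z =>
    ((continuous_eval_const z).tendsto (F q)).comp (hF' q)
  have hlu : ∀ q, TendstoLocallyUniformly (fun n => ⇑(emb (g n) q)) (F q) atTop := fun q =>
    ContinuousMap.tendsto_iff_tendstoLocallyUniformly.1 (hF' q)
  have e1 : ∀ z, F ([], true) (F ([], false) z) = z := by
    intro z
    have h3 := (hlu ([], true)).tendsto_comp (F ([], true)).continuous.continuousAt
      (hev ([], false) z)
    have h4 : (fun n => emb (g n) ([], true) (emb (g n) ([], false) z)) = fun _ => z := by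
      funext n
      exact Equiv.apply_symm_apply ((g n : DiffC) : Equiv.Perm ℂ) z
    rw [h4] at h3
    exact (tendsto_nhds_unique h3 tendsto_const_nhds)
  have e2 : ∀ z, F ([], false) (F ([], true) z) = z := by
    intro z
    have h3 := (hlu ([], false)).tendsto_comp (F ([], false)).continuous.continuousAt
      (hev ([], true) z)
    have h4 : (fun n => emb (g n) ([], false) (emb (g n) ([], true) z)) = fun _ => z := by
      funext n
      exact Equiv.symm_apply_apply ((g n : DiffC) : Equiv.Perm ℂ) z
    rw [h4] at h3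
    exact (tendsto_nhds_unique h3 tendsto_const_nhds)
  have hsupp : ∀ z : ℂ, R ≤ ‖z‖ → F ([], true) z = z := by
    intro z hz
    have h3 := hev ([], true) z
    have h4 : (fun n => emb (g n) ([], true) z) = fun _ => z := by
      funext n
      exact hg n z hz
    rw [h4] at h3
    exact (tendsto_nhds_unique h3 tendsto_const_nhds)
  let f : Equiv.Perm ℂ := ⟨F ([], true), F ([], false), e2, e1⟩
  have hf : f ∈ DiffC := ⟨h1.1, h2.1, R, hsupp⟩
  refine ⟨⟨f, hf⟩, hsupp, ?_⟩
  funext q
  obtain ⟨w, b⟩ := q
  cases b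
  · ext1 z
    exact congrFun (h2.2 w) z
  · ext1 z
    exact congrFun (h1.2 w) z

end Po

theorem isClosed_discSub (R : ℝ) : IsClosed ((discSub R : Subgroup DiffC) : Set DiffC) := by
  have h : ((discSub R : Subgroup DiffC) : Set DiffC) =
      emb ⁻¹' (emb '' ((discSub R : Subgroup DiffC) : Set DiffC)) :=
    (preimage_image_eq _ emb_injective).symm
  rw [h]
  exact (Po.isClosed_image R).preimage isInducing_emb.continuous

theorem polish_discSub (R : ℝ) : PolishSpace (discSub R) := by
  have h : IsClosedEmbedding (fun g : discSub R => emb (g : DiffC)) := by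
    refine ⟨isEmbedding_emb.comp IsEmbedding.subtypeVal, ?_⟩
    have h1 : range (fun g : discSub R => emb (g : DiffC)) =
        emb '' ((discSub R : Subgroup DiffC) : Set DiffC) := by
      rw [← Subtype.range_coe (s := ((discSub R : Subgroup DiffC) : Set DiffC)), ← range_comp]
      rfl
    rw [h1]
    exact Po.isClosed_image R
  exact h.polishSpace

end Pool.Agent.H75B
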