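import Pool.Agent.H75B.Nhds

set_option autoImplicit false

open scoped ContDiff
open Set Filter Topology

namespace Pool.Agent.H75B

open Pool.Agent.H45F Pool.Agent.H75S

namespace Ro

/-- the profile of the rotation -/
noncomputable def χ (z : ℂ) : ℝ := Real.smoothTransition (4 - ‖z‖ ^ 2)

theorem χ_smooth : ContDiff ℝ ∞ χ :=
  Real.smoothTransition.contDiff.comp (contDiff_const.sub (contDiff_norm_sq ℝ))

theorem χ_one {z : ℂ} (hz : ‖z‖ ≤ 1) : χ z = 1 := by
  apply Real.smoothTransition.one_of_one_le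
  nlinarith [norm_nonneg z]

theorem χ_zero {z : ℂ} (hz : 2 ≤ ‖z‖) : χ z = 0 := by
  apply Real.smoothTransition.zero_of_nonpos
  nlinarith [norm_nonneg z]

/-- the rotation by the angle `s * χ` -/
noncomputable def rot (s : ℝ) (z : ℂ) : ℂ := Complex.exp ((s * χ z : ℝ) * Complex.I) * z

theorem norm_rot (s : ℝ) (z : ℂ) : ‖rot s z‖ = ‖z‖ := by
  rw [rot, norm_mul, Complex.norm_exp_ofReal_mul_I, one_mul]

theorem χ_rot (s : ℝ) (z : ℂ) : χ (rot s z) = χ z := by
  rw [χ, norm_rot, χ]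

theorem rot_rot (s t : ℝ) (z : ℂ) : rot s (rot t z) = rot (s + t) z := by
  have h : rot s (rot t z) = Complex.exp ((s * χ z : ℝ) * Complex.I) *
      (Complex.exp ((t * χ z : ℝ) * Complex.I) * z) := by
    rw [rot, χ_rot, rot]
  rw [h, ← mul_assoc, ← Complex.exp_add, rot]
  congr 2
  push_cast
  ring

theorem rot_zero (z : ℂ) : rot 0 z = z := by
  simp [rot]

theorem rot_out (s : ℝ) {z : ℂ} (hz : 2 ≤ ‖z‖) : rot s z = z := by
  simp [rot, χ_zero hz]

theorem rot_joint : ContDiff ℝ ∞ (fun p : ℝ × ℂ => rot p.1 p.2) := by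
  have h1 : ContDiff ℝ ∞ (fun p : ℝ × ℂ => p.1 * χ p.2) :=
    contDiff_fst.mul (χ_smooth.comp contDiff_snd)
  have h2 : ContDiff ℝ ∞ (fun p : ℝ × ℂ => ((p.1 * χ p.2 : ℝ) : ℂ)) :=
    Complex.ofRealCLM.contDiff.comp h1
  exact ((h2.mul contDiff_const).cexp).mul contDiff_snd

theorem rot_smooth (s : ℝ) : ContDiff ℝ ∞ (rot s) :=
  rot_joint.comp (contDiff_const.prodMk contDiff_id)

/-- the rotation as a diffeomorphism -/
noncomputable def T (s : ℝ) : DiffC :=
  ⟨⟨rot s, rot (-s), fun z => by rw [rot_rot, neg_add_cancel, rot_zero],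
    fun z => by rw [rot_rot, add_neg_cancel, rot_zero]⟩,
    rot_smooth s, rot_smooth (-s), 2, fun _ hz => rot_out s hz⟩

theorem T_app (s : ℝ) (z : ℂ) : (T s : Equiv.Perm ℂ) z = rot s z := rfl

theorem T_mul (s t : ℝ) : T s * T t = T (s + t) := by
  apply Subtype.ext
  apply Equiv.ext
  intro z
  exact rot_rot s t z

theorem T_zero : T 0 = 1 := by
  apply Subtype.ext
  apply Equiv.ext
  intro z
  exact rot_zero z

theorem T_inv (s : ℝ) : (T s)⁻¹ = T (-s) := by
  rw [inv_eq_iff_mul_eq_one, T_mul, add_neg_cancel, T_zero]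

theorem T_pow (s : ℝ) (m : ℕ) : T s ^ m = T (m * s) := by
  induction m with
  | zero => rw [pow_zero, Nat.cast_zero, zero_mul, T_zero]
  | succ m ih =>
    rw [pow_succ, ih, T_mul]
    congr 1
    push_cast
    ring

/-- partial derivatives depend smoothly on a parameter -/
theorem pd_param (w : List Bool) : ∀ F : ℝ → ℂ → ℂ,
    ContDiff ℝ ∞ (fun p : ℝ × ℂ => F p.1 p.2) →
    ContDiff ℝ ∞ (fun p : ℝ × ℂ => pd w (F p.1) p.2) := by
  induction w with
  | nil => intro F h; exact h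
  | cons b w ih =>
    intro F h
    apply ih (fun s => pdir b (F s))
    have h1 : ContDiff ℝ ∞ (fun p : ℝ × ℂ => fderiv ℝ (F p.1) p.2) := by
      have h2 : ContDiff ℝ ∞ (Function.uncurry fun (p : ℝ × ℂ) (z : ℂ) => F p.1 z) :=
        h.comp ((contDiff_fst.comp contDiff_fst).prodMk contDiff_snd)
      exact ContDiff.fderiv (m := ∞) (n := ∞) h2 contDiff_snd (by simp)
    exact h1.clm_apply contDiff_const

theorem pd_zero (w : List Bool) (z : ℂ) : pd w (fun _ => 0) z = 0 := by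
  have h : pd w (fun _ => (0 : ℂ)) = fun _ => 0 := by
    induction w with
    | nil => rfl
    | cons b w ih =>
      have h1 : pdir b (fun _ => (0 : ℂ)) = fun _ => 0 := by
        funext z
        simp [pdir]
      rw [pd, h1, ih]
  rw [h]

/-- rotations by small angles are small -/
theorem small_T (r : ℕ) {ε : ℝ} (hε : 0 < ε) : ∀ᶠ s : ℝ in 𝓝 0, Small 2 r ε (T s) := by
  obtain ⟨η, hη⟩ : ∃ η, η = ε / 2 ^ r := ⟨_, rfl⟩
  have hη0 : 0 < η := by rw [hη]; positivity
  have hfin : {w : List Bool | w.length ≤ r}.Finite := List.finite_length_le Bool r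
  have hj : ContDiff ℝ ∞ (fun p : ℝ × ℂ => rot p.1 p.2 - p.2) := rot_joint.sub contDiff_snd
  have h1 : ∀ᶠ s : ℝ in 𝓝 0, ∀ w ∈ {w : List Bool | w.length ≤ r},
      ∀ z ∈ Metric.closedBall (0 : ℂ) 2, ‖pd w (fun z => rot s z - z) z‖ < η := by
    rw [hfin.eventually_all]
    intro w _
    apply IsCompact.eventually_forall_of_forall_eventually (isCompact_closedBall 0 2)
    intro z _
    have h2 : ContinuousAt (fun p : ℝ × ℂ => ‖pd w (fun z => rot p.1 z - z) p.2‖) (0, z) :=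
      (pd_param w (fun s z => rot s z - z) hj).continuous.norm.continuousAt
    have h3 : ‖pd w (fun z => rot ((0 : ℝ), z).1 z - z) ((0 : ℝ), z).2‖ < η := by
      have h4 : (fun z => rot 0 z - z) = fun _ => 0 := by
        funext z
        rw [rot_zero, sub_self]
      show ‖pd w (fun z => rot 0 z - z) z‖ < η
      rw [h4, pd_zero, norm_zero]
      exact hη0
    exact h2.eventually (gt_mem_nhds h3)
  filter_upwards [h1] with s hs
  refine ⟨fun z hz => rot_out s hz, ?_⟩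
  intro j hj z
  have hsm : ContDiff ℝ ∞ (fun w => rot s w - w) := (rot_smooth s).sub contDiff_id
  show ‖iteratedFDeriv ℝ j (fun w => rot s w - w) z‖ ≤ ε
  by_cases hz : z ∈ Metric.closedBall (0 : ℂ) 2
  · have h2 : ‖iteratedFDeriv ℝ j (fun w => rot s w - w) z‖ ≤ 2 ^ j * η := by
      apply Nh.iter_le_pd j hsm
      intro w hw
      exact (hs w (show w.length ≤ r by rw [hw]; exact hj) z hz).le
    refine h2.trans ?_
    have h3 : (2 : ℝ) ^ j ≤ 2 ^ r := pow_le_pow_right₀ (by norm_num) hj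
    calc (2 : ℝ) ^ j * η ≤ 2 ^ r * η := mul_le_mul_of_nonneg_right h3 hη0.le
      _ = ε := by rw [hη]; field_simp
  · have h2 : tsupport (fun w => rot s w - w) ⊆ Metric.closedBall (0 : ℂ) 2 := by
      apply closure_minimal _ Metric.isClosed_closedBall
      intro w hw
      rw [Function.mem_support] at hw
      rw [mem_closedBall_zero_iff]
      by_contra hcon
      push Not at hcon
      exact hw (by rw [rot_out s hcon.le, sub_self])
    have h3 : z ∉ Function.support (iteratedFDeriv ℝ j (fun w => rot s w - w)) :=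
      fun h => hz (h2 (support_iteratedFDeriv_subset j h))
    rw [Function.notMem_support] at h3
    rw [h3, norm_zero]
    exact hε.le

end Ro

open Ro in
theorem exists_root : ∃ (c : DiffC) (R₀ : ℝ), c ∈ discSub R₀ ∧
    (∃ (x : ℂ) (ρ : ℝ), 0 < ρ ∧ ∀ z : ℂ, ‖z - x‖ ≤ ρ → ρ < ‖(c : Equiv.Perm ℂ) z - x‖) ∧
    ∀ V ∈ 𝓝[(discSub R₀ : Set DiffC)] 1, ∃ (m : ℕ) (T : DiffC), T ∈ V ∧ T ^ m = c := by
  refine ⟨T Real.pi, 2, fun z hz => rot_out _ hz, ⟨1 / 2, 1 / 4, by norm_num, ?_⟩, ?_⟩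
  · intro z hz
    have h0 : ‖(1 / 2 : ℂ)‖ = 1 / 2 := by norm_num
    have h1 : ‖z‖ ≤ 1 := by
      have h2 : ‖z‖ ≤ ‖z - 1 / 2‖ + ‖(1 / 2 : ℂ)‖ := by
        calc ‖z‖ = ‖(z - 1 / 2) + 1 / 2‖ := by rw [sub_add_cancel]
          _ ≤ _ := norm_add_le _ _
      rw [h0] at h2
      linarith
    have h2 : (T Real.pi : Equiv.Perm ℂ) z = -z := by
      rw [T_app, rot, χ_one h1, mul_one, Complex.exp_pi_mul_I]
      ring
    rw [h2]
    have h3 : (1 : ℝ) ≤ ‖-z - 1 / 2‖ + ‖z - 1 / 2‖ := by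
      have h4 : (-z - 1 / 2) + (z - 1 / 2) = -(1 : ℂ) := by ring
      have h5 : ‖(-z - 1 / 2) + (z - 1 / 2)‖ = 1 := by rw [h4, norm_neg, norm_one]
      rw [← h5]
      exact norm_add_le _ _
    linarith
  · intro V hV
    obtain ⟨r, ε, hε, h⟩ := exists_small_subset 2 hV
    have h1 := small_T r hε
    have h2 : Tendsto (fun m : ℕ => Real.pi / ((m : ℝ) + 1)) atTop (𝓝 0) :=
      tendsto_const_div_atTop_nhds_zero_nat Real.pi |>.comp (tendsto_add_atTop_nat 1) |>.congr
        fun m => by simp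
    have h3 : Tendsto (fun m : ℕ => -(Real.pi / ((m : ℝ) + 1))) atTop (𝓝 0) := by
      simpa using h2.neg
    obtain ⟨m, hm1, hm2⟩ := ((h2.eventually h1).and (h3.eventually h1)).exists
    refine ⟨m + 1, T (Real.pi / ((m : ℝ) + 1)), h _ hm1 ?_, ?_⟩
    · rw [T_inv]
      exact hm2
    · rw [T_pow]
      congr 1
      push_cast
      field_simp

end Pool.Agent.H75B
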