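import Mathlib

/-!
# A zig-zag lemma of Pettis type for continuous images of complete metric spaces
-/

set_option autoImplicit false

open Set Filter Topology

namespace Pool.Agent.H75B

section zig

variable {X Y : Type*} [TopologicalSpace Y]

/-- the image of `S` is not meagre -/
def ZFat (μ : X → Y) (S : Set X) : Prop := ¬ IsMeagre (μ '' S)

/-- the points near which `S` is fat -/
def ZAcc (μ : X → Y) (S : Set X) : Set Y := {y | ∀ O ∈ 𝓝 y, ZFat μ (S ∩ μ ⁻¹' O)}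

theorem ZFat.mono {μ : X → Y} {S T : Set X} (h : S ⊆ T) (hS : ZFat μ S) : ZFat μ T :=
  fun hT => hS (hT.mono (image_mono h))

theorem ZFat.nonempty {μ : X → Y} {S : Set X} (hS : ZFat μ S) : S.Nonempty :=
  (nonempty_of_not_isMeagre hS).of_image

theorem ZFat.exists_of_iUnion {ι : Type*} [Countable ι] {μ : X → Y} {S : ι → Set X}
    (h : ZFat μ (⋃ i, S i)) : ∃ i, ZFat μ (S i) := by
  by_contra hcon
  have h1 : ∀ i, IsMeagre (μ '' S i) := by
    intro i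
    by_contra h2
    exact hcon ⟨i, h2⟩
  apply h
  rw [image_iUnion]
  exact isMeagre_iUnion h1

theorem ZFat.exists_ball [MetricSpace X] [SecondCountableTopology X] {μ : X → Y} {S : Set X} (h : ZFat μ S)
    {ε : ℝ} (hε : 0 < ε) : ∃ c : X, ZFat μ (S ∩ Metric.ball c ε) := by
  obtain ⟨s₀, _⟩ := h.nonempty
  have : Nonempty X := ⟨s₀⟩
  have h1 : S ⊆ ⋃ n, S ∩ Metric.ball (TopologicalSpace.denseSeq X n) ε := by
    intro x hx
    obtain ⟨n, hn⟩ := (TopologicalSpace.denseRange_denseSeq X).exists_dist_lt x hε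
    exact mem_iUnion.2 ⟨n, hx, hn⟩
  obtain ⟨n, hn⟩ := (h.mono h1).exists_of_iUnion
  exact ⟨_, hn⟩

theorem exists_zfat_nhds [MetricSpace X] [SecondCountableTopology X] {μ : X → Y} (h : ¬ IsMeagre (range μ)) :
    ∃ x₀ : X, ∀ N ∈ 𝓝 x₀, ZFat μ N := by
  by_contra hcon
  push Not at hcon
  choose f hf hf' using hcon
  obtain ⟨s, hs, hsu⟩ := TopologicalSpace.countable_cover_nhds hf
  apply h
  have h1 : range μ = ⋃ x ∈ s, μ '' f x := by
    rw [← image_iUnion₂, hsu, image_univ]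
  rw [h1]
  refine isMeagre_biUnion hs fun x _ => ?_
  by_contra h2
  exact hf' x h2

theorem mem_zacc {μ : X → Y} {S : Set X} {y : Y} :
    y ∈ ZAcc μ S ↔ ∀ O ∈ 𝓝 y, ZFat μ (S ∩ μ ⁻¹' O) := Iff.rfl

theorem isClosed_zacc (μ : X → Y) (S : Set X) : IsClosed (ZAcc μ S) := by
  rw [← closure_subset_iff_isClosed]
  intro y hy O hO
  obtain ⟨z, hz, hz'⟩ := mem_closure_iff_nhds.1 hy (interior O) (interior_mem_nhds.2 hO)
  exact hz' O (mem_interior_iff_mem_nhds.1 hz)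

theorem zacc_subset (μ : X → Y) (S : Set X) : ZAcc μ S ⊆ closure (μ '' S) := by
  intro y hy
  rw [mem_closure_iff_nhds]
  intro O hO
  obtain ⟨x, hx, hx'⟩ := (hy O hO).nonempty
  exact ⟨μ x, hx', mem_image_of_mem μ hx⟩

theorem ZFat.of_mem_open {μ : X → Y} {S : Set X} {O : Set Y} {y : Y} (hO : IsOpen O) (hy : y ∈ O)
    (hyS : y ∈ ZAcc μ S) : ZFat μ (S ∩ μ ⁻¹' O) := hyS O (hO.mem_nhds hy)

theorem ZFat.interior_nonempty [SecondCountableTopology Y] {μ : X → Y} {S : Set X}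
    (h : ZFat μ S) : (interior (ZAcc μ S)).Nonempty := by
  by_contra hcon
  rw [not_nonempty_iff_eq_empty, ← (isClosed_zacc μ S).isNowhereDense_iff] at hcon
  apply h
  have h1 : μ '' S ⊆ ZAcc μ S ∪
      ⋃ B ∈ {B | B ∈ TopologicalSpace.countableBasis Y ∧ ¬ ZFat μ (S ∩ μ ⁻¹' B)},
        μ '' (S ∩ μ ⁻¹' B) := by
    rintro _ ⟨x, hx, rfl⟩
    by_cases hxZ : μ x ∈ ZAcc μ S
    · exact Or.inl hxZ
    · right
      rw [mem_zacc] at hxZ
      push Not at hxZ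
      obtain ⟨O, hO, hO'⟩ := hxZ
      obtain ⟨B, hB, hxB, hBO⟩ :=
        (TopologicalSpace.isBasis_countableBasis Y).mem_nhds_iff.1 hO
      rw [mem_iUnion₂]
      refine ⟨B, ⟨hB, fun h2 => hO' (h2.mono ?_)⟩, mem_image_of_mem μ ⟨hx, hxB⟩⟩
      exact inter_subset_inter_right _ (preimage_mono hBO)
  refine (hcon.isMeagre.union (isMeagre_biUnion ?_ ?_)).mono h1
  · exact (TopologicalSpace.countable_countableBasis Y).mono fun B hB => hB.1
  · rintro B ⟨_, hB⟩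
    by_contra h2
    exact hB h2

/-- the state of the construction -/
structure ZState {X Y : Type*} [TopologicalSpace Y] [Group Y] (μ : X → Y)
    (g : Y) (T T' : Set X) (O : Set Y) : Prop where
  op : IsOpen O
  ne : O.Nonempty
  z1 : ∀ y ∈ O, g⁻¹ * y ∈ ZAcc μ T
  z2 : ∀ y ∈ O, y ∈ ZAcc μ T'

theorem ZState.step [MetricSpace X] [SecondCountableTopology X] [Group Y] [IsTopologicalGroup Y]
    [SecondCountableTopology Y] {μ : X → Y} {g : Y} {T T' : Set X} {O : Set Y} (H : ZState μ g T T' O) {ε : ℝ} (hε : 0 < ε) :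
    ∃ T₁ T₁' : Set X, ∃ O₁ : Set Y, ZState μ g T₁ T₁' O₁ ∧ T₁ ⊆ T ∧ T₁' ⊆ T' ∧
      (∃ c, T₁ ⊆ Metric.ball c ε) ∧ ∃ c, T₁' ⊆ Metric.ball c ε := by
  have hcg : Continuous fun y : Y => g⁻¹ * y := continuous_const.mul continuous_id
  have hcg' : Continuous fun y : Y => g * y := continuous_const.mul continuous_id
  obtain ⟨y, hy⟩ := H.ne
  -- the first side
  have ho : IsOpen ((fun z : Y => g * z) ⁻¹' O) := H.op.preimage hcg'
  have hmem : g⁻¹ * y ∈ (fun z : Y => g * z) ⁻¹' O := by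
    rw [mem_preimage, mul_inv_cancel_left]
    exact hy
  have hf := ZFat.of_mem_open ho hmem (H.z1 y hy)
  obtain ⟨c, hc⟩ := hf.exists_ball hε
  obtain ⟨T₁, hT₁⟩ : ∃ T₁, T₁ = T ∩ μ ⁻¹' ((fun z : Y => g * z) ⁻¹' O) ∩ Metric.ball c ε :=
    ⟨_, rfl⟩
  rw [← hT₁] at hc
  obtain ⟨z, hz⟩ := hc.interior_nonempty
  -- the set `g * interior` meets `O`
  have ho1 : IsOpen ((fun y : Y => g⁻¹ * y) ⁻¹' interior (ZAcc μ T₁)) :=
    isOpen_interior.preimage hcg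
  have hz1 : g * z ∈ (fun y : Y => g⁻¹ * y) ⁻¹' interior (ZAcc μ T₁) := by
    rw [mem_preimage, inv_mul_cancel_left]
    exact hz
  have hz2 : z ∈ closure (μ '' T₁) := zacc_subset μ T₁ (interior_subset hz)
  obtain ⟨_, hw1, ⟨t, ht, rfl⟩⟩ := mem_closure_iff.1 hz2 _ isOpen_interior hz
  have hO₁ne : g * μ t ∈ (fun y : Y => g⁻¹ * y) ⁻¹' interior (ZAcc μ T₁) ∩ O := by
    refine ⟨?_, ?_⟩
    · rw [mem_preimage, inv_mul_cancel_left]
      exact hw1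
    · rw [hT₁] at ht
      exact ht.1.2
  have hO₁ : IsOpen ((fun y : Y => g⁻¹ * y) ⁻¹' interior (ZAcc μ T₁) ∩ O) := ho1.inter H.op
  obtain ⟨O₁, hO₁e⟩ : ∃ O₁, O₁ = (fun y : Y => g⁻¹ * y) ⁻¹' interior (ZAcc μ T₁) ∩ O :=
    ⟨_, rfl⟩
  rw [← hO₁e] at hO₁ne hO₁
  -- the second side
  have hO₁O : O₁ ⊆ O := by
    rw [hO₁e]
    exact inter_subset_right
  have hf' := ZFat.of_mem_open hO₁ hO₁ne (H.z2 _ (hO₁O hO₁ne))
  obtain ⟨c', hc'⟩ := hf'.exists_ball hε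
  obtain ⟨T₁', hT₁'⟩ : ∃ T₁', T₁' = T' ∩ μ ⁻¹' O₁ ∩ Metric.ball c' ε := ⟨_, rfl⟩
  rw [← hT₁'] at hc'
  obtain ⟨z', hz'⟩ := hc'.interior_nonempty
  have hz2' : z' ∈ closure (μ '' T₁') := zacc_subset μ T₁' (interior_subset hz')
  obtain ⟨_, hw1', ⟨t', ht', rfl⟩⟩ := mem_closure_iff.1 hz2' _ isOpen_interior hz'
  refine ⟨T₁, T₁', interior (ZAcc μ T₁') ∩ O₁, ⟨isOpen_interior.inter hO₁, ⟨μ t', hw1', ?_⟩,
    ?_, ?_⟩, ?_, ?_, ⟨c, ?_⟩, ⟨c', ?_⟩⟩
  · rw [hT₁'] at ht'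
    exact ht'.1.2
  · rintro y ⟨_, hy2⟩
    rw [hO₁e] at hy2
    exact interior_subset hy2.1
  · rintro y ⟨hy1, _⟩
    exact interior_subset hy1
  · rw [hT₁]
    exact fun x hx => hx.1.1
  · rw [hT₁']
    exact fun x hx => hx.1.1
  · rw [hT₁]
    exact fun x hx => hx.2
  · rw [hT₁']
    exact fun x hx => hx.2

/-- nested sets with small diameters, the first in a closed set -/
theorem exists_zlimit [MetricSpace X] [CompleteSpace X] {K : Set X} (hK : IsClosed K) {T : ℕ → Set X}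
    (hTK : ∀ n, T n ⊆ K) (hT : ∀ n, T (n + 1) ⊆ T n) (hne : ∀ n, (T n).Nonempty)
    (hb : ∀ n, ∃ c, T n ⊆ Metric.ball c ((1 / 2) ^ n)) :
    ∃ x ∈ K, ∀ δ > 0, ∃ N, ∀ n, N ≤ n → T n ⊆ Metric.ball x δ := by
  have hanti : Antitone T := antitone_nat_of_succ_le hT
  choose s hs using hne
  have hd : ∀ N, ∀ x ∈ T N, ∀ y ∈ T N, dist x y ≤ 2 * (1 / 2) ^ N := by
    intro N x hx y hy
    obtain ⟨c, hc⟩ := hb N
    have h1 := hc hx
    have h2 := hc hy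
    rw [Metric.mem_ball] at h1 h2
    have h3 := dist_triangle_right x y c
    linarith
  have hlim : Tendsto (fun N : ℕ => 2 * ((1 : ℝ) / 2) ^ N) atTop (𝓝 0) := by
    have := (tendsto_pow_atTop_nhds_zero_of_lt_one (r := (1 : ℝ) / 2) (by norm_num)
      (by norm_num)).const_mul 2
    simpa using this
  have hC : CauchySeq s := by
    refine cauchySeq_of_le_tendsto_0 (fun N => 2 * (1 / 2) ^ N) (fun n m N hn hm => ?_) hlim
    exact hd N _ (hanti hn (hs n)) _ (hanti hm (hs m))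
  obtain ⟨x, hx⟩ := cauchySeq_tendsto_of_complete hC
  refine ⟨x, hK.mem_of_tendsto hx (Eventually.of_forall fun n => hTK n (hs n)), ?_⟩
  intro δ hδ
  obtain ⟨N, hN⟩ := (hlim.eventually (gt_mem_nhds hδ)).exists
  refine ⟨N, fun n hn y hy => ?_⟩
  have h1 : y ∈ T N := hanti hn hy
  have h2 : dist y x ≤ 2 * (1 / 2) ^ N := by
    have h3 : Tendsto (fun n => dist y (s n)) atTop (𝓝 (dist y x)) := tendsto_const_nhds.dist hx
    refine le_of_tendsto h3 ?_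
    filter_upwards [eventually_ge_atTop N] with m hm
    exact hd N y h1 _ (hanti hm (hs m))
  rw [Metric.mem_ball]
  exact lt_of_le_of_lt h2 hN

end zig

theorem zigzag {X Y : Type*} [MetricSpace X] [CompleteSpace X] [SecondCountableTopology X]
    [Group Y] [TopologicalSpace Y] [IsTopologicalGroup Y] [T2Space Y] [SecondCountableTopology Y]
    {μ : X → Y} (hμ : Continuous μ) (h : ¬ IsMeagre (range μ)) :
    ∃ x₀ : X, ∀ N ∈ 𝓝 x₀, ∃ U ∈ 𝓝 (1 : Y), ∀ g ∈ U, ∃ x ∈ N, ∃ x' ∈ N, g * μ x = μ x' := by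
  obtain ⟨x₀, hx₀⟩ := exists_zfat_nhds h
  refine ⟨x₀, fun N hN => ?_⟩
  obtain ⟨r, hr, hrN⟩ := Metric.nhds_basis_closedBall.mem_iff.1 hN
  obtain ⟨K, hK⟩ : ∃ K, K = Metric.closedBall x₀ r := ⟨_, rfl⟩
  have hKc : IsClosed K := by
    rw [hK]
    exact Metric.isClosed_closedBall
  have hKf : ZFat μ K := by
    rw [hK]
    exact hx₀ _ (Metric.closedBall_mem_nhds x₀ hr)
  obtain ⟨y₀, hy₀⟩ := hKf.interior_nonempty
  refine ⟨{g | g⁻¹ * y₀ ∈ interior (ZAcc μ K)}, ?_, fun g hg => ?_⟩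
  · have h1 : Continuous fun g : Y => g⁻¹ * y₀ := continuous_inv.mul continuous_const
    refine (isOpen_interior.preimage h1).mem_nhds ?_
    rw [mem_preimage, inv_one, one_mul]
    exact hy₀
  have hcg : Continuous fun y : Y => g⁻¹ * y := continuous_const.mul continuous_id
  have hcg' : Continuous fun y : Y => g * y := continuous_const.mul continuous_id
  -- the sequence of states
  have H₀ : ZState μ g K K ((fun y : Y => g⁻¹ * y) ⁻¹' interior (ZAcc μ K) ∩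
      interior (ZAcc μ K)) :=
    ⟨(isOpen_interior.preimage hcg).inter isOpen_interior, ⟨y₀, hg, hy₀⟩,
      fun y hy => interior_subset hy.1, fun y hy => interior_subset hy.2⟩
  let St := {p : Set X × Set X × Set Y // ZState μ g p.1 p.2.1 p.2.2}
  have hstep : ∀ (n : ℕ) (p : St), ∃ q : St, q.1.1 ⊆ p.1.1 ∧ q.1.2.1 ⊆ p.1.2.1 ∧
      (∃ c, q.1.1 ⊆ Metric.ball c ((1 / 2) ^ n)) ∧
      ∃ c, q.1.2.1 ⊆ Metric.ball c ((1 / 2) ^ n) := by
    intro n p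
    obtain ⟨T₁, T₁', O₁, h1, h2, h3, h4, h5⟩ := p.2.step (ε := (1 / 2) ^ n) (by positivity)
    exact ⟨⟨(T₁, T₁', O₁), h1⟩, h2, h3, h4, h5⟩
  choose nxt hn1 hn2 hn3 hn4 using hstep
  let q : ℕ → St := fun n => Nat.rec (nxt 0 ⟨(K, K, _), H₀⟩) (fun n p => nxt (n + 1) p) n
  have hq0 : q 0 = nxt 0 ⟨(K, K, _), H₀⟩ := rfl
  have hq : ∀ n, q (n + 1) = nxt (n + 1) (q n) := fun n => rfl
  have hb1 : ∀ n, ∃ c, (q n).1.1 ⊆ Metric.ball c ((1 / 2) ^ n) := by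
    intro n
    rcases n with _ | n
    · exact hn3 0 _
    · rw [hq]
      exact hn3 (n + 1) _
  have hb2 : ∀ n, ∃ c, (q n).1.2.1 ⊆ Metric.ball c ((1 / 2) ^ n) := by
    intro n
    rcases n with _ | n
    · exact hn4 0 _
    · rw [hq]
      exact hn4 (n + 1) _
  have hs1 : ∀ n, (q (n + 1)).1.1 ⊆ (q n).1.1 := by
    intro n
    rw [hq]
    exact hn1 (n + 1) _
  have hs2 : ∀ n, (q (n + 1)).1.2.1 ⊆ (q n).1.2.1 := by
    intro n
    rw [hq]
    exact hn2 (n + 1) _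
  have hK1 : ∀ n, (q n).1.1 ⊆ K := by
    intro n
    induction n with
    | zero => exact hn1 0 _
    | succ n ih => exact (hs1 n).trans ih
  have hK2 : ∀ n, (q n).1.2.1 ⊆ K := by
    intro n
    induction n with
    | zero => exact hn2 0 _
    | succ n ih => exact (hs2 n).trans ih
  have hne1 : ∀ n, ((q n).1.1).Nonempty := by
    intro n
    obtain ⟨y, hy⟩ := (q n).2.ne
    exact (((q n).2.z1 y hy univ univ_mem).mono inter_subset_left).nonempty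
  have hne2 : ∀ n, ((q n).1.2.1).Nonempty := by
    intro n
    obtain ⟨y, hy⟩ := (q n).2.ne
    exact (((q n).2.z2 y hy univ univ_mem).mono inter_subset_left).nonempty
  obtain ⟨x, hxK, hx⟩ := exists_zlimit hKc hK1 hs1 hne1 hb1
  obtain ⟨x', hxK', hx'⟩ := exists_zlimit hKc hK2 hs2 hne2 hb2
  have hKN : K ⊆ N := by
    rw [hK]
    exact hrN
  refine ⟨x, hKN hxK, x', hKN hxK', ?_⟩
  by_contra hcon
  obtain ⟨A, A', hA, hA', hxA, hxA', hdisj⟩ := t2_separation hcon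
  have h1 : (fun z => g * μ z) ⁻¹' A ∈ 𝓝 x :=
    (hA.preimage (hcg'.comp hμ)).mem_nhds hxA
  have h2 : μ ⁻¹' A' ∈ 𝓝 x' := (hA'.preimage hμ).mem_nhds hxA'
  obtain ⟨δ, hδ, hδA⟩ := Metric.mem_nhds_iff.1 h1
  obtain ⟨δ', hδ', hδA'⟩ := Metric.mem_nhds_iff.1 h2
  obtain ⟨n₁, hn₁⟩ := hx δ hδ
  obtain ⟨n₂, hn₂⟩ := hx' δ' hδ'
  have hm1 := hn₁ (max n₁ n₂) (le_max_left _ _)
  have hm2 := hn₂ (max n₁ n₂) (le_max_right _ _)
  have hSt := (q (max n₁ n₂)).2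
  obtain ⟨y, hy⟩ := hSt.ne
  have h3 : g⁻¹ * y ∈ closure (μ '' (q (max n₁ n₂)).1.1) := zacc_subset _ _ (hSt.z1 y hy)
  have ho : IsOpen ((fun z : Y => g * z) ⁻¹' (q (max n₁ n₂)).1.2.2) := hSt.op.preimage hcg'
  have hmem : g⁻¹ * y ∈ (fun z : Y => g * z) ⁻¹' (q (max n₁ n₂)).1.2.2 := by
    rw [mem_preimage, mul_inv_cancel_left]
    exact hy
  obtain ⟨_, hw1, ⟨t, ht, rfl⟩⟩ := mem_closure_iff.1 h3 _ ho hmem
  have hw2 : g * μ t ∈ A := hδA (hm1 ht)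
  have h4 : g * μ t ∈ closure (μ '' (q (max n₁ n₂)).1.2.1) :=
    zacc_subset _ _ (hSt.z2 _ hw1)
  obtain ⟨_, hv1, ⟨t', ht', rfl⟩⟩ := mem_closure_iff.1 h4 A hA hw2
  exact (disjoint_left.1 hdisj hv1) (hδA' (hm2 ht'))

end Pool.Agent.H75B
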