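import Pool.Agent.H75B.Alg
import Pool.Agent.H75B.Zig
import Pool.Agent.H75B.Polish
import Pool.Agent.H75B.Root

set_option autoImplicit false

open scoped ContDiff commutatorElement
open Set Filter Topology

namespace Pool.Agent.H75B

open Pool.Agent.H45F Pool.Agent.H75S Pool.Agent.H75T

theorem all_good (hG : commutator DiffC = ⊤) (c : DiffC) : Good c := by
  obtain ⟨c₀, R₀, -, ⟨x, ρ, hρ, hcx⟩, hroot⟩ := exists_root
  have h1 : c₀ ∈ goodSub := good_of_roots hroot
  have h2 := normal_eq_top hG goodSub_normal h1 hρ hcx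
  have h3 : c ∈ goodSub := by rw [h2]; trivial
  exact h3

section variation

variable {ι : Type*} {l : Filter ι}

theorem neg_single (hG : ∀ c : DiffC, Good c) {a b : DiffC} {s t : ι → DiffC} (hs : Sm l s)
    (ht : Sm l t) : Neg l (fun i => ⁅s i * a, t i * b⁆ * ⁅a, b⁆⁻¹) := by
  have h1 : Neg l (fun i => s i * ⁅a, t i⁆ * (s i)⁻¹) := ((hG a).sm ht).conjSm hs
  have h2 : Neg l (fun i => ⁅⁅a, b⁆, s i * t i⁆⁻¹) := ((hG ⁅a, b⁆).sm (hs.mul ht)).inv
  have h3 : Neg l (fun i => ⁅a, b⁆ * ⁅s i, t i⁆ * ⁅a, b⁆⁻¹) := (Neg.comm hs ht).conj _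
  have h4 : Neg l (fun i => ⁅a, b⁆ * (t i * ⁅b, s i⁆⁻¹ * (t i)⁻¹) * ⁅a, b⁆⁻¹) :=
    ((((hG b).sm hs).inv).conjSm ht).conj _
  refine (((h1.mul h2).mul h3).mul h4).congr fun i => ?_
  simp only [commutatorElement_def]
  group

theorem neg_list (hG : ∀ c : DiffC, Good c) {κ : Type*} (a b : κ → DiffC) (A B : ι → κ → DiffC)
    (hA : ∀ j, Sm l (fun i => A i j * (a j)⁻¹)) (hB : ∀ j, Sm l (fun i => B i j * (b j)⁻¹))
    (L : List κ) : Neg l (fun i => (L.map fun j => ⁅A i j, B i j⁆).prod *
      ((L.map fun j => ⁅a j, b j⁆).prod)⁻¹) := by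
  induction L with
  | nil =>
    refine (Neg.one (l := l)).congr fun i => ?_
    simp
  | cons j L ih =>
    have h1 := neg_single hG (a := a j) (b := b j) (hA j) (hB j)
    have h2 := ih.conj ⁅a j, b j⁆
    refine (h1.mul h2).congr fun i => ?_
    simp only [List.map_cons, List.prod_cons, inv_mul_cancel_right]
    group

end variation

/-- pairs of diffeomorphisms supported in the disc of radius `n`, with product of the commutators
supported in the disc of radius `R` -/
def XX (R : ℝ) (k n : ℕ) : Type :=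
  {x : Fin k × Bool → discSub (n : ℝ) //
    wd (fun i => (x (i, false) : DiffC)) (fun i => (x (i, true) : DiffC)) ∈ discSub R}

noncomputable instance (R : ℝ) (k n : ℕ) : TopologicalSpace (XX R k n) :=
  inferInstanceAs (TopologicalSpace {x : Fin k × Bool → discSub (n : ℝ) //
    wd (fun i => (x (i, false) : DiffC)) (fun i => (x (i, true) : DiffC)) ∈ discSub R})

theorem continuous_wd {X : Type*} [TopologicalSpace X] {k : ℕ} {f g : X → Fin k → DiffC}
    (hf : ∀ i, Continuous fun x => f x i) (hg : ∀ i, Continuous fun x => g x i) :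
    Continuous fun x => wd (f x) (g x) := by
  unfold wd
  have : ∀ L : List (Fin k), Continuous fun x => (L.map fun i => ⁅f x i, g x i⁆).prod := by
    intro L
    induction L with
    | nil => simpa using continuous_const
    | cons i L ih =>
      simp only [List.map_cons, List.prod_cons, commutatorElement_def] at ih ⊢
      exact ((((hf i).mul (hg i)).mul (hf i).inv).mul (hg i).inv).mul ih
  exact this _

theorem polish_XX (R : ℝ) (k n : ℕ) : PolishSpace (XX R k n) := by
  have := polish_discSub (n : ℝ)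
  have h1 : PolishSpace (Fin k × Bool → discSub (n : ℝ)) := inferInstance
  have h2 : IsClosed {x : Fin k × Bool → discSub (n : ℝ) |
      wd (fun i => (x (i, false) : DiffC)) (fun i => (x (i, true) : DiffC)) ∈ discSub R} := by
    refine (isClosed_discSub R).preimage ?_
    exact continuous_wd (fun i => continuous_subtype_val.comp (continuous_apply _))
      (fun i => continuous_subtype_val.comp (continuous_apply _))
  exact h2.isClosedEmbedding_subtypeVal.polishSpace

/-- the product of the commutators -/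
def mu (R : ℝ) (k n : ℕ) (x : XX R k n) : discSub R := ⟨_, x.2⟩

theorem continuous_mu (R : ℝ) (k n : ℕ) : Continuous (mu R k n) := by
  refine Continuous.subtype_mk ?_ _
  exact continuous_wd
    (fun i => continuous_subtype_val.comp ((continuous_apply _).comp continuous_subtype_val))
    (fun i => continuous_subtype_val.comp ((continuous_apply _).comp continuous_subtype_val))

theorem exists_fat (hG : commutator DiffC = ⊤) (R : ℝ) :
    ∃ k n : ℕ, ¬ IsMeagre (range (mu R k n)) := by
  by_contra hcon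
  push Not at hcon
  have := polish_discSub R
  have h1 : IsMeagre (⋃ k : ℕ, ⋃ n : ℕ, range (mu R k n)) :=
    isMeagre_iUnion fun k => isMeagre_iUnion fun n => hcon k n
  have h2 : (⋃ k : ℕ, ⋃ n : ℕ, range (mu R k n)) = univ := by
    rw [eq_univ_iff_forall]
    intro g
    obtain ⟨L, hL⟩ := exists_list_of_commutator_top hG (g : DiffC)
    obtain ⟨R', hR⟩ := exists_radius_list (L.map (fun q => q.1) ++ L.map (fun q => q.2))
    obtain ⟨n, hn⟩ := exists_nat_ge R'
    have hR1 : ∀ q ∈ L, q.1 ∈ discSub (n : ℝ) := fun q hq =>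
      discSub_mono hn (hR _ (List.mem_append_left _ (List.mem_map_of_mem hq)))
    have hR2 : ∀ q ∈ L, q.2 ∈ discSub (n : ℝ) := fun q hq =>
      discSub_mono hn (hR _ (List.mem_append_right _ (List.mem_map_of_mem hq)))
    have hx : wd (fun i : Fin L.length => (L.get i).1) (fun i => (L.get i).2) = (g : DiffC) := by
      rw [wd_get]
      exact hL.symm
    refine mem_iUnion.mpr ⟨L.length, mem_iUnion.mpr ⟨n, ?_⟩⟩
    let x : Fin L.length × Bool → discSub (n : ℝ) := fun q =>
      if q.2 then ⟨(L.get q.1).2, hR2 _ (List.get_mem L q.1)⟩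
      else ⟨(L.get q.1).1, hR1 _ (List.get_mem L q.1)⟩
    have hx' : wd (fun i => (x (i, false) : DiffC)) (fun i => (x (i, true) : DiffC)) =
        (g : DiffC) := by
      rw [← hx]; rfl
    refine ⟨⟨x, by rw [hx']; exact g.2⟩, Subtype.ext ?_⟩
    exact hx'
  rw [h2] at h1
  have h3 : (univ : Set (discSub R)).Nonempty := ⟨1, trivial⟩
  exact not_isMeagre_of_isOpen isOpen_univ h3 h1

theorem zigzag_polish {X Y : Type*} [TopologicalSpace X] [PolishSpace X]
    [Group Y] [TopologicalSpace Y] [IsTopologicalGroup Y] [T2Space Y] [SecondCountableTopology Y]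
    {μ : X → Y} (hμ : Continuous μ) (h : ¬ IsMeagre (range μ)) :
    ∃ x₀ : X, ∀ N ∈ 𝓝 x₀, ∃ U ∈ 𝓝 (1 : Y), ∀ g ∈ U, ∃ x ∈ N, ∃ x' ∈ N, g * μ x = μ x' := by
  let := TopologicalSpace.upgradeIsCompletelyMetrizable X
  exact zigzag hμ h

theorem mu_coe (R : ℝ) (k n : ℕ) (x : XX R k n) : (mu R k n x : DiffC) =
    ((List.finRange k).map fun i => ⁅(x.1 (i, false) : DiffC), (x.1 (i, true) : DiffC)⁆).prod := rfl

/-- **Local perfectness** from perfectness. -/
theorem locally_perfect (hG : commutator DiffC = ⊤) (R : ℝ) :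
    ∃ (k : ℕ) (R' : ℝ), ∀ V ∈ NF R', ∀ᶠ g in NF R, g ∈ Q k V := by
  obtain ⟨k, n, hfat⟩ := exists_fat hG R
  have := polish_XX R k n
  have := polish_discSub R
  obtain ⟨x₀, hx₀⟩ := zigzag_polish (continuous_mu R k n) hfat
  have hgood := all_good hG
  have hsm : ∀ q : Fin k × Bool, Sm (𝓝 x₀)
      (fun x : XX R k n => (x.1 q : DiffC) * (x₀.1 q : DiffC)⁻¹) := by
    intro q
    refine ⟨n, tendsto_NF.mpr ⟨?_, Eventually.of_forall fun x => ?_⟩⟩
    · have h1 : Continuous fun x : XX R k n => (x.1 q : DiffC) :=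
        continuous_subtype_val.comp ((continuous_apply _).comp continuous_subtype_val)
      have h2 := (h1.tendsto x₀).mul_const (x₀.1 q : DiffC)⁻¹
      rwa [mul_inv_cancel] at h2
    · exact (discSub _).mul_mem (x.1 q).2 ((discSub _).inv_mem (x₀.1 q).2)
  have hneg : Neg (𝓝 x₀) (fun x : XX R k n => (mu R k n x : DiffC) * (mu R k n x₀ : DiffC)⁻¹) := by
    have h := neg_list (l := 𝓝 x₀) hgood (fun i : Fin k => (x₀.1 (i, false) : DiffC))
      (fun i => (x₀.1 (i, true) : DiffC))
      (fun (x : XX R k n) (i : Fin k) => (x.1 (i, false) : DiffC))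
      (fun (x : XX R k n) (i : Fin k) => (x.1 (i, true) : DiffC))
      (fun i => hsm (i, false)) (fun i => hsm (i, true)) (List.finRange k)
    refine h.congr fun x => ?_
    rw [mu_coe, mu_coe]
  obtain ⟨m, R', hm⟩ := hneg
  refine ⟨m + m, R', fun V hV => ?_⟩
  obtain ⟨U, hU, hUg⟩ := hx₀ _ (hm V hV)
  have h1 : ∀ᶠ g : discSub R in 𝓝 1, (g : DiffC) ∈ Q (m + m) V := by
    filter_upwards [hU] with g hg
    obtain ⟨x, hx, x', hx', e⟩ := hUg g hg
    have e' : (g : DiffC) * (mu R k n x : DiffC) = (mu R k n x' : DiffC) :=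
      congrArg Subtype.val e
    have e2 : (g : DiffC) = ((mu R k n x' : DiffC) * (mu R k n x₀ : DiffC)⁻¹) *
        ((mu R k n x : DiffC) * (mu R k n x₀ : DiffC)⁻¹)⁻¹ := by
      rw [← e']; group
    rw [e2]
    exact Q_mul hx' (Q_inv hx)
  rw [NF, nhdsWithin_eq_map_subtype_coe (discSub R).one_mem]
  exact h1

end Pool.Agent.H75B
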