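import Pool.Agent.H75B.Defs

set_option autoImplicit false

open scoped ContDiff
open Set Filter Topology

namespace Pool.Agent.H75B

open Pool.Agent.H45F Pool.Agent.H75S

namespace Nh

theorem pdir_sub {f g : ℂ → ℂ} (hf : ContDiff ℝ ∞ f) (hg : ContDiff ℝ ∞ g) (b : Bool) :
    pdir b (fun z => f z - g z) = fun z => pdir b f z - pdir b g z := by
  funext z
  have h1 : DifferentiableAt ℝ f z := (hf.differentiable (by simp)) z
  have h2 : DifferentiableAt ℝ g z := (hg.differentiable (by simp)) z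
  simp only [pdir]
  rw [fderiv_fun_sub h1 h2]
  rfl

theorem pd_sub {f g : ℂ → ℂ} (hf : ContDiff ℝ ∞ f) (hg : ContDiff ℝ ∞ g) (w : List Bool) :
    pd w (fun z => f z - g z) = fun z => pd w f z - pd w g z := by
  induction w generalizing f g with
  | nil => rfl
  | cons b w ih =>
    simp only [pd]
    rw [pdir_sub hf hg]
    exact ih (pdir_smooth hf b) (pdir_smooth hg b)

/-- the derivative in terms of the partial derivatives -/
theorem fderiv_eq (f : ℂ → ℂ) : fderiv ℝ f =
    (ContinuousLinearMap.smulRightL ℝ ℂ ℂ Complex.reCLM ∘ pdir false f) +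
      (ContinuousLinearMap.smulRightL ℝ ℂ ℂ Complex.imCLM ∘ pdir true f) := by
  funext z
  apply ContinuousLinearMap.ext
  intro v
  have h1 : v = v.re • (1 : ℂ) + v.im • Complex.I := by
    apply Complex.ext <;> simp
  have h2 : fderiv ℝ f z v = v.re • fderiv ℝ f z 1 + v.im • fderiv ℝ f z Complex.I := by
    conv_lhs => rw [h1]
    rw [map_add, map_smul, map_smul]
  rw [h2]
  simp [pdir]

theorem norm_iter_succ {f : ℂ → ℂ} (hf : ContDiff ℝ ∞ f) (j : ℕ) (z : ℂ) :
    ‖iteratedFDeriv ℝ (j + 1) f z‖ ≤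
      ‖iteratedFDeriv ℝ j (pdir false f) z‖ + ‖iteratedFDeriv ℝ j (pdir true f) z‖ := by
  have h0 := pdir_smooth hf false
  have h1 := pdir_smooth hf true
  have hj : ((j : ℕ) : WithTop ℕ∞) ≤ ∞ := by exact_mod_cast le_top
  have hL0 : ‖ContinuousLinearMap.smulRightL ℝ ℂ ℂ Complex.reCLM‖ = 1 := by
    rw [ContinuousLinearMap.norm_smulRightL, Complex.reCLM_norm]
  have hL1 : ‖ContinuousLinearMap.smulRightL ℝ ℂ ℂ Complex.imCLM‖ = 1 := by
    rw [ContinuousLinearMap.norm_smulRightL, Complex.imCLM_norm]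
  rw [← norm_iteratedFDeriv_fderiv, fderiv_eq]
  have c0 : ContDiff ℝ j (ContinuousLinearMap.smulRightL ℝ ℂ ℂ Complex.reCLM ∘ pdir false f) :=
    (ContinuousLinearMap.contDiff _).comp (h0.of_le hj)
  have c1 : ContDiff ℝ j (ContinuousLinearMap.smulRightL ℝ ℂ ℂ Complex.imCLM ∘ pdir true f) :=
    (ContinuousLinearMap.contDiff _).comp (h1.of_le hj)
  rw [iteratedFDeriv_add_apply c0.contDiffAt c1.contDiffAt]
  refine (norm_add_le _ _).trans (add_le_add ?_ ?_)
  · have h2 := (ContinuousLinearMap.smulRightL ℝ ℂ ℂ Complex.reCLM).norm_iteratedFDeriv_comp_left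
      (h0.of_le hj).contDiffAt (x := z) (n := j) le_rfl
    rw [hL0, one_mul] at h2
    exact h2
  · have h2 := (ContinuousLinearMap.smulRightL ℝ ℂ ℂ Complex.imCLM).norm_iteratedFDeriv_comp_left
      (h1.of_le hj).contDiffAt (x := z) (n := j) le_rfl
    rw [hL1, one_mul] at h2
    exact h2

/-- bound of the iterated derivative by the partial derivatives -/
theorem iter_le_pd (j : ℕ) : ∀ {f : ℂ → ℂ}, ContDiff ℝ ∞ f → ∀ (z : ℂ) (η : ℝ),
    (∀ w : List Bool, w.length = j → ‖pd w f z‖ ≤ η) → ‖iteratedFDeriv ℝ j f z‖ ≤ 2 ^ j * η := by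
  induction j with
  | zero =>
    intro f _ z η h
    rw [norm_iteratedFDeriv_zero, pow_zero, one_mul]
    exact h [] rfl
  | succ j ih =>
    intro f hf z η h
    have h0 := ih (pdir_smooth hf false) z η fun w hw => h (false :: w) (by simp [hw])
    have h1 := ih (pdir_smooth hf true) z η fun w hw => h (true :: w) (by simp [hw])
    have h2 := norm_iter_succ hf j z
    rw [pow_succ]
    linarith

/-- bound of the partial derivatives by the iterated derivative -/
theorem pd_le_iter (w : List Bool) : ∀ {f : ℂ → ℂ}, ContDiff ℝ ∞ f → ∀ z : ℂ,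
    ‖pd w f z‖ ≤ ‖iteratedFDeriv ℝ w.length f z‖ := by
  induction w with
  | nil =>
    intro f _ z
    rw [List.length_nil, norm_iteratedFDeriv_zero]
    rfl
  | cons b w ih =>
    intro f hf z
    have h1 := ih (pdir_smooth hf b) z
    refine h1.trans ?_
    rw [List.length_cons, ← norm_iteratedFDeriv_fderiv]
    have e : pdir b f = ContinuousLinearMap.apply ℝ ℂ (if b then Complex.I else 1) ∘
        fderiv ℝ f := rfl
    have hj : ((w.length : ℕ) : WithTop ℕ∞) ≤ ∞ := by exact_mod_cast le_top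
    have h2 : ContDiff ℝ w.length (fderiv ℝ f) :=
      (hf.fderiv_right (m := ∞) (by simp)).of_le hj
    have h3 := (ContinuousLinearMap.apply ℝ ℂ
      (if b then Complex.I else 1 : ℂ)).norm_iteratedFDeriv_comp_left
      h2.contDiffAt (x := z) (n := w.length) le_rfl
    rw [e]
    refine h3.trans ?_
    have h4 : ‖ContinuousLinearMap.apply ℝ ℂ (if b then Complex.I else 1 : ℂ)‖ ≤ 1 := by
      apply ContinuousLinearMap.opNorm_le_bound _ zero_le_one
      intro L
      have h5 : ‖(if b then Complex.I else 1 : ℂ)‖ = 1 := by cases b <;> simp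
      have h6 := L.le_opNorm (if b then Complex.I else 1 : ℂ)
      rw [h5, mul_one] at h6
      rw [one_mul]
      exact h6
    calc _ ≤ 1 * ‖iteratedFDeriv ℝ w.length (fderiv ℝ f) z‖ :=
          mul_le_mul_of_nonneg_right h4 (norm_nonneg _)
      _ = _ := one_mul _

theorem emb_true (g : DiffC) (w : List Bool) (z : ℂ) :
    emb g (w, true) z = pd w (fun z => (g : Equiv.Perm ℂ) z) z := rfl

theorem emb_false (g : DiffC) (w : List Bool) (z : ℂ) :
    emb g (w, false) z = pd w (fun z => ((g⁻¹ : DiffC) : Equiv.Perm ℂ) z) z := rfl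

theorem emb_one (w : List Bool) (b : Bool) (z : ℂ) : emb 1 (w, b) z = pd w (fun z => z) z := by
  cases b
  · rw [emb_false, inv_one]
    rfl
  · rfl

/-- the distance of a small diffeomorphism from the identity -/
theorem small_dist {R : ℝ} {r : ℕ} {ε : ℝ} {g : DiffC} (hg : Small R r ε g) (w : List Bool)
    (hw : w.length ≤ r) (z : ℂ) :
    ‖pd w (fun z => (g : Equiv.Perm ℂ) z) z - pd w (fun z => z) z‖ ≤ ε := by
  have h1 := pd_sub (f := fun z => (g : Equiv.Perm ℂ) z) (g := fun z => z) g.2.1 contDiff_id w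
  have h2 := congrFun h1 z
  rw [← h2]
  refine (pd_le_iter w (g.2.1.sub contDiff_id) z).trans ?_
  exact hg.2 w.length hw z

end Nh

open Nh

theorem small_mem (R : ℝ) (r : ℕ) {ε : ℝ} (hε : 0 < ε) :
    {g : DiffC | Small R r ε g} ∈ 𝓝[(discSub R : Set DiffC)] 1 := by
  obtain ⟨η, hη⟩ : ∃ η, η = ε / 2 ^ r := ⟨_, rfl⟩
  have hη0 : 0 < η := by rw [hη]; positivity
  have hfin : {w : List Bool | w.length ≤ r}.Finite := List.finite_length_le Bool r
  have h1 : ∀ᶠ g : DiffC in 𝓝 1, ∀ w ∈ {w : List Bool | w.length ≤ r},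
      ∀ z ∈ Metric.closedBall (0 : ℂ) R,
        ‖pd w (fun z => (g : Equiv.Perm ℂ) z) z - pd w (fun z => z) z‖ < η := by
    rw [hfin.eventually_all]
    intro w _
    have h2 : Tendsto (fun g : DiffC => emb g (w, true)) (𝓝 1) (𝓝 (emb 1 (w, true))) :=
      ((continuous_apply (w, true)).comp isInducing_emb.continuous).continuousAt
    rw [ContinuousMap.tendsto_iff_forall_isCompact_tendstoUniformlyOn] at h2
    have h3 := h2 (Metric.closedBall (0 : ℂ) R) (isCompact_closedBall 0 R)
    rw [Metric.tendstoUniformlyOn_iff] at h3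
    filter_upwards [h3 η hη0] with g hg z hz
    have h4 := hg z hz
    rw [dist_comm, dist_eq_norm, emb_true, emb_one] at h4
    exact h4
  rw [mem_nhdsWithin_iff_eventually]
  filter_upwards [h1] with g hg hgR
  refine ⟨hgR, ?_⟩
  intro j hj z
  have hsm : ContDiff ℝ ∞ (fun w => (g : Equiv.Perm ℂ) w - w) := g.2.1.sub contDiff_id
  by_cases hz : z ∈ Metric.closedBall (0 : ℂ) R
  · have h2 : ‖iteratedFDeriv ℝ j (fun w => (g : Equiv.Perm ℂ) w - w) z‖ ≤ 2 ^ j * η := by
      apply iter_le_pd j hsm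
      intro w hw
      have h3 := hg w (show w.length ≤ r by rw [hw]; exact hj) z hz
      have h4 := congrFun (pd_sub (f := fun z => (g : Equiv.Perm ℂ) z) (g := fun z => z)
        g.2.1 contDiff_id w) z
      rw [h4]
      exact h3.le
    refine h2.trans ?_
    have h3 : (2 : ℝ) ^ j ≤ 2 ^ r := pow_le_pow_right₀ (by norm_num) hj
    calc (2 : ℝ) ^ j * η ≤ 2 ^ r * η := mul_le_mul_of_nonneg_right h3 hη0.le
      _ = ε := by rw [hη]; field_simp
  · have h2 : tsupport (fun w => (g : Equiv.Perm ℂ) w - w) ⊆ Metric.closedBall (0 : ℂ) R := by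
      apply closure_minimal _ Metric.isClosed_closedBall
      intro w hw
      rw [Function.mem_support] at hw
      rw [mem_closedBall_zero_iff]
      by_contra hcon
      push Not at hcon
      exact hw (by rw [hgR w hcon.le, sub_self])
    have h3 : z ∉ Function.support (iteratedFDeriv ℝ j (fun w => (g : Equiv.Perm ℂ) w - w)) :=
      fun h => hz (h2 (support_iteratedFDeriv_subset j h))
    rw [Function.notMem_support] at h3
    rw [h3, norm_zero]
    exact hε.le

theorem exists_small_subset (R : ℝ) {V : Set DiffC} (hV : V ∈ 𝓝[(discSub R : Set DiffC)] 1) :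
    ∃ (r : ℕ) (ε : ℝ), 0 < ε ∧ ∀ g : DiffC, Small R r ε g → Small R r ε (g⁻¹ : DiffC) → g ∈ V := by
  by_contra hcon
  have h1 : ∀ n : ℕ, ∃ g : DiffC, Small R n (1 / ((n : ℝ) + 1)) g ∧
      Small R n (1 / ((n : ℝ) + 1)) (g⁻¹ : DiffC) ∧ g ∉ V := by
    intro n
    by_contra hc
    apply hcon
    refine ⟨n, 1 / ((n : ℝ) + 1), by positivity, fun g h1 h2 => ?_⟩
    by_contra h3
    exact hc ⟨g, h1, h2, h3⟩
  choose g hg hg' hgV using h1
  have h2 : Tendsto g atTop (𝓝 1) := by
    rw [isInducing_emb.tendsto_nhds_iff, tendsto_pi_nhds]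
    rintro ⟨w, b⟩
    rw [ContinuousMap.tendsto_iff_tendstoLocallyUniformly]
    apply TendstoUniformly.tendstoLocallyUniformly
    rw [Metric.tendstoUniformly_iff]
    intro ε hε
    obtain ⟨N, hN⟩ := exists_nat_one_div_lt hε
    filter_upwards [eventually_ge_atTop (max N w.length)] with n hn z
    have hn1 : N ≤ n := le_trans (le_max_left _ _) hn
    have hn2 : w.length ≤ n := le_trans (le_max_right _ _) hn
    have h3 : 1 / ((n : ℝ) + 1) < ε := by
      refine lt_of_le_of_lt ?_ hN
      apply one_div_le_one_div_of_le (by positivity)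
      have : (N : ℝ) ≤ n := by exact_mod_cast hn1
      linarith
    rw [dist_comm, dist_eq_norm]
    refine lt_of_le_of_lt ?_ h3
    cases b
    · have h4 := small_dist (hg' n) w hn2 z
      rw [emb_one]
      exact h4
    · have h4 := small_dist (hg n) w hn2 z
      rw [emb_one]
      exact h4
  have h3 : Tendsto g atTop (𝓝[(discSub R : Set DiffC)] 1) := by
    rw [tendsto_nhdsWithin_iff]
    exact ⟨h2, Eventually.of_forall fun n => (hg n).1⟩
  obtain ⟨n, hn⟩ := (h3.eventually hV).exists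
  exact hgV n hn

end Pool.Agent.H75B
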