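import Pool.Agent.H75B.Lam
import Pool.Agent.H75B.Nhds

set_option autoImplicit false

open scoped ContDiff
open Set Filter Topology

namespace Pool.Agent.H75B

open Pool.Agent.H45F Pool.Agent.H75S

namespace Bn

theorem nat_le (n : ℕ) : ((n : ℕ) : WithTop ℕ∞) ≤ ∞ := by exact_mod_cast le_top

theorem nat_lt (n : ℕ) : ((n : ℕ) : WithTop ℕ∞) < ∞ := by exact_mod_cast (ENat.natCast_lt_top n)

/-- a function with bounded derivative is Lipschitz -/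
theorem lip_of {E : Type*} [NormedAddCommGroup E] [NormedSpace ℝ E] {f : ℂ → E} (hf : Differentiable ℝ f)
    {C : ℝ} (h : ∀ z, ‖fderiv ℝ f z‖ ≤ C) (z w : ℂ) : ‖f z - f w‖ ≤ C * ‖z - w‖ :=
  convex_univ.norm_image_sub_le_of_norm_fderiv_le (𝕜 := ℝ) (fun x _ => hf x) (fun x _ => h x)
    (mem_univ w) (mem_univ z)

theorem sm_fderiv {E : Type*} [NormedAddCommGroup E] [NormedSpace ℝ E] {f : ℂ → E} (hf : ContDiff ℝ ∞ f) :
    ContDiff ℝ ∞ (fderiv ℝ f) := hf.fderiv_right (m := ∞) (by simp)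

theorem sm_diff {E : Type*} [NormedAddCommGroup E] [NormedSpace ℝ E] {f : ℂ → E} (hf : ContDiff ℝ ∞ f) :
    Differentiable ℝ f := hf.differentiable (by simp)

/-- bounds of the difference quotient -/
theorem core {G H : ℂ → ℂ} (hG : ContDiff ℝ ∞ G) (hH : ContDiff ℝ ∞ H) (hGH : ∀ z, G (H z) = z)
    (hHG : ∀ z, H (G z) = z) {C : ℝ} (hC : 1 ≤ C) (hG2 : ∀ z, ‖fderiv ℝ (fderiv ℝ G) z‖ ≤ C)
    (hG3 : ∀ z, ‖iteratedFDeriv ℝ 3 G z‖ ≤ C) (hH1 : ∀ z, ‖fderiv ℝ H z‖ ≤ C)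
    (hH2 : ∀ z, ‖fderiv ℝ (fderiv ℝ H) z‖ ≤ C) {h : ℝ} (hh : 0 < h) {D : ℂ → ℂ}
    (hD : ∀ z, D z = (G (H z + (h : ℂ)) - z) / (h : ℂ)) :
    (∀ z, 1 ≤ C * ‖D z‖) ∧ (∀ z, ‖fderiv ℝ D z‖ ≤ C * C) ∧
      ∀ z w, ‖fderiv ℝ D z - fderiv ℝ D w‖ ≤ (C * C * C + C * C) * ‖z - w‖ := by
  have hC0 : 0 ≤ C := by linarith
  have hc : (h : ℂ) ≠ 0 := Complex.ofReal_ne_zero.2 hh.ne'
  have hnh : ‖(h : ℂ)‖ = h := by rw [Complex.norm_real, Real.norm_eq_abs, abs_of_pos hh]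
  -- the difference of the derivatives
  set F : ℂ → ℂ →L[ℝ] ℂ := fun y => fderiv ℝ G (y + (h : ℂ)) - fderiv ℝ G y with hF
  have hFn : ∀ y, ‖F y‖ ≤ C * h := by
    intro y
    have h1 := lip_of (sm_diff (sm_fderiv hG)) hG2 (y + (h : ℂ)) y
    rwa [add_sub_cancel_left, hnh] at h1
  have hFd : ∀ y, HasFDerivAt F (fderiv ℝ (fderiv ℝ G) (y + (h : ℂ)) - fderiv ℝ (fderiv ℝ G) y) y := by
    intro y
    have h1 : HasFDerivAt (fun y : ℂ => fderiv ℝ G (y + (h : ℂ))) (fderiv ℝ (fderiv ℝ G) (y + (h : ℂ))) y := by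
      have h2 := (sm_diff (sm_fderiv hG) (y + (h : ℂ))).hasFDerivAt.comp y ((hasFDerivAt_id y).add_const (h : ℂ))
      exact h2
    exact h1.sub (sm_diff (sm_fderiv hG) y).hasFDerivAt
  have hFl : ∀ y y', ‖F y - F y'‖ ≤ C * h * ‖y - y'‖ := by
    apply lip_of (fun y => (hFd y).differentiableAt)
    intro y
    have hGt : ContDiff ℝ ∞ (fun y : ℂ => G (y + (h : ℂ))) := hG.comp (contDiff_id.add contDiff_const)
    have h1 : F = fderiv ℝ (fun y : ℂ => G (y + (h : ℂ)) - G y) := by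
      funext y
      have h2 : HasFDerivAt (fun y : ℂ => G (y + (h : ℂ))) (fderiv ℝ G (y + (h : ℂ))) y := by
        have h2 := (sm_diff hG (y + (h : ℂ))).hasFDerivAt.comp y ((hasFDerivAt_id y).add_const (h : ℂ))
        exact h2
      exact (h2.sub (sm_diff hG y).hasFDerivAt).fderiv.symm
    have h2 : ‖fderiv ℝ F y‖ = ‖iteratedFDeriv ℝ 2 (fun y : ℂ => G (y + (h : ℂ)) - G y) y‖ := by
      rw [← norm_iteratedFDeriv_fderiv, ← norm_iteratedFDeriv_fderiv, norm_iteratedFDeriv_zero, ← h1]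
    have h3 : iteratedFDeriv ℝ 2 (fun y : ℂ => G (y + (h : ℂ)) - G y) y =
        iteratedFDeriv ℝ 2 G (y + (h : ℂ)) - iteratedFDeriv ℝ 2 G y := by
      have h4 := iteratedFDeriv_sub_apply (𝕜 := ℝ) (i := 2) (x := y)
        (f := fun y : ℂ => G (y + (h : ℂ))) (g := G)
        (hGt.contDiffAt.of_le (nat_le 2)) (hG.contDiffAt.of_le (nat_le 2))
      have h5 : iteratedFDeriv ℝ 2 (fun y : ℂ => G (y + (h : ℂ))) y = iteratedFDeriv ℝ 2 G (y + (h : ℂ)) :=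
        iteratedFDeriv_comp_add_right 2 (h : ℂ) y
      rw [← h5]
      exact h4
    rw [h2, h3]
    have hd : Differentiable ℝ (iteratedFDeriv ℝ 2 G) :=
      hG.differentiable_iteratedFDeriv (nat_lt 2)
    have h6 := lip_of hd (C := C) (fun z => by
      rw [norm_fderiv_iteratedFDeriv]
      exact hG3 z) (y + (h : ℂ)) y
    rwa [add_sub_cancel_left, hnh] at h6
  -- the derivative of `D`
  have hDd : ∀ z, HasFDerivAt D ((h⁻¹ • F (H z)).comp (fderiv ℝ H z)) z := by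
    intro z
    have h1 : HasFDerivAt (fun y : ℂ => h⁻¹ • (G (y + (h : ℂ)) - G y)) (h⁻¹ • F (H z)) (H z) := by
      have h2 : HasFDerivAt (fun y : ℂ => G (y + (h : ℂ))) (fderiv ℝ G (H z + (h : ℂ))) (H z) := by
        have h2 := (sm_diff hG (H z + (h : ℂ))).hasFDerivAt.comp (H z) ((hasFDerivAt_id (H z)).add_const (h : ℂ))
        exact h2
      exact (h2.sub (sm_diff hG (H z)).hasFDerivAt).const_smul h⁻¹
    have h3 := h1.comp z (sm_diff hH z).hasFDerivAt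
    refine h3.congr_of_eventuallyEq (Eventually.of_forall fun w => ?_)
    rw [Function.comp_apply, hD, hGH, Complex.real_smul, Complex.ofReal_inv, div_eq_inv_mul]
  have hQn : ∀ y, ‖h⁻¹ • F y‖ ≤ C := by
    intro y
    rw [norm_smul, norm_inv, Real.norm_eq_abs, abs_of_pos hh, inv_mul_le_iff₀ hh, mul_comm h]
    exact hFn y
  have hQl : ∀ y y', ‖h⁻¹ • F y - h⁻¹ • F y'‖ ≤ C * ‖y - y'‖ := by
    intro y y'
    have h1 : h⁻¹ • F y - h⁻¹ • F y' = h⁻¹ • (F y - F y') := (smul_sub _ _ _).symm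
    rw [h1, norm_smul, norm_inv, Real.norm_eq_abs, abs_of_pos hh, inv_mul_le_iff₀ hh]
    calc _ ≤ _ := hFl y y'
      _ = _ := by ring
  have hHl : ∀ z w, ‖H z - H w‖ ≤ C * ‖z - w‖ := lip_of (sm_diff hH) hH1
  refine ⟨?_, ?_, ?_⟩
  · intro z
    have h1 := hHl (G (H z + (h : ℂ))) z
    rw [hHG, add_sub_cancel_left, hnh] at h1
    have h2 : ‖D z‖ = ‖G (H z + (h : ℂ)) - z‖ / h := by rw [hD, norm_div, hnh]
    rw [h2, ← mul_div_assoc, le_div_iff₀ hh, one_mul]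
    exact h1
  · intro z
    rw [(hDd z).fderiv]
    exact (ContinuousLinearMap.opNorm_comp_le _ _).trans
      (mul_le_mul (hQn _) (hH1 z) (norm_nonneg _) hC0)
  · intro z w
    rw [(hDd z).fderiv, (hDd w).fderiv]
    have h1 : (h⁻¹ • F (H z)).comp (fderiv ℝ H z) - (h⁻¹ • F (H w)).comp (fderiv ℝ H w) =
        (h⁻¹ • F (H z) - h⁻¹ • F (H w)).comp (fderiv ℝ H z) +
          (h⁻¹ • F (H w)).comp (fderiv ℝ H z - fderiv ℝ H w) := by
      rw [ContinuousLinearMap.sub_comp, ContinuousLinearMap.comp_sub]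
      abel
    rw [h1]
    have h2 : ‖(h⁻¹ • F (H z) - h⁻¹ • F (H w)).comp (fderiv ℝ H z)‖ ≤ (C * (C * ‖z - w‖)) * C :=
      (ContinuousLinearMap.opNorm_comp_le _ _).trans (mul_le_mul
        ((hQl _ _).trans (mul_le_mul_of_nonneg_left (hHl z w) hC0)) (hH1 z) (norm_nonneg _)
        (by positivity))
    have h3 : ‖(h⁻¹ • F (H w)).comp (fderiv ℝ H z - fderiv ℝ H w)‖ ≤ C * (C * ‖z - w‖) :=
      (ContinuousLinearMap.opNorm_comp_le _ _).trans (mul_le_mul (hQn _)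
        (lip_of (sm_diff (sm_fderiv hH)) hH2 z w) (norm_nonneg _) hC0)
    refine (norm_add_le _ _).trans ((add_le_add h2 h3).trans (le_of_eq ?_))
    ring

/-- bounds of the logarithm -/
theorem core_log {D Λ : ℂ → ℂ} (hD : ContDiff ℝ ∞ D) (hΛ : ContDiff ℝ ∞ Λ)
    (he : ∀ z, Complex.exp (Λ z) = D z) {C A A' : ℝ} (hC : 0 ≤ C) (hA : 0 ≤ A)
    (h1 : ∀ z, 1 ≤ C * ‖D z‖) (h2 : ∀ z, ‖fderiv ℝ D z‖ ≤ A)
    (h3 : ∀ z w, ‖fderiv ℝ D z - fderiv ℝ D w‖ ≤ A' * ‖z - w‖) :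
    (∀ z, ‖fderiv ℝ Λ z‖ ≤ C * A) ∧
      ∀ z w, ‖fderiv ℝ Λ z - fderiv ℝ Λ w‖ ≤ (C * A' + C * C * A * A) * ‖z - w‖ := by
  have hne : ∀ z, D z ≠ 0 := fun z => by rw [← he z]; exact Complex.exp_ne_zero _
  have hinv : ∀ z, ‖(D z)⁻¹‖ ≤ C := by
    intro z
    have h4 : 0 < ‖D z‖ := norm_pos_iff.2 (hne z)
    rw [norm_inv, inv_le_iff_one_le_mul₀ h4]
    exact h1 z
  have hd : ∀ z, fderiv ℝ Λ z = (D z)⁻¹ • fderiv ℝ D z := by
    intro z
    have h4 : HasFDerivAt (fun z => Complex.exp (Λ z)) (Complex.exp (Λ z) • fderiv ℝ Λ z) z :=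
      (sm_diff hΛ z).hasFDerivAt.cexp
    have h5 : (fun z => Complex.exp (Λ z)) = D := funext he
    rw [h5, he] at h4
    rw [h4.fderiv, smul_smul, inv_mul_cancel₀ (hne z), one_smul]
  have hDl : ∀ z w, ‖D z - D w‖ ≤ A * ‖z - w‖ := lip_of (sm_diff hD) h2
  refine ⟨?_, ?_⟩
  · intro z
    rw [hd, norm_smul]
    exact mul_le_mul (hinv z) (h2 z) (norm_nonneg _) hC
  · intro z w
    have h4 : fderiv ℝ Λ z - fderiv ℝ Λ w = (D z)⁻¹ • (fderiv ℝ D z - fderiv ℝ D w) +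
        ((D z)⁻¹ - (D w)⁻¹) • fderiv ℝ D w := by
      rw [hd, hd, smul_sub, sub_smul]
      abel
    have h5 : ‖(D z)⁻¹ - (D w)⁻¹‖ ≤ C * C * (A * ‖z - w‖) := by
      have h6 : (D z)⁻¹ - (D w)⁻¹ = (D z)⁻¹ * (D w)⁻¹ * (D w - D z) := by
        have := hne z
        have := hne w
        field_simp
      rw [h6, norm_mul, norm_mul, norm_sub_rev]
      exact mul_le_mul (mul_le_mul (hinv z) (hinv w) (norm_nonneg _) hC) (hDl z w) (norm_nonneg _)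
        (by positivity)
    rw [h4]
    refine (norm_add_le _ _).trans ?_
    rw [norm_smul, norm_smul]
    have h6 : ‖(D z)⁻¹‖ * ‖fderiv ℝ D z - fderiv ℝ D w‖ ≤ C * (A' * ‖z - w‖) :=
      mul_le_mul (hinv z) (h3 z w) (norm_nonneg _) hC
    have h7 : ‖(D z)⁻¹ - (D w)⁻¹‖ * ‖fderiv ℝ D w‖ ≤ C * C * (A * ‖z - w‖) * A :=
      mul_le_mul h5 (h2 w) (norm_nonneg _) (by positivity)
    refine (add_le_add h6 h7).trans (le_of_eq ?_)
    ring

/-- outside of the disc the derivatives are those of the identity -/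
theorem far_iter {R : ℝ} {f : ℂ → ℂ} (hf : ∀ z : ℂ, R ≤ ‖z‖ → f z = z) (k : ℕ) {z : ℂ} (hz : R < ‖z‖) :
    ‖iteratedFDeriv ℝ (k + 1) f z‖ ≤ 1 := by
  have h1 : f =ᶠ[𝓝 z] fun z => z := by
    have h2 : ∀ᶠ w in 𝓝 z, R < ‖w‖ := continuous_norm.continuousAt.eventually_const_lt hz
    filter_upwards [h2] with w hw
    exact hf w hw.le
  have h3 : fderiv ℝ f =ᶠ[𝓝 z] fun _ => ContinuousLinearMap.id ℝ ℂ := by
    refine h1.fderiv.trans (Eventually.of_forall fun w => ?_)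
    exact (hasFDerivAt_id w).fderiv
  rw [← norm_iteratedFDeriv_fderiv, (h3.iteratedFDeriv ℝ k).eq_of_nhds]
  rcases Nat.eq_zero_or_pos k with rfl | hk
  · rw [norm_iteratedFDeriv_zero]
    exact ContinuousLinearMap.norm_id_le
  · rw [iteratedFDeriv_const_of_ne (by omega)]
    simp

/-- uniform bounds of the derivatives -/
theorem unif {𝒦 : Set DiffC} (hK : IsCompact 𝒦) {R : ℝ} (hR : 𝒦 ⊆ discSub R) (k : ℕ) (b : Bool) :
    ∃ C : ℝ, ∀ g ∈ 𝒦, ∀ z, ‖iteratedFDeriv ℝ (k + 1)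
      (((if b then g else g⁻¹ : DiffC) : Equiv.Perm ℂ) : ℂ → ℂ) z‖ ≤ C := by
  have h1 : ∀ w : List Bool, ∃ C : ℝ, ∀ g ∈ 𝒦, ∀ z ∈ Metric.closedBall (0 : ℂ) R, ‖emb g (w, b) z‖ ≤ C := by
    intro w
    have h2 : IsCompact (𝒦 ×ˢ Metric.closedBall (0 : ℂ) R) := hK.prod (isCompact_closedBall 0 R)
    have h3 : Continuous fun p : DiffC × ℂ => emb p.1 (w, b) p.2 := by
      have h4 : Continuous fun p : DiffC × ℂ => emb p.1 (w, b) :=
        ((continuous_apply (w, b)).comp isInducing_emb.continuous).comp continuous_fst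
      exact h4.eval continuous_snd
    obtain ⟨C, hC⟩ := h2.exists_bound_of_continuousOn h3.continuousOn
    exact ⟨C, fun g hg z hz => hC (g, z) ⟨hg, hz⟩⟩
  choose Cw hCw using h1
  have hfin : {w : List Bool | w.length = k + 1}.Finite := List.finite_length_eq Bool (k + 1)
  refine ⟨max 1 (2 ^ (k + 1) * ∑ w ∈ hfin.toFinset, |Cw w|), fun g hg z => ?_⟩
  rcases le_or_gt ‖z‖ R with hz | hz
  · refine le_trans ?_ (le_max_right _ _)
    refine Nh.iter_le_pd (k + 1) (if b then g else g⁻¹ : DiffC).2.1 z _ fun w hw => ?_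
    have h2 := hCw w g hg z (by rw [Metric.mem_closedBall, dist_zero_right]; exact hz)
    refine h2.trans ((le_abs_self _).trans ?_)
    exact Finset.single_le_sum (f := fun w => |Cw w|) (fun _ _ => abs_nonneg _)
      (by rw [Set.Finite.mem_toFinset]; exact hw)
  · refine le_trans ?_ (le_max_left _ _)
    refine far_iter (R := R) (fun w hw => ?_) k hz
    have h2 : (if b then g else g⁻¹ : DiffC) ∈ discSub R := by
      cases b
      · exact (discSub R).inv_mem (hR hg)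
      · exact hR hg
    exact h2 w hw

end Bn

open Bn

theorem exists_bound {𝒦 : Set DiffC} (hK : IsCompact 𝒦) {R : ℝ} (hR : 𝒦 ⊆ discSub R) :
    ∃ B : ℝ, 0 ≤ B ∧ ∀ h : ℝ, 0 < h → h ≤ 1 → ∀ g ∈ 𝒦, Bd (R + 1) B (Lam R h g) := by
  obtain ⟨c1, hc1⟩ := unif hK hR 0 false
  obtain ⟨c2, hc2⟩ := unif hK hR 1 false
  obtain ⟨c3, hc3⟩ := unif hK hR 1 true
  obtain ⟨c4, hc4⟩ := unif hK hR 2 true
  set C : ℝ := 1 + |c1| + |c2| + |c3| + |c4| with hC
  have p1 := abs_nonneg c1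
  have p2 := abs_nonneg c2
  have p3 := abs_nonneg c3
  have p4 := abs_nonneg c4
  have q1 := le_abs_self c1
  have q2 := le_abs_self c2
  have q3 := le_abs_self c3
  have q4 := le_abs_self c4
  have hC1 : 1 ≤ C := by rw [hC]; linarith
  have hC0 : 0 ≤ C := by linarith
  set A : ℝ := C * C with hA
  set A' : ℝ := C * C * C + C * C with hA'
  have hA0 : 0 ≤ A := by positivity
  have hA'0 : 0 ≤ A' := by positivity
  set B1 : ℝ := C * A with hB1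
  set B2 : ℝ := C * A' + C * C * A * A with hB2
  have hB10 : 0 ≤ B1 := by positivity
  have hB20 : 0 ≤ B2 := by positivity
  refine ⟨B1 + B2 + B1 * (2 * |R| + 4), by positivity, ?_⟩
  intro h hh hh1 g hg
  obtain ⟨s, e, z0⟩ := Lam_spec (hR hg) hh hh1
  have hGH : ∀ z, (g : Equiv.Perm ℂ) (((g⁻¹ : DiffC) : Equiv.Perm ℂ) z) = z := fun z =>
    Equiv.apply_symm_apply (g : Equiv.Perm ℂ) z
  have hHG : ∀ z, ((g⁻¹ : DiffC) : Equiv.Perm ℂ) ((g : Equiv.Perm ℂ) z) = z := fun z =>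
    Equiv.symm_apply_apply (g : Equiv.Perm ℂ) z
  have hG : ContDiff ℝ ∞ ((g : Equiv.Perm ℂ) : ℂ → ℂ) := g.2.1
  have hH : ContDiff ℝ ∞ (((g⁻¹ : DiffC) : Equiv.Perm ℂ) : ℂ → ℂ) := (g⁻¹ : DiffC).2.1
  have n1 : ∀ (f : ℂ → ℂ) (z : ℂ), ‖iteratedFDeriv ℝ 1 f z‖ = ‖fderiv ℝ f z‖ := by
    intro f z
    rw [← norm_iteratedFDeriv_fderiv, norm_iteratedFDeriv_zero]
  have n2 : ∀ (f : ℂ → ℂ) (z : ℂ), ‖iteratedFDeriv ℝ 2 f z‖ = ‖fderiv ℝ (fderiv ℝ f) z‖ := by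
    intro f z
    rw [← norm_iteratedFDeriv_fderiv, ← norm_iteratedFDeriv_fderiv, norm_iteratedFDeriv_zero]
  have b1 : ∀ z, ‖fderiv ℝ (((g⁻¹ : DiffC) : Equiv.Perm ℂ) : ℂ → ℂ) z‖ ≤ C := by
    intro z
    have := hc1 g hg z
    rw [zero_add, n1] at this
    exact this.trans (by rw [hC]; linarith)
  have b2 : ∀ z, ‖fderiv ℝ (fderiv ℝ (((g⁻¹ : DiffC) : Equiv.Perm ℂ) : ℂ → ℂ)) z‖ ≤ C := by
    intro z
    have := hc2 g hg z
    rw [n2] at this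
    exact this.trans (by rw [hC]; linarith)
  have b3 : ∀ z, ‖fderiv ℝ (fderiv ℝ ((g : Equiv.Perm ℂ) : ℂ → ℂ)) z‖ ≤ C := by
    intro z
    have := hc3 g hg z
    rw [n2] at this
    exact this.trans (by rw [hC]; linarith)
  have b4 : ∀ z, ‖iteratedFDeriv ℝ 3 ((g : Equiv.Perm ℂ) : ℂ → ℂ) z‖ ≤ C := by
    intro z
    exact (hc4 g hg z).trans (by rw [hC]; linarith)
  obtain ⟨d1, d2, d3⟩ := core hG hH hGH hHG hC1 b3 b4 b1 b2 hh (D := Dh h g) (fun _ => rfl)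
  obtain ⟨l1, l2⟩ := core_log (Dh_smooth hh.ne' g) s e hC0 hA0 d1 d2 d3
  have hl : ∀ z w, ‖Lam R h g z - Lam R h g w‖ ≤ B1 * ‖z - w‖ := lip_of (sm_diff s) l1
  have hR0 := abs_nonneg R
  have hR1 := le_abs_self R
  refine ⟨s, z0, ?_, ?_, ?_⟩
  · intro z
    rcases le_or_gt (R + 1) ‖z‖ with hz | hz
    · rw [z0 z hz, norm_zero]
      positivity
    · have h1 := hl z ((|R| + 2 : ℝ) : ℂ)
      have h2 : ‖((|R| + 2 : ℝ) : ℂ)‖ = |R| + 2 := by
        rw [Complex.norm_real, Real.norm_eq_abs, abs_of_nonneg (by linarith)]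
      rw [z0 ((|R| + 2 : ℝ) : ℂ) (by rw [h2]; linarith), sub_zero] at h1
      have h3 : ‖z - ((|R| + 2 : ℝ) : ℂ)‖ ≤ 2 * |R| + 4 := by
        refine (norm_sub_le _ _).trans ?_
        rw [h2]
        linarith
      have h4 : B1 * ‖z - ((|R| + 2 : ℝ) : ℂ)‖ ≤ B1 * (2 * |R| + 4) := mul_le_mul_of_nonneg_left h3 hB10
      linarith
  · intro z w
    refine (hl z w).trans (mul_le_mul_of_nonneg_right ?_ (norm_nonneg _))
    have : 0 ≤ B1 * (2 * |R| + 4) := by positivity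
    linarith
  · intro z w
    refine (l2 z w).trans (mul_le_mul_of_nonneg_right ?_ (norm_nonneg _))
    have : 0 ≤ B1 * (2 * |R| + 4) := by positivity
    linarith

end Pool.Agent.H75B
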