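import Pool.Agent.H75B.Defs

set_option autoImplicit false

open scoped ContDiff
open Set Filter Topology

namespace Pool.Agent.H75B

open Pool.Agent.H45F Pool.Agent.H75S

namespace Mo

/-- the derivative in a direction is invertible -/
noncomputable def Eqv (L : ℂ →L[ℝ] ℝ) (v : ℂ) (h : -1 < L v) : ℂ ≃L[ℝ] ℂ :=
  ContinuousLinearEquiv.equivOfInverse (ContinuousLinearMap.id ℝ ℂ + L.smulRight v)
    (ContinuousLinearMap.id ℝ ℂ - ((1 + L v)⁻¹ • L).smulRight v)
    (by
      intro w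
      have h1 : 1 + L v ≠ 0 := by linarith
      have h2 : L w - (1 + L v)⁻¹ * L w - (1 + L v)⁻¹ * L w * L v = 0 := by
        field_simp
        ring
      show (w + L w • v) - ((1 + L v)⁻¹ * L (w + L w • v)) • v = w
      rw [map_add, map_smul, smul_eq_mul]
      calc (w + L w • v) - ((1 + L v)⁻¹ * (L w + L w * L v)) • v =
            w + (L w - (1 + L v)⁻¹ * L w - (1 + L v)⁻¹ * L w * L v) • v := by module
        _ = w := by rw [h2, zero_smul, add_zero])
    (by
      intro w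
      have h1 : 1 + L v ≠ 0 := by linarith
      have h2 : L w - (1 + L v)⁻¹ * L w - (1 + L v)⁻¹ * L w * L v = 0 := by
        field_simp
        ring
      show (w - ((1 + L v)⁻¹ * L w) • v) + L (w - ((1 + L v)⁻¹ * L w) • v) • v = w
      rw [map_sub, map_smul, smul_eq_mul]
      calc (w - ((1 + L v)⁻¹ * L w) • v) + (L w - (1 + L v)⁻¹ * L w * L v) • v =
            w + (L w - (1 + L v)⁻¹ * L w - (1 + L v)⁻¹ * L w * L v) • v := by module
        _ = w := by rw [h2, zero_smul, add_zero])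

theorem Eqv_coe (L : ℂ →L[ℝ] ℝ) (v : ℂ) (h : -1 < L v) :
    ((Eqv L v h : ℂ ≃L[ℝ] ℂ) : ℂ →L[ℝ] ℂ) = ContinuousLinearMap.id ℝ ℂ + L.smulRight v := rfl

theorem exists_dir (v : ℂ) (u : ℂ → ℝ) (hu : ContDiff ℝ ∞ u) (R : ℝ)
    (hR : ∀ z, R ≤ ‖z‖ → u z = 0) (h : ∀ z, -1 < fderiv ℝ u z v) :
    ∃ f : DiffC, ∀ z, (f : Equiv.Perm ℂ) z = z + u z • v := by
  obtain ⟨F, hF⟩ : ∃ F : ℂ → ℂ, F = fun z => z + u z • v := ⟨_, rfl⟩
  have hFz : ∀ z, F z = z + u z • v := fun z => by rw [hF]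
  have hFs : ContDiff ℝ ∞ F := by
    rw [hF]
    exact contDiff_id.add (hu.smul contDiff_const)
  have hdiff : ∀ z, HasFDerivAt F ((Eqv (fderiv ℝ u z) v (h z) : ℂ ≃L[ℝ] ℂ) : ℂ →L[ℝ] ℂ) z := by
    intro z
    rw [Eqv_coe, hF]
    exact (hasFDerivAt_id z).add (((hu.differentiable (by simp)) z).hasFDerivAt.smul_const v)
  -- the function on a line
  have hline : ∀ w : ℂ, ∀ s : ℝ, HasDerivAt (fun s : ℝ => s + u (w + s • v))
      (1 + fderiv ℝ u (w + s • v) v) s := by
    intro w s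
    have h1 : HasDerivAt (fun s : ℝ => w + s • v) v s := by
      have h2 := ((hasDerivAt_id s).smul_const v).const_add w
      simpa using h2
    have h2 := ((hu.differentiable (by simp)) (w + s • v)).hasFDerivAt.comp_hasDerivAt s h1
    exact (hasDerivAt_id s).add h2
  have hmono : ∀ w : ℂ, StrictMono (fun s : ℝ => s + u (w + s • v)) := by
    intro w
    apply strictMono_of_hasDerivAt_pos (hline w)
    intro s
    have := h (w + s • v)
    linarith
  obtain ⟨C, hC⟩ : ∃ C, ∀ z, |u z| ≤ C := by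
    obtain ⟨C, hC⟩ := (isCompact_closedBall (0 : ℂ) R).exists_bound_of_continuousOn
      hu.continuous.continuousOn
    refine ⟨max C 0, fun z => ?_⟩
    by_cases hz : ‖z‖ ≤ R
    · exact (hC z (by simpa using hz)).trans (le_max_left _ _)
    · rw [hR z (not_le.1 hz).le, abs_zero]
      exact le_max_right _ _
  have hinj : Function.Injective F := by
    intro z w hzw
    rw [hFz, hFz] at hzw
    have h1 : z = w + (u w - u z) • v := by
      rw [sub_smul]
      linear_combination hzw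
    obtain ⟨t, ht⟩ : ∃ t, t = u w - u z := ⟨_, rfl⟩
    rw [← ht] at h1
    have h2 : t + u (w + t • v) = 0 + u (w + (0 : ℝ) • v) := by
      rw [← h1, zero_smul, add_zero, zero_add, ht]
      ring
    have h3 := (hmono w).injective h2
    rw [h1, h3, zero_smul, add_zero]
  have hsurj : Function.Surjective F := by
    intro y
    have hcont : Continuous (fun s : ℝ => s + u (y + s • v)) :=
      continuous_iff_continuousAt.2 fun s => (hline y s).continuousAt
    have h1 : (0 : ℝ) ∈ Icc ((-C) + u (y + (-C) • v)) (C + u (y + C • v)) := by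
      constructor
      · have := (abs_le.1 (hC (y + (-C) • v))).2
        linarith
      · have := (abs_le.1 (hC (y + C • v))).1
        linarith
    have hC0 : -C ≤ C := by
      have := (abs_nonneg _).trans (hC 0)
      linarith
    obtain ⟨s, -, hs⟩ := intermediate_value_Icc hC0 hcont.continuousOn h1
    refine ⟨y + s • v, ?_⟩
    have hs' : s + u (y + s • v) = 0 := hs
    rw [hFz, add_assoc, ← add_smul, hs', zero_smul, add_zero]
  have hopen : IsOpenMap F := by
    apply isOpenMap_of_hasStrictFDerivAt_equiv (f' := fun z => Eqv (fderiv ℝ u z) v (h z))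
    intro z
    exact hFs.contDiffAt.hasStrictFDerivAt' (hdiff z) (by simp)
  let e : ℂ ≃ ℂ := Equiv.ofBijective F ⟨hinj, hsurj⟩
  let H : ℂ ≃ₜ ℂ := e.toHomeomorphOfContinuousOpen hFs.continuous hopen
  have hsymm : ContDiff ℝ ∞ (H.symm : ℂ → ℂ) := by
    refine Homeomorph.contDiff_symm H (f₀' := fun z => Eqv (fderiv ℝ u z) v (h z)) ?_ ?_
    · exact hdiff
    · exact hFs
  refine ⟨⟨e, hFs, hsymm, R, fun z hz => ?_⟩, fun z => hFz z⟩
  show F z = z
  rw [hFz, hR z hz, zero_smul, add_zero]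

end Mo

open Mo

theorem exists_diffC_re (u : ℂ → ℝ) (hu : ContDiff ℝ ∞ u) (R : ℝ) (hR : ∀ z, R ≤ ‖z‖ → u z = 0)
    (h : ∀ z, -1 < fderiv ℝ u z 1) :
    ∃ f : DiffC, ∀ z, (f : Equiv.Perm ℂ) z = z + (u z : ℂ) := by
  obtain ⟨f, hf⟩ := exists_dir 1 u hu R hR h
  refine ⟨f, fun z => ?_⟩
  rw [hf, Complex.real_smul, mul_one]

theorem exists_diffC_im (u : ℂ → ℝ) (hu : ContDiff ℝ ∞ u) (R : ℝ) (hR : ∀ z, R ≤ ‖z‖ → u z = 0)
    (h : ∀ z, -1 < fderiv ℝ u z Complex.I) :
    ∃ f : DiffC, ∀ z, (f : Equiv.Perm ℂ) z = z + (u z : ℂ) * Complex.I := by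
  obtain ⟨f, hf⟩ := exists_dir Complex.I u hu R hR h
  refine ⟨f, fun z => ?_⟩
  rw [hf, Complex.real_smul]

end Pool.Agent.H75B
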