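import Pool.Agent.H75B.One
import Pool.Agent.H75B.Mono

set_option autoImplicit false

open scoped ContDiff
open Set Filter Topology

namespace Pool.Agent.H75B

open Pool.Agent.H45F Pool.Agent.H75S

/-- diffeomorphisms supported in the disc of radius `R` with horizontal derivative near `1` -/
def Hor (R : ℝ) : Set DiffC :=
  {S | S ∈ discSub R ∧ ∀ z : ℂ, ‖fderiv ℝ ((S : Equiv.Perm ℂ) : ℂ → ℂ) z 1 - 1‖ ≤ 1 / 2}

namespace Fa

theorem dext {f g : DiffC} (h : ∀ z, (f : Equiv.Perm ℂ) z = (g : Equiv.Perm ℂ) z) : f = g :=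
  Subtype.ext (Equiv.ext h)

theorem pdir_const (b : Bool) (c : ℂ) : pdir b (fun _ => c) = fun _ => 0 := by
  funext z
  unfold pdir
  simp

theorem CT_scalar {ι : Type*} {l : Filter ι} {c : ι → ℂ} {c₀ : ℂ} (h : Tendsto c l (𝓝 c₀))
    (n : ℕ) : CT l n (fun i _ => c i) (fun _ => c₀) := by
  have hb : TendstoLocallyUniformly (fun i (_ : ℂ) => c i) (fun _ => c₀) l := by
    intro u hu x
    refine ⟨univ, univ_mem, ?_⟩
    have h1 := (tendsto_const_nhds (x := c₀)).prodMk_nhds h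
    have h2 : Tendsto (fun i => (c₀, c i)) l (uniformity ℂ) := by
      refine Filter.Tendsto.mono_right h1 ?_
      exact nhds_le_uniformity c₀
    filter_upwards [h2 hu] with i hi
    intro y _
    exact hi
  cases n with
  | zero => exact CT.zero hb
  | succ n =>
    refine CT.succ hb fun b => ?_
    rw [pdir_const]
    have e : (fun i : ι => pdir b (fun _ : ℂ => c i)) = fun _ => fun _ => 0 :=
      funext fun i => pdir_const b (c i)
    rw [e]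
    exact On.CT.const n

/-- the vertical diffeomorphisms supported in the disc of radius `R` -/
def Ver (R : ℝ) : Set DiffC :=
  {a | a ∈ discSub R ∧ ∀ z : ℂ, ((a : Equiv.Perm ℂ) z).re = z.re}

theorem exists_b {R : ℝ} {S : DiffC} (hS : S ∈ Hor R) {s : ℝ} (hs : s ∈ Icc (0 : ℝ) 1) :
    ∃ f : DiffC, ∀ z, (f : Equiv.Perm ℂ) z =
      z + ((s * (((S : Equiv.Perm ℂ) z).re - z.re) : ℝ) : ℂ) := by
  have hsm : ContDiff ℝ ∞ ((S : Equiv.Perm ℂ) : ℂ → ℂ) := S.2.1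
  refine exists_diffC_re (fun z => s * (((S : Equiv.Perm ℂ) z).re - z.re)) ?_ R ?_ ?_
  · exact contDiff_const.mul ((Complex.reCLM.contDiff.comp hsm).sub Complex.reCLM.contDiff)
  · intro z hz
    rw [hS.1 z hz, sub_self, mul_zero]
  · intro z
    have h1 : HasFDerivAt ((S : Equiv.Perm ℂ) : ℂ → ℂ)
        (fderiv ℝ ((S : Equiv.Perm ℂ) : ℂ → ℂ) z) z :=
      (hsm.differentiable (by simp) z).hasFDerivAt
    have h2 : HasFDerivAt (fun z => s * (((S : Equiv.Perm ℂ) z).re - z.re))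
        (s • (Complex.reCLM.comp (fderiv ℝ ((S : Equiv.Perm ℂ) : ℂ → ℂ) z) - Complex.reCLM)) z :=
      ((Complex.reCLM.hasFDerivAt.comp z h1).sub Complex.reCLM.hasFDerivAt).const_mul s
    rw [h2.fderiv]
    have h3 := hS.2 z
    have h4 := (Complex.abs_re_le_norm _).trans h3
    rw [Complex.sub_re, Complex.one_re, abs_le] at h4
    have h5 : (s • (Complex.reCLM.comp (fderiv ℝ ((S : Equiv.Perm ℂ) : ℂ → ℂ) z) -
        Complex.reCLM)) 1 = s * ((fderiv ℝ ((S : Equiv.Perm ℂ) : ℂ → ℂ) z 1).re - 1) := by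
      simp
    rw [h5]
    nlinarith [hs.1, hs.2, h4.1]

theorem exists_a {R : ℝ} {a : DiffC} (ha : a ∈ Ver R) {s : ℝ} (hs : s ∈ Icc (0 : ℝ) 1) :
    ∃ f : DiffC, ∀ z, (f : Equiv.Perm ℂ) z =
      z + ((s * (((a : Equiv.Perm ℂ) z).im - z.im) : ℝ) : ℂ) * Complex.I := by
  have hsm : ContDiff ℝ ∞ ((a : Equiv.Perm ℂ) : ℂ → ℂ) := a.2.1
  have hsm' : ContDiff ℝ ∞ (((a⁻¹ : DiffC) : Equiv.Perm ℂ) : ℂ → ℂ) := (a⁻¹).2.1
  have hder : ∀ z, HasFDerivAt ((a : Equiv.Perm ℂ) : ℂ → ℂ)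
      (fderiv ℝ ((a : Equiv.Perm ℂ) : ℂ → ℂ) z) z :=
    fun z => (hsm.differentiable (by simp) z).hasFDerivAt
  -- the real part of the derivative
  have hre : ∀ z w, (fderiv ℝ ((a : Equiv.Perm ℂ) : ℂ → ℂ) z w).re = w.re := by
    intro z w
    have h1 := Complex.reCLM.hasFDerivAt.comp z (hder z)
    have h2 : (Complex.reCLM : ℂ → ℝ) ∘ ((a : Equiv.Perm ℂ) : ℂ → ℂ) = Complex.reCLM := by
      funext y
      exact ha.2 y
    rw [h2] at h1
    have h3 := h1.unique Complex.reCLM.hasFDerivAt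
    exact congrArg (fun L : ℂ →L[ℝ] ℝ => L w) h3
  have hne : ∀ z, (fderiv ℝ ((a : Equiv.Perm ℂ) : ℂ → ℂ) z Complex.I).im ≠ 0 := by
    intro z h0
    have h1 : fderiv ℝ ((a : Equiv.Perm ℂ) : ℂ → ℂ) z Complex.I = 0 := by
      apply Complex.ext
      · rw [hre z, Complex.I_re, Complex.zero_re]
      · rw [h0, Complex.zero_im]
    have h2 : HasFDerivAt (((a⁻¹ : DiffC) : Equiv.Perm ℂ) : ℂ → ℂ)
        (fderiv ℝ (((a⁻¹ : DiffC) : Equiv.Perm ℂ) : ℂ → ℂ) ((a : Equiv.Perm ℂ) z))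
        ((a : Equiv.Perm ℂ) z) := (hsm'.differentiable (by simp) _).hasFDerivAt
    have h3 := h2.comp z (hder z)
    have h4 : (((a⁻¹ : DiffC) : Equiv.Perm ℂ) : ℂ → ℂ) ∘ ((a : Equiv.Perm ℂ) : ℂ → ℂ) = id := by
      funext y
      show ((a⁻¹ * a : DiffC) : Equiv.Perm ℂ) y = y
      rw [inv_mul_cancel]
      rfl
    rw [h4] at h3
    have h5 := h3.unique (hasFDerivAt_id z)
    have h6 := congrArg (fun L : ℂ →L[ℝ] ℂ => L Complex.I) h5
    simp only [ContinuousLinearMap.comp_apply, ContinuousLinearMap.id_apply, h1, map_zero] at h6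
    exact Complex.I_ne_zero h6.symm
  have hcont : Continuous (fun z => (fderiv ℝ ((a : Equiv.Perm ℂ) : ℂ → ℂ) z Complex.I).im) :=
    Complex.continuous_im.comp ((hsm.continuous_fderiv (by simp)).clm_apply continuous_const)
  have hfar : (fderiv ℝ ((a : Equiv.Perm ℂ) : ℂ → ℂ) ((|R| + 1 : ℝ) : ℂ) Complex.I).im = 1 := by
    have h1 : ((a : Equiv.Perm ℂ) : ℂ → ℂ) =ᶠ[𝓝 ((|R| + 1 : ℝ) : ℂ)] id := by
      have h2 : {z : ℂ | |R| < ‖z‖} ∈ 𝓝 ((|R| + 1 : ℝ) : ℂ) := by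
        refine (isOpen_lt continuous_const continuous_norm).mem_nhds ?_
        show |R| < ‖((|R| + 1 : ℝ) : ℂ)‖
        rw [Complex.norm_real, Real.norm_of_nonneg (by positivity)]
        linarith
      filter_upwards [h2] with z hz
      exact ha.1 z (le_trans (le_abs_self R) (le_of_lt hz))
    rw [h1.fderiv_eq, fderiv_id]
    simp
  have hpos : ∀ z, 0 < (fderiv ℝ ((a : Equiv.Perm ℂ) : ℂ → ℂ) z Complex.I).im := by
    intro z
    by_contra hcon
    push Not at hcon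
    have h1 := isPreconnected_univ.intermediate_value (mem_univ z)
      (mem_univ ((|R| + 1 : ℝ) : ℂ)) hcont.continuousOn
    have h2 := h1 (show (0 : ℝ) ∈ Icc _ _ from ⟨hcon, by rw [hfar]; exact zero_le_one⟩)
    obtain ⟨y, -, hy⟩ := h2
    exact hne y hy
  refine exists_diffC_im (fun z => s * (((a : Equiv.Perm ℂ) z).im - z.im)) ?_ R ?_ ?_
  · exact contDiff_const.mul ((Complex.imCLM.contDiff.comp hsm).sub Complex.imCLM.contDiff)
  · intro z hz
    rw [ha.1 z hz, sub_self, mul_zero]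
  · intro z
    have h2 : HasFDerivAt (fun z => s * (((a : Equiv.Perm ℂ) z).im - z.im))
        (s • (Complex.imCLM.comp (fderiv ℝ ((a : Equiv.Perm ℂ) : ℂ → ℂ) z) - Complex.imCLM)) z :=
      ((Complex.imCLM.hasFDerivAt.comp z (hder z)).sub Complex.imCLM.hasFDerivAt).const_mul s
    rw [h2.fderiv]
    have h5 : (s • (Complex.imCLM.comp (fderiv ℝ ((a : Equiv.Perm ℂ) : ℂ → ℂ) z) -
        Complex.imCLM)) Complex.I =
        s * ((fderiv ℝ ((a : Equiv.Perm ℂ) : ℂ → ℂ) z Complex.I).im - 1) := by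
      simp
    rw [h5]
    have h6 := hpos z
    rcases eq_or_lt_of_le hs.1 with h7 | h7
    · rw [← h7]; linarith
    · have h8 := mul_pos h7 h6
      nlinarith [hs.2]

open Classical in
/-- the horizontal part -/
noncomputable def bH (S : DiffC) (s : ℝ) : DiffC :=
  if h : ∃ f : DiffC, ∀ z, (f : Equiv.Perm ℂ) z =
      z + ((s * (((S : Equiv.Perm ℂ) z).re - z.re) : ℝ) : ℂ) then h.choose else 1

open Classical in
/-- the vertical part -/
noncomputable def aV (a : DiffC) (s : ℝ) : DiffC :=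
  if h : ∃ f : DiffC, ∀ z, (f : Equiv.Perm ℂ) z =
      z + ((s * (((a : Equiv.Perm ℂ) z).im - z.im) : ℝ) : ℂ) * Complex.I then h.choose else 1

theorem bH_app {R : ℝ} {S : DiffC} (hS : S ∈ Hor R) {s : ℝ} (hs : s ∈ Icc (0 : ℝ) 1) (z : ℂ) :
    (bH S s : Equiv.Perm ℂ) z = z + ((s * (((S : Equiv.Perm ℂ) z).re - z.re) : ℝ) : ℂ) := by
  unfold bH
  rw [dif_pos (exists_b hS hs)]
  exact (exists_b hS hs).choose_spec z

theorem aV_app {R : ℝ} {a : DiffC} (ha : a ∈ Ver R) {s : ℝ} (hs : s ∈ Icc (0 : ℝ) 1) (z : ℂ) :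
    (aV a s : Equiv.Perm ℂ) z =
      z + ((s * (((a : Equiv.Perm ℂ) z).im - z.im) : ℝ) : ℂ) * Complex.I := by
  unfold aV
  rw [dif_pos (exists_a ha hs)]
  exact (exists_a ha hs).choose_spec z

theorem bH_disc {R : ℝ} {S : DiffC} (hS : S ∈ Hor R) {s : ℝ} (hs : s ∈ Icc (0 : ℝ) 1) :
    bH S s ∈ discSub R := by
  intro z hz
  rw [bH_app hS hs, hS.1 z hz, sub_self, mul_zero, Complex.ofReal_zero, add_zero]

theorem aV_disc {R : ℝ} {a : DiffC} (ha : a ∈ Ver R) {s : ℝ} (hs : s ∈ Icc (0 : ℝ) 1) :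
    aV a s ∈ discSub R := by
  intro z hz
  rw [aV_app ha hs, ha.1 z hz, sub_self, mul_zero, Complex.ofReal_zero, zero_mul, add_zero]

theorem one_mem : (1 : ℝ) ∈ Icc (0 : ℝ) 1 := ⟨zero_le_one, le_rfl⟩

theorem zero_mem : (0 : ℝ) ∈ Icc (0 : ℝ) 1 := ⟨le_rfl, zero_le_one⟩

/-- the vertical factor -/
theorem fac_ver {R : ℝ} {S : DiffC} (hS : S ∈ Hor R) : S * (bH S 1)⁻¹ ∈ Ver R := by
  refine ⟨(discSub R).mul_mem hS.1 ((discSub R).inv_mem (bH_disc hS one_mem)), fun w => ?_⟩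
  obtain ⟨z, rfl⟩ : ∃ z, (bH S 1 : Equiv.Perm ℂ) z = w :=
    ⟨(bH S 1 : Equiv.Perm ℂ).symm w, Equiv.apply_symm_apply _ _⟩
  have h1 : ((S * (bH S 1)⁻¹ : DiffC) : Equiv.Perm ℂ) ((bH S 1 : Equiv.Perm ℂ) z) =
      (S : Equiv.Perm ℂ) z := by
    show ((S * (bH S 1)⁻¹ * bH S 1 : DiffC) : Equiv.Perm ℂ) z = _
    rw [inv_mul_cancel_right]
  rw [h1, bH_app hS one_mem, Complex.add_re, Complex.ofReal_re]
  ring

theorem tendsto_bH {ι : Type*} {l : Filter ι} {R : ℝ} {S : ι → DiffC} {S₀ : DiffC} {s : ι → ℝ}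
    {s₀ : ℝ} (hS : ∀ i, S i ∈ Hor R) (hS₀ : S₀ ∈ Hor R) (hs : ∀ i, s i ∈ Icc (0 : ℝ) 1)
    (hs₀ : s₀ ∈ Icc (0 : ℝ) 1) (h1 : Tendsto S l (𝓝 S₀)) (h2 : Tendsto s l (𝓝 s₀)) :
    Tendsto (fun i => bH (S i) (s i)) l (𝓝 (bH S₀ s₀)) := by
  refine tendsto_of_CT (R := R) (Eventually.of_forall fun i => bH_disc (hS i) (hs i))
    (bH_disc hS₀ hs₀) fun n => ?_
  have c1 := (tendsto_iff.1 h1).1 n
  have sm : ∀ g : DiffC, ContDiff ℝ ∞ ((g : Equiv.Perm ℂ) : ℂ → ℂ) := fun g => g.2.1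
  have c2 := CT.re (fun i => sm (S i)) (sm S₀) c1
  have si : ContDiff ℝ ∞ (fun z : ℂ => -(z.re : ℂ)) := (smooth_re contDiff_id).neg
  have c3 := CT.add (G := fun _ z => -(z.re : ℂ)) (g := fun z => -(z.re : ℂ))
    (fun i => smooth_re (sm (S i))) (fun _ => si) (smooth_re (sm S₀)) si c2 (On.CT.const n)
  have c4 : CT l n (fun i (_ : ℂ) => ((s i : ℝ) : ℂ)) (fun _ => (s₀ : ℂ)) :=
    CT_scalar ((Complex.continuous_ofReal.tendsto s₀).comp h2) n
  have c5 := CT.mul (fun i => contDiff_const) (fun i => (smooth_re (sm (S i))).add si)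
    contDiff_const ((smooth_re (sm S₀)).add si) c4 c3
  have c6 := CT.add (F := fun _ z => z) (f := fun z => z) (fun _ => contDiff_id)
    (fun i => contDiff_const.mul ((smooth_re (sm (S i))).add si)) contDiff_id
    (contDiff_const.mul ((smooth_re (sm S₀)).add si)) (On.CT.const n) c5
  have e1 : (fun i => ((bH (S i) (s i) : Equiv.Perm ℂ) : ℂ → ℂ)) = fun i z =>
      z + ((s i : ℝ) : ℂ) * ((((S i : Equiv.Perm ℂ) z).re : ℂ) + -(z.re : ℂ)) := by
    funext i z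
    rw [bH_app (hS i) (hs i)]
    push_cast
    ring
  have e2 : ((bH S₀ s₀ : Equiv.Perm ℂ) : ℂ → ℂ) = fun z =>
      z + (s₀ : ℂ) * ((((S₀ : Equiv.Perm ℂ) z).re : ℂ) + -(z.re : ℂ)) := by
    funext z
    rw [bH_app hS₀ hs₀]
    push_cast
    ring
  rw [e1, e2]
  exact c6

theorem tendsto_aV {ι : Type*} {l : Filter ι} {R : ℝ} {S : ι → DiffC} {S₀ : DiffC} {s : ι → ℝ}
    {s₀ : ℝ} (hS : ∀ i, S i ∈ Ver R) (hS₀ : S₀ ∈ Ver R) (hs : ∀ i, s i ∈ Icc (0 : ℝ) 1)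
    (hs₀ : s₀ ∈ Icc (0 : ℝ) 1) (h1 : Tendsto S l (𝓝 S₀)) (h2 : Tendsto s l (𝓝 s₀)) :
    Tendsto (fun i => aV (S i) (s i)) l (𝓝 (aV S₀ s₀)) := by
  refine tendsto_of_CT (R := R) (Eventually.of_forall fun i => aV_disc (hS i) (hs i))
    (aV_disc hS₀ hs₀) fun n => ?_
  have c1 := (tendsto_iff.1 h1).1 n
  have sm : ∀ g : DiffC, ContDiff ℝ ∞ ((g : Equiv.Perm ℂ) : ℂ → ℂ) := fun g => g.2.1
  have c2 := CT.im (fun i => sm (S i)) (sm S₀) c1
  have si : ContDiff ℝ ∞ (fun z : ℂ => -(z.im : ℂ)) := (smooth_im contDiff_id).neg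
  have c3 := CT.add (G := fun _ z => -(z.im : ℂ)) (g := fun z => -(z.im : ℂ))
    (fun i => smooth_im (sm (S i))) (fun _ => si) (smooth_im (sm S₀)) si c2 (On.CT.const n)
  have c4 : CT l n (fun i (_ : ℂ) => ((s i : ℝ) : ℂ) * Complex.I)
      (fun _ => (s₀ : ℂ) * Complex.I) :=
    CT_scalar (((Complex.continuous_ofReal.tendsto s₀).comp h2).mul_const _) n
  have c5 := CT.mul (fun i => contDiff_const) (fun i => (smooth_im (sm (S i))).add si)
    contDiff_const ((smooth_im (sm S₀)).add si) c4 c3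
  have c6 := CT.add (F := fun _ z => z) (f := fun z => z) (fun _ => contDiff_id)
    (fun i => contDiff_const.mul ((smooth_im (sm (S i))).add si)) contDiff_id
    (contDiff_const.mul ((smooth_im (sm S₀)).add si)) (On.CT.const n) c5
  have e1 : (fun i => ((aV (S i) (s i) : Equiv.Perm ℂ) : ℂ → ℂ)) = fun i z =>
      z + ((s i : ℝ) : ℂ) * Complex.I * ((((S i : Equiv.Perm ℂ) z).im : ℂ) + -(z.im : ℂ)) := by
    funext i z
    rw [aV_app (hS i) (hs i)]
    push_cast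
    ring
  have e2 : ((aV S₀ s₀ : Equiv.Perm ℂ) : ℂ → ℂ) = fun z =>
      z + (s₀ : ℂ) * Complex.I * ((((S₀ : Equiv.Perm ℂ) z).im : ℂ) + -(z.im : ℂ)) := by
    funext z
    rw [aV_app hS₀ hs₀]
    push_cast
    ring
  rw [e1, e2]
  exact c6

theorem one_Hor (R : ℝ) : (1 : DiffC) ∈ Hor R := by
  refine ⟨(discSub R).one_mem, fun z => ?_⟩
  have h : (((1 : DiffC) : Equiv.Perm ℂ) : ℂ → ℂ) = id := rfl
  rw [h, fderiv_id]
  simp

theorem bH_one (R : ℝ) {s : ℝ} (hs : s ∈ Icc (0 : ℝ) 1) : bH 1 s = 1 := by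
  apply dext
  intro z
  rw [bH_app (one_Hor R) hs]
  simp

theorem one_Ver (R : ℝ) : (1 : DiffC) ∈ Ver R := ⟨(discSub R).one_mem, fun _ => rfl⟩

theorem aV_one (R : ℝ) {s : ℝ} (hs : s ∈ Icc (0 : ℝ) 1) : aV 1 s = 1 := by
  apply dext
  intro z
  rw [aV_app (one_Ver R) hs]
  simp

end Fa

open Fa

theorem exists_fac (R : ℝ) : ∃ HS : DiffC → ℝ → DiffC,
    ContinuousOn (fun q : DiffC × ℝ => HS q.1 q.2) (Hor R ×ˢ Icc (0 : ℝ) 1) ∧
    (∀ S ∈ Hor R, HS S 0 = 1 ∧ HS S 1 = S) ∧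
    (∀ S ∈ Hor R, ∀ s ∈ Icc (0 : ℝ) 1, HS S s ∈ discSub R) ∧
    ∀ s ∈ Icc (0 : ℝ) 1, HS 1 s = 1 := by
  refine ⟨fun S s => aV (S * (bH S 1)⁻¹) s * bH S s, ?_, ?_, ?_, ?_⟩
  · rw [continuousOn_iff_continuous_domRestrict, continuous_iff_continuousAt]
    intro p
    have t1 : Tendsto (fun i : (Hor R ×ˢ Icc (0 : ℝ) 1 : Set (DiffC × ℝ)) => i.1.1) (𝓝 p)
        (𝓝 p.1.1) := (continuous_fst.comp continuous_subtype_val).tendsto p
    have t2 : Tendsto (fun i : (Hor R ×ˢ Icc (0 : ℝ) 1 : Set (DiffC × ℝ)) => i.1.2) (𝓝 p)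
        (𝓝 p.1.2) := (continuous_snd.comp continuous_subtype_val).tendsto p
    have hH : ∀ i : (Hor R ×ˢ Icc (0 : ℝ) 1 : Set (DiffC × ℝ)), i.1.1 ∈ Hor R :=
      fun i => i.2.1
    have hI : ∀ i : (Hor R ×ˢ Icc (0 : ℝ) 1 : Set (DiffC × ℝ)), i.1.2 ∈ Icc (0 : ℝ) 1 :=
      fun i => i.2.2
    have b1 := tendsto_bH hH (hH p) hI (hI p) t1 t2
    have b2 := tendsto_bH hH (hH p) (fun _ => one_mem) one_mem t1 (tendsto_const_nhds (x := 1))
    have a1 := t1.mul b2.inv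
    have a2 := tendsto_aV (fun i => fac_ver (hH i)) (fac_ver (hH p)) hI (hI p) a1 t2
    exact a2.mul b1
  · intro S hS
    have hv := fac_ver hS
    constructor
    · have h1 : bH S 0 = 1 := by
        apply dext
        intro z
        rw [bH_app hS zero_mem]
        simp
      have h2 : aV (S * (bH S 1)⁻¹) 0 = 1 := by
        apply dext
        intro z
        rw [aV_app hv zero_mem]
        simp
      show aV (S * (bH S 1)⁻¹) 0 * bH S 0 = 1
      rw [h1, h2, one_mul]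
    · have h2 : aV (S * (bH S 1)⁻¹) 1 = S * (bH S 1)⁻¹ := by
        apply dext
        intro z
        rw [aV_app hv one_mem]
        apply Complex.ext
        · rw [hv.2 z]
          simp
        · simp
      show aV (S * (bH S 1)⁻¹) 1 * bH S 1 = S
      rw [h2, inv_mul_cancel_right]
  · intro S hS s hs
    exact (discSub R).mul_mem (aV_disc (fac_ver hS) hs) (bH_disc hS hs)
  · intro s hs
    show aV (1 * (bH 1 1)⁻¹) s * bH 1 s = 1
    rw [bH_one R one_mem, bH_one R hs]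
    simp only [inv_one, mul_one]
    exact aV_one R hs

end Pool.Agent.H75B
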