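import Pool.Agent.H75B.Orb

set_option autoImplicit false

open scoped ContDiff
open Set Filter Topology

namespace Pool.Agent.H75B

namespace Th

variable {R B h : ℝ} {Λ : ℂ → ℂ} {t : ℕ → ℝ}

theorem norm_fderiv_Bd (hΛ : Bd R B Λ) (hB : 0 ≤ B) (z : ℂ) : ‖fderiv ℝ Λ z‖ ≤ B :=
  norm_fderiv_le_of_lip' ℝ hB (Eventually.of_forall fun w => hΛ.lip w z)

theorem fderiv_out (hΛ : Bd R B Λ) {z : ℂ} (hz : R < ‖z‖) : fderiv ℝ Λ z = 0 := by
  have h1 : Λ =ᶠ[𝓝 z] fun _ => 0 := by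
    have h2 : {w : ℂ | R < ‖w‖} ∈ 𝓝 z := (isOpen_lt continuous_const continuous_norm).mem_nhds hz
    filter_upwards [h2] with w hw
    exact hΛ.zero w (le_of_lt hw)
  rw [h1.fderiv_eq]
  simp

theorem norm_exp_mul (hΛ : Bd R B Λ) (hB : 0 ≤ B) {s : ℝ} (hs : s ∈ Icc (0 : ℝ) 1) (z : ℂ) :
    ‖Complex.exp ((s : ℂ) * Λ z)‖ ≤ Real.exp B := by
  refine (Complex.norm_exp_le_exp_norm _).trans (Real.exp_le_exp.2 ?_)
  rw [norm_mul, Complex.norm_real, Real.norm_of_nonneg hs.1]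
  have h1 := hΛ.bound z
  have h2 := norm_nonneg (Λ z)
  nlinarith [hs.1, hs.2]

/-- Taylor's formula for `exp (s Λ)` -/
theorem taylor (hΛ : Bd R B Λ) (hB : 0 ≤ B) {s : ℝ} (hs : s ∈ Icc (0 : ℝ) 1) (z u : ℂ)
    (hu : B * ‖u‖ ≤ 1) :
    ‖Complex.exp ((s : ℂ) * Λ (z + u)) - Complex.exp ((s : ℂ) * Λ z) -
      Complex.exp ((s : ℂ) * Λ z) * ((s : ℂ) * fderiv ℝ Λ z u)‖ ≤
      Real.exp B * ((B ^ 2 + B) * ‖u‖ ^ 2) := by
  obtain ⟨δ, hδ⟩ : ∃ δ, δ = (s : ℂ) * (Λ (z + u) - Λ z) := ⟨_, rfl⟩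
  have e1 : Complex.exp ((s : ℂ) * Λ (z + u)) = Complex.exp ((s : ℂ) * Λ z) * Complex.exp δ := by
    rw [← Complex.exp_add, hδ]
    congr 1
    ring
  have e2 : Complex.exp ((s : ℂ) * Λ (z + u)) - Complex.exp ((s : ℂ) * Λ z) -
      Complex.exp ((s : ℂ) * Λ z) * ((s : ℂ) * fderiv ℝ Λ z u) =
      Complex.exp ((s : ℂ) * Λ z) * ((Complex.exp δ - 1 - δ) +
        (s : ℂ) * (Λ (z + u) - Λ z - fderiv ℝ Λ z u)) := by
    rw [e1, hδ]
    ring
  have hδn : ‖δ‖ ≤ B * ‖u‖ := by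
    rw [hδ, norm_mul, Complex.norm_real, Real.norm_of_nonneg hs.1]
    have h1 := hΛ.lip (z + u) z
    rw [add_sub_cancel_left] at h1
    have h2 := norm_nonneg (Λ (z + u) - Λ z)
    nlinarith [hs.1, hs.2]
  have h3 : ‖Complex.exp δ - 1 - δ‖ ≤ B ^ 2 * ‖u‖ ^ 2 := by
    refine (Complex.norm_exp_sub_one_sub_id_le (hδn.trans hu)).trans ?_
    calc ‖δ‖ ^ 2 ≤ (B * ‖u‖) ^ 2 := pow_le_pow_left₀ (norm_nonneg _) hδn 2
      _ = B ^ 2 * ‖u‖ ^ 2 := by ring
  have h4 : ‖Λ (z + u) - Λ z - fderiv ℝ Λ z u‖ ≤ B * ‖u‖ ^ 2 := by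
    have h5 := Convex.norm_image_sub_le_of_norm_fderiv_le' (𝕜 := ℝ) (f := Λ)
      (φ := fderiv ℝ Λ z) (C := B * ‖u‖) (s := segment ℝ z (z + u)) (x := z) (y := z + u)
      (fun x _ => hΛ.smooth.differentiable (by simp) x)
      (fun x hx => (hΛ.lip' x z).trans (by
        refine mul_le_mul_of_nonneg_left ?_ hB
        obtain ⟨θ, hθ, rfl⟩ := (segment_eq_image' ℝ z (z + u)) ▸ hx
        rw [add_sub_cancel_left, add_sub_cancel_left, norm_smul, Real.norm_of_nonneg hθ.1]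
        nlinarith [hθ.1, hθ.2, norm_nonneg u]))
      (convex_segment _ _) (left_mem_segment ℝ _ _) (right_mem_segment ℝ _ _)
    rw [add_sub_cancel_left] at h5
    calc _ ≤ B * ‖u‖ * ‖u‖ := h5
      _ = B * ‖u‖ ^ 2 := by ring
  rw [e2, norm_mul]
  refine mul_le_mul (norm_exp_mul hΛ hB hs z) ?_ (norm_nonneg _) (Real.exp_pos _).le
  refine (norm_add_le _ _).trans ?_
  rw [norm_mul, Complex.norm_real, Real.norm_of_nonneg hs.1]
  have h6 := norm_nonneg (Λ (z + u) - Λ z - fderiv ℝ Λ z u)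
  nlinarith [hs.1, hs.2]

/-- change of the parameter -/
theorem param (hΛ : Bd R B Λ) (hB : 0 ≤ B) {s s' : ℝ} (hs : s ∈ Icc (0 : ℝ) 1) (z : ℂ)
    (hss : B * |s' - s| ≤ 1) :
    ‖Complex.exp ((s' : ℂ) * Λ z) - Complex.exp ((s : ℂ) * Λ z)‖ ≤
      Real.exp B * (2 * (B * |s' - s|)) := by
  have e1 : Complex.exp ((s' : ℂ) * Λ z) - Complex.exp ((s : ℂ) * Λ z) =
      Complex.exp ((s : ℂ) * Λ z) * (Complex.exp (((s' - s : ℝ) : ℂ) * Λ z) - 1) := by
    rw [mul_sub, ← Complex.exp_add, mul_one]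
    congr 2
    push_cast
    ring
  have h1 : ‖((s' - s : ℝ) : ℂ) * Λ z‖ ≤ B * |s' - s| := by
    rw [norm_mul, Complex.norm_real, Real.norm_eq_abs]
    nlinarith [abs_nonneg (s' - s), hΛ.bound z, norm_nonneg (Λ z)]
  rw [e1, norm_mul]
  refine mul_le_mul (norm_exp_mul hΛ hB hs z) ?_ (norm_nonneg _) (Real.exp_pos _).le
  refine (Complex.norm_exp_sub_one_le (h1.trans hss)).trans ?_
  linarith

theorem YY_smooth (hΛ : ContDiff ℝ ∞ Λ) (n k : ℕ) : ContDiff ℝ ∞ (YY h Λ t n k) := by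
  induction k with
  | zero => exact contDiff_id.sub contDiff_const
  | succ k ih =>
    exact ih.add (contDiff_const.mul (contDiff_const.mul (hΛ.comp ih)).cexp)

theorem fderiv_YY_zero (n : ℕ) (z : ℂ) : fderiv ℝ (YY h Λ t n 0) z 1 = 1 := by
  have h1 : HasFDerivAt (YY h Λ t n 0) (ContinuousLinearMap.id ℝ ℂ) z :=
    (hasFDerivAt_id z).sub_const _
  rw [h1.fderiv]
  rfl

theorem fderiv_YY_succ (hΛ : ContDiff ℝ ∞ Λ) (n k : ℕ) (z : ℂ) :
    fderiv ℝ (YY h Λ t n (k + 1)) z 1 = fderiv ℝ (YY h Λ t n k) z 1 +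
      (h : ℂ) * (Complex.exp ((t k : ℂ) * Λ (YY h Λ t n k z)) *
        ((t k : ℂ) * fderiv ℝ Λ (YY h Λ t n k z) (fderiv ℝ (YY h Λ t n k) z 1))) := by
  have h1 : HasFDerivAt (YY h Λ t n k) (fderiv ℝ (YY h Λ t n k) z) z :=
    ((YY_smooth hΛ n k).differentiable (by simp) z).hasFDerivAt
  have h2 : HasFDerivAt Λ (fderiv ℝ Λ (YY h Λ t n k z)) (YY h Λ t n k z) :=
    (hΛ.differentiable (by simp) _).hasFDerivAt
  have h3 := (((h2.comp z h1).const_mul (t k : ℂ)).cexp).const_mul (h : ℂ)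
  have h4 := h1.add h3
  have h5 : HasFDerivAt (YY h Λ t n (k + 1)) _ z := h4
  rw [h5.fderiv]
  rfl

/-- an outside step -/
theorem YY_out (hΛ : Bd R B Λ) {n k : ℕ} {z : ℂ} (hz : R ≤ ‖YY h Λ t n k z‖) :
    YY h Λ t n (k + 1) z = YY h Λ t n k z + (h : ℂ) := by
  rw [YY, hΛ.zero _ hz, mul_zero, Complex.exp_zero, mul_one]

theorem fderiv_YY_out (hΛ : Bd R B Λ) {n k : ℕ} {z : ℂ} (hz : R < ‖YY h Λ t n k z‖) :
    fderiv ℝ (YY h Λ t n (k + 1)) z 1 = fderiv ℝ (YY h Λ t n k) z 1 := by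
  rw [fderiv_YY_succ hΛ.smooth, fderiv_out hΛ hz]
  simp

/-- an inside step -/
theorem step (hΛ : Bd R B Λ) (hB : 0 ≤ B) (hh : 0 < h) (ht : ∀ k, t k ∈ Icc (0 : ℝ) 1)
    {κ : ℝ} (hκ : ∀ k, |t (k + 1) - t k| ≤ κ * h) (h1 : B * (h * Real.exp B) ≤ 1)
    (h2 : B * (κ * h) ≤ 1) (n k : ℕ) (z : ℂ) :
    ‖fderiv ℝ (YY h Λ t n (k + 1)) z 1 -
        Complex.exp ((t (k + 1) : ℂ) * Λ (YY h Λ t n (k + 1) z))‖ ≤
      (1 + Real.exp B * B * h) * ‖fderiv ℝ (YY h Λ t n k) z 1 -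
        Complex.exp ((t k : ℂ) * Λ (YY h Λ t n k z))‖ +
      h * (Real.exp B ^ 3 * (B ^ 2 + B) * h + 2 * Real.exp B * B * κ) := by
  obtain ⟨X, hX⟩ : ∃ X, X = fderiv ℝ (YY h Λ t n k) z 1 := ⟨_, rfl⟩
  obtain ⟨y, hy⟩ : ∃ y, y = YY h Λ t n k z := ⟨_, rfl⟩
  obtain ⟨w, hw⟩ : ∃ w, w = Complex.exp ((t k : ℂ) * Λ y) := ⟨_, rfl⟩
  have hM := Real.exp_pos B
  have hwn : ‖w‖ ≤ Real.exp B := by
    rw [hw]
    exact norm_exp_mul hΛ hB (ht k) y
  have hun : ‖(h : ℂ) * w‖ ≤ h * Real.exp B := by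
    rw [norm_mul, Complex.norm_real, Real.norm_of_nonneg hh.le]
    exact mul_le_mul_of_nonneg_left hwn hh.le
  have hyk : YY h Λ t n (k + 1) z = y + (h : ℂ) * w := by
    rw [YY, ← hy, hw]
  have hT := taylor hΛ hB (ht k) y ((h : ℂ) * w)
    ((mul_le_mul_of_nonneg_left hun hB).trans h1)
  have hP := param hΛ hB (s' := t (k + 1)) (ht k) (y + (h : ℂ) * w)
    ((mul_le_mul_of_nonneg_left (hκ k) hB).trans h2)
  rw [fderiv_YY_succ hΛ.smooth, hyk, ← hX, ← hy, ← hw]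
  rw [← hw] at hT
  have e1 : X + (h : ℂ) * (w * ((t k : ℂ) * fderiv ℝ Λ y X)) -
      Complex.exp ((t (k + 1) : ℂ) * Λ (y + (h : ℂ) * w)) =
      (X - w) + (h : ℂ) * (w * ((t k : ℂ) * fderiv ℝ Λ y (X - w))) -
      (Complex.exp ((t k : ℂ) * Λ (y + (h : ℂ) * w)) - w -
        w * ((t k : ℂ) * fderiv ℝ Λ y ((h : ℂ) * w))) -
      (Complex.exp ((t (k + 1) : ℂ) * Λ (y + (h : ℂ) * w)) -
        Complex.exp ((t k : ℂ) * Λ (y + (h : ℂ) * w))) := by
    have e2 : fderiv ℝ Λ y ((h : ℂ) * w) = (h : ℂ) * fderiv ℝ Λ y w := by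
      have e3 : (h : ℂ) * w = h • w := (Complex.real_smul).symm
      rw [e3, map_smul, Complex.real_smul]
    rw [e2, map_sub]
    ring
  rw [e1]
  have hF := norm_fderiv_Bd hΛ hB y
  have n1 : ‖(h : ℂ) * (w * ((t k : ℂ) * fderiv ℝ Λ y (X - w)))‖ ≤
      Real.exp B * B * h * ‖X - w‖ := by
    rw [norm_mul, norm_mul, norm_mul, Complex.norm_real, Complex.norm_real,
      Real.norm_of_nonneg hh.le, Real.norm_of_nonneg (ht k).1]
    have h3 : ‖fderiv ℝ Λ y (X - w)‖ ≤ B * ‖X - w‖ :=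
      ((fderiv ℝ Λ y).le_opNorm _).trans (mul_le_mul_of_nonneg_right hF (norm_nonneg _))
    have h4 : t k * ‖fderiv ℝ Λ y (X - w)‖ ≤ B * ‖X - w‖ := by
      have := norm_nonneg (fderiv ℝ Λ y (X - w))
      nlinarith [(ht k).1, (ht k).2]
    have h5 : 0 ≤ t k * ‖fderiv ℝ Λ y (X - w)‖ := mul_nonneg (ht k).1 (norm_nonneg _)
    calc h * (‖w‖ * (t k * ‖fderiv ℝ Λ y (X - w)‖)) ≤
          h * (Real.exp B * (B * ‖X - w‖)) :=
          mul_le_mul_of_nonneg_left (mul_le_mul hwn h4 h5 hM.le) hh.le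
      _ = _ := by ring
  have n2 : Real.exp B * ((B ^ 2 + B) * ‖(h : ℂ) * w‖ ^ 2) ≤
      h * (Real.exp B ^ 3 * (B ^ 2 + B) * h) := by
    have h3 : ‖(h : ℂ) * w‖ ^ 2 ≤ (h * Real.exp B) ^ 2 := pow_le_pow_left₀ (norm_nonneg _) hun 2
    have h4 : 0 ≤ Real.exp B * (B ^ 2 + B) := by positivity
    calc Real.exp B * ((B ^ 2 + B) * ‖(h : ℂ) * w‖ ^ 2) =
        Real.exp B * (B ^ 2 + B) * ‖(h : ℂ) * w‖ ^ 2 := by ring
      _ ≤ Real.exp B * (B ^ 2 + B) * (h * Real.exp B) ^ 2 := mul_le_mul_of_nonneg_left h3 h4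
      _ = _ := by ring
  have n3 : Real.exp B * (2 * (B * |t (k + 1) - t k|)) ≤ h * (2 * Real.exp B * B * κ) := by
    calc Real.exp B * (2 * (B * |t (k + 1) - t k|)) ≤ Real.exp B * (2 * (B * (κ * h))) :=
          mul_le_mul_of_nonneg_left (mul_le_mul_of_nonneg_left
            (mul_le_mul_of_nonneg_left (hκ k) hB) (by norm_num)) hM.le
      _ = _ := by ring
  refine (norm_sub_le _ _).trans ?_
  have n4 := (norm_sub_le ((X - w) + (h : ℂ) * (w * ((t k : ℂ) * fderiv ℝ Λ y (X - w))))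
    (Complex.exp ((t k : ℂ) * Λ (y + (h : ℂ) * w)) - w -
        w * ((t k : ℂ) * fderiv ℝ Λ y ((h : ℂ) * w))))
  have n5 := norm_add_le (X - w) ((h : ℂ) * (w * ((t k : ℂ) * fderiv ℝ Λ y (X - w))))
  have n6 := hT.trans n2
  have n7 := hP.trans n3
  nlinarith [n1, n4, n5, n6, n7]

end Th

open Th

theorem through (R B : ℝ) (hR : 0 ≤ R) (hB : 0 ≤ B) : ∃ T h₀ κ : ℝ, R + 2 ≤ T ∧ 0 < h₀ ∧ 0 < κ ∧
    ∀ h : ℝ, 0 < h → h ≤ h₀ → ∀ Λ : ℂ → ℂ, Bd R B Λ → ∀ t : ℕ → ℝ, (∀ k, t k ∈ Icc (0 : ℝ) 1) →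
      (∀ k, |t (k + 1) - t k| ≤ κ * h) → ∀ (n : ℕ) (z : ℂ), T ≤ z.re → z.re - n * h ≤ -(R + 1) →
      R + 1 < ‖YY h Λ t n n z‖ ∧ ‖fderiv ℝ (YY h Λ t n n) z 1 - 1‖ ≤ 1 / 2 := by
  obtain ⟨T₀, h₁, κ₁, hT₀, hh₁, hκ₁, hin⟩ := inside_bound R B hB
  obtain ⟨M, hMdef⟩ : ∃ M, M = Real.exp B := ⟨_, rfl⟩
  have hM1 : 1 ≤ M := by rw [hMdef]; exact Real.one_le_exp hB
  have hM0 : 0 < M := by linarith
  obtain ⟨C, hC⟩ : ∃ C, C = Real.exp (M * B * (T₀ + 1)) * (T₀ + 1) := ⟨_, rfl⟩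
  have hC0 : 0 < C := by rw [hC]; positivity
  obtain ⟨h₂, hh₂⟩ : ∃ h₂, h₂ = 1 / (4 * C * (M ^ 3 * (B ^ 2 + B) + 1)) := ⟨_, rfl⟩
  obtain ⟨κ₂, hκ₂⟩ : ∃ κ₂, κ₂ = 1 / (4 * C * (2 * M * B + 1)) := ⟨_, rfl⟩
  have hh₂0 : 0 < h₂ := by rw [hh₂]; positivity
  have hκ₂0 : 0 < κ₂ := by rw [hκ₂]; positivity
  refine ⟨R + 2 + T₀, min h₁ (min 1 (min (1 / (M * B + M)) h₂)), min κ₁ (min 1 κ₂), by linarith,
    by positivity, by positivity, ?_⟩
  intro h hh hh0 Λ hΛ t ht htκ n z hzT hzn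
  have hhh1 : h ≤ h₁ := hh0.trans (min_le_left _ _)
  have hhone : h ≤ 1 := hh0.trans ((min_le_right _ _).trans (min_le_left _ _))
  have hhM : h ≤ 1 / (M * B + M) := hh0.trans ((min_le_right _ _).trans ((min_le_right _ _).trans
    (min_le_left _ _)))
  have hhh2 : h ≤ h₂ := hh0.trans ((min_le_right _ _).trans ((min_le_right _ _).trans
    (min_le_right _ _)))
  obtain ⟨κ, hκdef⟩ : ∃ κ, κ = min κ₁ (min 1 κ₂) := ⟨_, rfl⟩
  rw [← hκdef] at htκ
  have hκa : κ ≤ κ₁ := by rw [hκdef]; exact min_le_left _ _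
  have hκb : κ ≤ 1 := by rw [hκdef]; exact (min_le_right _ _).trans (min_le_left _ _)
  have hκc : κ ≤ κ₂ := by rw [hκdef]; exact (min_le_right _ _).trans (min_le_right _ _)
  have hκ0 : 0 < κ := by rw [hκdef]; positivity
  rw [le_div_iff₀ (by positivity)] at hhM
  have hMB : 0 ≤ M * B := by positivity
  have hhexp : h * Real.exp B ≤ 1 := by
    rw [← hMdef]
    nlinarith
  have c1 : B * (h * Real.exp B) ≤ 1 := by
    rw [← hMdef]
    nlinarith
  have c2 : B * (κ * h) ≤ 1 := by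
    have : κ * h ≤ h * Real.exp B := by
      rw [← hMdef]
      nlinarith
    exact (mul_le_mul_of_nonneg_left this hB).trans c1
  obtain ⟨ε, hε⟩ : ∃ ε, ε = M ^ 3 * (B ^ 2 + B) * h + 2 * M * B * κ := ⟨_, rfl⟩
  have hε0 : 0 ≤ ε := by rw [hε]; positivity
  have hεC : C * ε ≤ 1 / 2 := by
    have e1 : C * (M ^ 3 * (B ^ 2 + B) * h) ≤ 1 / 4 := by
      have : M ^ 3 * (B ^ 2 + B) * h ≤ (M ^ 3 * (B ^ 2 + B) + 1) * h₂ := by
        have h3 : 0 ≤ M ^ 3 * (B ^ 2 + B) := by positivity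
        nlinarith
      have h4 : C * ((M ^ 3 * (B ^ 2 + B) + 1) * h₂) = 1 / 4 := by
        rw [hh₂]
        field_simp
      calc _ ≤ C * ((M ^ 3 * (B ^ 2 + B) + 1) * h₂) := mul_le_mul_of_nonneg_left this hC0.le
        _ = 1 / 4 := h4
    have e2 : C * (2 * M * B * κ) ≤ 1 / 4 := by
      have : 2 * M * B * κ ≤ (2 * M * B + 1) * κ₂ := by
        nlinarith
      have h4 : C * ((2 * M * B + 1) * κ₂) = 1 / 4 := by
        rw [hκ₂]
        field_simp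
      calc _ ≤ C * ((2 * M * B + 1) * κ₂) := mul_le_mul_of_nonneg_left this hC0.le
        _ = 1 / 4 := h4
    rw [hε, mul_add]
    linarith
  have hy : IsOrb h Λ t (fun k => YY h Λ t n k z) := YY_orb h Λ t n z
  -- outside steps from the start
  have hout : ∀ k, (∀ j < k, R + 1 < ‖YY h Λ t n j z‖) →
      YY h Λ t n k z = z - ((n * h : ℝ) : ℂ) + ((k * h : ℝ) : ℂ) ∧
      fderiv ℝ (YY h Λ t n k) z 1 = 1 := by
    intro k
    induction k with
    | zero =>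
      intro _
      refine ⟨?_, fderiv_YY_zero n z⟩
      simp [YY]
    | succ k ih =>
      intro hk
      have h1 := ih fun j hj => hk j (by omega)
      have h2 := hk k (by omega)
      refine ⟨?_, ?_⟩
      · rw [YY_out hΛ (by linarith), h1.1]
        push_cast
        ring
      · rw [fderiv_YY_out hΛ (by linarith), h1.2]
  by_cases hex : ∃ k ≤ n, ‖YY h Λ t n k z‖ ≤ R + 1
  · classical
    -- first time inside
    obtain ⟨k₁, ⟨hk₁n, hk₁⟩, hmin⟩ : ∃ k₁, (k₁ ≤ n ∧ ‖YY h Λ t n k₁ z‖ ≤ R + 1) ∧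
        ∀ j < k₁, R + 1 < ‖YY h Λ t n j z‖ := by
      refine ⟨Nat.find hex, Nat.find_spec hex, fun j hj => ?_⟩
      have h1 := Nat.find_min hex hj
      have h2 := (Nat.find_spec hex).1
      push Not at h1
      exact h1 (by omega)
    obtain ⟨ho1, ho2⟩ := hout k₁ hmin
    -- the bound for k₁
    have hk₁h : k₁ * h ≤ n * h - (T₀ + 1) := by
      have h1 : (YY h Λ t n k₁ z).re ≤ R + 1 := (Complex.re_le_norm _).trans hk₁
      rw [ho1] at h1
      simp only [Complex.add_re, Complex.sub_re, Complex.ofReal_re] at h1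
      linarith
    -- at the start of the inside part `w = 1`
    have hR1 : R ≤ ‖YY h Λ t n k₁ z‖ := by
      rcases Nat.eq_zero_or_pos k₁ with h0 | h0
      · rw [ho1, h0]
        have h1 := Complex.abs_re_le_norm (z - ((n * h : ℝ) : ℂ) + (((0 : ℕ) * h : ℝ) : ℂ))
        simp only [Complex.add_re, Complex.sub_re, Complex.ofReal_re, Nat.cast_zero,
          zero_mul, add_zero] at h1 ⊢
        have h2 := neg_abs_le (z.re - n * h)
        simp only [Complex.ofReal_zero, add_zero] at h1 ⊢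
        linarith
      · obtain ⟨j, rfl⟩ : ∃ j, k₁ = j + 1 := ⟨k₁ - 1, by omega⟩
        have h1 := hmin j (by omega)
        rw [YY_out hΛ (by linarith)]
        have h2 := norm_sub_norm_le (YY h Λ t n j z) (-(h : ℂ))
        rw [sub_neg_eq_add, norm_neg, Complex.norm_real, Real.norm_of_nonneg hh.le] at h2
        linarith
    have hd0 : fderiv ℝ (YY h Λ t n k₁) z 1 -
        Complex.exp ((t k₁ : ℂ) * Λ (YY h Λ t n k₁ z)) = 0 := by
      rw [ho2, hΛ.zero _ hR1, mul_zero, Complex.exp_zero, sub_self]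
    -- it leaves
    have hleave : ∃ i, R + 1 < ‖YY h Λ t n (k₁ + i + 1) z‖ := by
      by_contra hcon
      push Not at hcon
      obtain ⟨N, hN⟩ := exists_nat_gt (T₀ / h)
      have h1 := hin h hh hhh1 Λ hΛ t ht (fun k => (htκ k).trans
        (mul_le_mul_of_nonneg_right hκa hh.le)) _ hy k₁ N (fun i _ => by
          rcases Nat.eq_zero_or_pos i with rfl | hi
          · exact hk₁
          · obtain ⟨j, rfl⟩ : ∃ j, i = j + 1 := ⟨i - 1, by omega⟩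
            exact hcon j)
      rw [div_lt_iff₀ hh] at hN
      linarith
    obtain ⟨N, hN, hNmin⟩ : ∃ N, R + 1 < ‖YY h Λ t n (k₁ + N + 1) z‖ ∧
        ∀ j < N, ‖YY h Λ t n (k₁ + j + 1) z‖ ≤ R + 1 := by
      refine ⟨Nat.find hleave, Nat.find_spec hleave, fun j hj => ?_⟩
      exact not_lt.1 (Nat.find_min hleave hj)
    have hinside : ∀ i ≤ N, ‖YY h Λ t n (k₁ + i) z‖ ≤ R + 1 := by
      intro i hi
      rcases Nat.eq_zero_or_pos i with rfl | hi0
      · exact hk₁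
      · obtain ⟨j, rfl⟩ : ∃ j, i = j + 1 := ⟨i - 1, by omega⟩
        exact hNmin j (by omega)
    have hNh : N * h < T₀ := hin h hh hhh1 Λ hΛ t ht (fun k => (htκ k).trans
        (mul_le_mul_of_nonneg_right hκa hh.le)) _ hy k₁ N hinside
    have hforever := exit_forever hR hh hhexp hΛ ht hy (k := k₁ + N) (hinside N le_rfl) hN
    have hle : k₁ + N + 1 ≤ n := by
      have h1 : ((k₁ + N + 1 : ℕ) : ℝ) * h ≤ n * h := by
        push_cast
        nlinarith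
      have h2 : ((k₁ + N + 1 : ℕ) : ℝ) ≤ n := le_of_mul_le_mul_right h1 hh
      exact_mod_cast h2
    refine ⟨(hforever n hle).1, ?_⟩
    -- the derivative is constant after the exit
    have hconst : ∀ j, fderiv ℝ (YY h Λ t n (k₁ + N + 1 + j)) z 1 =
        fderiv ℝ (YY h Λ t n (k₁ + N + 1)) z 1 := by
      intro j
      induction j with
      | zero => rfl
      | succ j ih =>
        rw [← ih]
        have h1 := (hforever (k₁ + N + 1 + j) (by omega)).1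
        have h2 : R < ‖YY h Λ t n (k₁ + N + 1 + j) z‖ := by linarith
        exact fderiv_YY_out hΛ h2
    -- the inside part
    have hd : ∀ i : ℕ, ‖fderiv ℝ (YY h Λ t n (k₁ + i)) z 1 -
        Complex.exp ((t (k₁ + i) : ℂ) * Λ (YY h Λ t n (k₁ + i) z))‖ ≤
        (1 + M * B * h) ^ i * (i * (h * ε)) := by
      intro i
      induction i with
      | zero =>
        rw [Nat.add_zero, hd0]
        simp
      | succ i ih =>
        have h1 := step hΛ hB hh ht htκ c1 c2 n (k₁ + i) z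
        rw [← hMdef, ← hε] at h1
        rw [← Nat.add_assoc]
        refine h1.trans ?_
        have h2 : 1 ≤ (1 + M * B * h) ^ (i + 1) := by
          apply one_le_pow₀
          have : 0 ≤ M * B * h := by positivity
          linarith
        have h3 : 0 ≤ h * ε := by positivity
        have h4 : 0 ≤ 1 + M * B * h := by positivity
        calc (1 + M * B * h) * ‖fderiv ℝ (YY h Λ t n (k₁ + i)) z 1 -
            Complex.exp ((t (k₁ + i) : ℂ) * Λ (YY h Λ t n (k₁ + i) z))‖ + h * ε ≤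
            (1 + M * B * h) * ((1 + M * B * h) ^ i * (i * (h * ε))) +
              (1 + M * B * h) ^ (i + 1) * (h * ε) := by
              refine add_le_add (mul_le_mul_of_nonneg_left ih h4) ?_
              nlinarith
          _ = (1 + M * B * h) ^ (i + 1) * (((i + 1 : ℕ) : ℝ) * (h * ε)) := by
              push_cast
              ring
    have h5 := hd (N + 1)
    rw [← Nat.add_assoc, hΛ.zero _ (by linarith), mul_zero, Complex.exp_zero] at h5
    obtain ⟨j, hj⟩ : ∃ j, n = k₁ + N + 1 + j := ⟨n - (k₁ + N + 1), by omega⟩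
    have h6 := hconst j
    rw [← hj] at h6
    rw [h6]
    refine h5.trans ?_
    have h7 : ((N + 1 : ℕ) : ℝ) * h ≤ T₀ + 1 := by
      push_cast
      linarith
    have h8 : (1 + M * B * h) ^ (N + 1) ≤ Real.exp (M * B * (T₀ + 1)) := by
      have h9 : 1 + M * B * h ≤ Real.exp (M * B * h) := by
        have := Real.add_one_le_exp (M * B * h)
        linarith
      calc (1 + M * B * h) ^ (N + 1) ≤ (Real.exp (M * B * h)) ^ (N + 1) :=
            pow_le_pow_left₀ (by positivity) h9 _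
        _ = Real.exp (((N + 1 : ℕ) : ℝ) * (M * B * h)) := by rw [← Real.exp_nat_mul]
        _ ≤ Real.exp (M * B * (T₀ + 1)) := by
            apply Real.exp_le_exp.2
            calc ((N + 1 : ℕ) : ℝ) * (M * B * h) = M * B * (((N + 1 : ℕ) : ℝ) * h) := by ring
              _ ≤ M * B * (T₀ + 1) := mul_le_mul_of_nonneg_left h7 hMB
    calc (1 + M * B * h) ^ (N + 1) * (((N + 1 : ℕ) : ℝ) * (h * ε)) =
        (1 + M * B * h) ^ (N + 1) * ((((N + 1 : ℕ) : ℝ) * h) * ε) := by ring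
      _ ≤ Real.exp (M * B * (T₀ + 1)) * ((T₀ + 1) * ε) := by
          refine mul_le_mul h8 (mul_le_mul_of_nonneg_right h7 hε0) (by positivity)
            (Real.exp_pos _).le
      _ = C * ε := by rw [hC]; ring
      _ ≤ 1 / 2 := hεC
  · push Not at hex
    obtain ⟨h1, h2⟩ := hout n fun j hj => hex j hj.le
    exact ⟨hex n le_rfl, by rw [h2]; simp⟩

end Pool.Agent.H75B
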