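import Pool.Agent.H75B.WCont
import Pool.Agent.H75B.Through
import Pool.Agent.H75B.Fac
import Pool.Agent.H75B.Alg

set_option autoImplicit false

open scoped ContDiff
open Set Filter Topology

namespace Pool.Agent.H75B

open Pool.Agent.H45F Pool.Agent.H75S

/-- the profile: `1` up to `x`, then decreasing to `0` with slope `κ` -/
noncomputable def prof (κ h x : ℝ) (j : ℕ) : ℝ := max 0 (min 1 (1 - κ * (j * h - x)))

theorem prof_mem (κ h x : ℝ) (j : ℕ) : prof κ h x j ∈ Icc (0 : ℝ) 1 :=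
  ⟨le_max_left _ _, max_le zero_le_one (min_le_left _ _)⟩

theorem prof_one {κ h x : ℝ} (hκ : 0 ≤ κ) {j : ℕ} (hj : j * h ≤ x) : prof κ h x j = 1 := by
  unfold prof
  have h1 : (1 : ℝ) ≤ 1 - κ * (j * h - x) := by nlinarith
  rw [min_eq_left h1, max_eq_right zero_le_one]

theorem prof_zero {κ h x : ℝ} (hκ : 0 < κ) {j : ℕ} (hj : x + 1 / κ ≤ j * h) :
    prof κ h x j = 0 := by
  unfold prof
  have h1 : 1 ≤ κ * (j * h - x) := by
    have : 1 / κ ≤ j * h - x := by linarith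
    calc (1 : ℝ) = κ * (1 / κ) := by field_simp
      _ ≤ κ * (j * h - x) := mul_le_mul_of_nonneg_left this hκ.le
  exact max_eq_left (le_trans (min_le_right _ _) (by linarith))

theorem prof_lip {κ h x : ℝ} (hκ : 0 ≤ κ) (hh : 0 ≤ h) (j : ℕ) :
    |prof κ h x (j + 1) - prof κ h x j| ≤ κ * h := by
  unfold prof
  refine le_trans (abs_max_sub_max_le_max _ _ _ _) ?_
  refine max_le (by simpa using mul_nonneg hκ hh) ?_
  refine le_trans (abs_min_sub_min_le_max _ _ _ _) ?_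
  refine max_le (by simpa using mul_nonneg hκ hh) ?_
  push_cast
  rw [show 1 - κ * (((j : ℝ) + 1) * h - x) - (1 - κ * (j * h - x)) = -(κ * h) by ring, abs_neg,
    abs_of_nonneg (mul_nonneg hκ hh)]

theorem YY_trans {h : ℝ} {Λ : ℂ → ℂ} {t : ℕ → ℝ} {n : ℕ} {z : ℂ} {m : ℕ}
    (H : ∀ k < m, ∀ w : ℂ, (t k : ℂ) * Λ w = 0) :
    YY h Λ t n m z = z - ((n * h : ℝ) : ℂ) + ((m * h : ℝ) : ℂ) := by
  induction m with
  | zero => simp [YY]
  | succ m ih =>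
    rw [YY, H m (Nat.lt_succ_self m), Complex.exp_zero, ih fun k hk => H k (by omega)]
    push_cast
    ring

/-- O. contraction of compact sets -/
theorem exists_contr {𝒦 : Set DiffC} (hK : IsCompact 𝒦) {R₀ : ℝ} (hR : 𝒦 ⊆ discSub R₀) :
    ∃ (R' : ℝ) (H : DiffC → ℝ → DiffC), R₀ ≤ R' ∧
      ContinuousOn (fun q : DiffC × ℝ => H q.1 q.2) (𝒦 ×ˢ Icc (0 : ℝ) 1) ∧
      (∀ g ∈ 𝒦, H g 0 = 1 ∧ H g 1 = g) ∧
      (∀ g ∈ 𝒦, ∀ s ∈ Icc (0 : ℝ) 1, H g s ∈ discSub R') ∧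
      (∀ s ∈ Icc (0 : ℝ) 1, H 1 s = 1) := by
  -- the radius
  set R : ℝ := |R₀| with hRdef
  have hR0 : 0 ≤ R := abs_nonneg _
  have hR1 : (0 : ℝ) ≤ R + 1 := by linarith
  set 𝒦' : Set DiffC := insert 1 𝒦 with hK'def
  have hK' : IsCompact 𝒦' := hK.insert 1
  have hRK : 𝒦' ⊆ discSub R := by
    rintro g (rfl | hg)
    · exact (discSub R).one_mem
    · exact discSub_mono (le_abs_self R₀) (hR hg)
  obtain ⟨B, hB, hBd⟩ := exists_bound hK' hRK
  obtain ⟨T, h₁, κ, hT, hh₁, hκ, hthr⟩ := through (R + 1) B hR1 hB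
  -- the step
  set h : ℝ := min h₁ (min 1 (1 / (2 * (B * Real.exp B + 1)))) with hhdef
  have hBe : 0 ≤ B * Real.exp B := mul_nonneg hB (Real.exp_pos B).le
  have hh : 0 < h := lt_min hh₁ (lt_min one_pos (by positivity))
  have hh1 : h ≤ 1 := le_trans (min_le_right _ _) (min_le_left _ _)
  have hhh : h ≤ h₁ := min_le_left _ _
  have hhB : h * (B * Real.exp B) ≤ 1 / 2 := by
    have h2 : h ≤ 1 / (2 * (B * Real.exp B + 1)) := le_trans (min_le_right _ _) (min_le_right _ _)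
    calc h * (B * Real.exp B) ≤ 1 / (2 * (B * Real.exp B + 1)) * (B * Real.exp B) :=
          mul_le_mul_of_nonneg_right h2 hBe
      _ = (B * Real.exp B) / (B * Real.exp B + 1) / 2 := by
          field_simp
      _ ≤ 1 / 2 := by
          have : (B * Real.exp B) / (B * Real.exp B + 1) ≤ 1 := by
            rw [div_le_one (by positivity)]; linarith
          linarith
  set x₁ : ℝ := T + R + 4 with hx₁
  set x₂ : ℝ := x₁ + 1 / κ with hx₂
  have hx₂₁ : x₁ ≤ x₂ := by rw [hx₂]; linarith [(by positivity : (0 : ℝ) ≤ 1 / κ)]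
  have hT0 : 0 ≤ T := by linarith
  have hx₁0 : 0 ≤ x₁ := by rw [hx₁]; linarith
  have hx₂0 : 0 ≤ x₂ := le_trans hx₁0 hx₂₁
  obtain ⟨n, hn⟩ := exists_nat_ge ((x₂ + 2 * R + 10) / h)
  have hn' : x₂ + 2 * R + 10 ≤ n * h := by rwa [div_le_iff₀ hh] at hn
  let χ : ℕ → ℝ := prof κ h x₁
  have hχ : ∀ j, χ j ∈ Icc (0 : ℝ) 1 := prof_mem κ h x₁
  let W : DiffC → ℝ → DiffC := fun g s => Wd h (Lam R h g) (fun j => s * χ j) n
  have hbd : ∀ g ∈ 𝒦', Bd (R + 1) B (Lam R h g) := fun g hg => hBd h hh hh1 g hg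
  have hsχ : ∀ s ∈ Icc (0 : ℝ) 1, ∀ j, s * χ j ∈ Icc (0 : ℝ) 1 := fun s hs j =>
    ⟨mul_nonneg hs.1 (hχ j).1, mul_le_one₀ hs.2 (hχ j).1 (hχ j).2⟩
  have hW : ∀ g ∈ 𝒦', ∀ s ∈ Icc (0 : ℝ) 1, ∀ z, (W g s : Equiv.Perm ℂ) z =
      YY h (Lam R h g) (fun k => s * χ (n - 1 - k)) n n z := fun g hg s hs z =>
    Wd_app (hbd g hg) hB hh hhB (hsχ s hs) n z
  have htl : ∀ s ∈ Icc (0 : ℝ) 1, ∀ k,
      |s * χ (n - 1 - (k + 1)) - s * χ (n - 1 - k)| ≤ κ * h := by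
    intro s hs k
    rcases Nat.eq_zero_or_pos (n - 1 - k) with h0 | h0
    · have e : n - 1 - (k + 1) = 0 := by omega
      rw [e, h0, sub_self, abs_zero]
      exact mul_nonneg hκ.le hh.le
    · have e : n - 1 - k = (n - 1 - (k + 1)) + 1 := by omega
      rw [e, ← mul_sub, abs_mul, abs_of_nonneg hs.1, abs_sub_comm]
      exact le_trans (mul_le_of_le_one_left (abs_nonneg _) hs.2) (prof_lip hκ.le hh.le _)
  -- support
  set X : ℝ := x₂ + R + 3 with hX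
  have hN₂ : ∃ K : ℕ, K ≤ n ∧ (∀ k < K, x₂ ≤ ((n - 1 - k : ℕ) : ℝ) * h) ∧
      ((n : ℝ) - K) * h ≤ x₂ + h := by
    set N₂ : ℕ := ⌈x₂ / h⌉₊ with hN₂
    have h1 : x₂ ≤ N₂ * h := by
      have := Nat.le_ceil (x₂ / h)
      rwa [div_le_iff₀ hh] at this
    have h2 : (N₂ : ℝ) * h ≤ x₂ + h := by
      have h3 := (Nat.ceil_lt_add_one (div_nonneg hx₂0 hh.le)).le
      calc (N₂ : ℝ) * h ≤ (x₂ / h + 1) * h := mul_le_mul_of_nonneg_right h3 hh.le
        _ = x₂ + h := by field_simp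
    have h3 : N₂ ≤ n := by
      have : (N₂ : ℝ) * h ≤ n * h := by linarith
      exact_mod_cast le_of_mul_le_mul_right this hh
    refine ⟨n - N₂, Nat.sub_le _ _, fun k hk => ?_, ?_⟩
    · have h4 : N₂ ≤ n - 1 - k := by omega
      have h5 : (N₂ : ℝ) ≤ ((n - 1 - k : ℕ) : ℝ) := by exact_mod_cast h4
      exact le_trans h1 (mul_le_mul_of_nonneg_right h5 hh.le)
    · rw [Nat.cast_sub h3]; linarith
  obtain ⟨K₂, hK₂n, hK₂0, hK₂⟩ := hN₂
  have hright : ∀ g ∈ 𝒦', ∀ s ∈ Icc (0 : ℝ) 1, ∀ z : ℂ, X - 1 ≤ z.re →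
      (W g s : Equiv.Perm ℂ) z = z := by
    intro g hg s hs z hz
    rw [hW g hg s hs]
    refine region_right (hbd g hg).zero hh.le hK₂n (fun k hk => ?_) ?_
    · change s * χ (n - 1 - k) = 0
      rw [show χ (n - 1 - k) = 0 from prof_zero hκ (hK₂0 k hk), mul_zero]
    · rw [hX] at hz; linarith
  have hWsupp : ∀ g ∈ 𝒦', ∀ s ∈ Icc (0 : ℝ) 1, W g s ∈ discSub (X + R + 1) := by
    intro g hg s hs z hz
    by_cases h1 : R + 1 ≤ |z.im|
    · rw [hW g hg s hs]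
      exact region_im (hbd g hg).zero h1
    · by_cases h2 : z.re ≤ -(R + 1)
      · rw [hW g hg s hs]
        exact region_left (hbd g hg).zero hh.le hR1 h2
      · refine hright g hg s hs z ?_
        have h3 := Complex.norm_le_abs_re_add_abs_im z
        push Not at h1 h2
        have h4 : X ≤ |z.re| := by linarith
        rcases le_abs.mp h4 with h5 | h5
        · linarith
        · exfalso
          have : X ≤ R + 1 := by linarith
          rw [hX] at this; linarith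
  -- the left part at s = 1
  have hN₁ : ∃ K : ℕ, K ≤ n ∧ (∀ k, K ≤ k → k < n → ((n - 1 - k : ℕ) : ℝ) * h ≤ x₁) ∧
      x₁ - h ≤ ((n : ℝ) - K) * h := by
    set N₁ : ℕ := ⌊x₁ / h⌋₊ with hN₁
    have h1 : (N₁ : ℝ) * h ≤ x₁ := by
      have := Nat.floor_le (div_nonneg hx₁0 hh.le)
      rwa [le_div_iff₀ hh] at this
    have h2 : x₁ - h ≤ (N₁ : ℝ) * h := by
      have h3 := (Nat.lt_floor_add_one (x₁ / h)).le
      have h4 : x₁ ≤ ((N₁ : ℝ) + 1) * h := by rwa [div_le_iff₀ hh] at h3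
      linarith
    have h3 : N₁ ≤ n := by
      have : (N₁ : ℝ) * h ≤ n * h := by linarith
      exact_mod_cast le_of_mul_le_mul_right this hh
    refine ⟨n - N₁, Nat.sub_le _ _, fun k hk hkn => ?_, ?_⟩
    · have h4 : n - 1 - k ≤ N₁ := by omega
      have h5 : ((n - 1 - k : ℕ) : ℝ) ≤ N₁ := by exact_mod_cast h4
      exact le_trans (mul_le_mul_of_nonneg_right h5 hh.le) h1
    · rw [Nat.cast_sub h3]; linarith
  obtain ⟨K₁, hK₁n, hK₁1, hK₁⟩ := hN₁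
  have hleft : ∀ g ∈ 𝒦', ∀ z : ℂ, z.re ≤ T + 2 →
      (W g 1 : Equiv.Perm ℂ) z = (g : Equiv.Perm ℂ) z := by
    intro g hg z hz
    have hgR : g ∈ discSub (R + 1) := discSub_mono (by linarith) (hRK hg)
    rw [hW g hg 1 ⟨zero_le_one, le_rfl⟩]
    refine region_g hh hR1 hgR (hbd g hg).zero (Lam_spec (hRK hg) hh hh1).2.1 hK₁n
      (fun k hk hkn => ?_) ?_
    · change 1 * χ (n - 1 - k) = 1
      rw [show χ (n - 1 - k) = 1 from prof_one hκ.le (hK₁1 k hk hkn), one_mul]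
    · have : x₁ - h ≤ ((n : ℝ) - K₁) * h := hK₁
      rw [hx₁] at this; linarith
  -- the right part
  have hmid : ∀ g ∈ 𝒦', ∀ z : ℂ, T ≤ z.re → z.re - n * h ≤ -(R + 1 + 1) →
      R + 1 + 1 < ‖(W g 1 : Equiv.Perm ℂ) z‖ ∧
      ‖fderiv ℝ ((W g 1 : Equiv.Perm ℂ) : ℂ → ℂ) z 1 - 1‖ ≤ 1 / 2 := by
    intro g hg z h1 h2
    have h3 : ((W g 1 : Equiv.Perm ℂ) : ℂ → ℂ) =
        YY h (Lam R h g) (fun k => 1 * χ (n - 1 - k)) n n :=
      funext fun w => hW g hg 1 ⟨zero_le_one, le_rfl⟩ w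
    rw [h3]
    exact hthr h hh hhh _ (hbd g hg) _ (fun k => hsχ 1 ⟨zero_le_one, le_rfl⟩ _)
      (htl 1 ⟨zero_le_one, le_rfl⟩) n z h1 h2
  have hgfix : ∀ g ∈ 𝒦', ∀ w : ℂ, R ≤ ‖w‖ → ((g⁻¹ : DiffC) : Equiv.Perm ℂ) w = w := by
    intro g hg w hw
    exact (discSub R).inv_mem (hRK hg) w hw
  have hS1 : ∀ g ∈ 𝒦', ∀ z : ℂ, z.re ≤ T + 2 →
      ((g⁻¹ * W g 1 : DiffC) : Equiv.Perm ℂ) z = z := by
    intro g hg z hz
    change ((g⁻¹ : DiffC) : Equiv.Perm ℂ) ((W g 1 : Equiv.Perm ℂ) z) = z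
    rw [hleft g hg z hz, Subgroup.coe_inv]
    exact Equiv.symm_apply_apply _ _
  have hS2 : ∀ g ∈ 𝒦', ∀ z : ℂ, X - 1 ≤ z.re →
      ((g⁻¹ * W g 1 : DiffC) : Equiv.Perm ℂ) z = z := by
    intro g hg z hz
    change ((g⁻¹ : DiffC) : Equiv.Perm ℂ) ((W g 1 : Equiv.Perm ℂ) z) = z
    rw [hright g hg 1 ⟨zero_le_one, le_rfl⟩ z hz]
    refine hgfix g hg z (le_trans ?_ (Complex.abs_re_le_norm z))
    rw [hX] at hz
    have := le_abs_self z.re
    linarith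
  have hS3 : ∀ g ∈ 𝒦', ∀ z : ℂ, T ≤ z.re → z.re - n * h ≤ -(R + 1 + 1) →
      ((g⁻¹ * W g 1 : DiffC) : Equiv.Perm ℂ) z = (W g 1 : Equiv.Perm ℂ) z := by
    intro g hg z h1 h2
    change ((g⁻¹ : DiffC) : Equiv.Perm ℂ) ((W g 1 : Equiv.Perm ℂ) z) = _
    exact hgfix g hg _ (by linarith [(hmid g hg z h1 h2).1])
  have hHor : ∀ g ∈ 𝒦', g⁻¹ * W g 1 ∈ Hor (X + R + 1) := by
    intro g hg
    refine ⟨(discSub _).mul_mem ((discSub _).inv_mem (discSub_mono ?_ (hRK hg)))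
      (hWsupp g hg 1 ⟨zero_le_one, le_rfl⟩), fun z => ?_⟩
    · rw [hX]; linarith
    have hid : ∀ s : Set ℂ, IsOpen s → z ∈ s → (∀ w ∈ s,
        ((g⁻¹ * W g 1 : DiffC) : Equiv.Perm ℂ) w = w) →
        ‖fderiv ℝ (((g⁻¹ * W g 1 : DiffC) : Equiv.Perm ℂ) : ℂ → ℂ) z 1 - 1‖ ≤ 1 / 2 := by
      intro s hs hzs hw
      have e : (((g⁻¹ * W g 1 : DiffC) : Equiv.Perm ℂ) : ℂ → ℂ) =ᶠ[𝓝 z] id := by
        filter_upwards [hs.mem_nhds hzs] with w hws
        exact hw w hws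
      rw [e.fderiv_eq, fderiv_id]
      simp
    rcases lt_or_ge z.re (T + 2) with h1 | h1
    · exact hid {w | w.re < T + 2} (isOpen_lt Complex.continuous_re continuous_const) h1
        (fun w hw => hS1 g hg w (le_of_lt hw))
    · rcases lt_or_ge (X - 1) z.re with h2 | h2
      · exact hid {w | X - 1 < w.re} (isOpen_lt continuous_const Complex.continuous_re) h2
          (fun w hw => hS2 g hg w (le_of_lt hw))
      · have hnear : z.re < n * h - (R + 1 + 1) := by rw [hX] at h2; linarith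
        have e : (((g⁻¹ * W g 1 : DiffC) : Equiv.Perm ℂ) : ℂ → ℂ) =ᶠ[𝓝 z]
            ((W g 1 : Equiv.Perm ℂ) : ℂ → ℂ) := by
          have o1 : {w : ℂ | T < w.re} ∈ 𝓝 z :=
            (isOpen_lt continuous_const Complex.continuous_re).mem_nhds
              (show T < z.re by linarith)
          have o2 : {w : ℂ | w.re < n * h - (R + 1 + 1)} ∈ 𝓝 z :=
            (isOpen_lt Complex.continuous_re continuous_const).mem_nhds hnear
          filter_upwards [o1, o2] with w hw1 hw2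
          exact hS3 g hg w (le_of_lt hw1) (by have : w.re < _ := hw2; linarith)
        rw [e.fderiv_eq]
        exact (hmid g hg z (by linarith) (by linarith)).2
  -- the homotopy
  obtain ⟨HS, hHSc, hHS1, hHS2, hHS3⟩ := exists_fac (X + R + 1)
  have hWc : ContinuousOn (fun q : DiffC × ℝ => W q.1 q.2) (𝒦' ×ˢ Icc (0 : ℝ) 1) :=
    Wd_cont hRK hB hh hh1 hhB hbd hχ n
  have hK'sub : 𝒦 ⊆ 𝒦' := Set.subset_insert _ _
  have hSc : ContinuousOn (fun q : DiffC × ℝ => ((q.1)⁻¹ * W q.1 1, q.2))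
      (𝒦' ×ˢ Icc (0 : ℝ) 1) := by
    refine ContinuousOn.prodMk ?_ continuousOn_snd
    refine ContinuousOn.mul continuousOn_fst.inv ?_
    have h1 : ContinuousOn (fun q : DiffC × ℝ => (q.1, (1 : ℝ))) (𝒦' ×ˢ Icc (0 : ℝ) 1) :=
      continuousOn_fst.prodMk continuousOn_const
    exact hWc.comp h1 (fun q hq => ⟨hq.1, zero_le_one, le_rfl⟩)
  have hW0 : ∀ g ∈ 𝒦', W g 0 = 1 := by
    intro g hg
    apply Subtype.ext
    apply Equiv.ext
    intro z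
    rw [hW g hg 0 ⟨le_rfl, zero_le_one⟩, YY_trans (fun k _ w => by simp)]
    simp
  have hW1 : ∀ s ∈ Icc (0 : ℝ) 1, W 1 s = 1 := by
    intro s hs
    apply Subtype.ext
    apply Equiv.ext
    intro z
    rw [hW 1 (Set.mem_insert _ _) s hs, YY_trans (fun k _ w => by rw [Lam_one hh hh1, mul_zero])]
    simp
  refine ⟨X + R + 1, fun g s => W g s * (HS (g⁻¹ * W g 1) s)⁻¹, ?_, ?_, ?_, ?_, ?_⟩
  · rw [hX]; linarith [le_abs_self R₀]
  · refine ContinuousOn.mono ?_ (Set.prod_mono hK'sub Subset.rfl)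
    refine hWc.mul (ContinuousOn.inv ?_)
    exact hHSc.comp hSc (fun q hq => ⟨hHor q.1 hq.1, hq.2⟩)
  · intro g hg
    have hg' := hK'sub hg
    refine ⟨?_, ?_⟩
    · change W g 0 * (HS (g⁻¹ * W g 1) 0)⁻¹ = 1
      rw [hW0 g hg', (hHS1 _ (hHor g hg')).1, inv_one, one_mul]
    · change W g 1 * (HS (g⁻¹ * W g 1) 1)⁻¹ = g
      rw [(hHS1 _ (hHor g hg')).2]; group
  · intro g hg s hs
    have hg' := hK'sub hg
    exact (discSub _).mul_mem (hWsupp g hg' s hs)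
      ((discSub _).inv_mem (hHS2 _ (hHor g hg') s hs))
  · intro s hs
    change W 1 s * (HS ((1 : DiffC)⁻¹ * W 1 1) s)⁻¹ = 1
    rw [hW1 s hs, hW1 1 ⟨zero_le_one, le_rfl⟩, inv_one, one_mul, one_mul, hHS3 s hs, inv_one]

end Pool.Agent.H75B
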