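import Pool.Agent.H75B.Defs

/-!
# Locally uniform convergence of all partial derivatives, and composition
-/

set_option autoImplicit false

open scoped ContDiff
open Set Filter Topology

namespace Pool.Agent.H75B

open Pool.Agent.H45F Pool.Agent.H75S

/-- convergence of the partial derivatives of order at most `n` -/
def CT {ι : Type*} (l : Filter ι) (n : ℕ) (F : ι → ℂ → ℂ) (f : ℂ → ℂ) : Prop :=
  ∀ w : List Bool, w.length ≤ n → TendstoLocallyUniformly (fun i => pd w (F i)) (pd w f) l

section conv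

variable {ι : Type*} {l : Filter ι} {n : ℕ} {F G : ι → ℂ → ℂ} {f g : ℂ → ℂ}

/-- locally uniform convergence is convergence in the compact-open topology -/
theorem tlu_iff (hF : ∀ i, Continuous (F i)) (hf : Continuous f) :
    TendstoLocallyUniformly F f l ↔
      Tendsto (fun i => (⟨F i, hF i⟩ : C(ℂ, ℂ))) l (𝓝 ⟨f, hf⟩) :=
  (ContinuousMap.tendsto_iff_tendstoLocallyUniformly
    (F := fun i => (⟨F i, hF i⟩ : C(ℂ, ℂ))) (f := ⟨f, hf⟩)).symm

theorem tlu_add (hF : ∀ i, Continuous (F i)) (hG : ∀ i, Continuous (G i)) (hf : Continuous f)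
    (hg : Continuous g) (h1 : TendstoLocallyUniformly F f l)
    (h2 : TendstoLocallyUniformly G g l) :
    TendstoLocallyUniformly (fun i z => F i z + G i z) (fun z => f z + g z) l := by
  rw [tlu_iff hF hf] at h1
  rw [tlu_iff hG hg] at h2
  exact (tlu_iff (F := fun i z => F i z + G i z) (f := fun z => f z + g z)
    (fun i => (hF i).add (hG i)) (hf.add hg)).2 (h1.add h2)

theorem tlu_mul (hF : ∀ i, Continuous (F i)) (hG : ∀ i, Continuous (G i)) (hf : Continuous f)
    (hg : Continuous g) (h1 : TendstoLocallyUniformly F f l)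
    (h2 : TendstoLocallyUniformly G g l) :
    TendstoLocallyUniformly (fun i z => F i z * G i z) (fun z => f z * g z) l := by
  rw [tlu_iff hF hf] at h1
  rw [tlu_iff hG hg] at h2
  exact (tlu_iff (F := fun i z => F i z * G i z) (f := fun z => f z * g z)
    (fun i => (hF i).mul (hG i)) (hf.mul hg)).2 (h1.mul h2)

theorem tlu_comp (hF : ∀ i, Continuous (F i)) (hG : ∀ i, Continuous (G i)) (hf : Continuous f)
    (hg : Continuous g) (h1 : TendstoLocallyUniformly F f l)
    (h2 : TendstoLocallyUniformly G g l) :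
    TendstoLocallyUniformly (fun i z => F i (G i z)) (fun z => f (g z)) l := by
  rw [tlu_iff hF hf] at h1
  rw [tlu_iff hG hg] at h2
  exact (tlu_iff (F := fun i z => F i (G i z)) (f := fun z => f (g z))
    (fun i => (hF i).comp (hG i)) (hf.comp hg)).2 (h1.compCM h2)

theorem tlu_post {p : ℂ → ℂ} (hp : Continuous p) (hF : ∀ i, Continuous (F i))
    (hf : Continuous f) (h1 : TendstoLocallyUniformly F f l) :
    TendstoLocallyUniformly (fun i z => p (F i z)) (fun z => p (f z)) l := by
  rw [tlu_iff hF hf] at h1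
  exact (tlu_iff (F := fun i z => p (F i z)) (f := fun z => p (f z))
    (fun i => hp.comp (hF i)) (hp.comp hf)).2
    ((tendsto_const_nhds (x := (⟨p, hp⟩ : C(ℂ, ℂ)))).compCM h1)

theorem CT.mono {m : ℕ} (h : CT l n F f) (hm : m ≤ n) : CT l m F f :=
  fun w hw => h w (hw.trans hm)

theorem CT.tlu (h : CT l n F f) : TendstoLocallyUniformly F f l := h [] (Nat.zero_le _)

theorem CT.pd1 (h : CT l (n + 1) F f) (b : Bool) :
    CT l n (fun i => pdir b (F i)) (pdir b f) :=
  fun w hw => h (b :: w) (by rw [List.length_cons]; omega)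

theorem CT.zero (h : TendstoLocallyUniformly F f l) : CT l 0 F f := by
  intro w hw
  have : w = [] := List.length_eq_zero_iff.1 (Nat.le_zero.1 hw)
  subst this
  exact h

theorem CT.succ (h : TendstoLocallyUniformly F f l)
    (h' : ∀ b, CT l n (fun i => pdir b (F i)) (pdir b f)) : CT l (n + 1) F f := by
  intro w hw
  rcases w with _ | ⟨b, w⟩
  · exact h
  · refine h' b w ?_
    rw [List.length_cons] at hw
    omega

theorem pdir_add {u v : ℂ → ℂ} (hu : ContDiff ℝ ∞ u) (hv : ContDiff ℝ ∞ v) (b : Bool) :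
    pdir b (fun z => u z + v z) = fun z => pdir b u z + pdir b v z := by
  funext z
  unfold pdir
  have h1 := (hu.differentiable (by simp) z).hasFDerivAt.add
    (hv.differentiable (by simp) z).hasFDerivAt
  rw [show (fun z => u z + v z) = u + v from rfl, h1.fderiv]
  rfl

theorem pdir_mul {u v : ℂ → ℂ} (hu : ContDiff ℝ ∞ u) (hv : ContDiff ℝ ∞ v) (b : Bool) :
    pdir b (fun z => u z * v z) = fun z => u z * pdir b v z + pdir b u z * v z := by
  funext z
  unfold pdir
  have h1 := (hu.differentiable (by simp) z).hasFDerivAt.mul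
    (hv.differentiable (by simp) z).hasFDerivAt
  rw [show (fun z => u z * v z) = u * v from rfl, h1.fderiv]
  simp
  ring

theorem pdir_comp {u v : ℂ → ℂ} (hu : ContDiff ℝ ∞ u) (hv : ContDiff ℝ ∞ v) (b : Bool) :
    pdir b (fun z => u (v z)) = fun z => pdir false u (v z) * ((pdir b v z).re : ℂ) +
      pdir true u (v z) * ((pdir b v z).im : ℂ) := by
  funext z
  have h1 := (hu.differentiable (by simp) (v z)).hasFDerivAt.comp z
    (hv.differentiable (by simp) z).hasFDerivAt
  have h2 : pdir b (fun z => u (v z)) z = fderiv ℝ u (v z) (pdir b v z) := by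
    unfold pdir
    rw [show (fun z => u (v z)) = u ∘ v from rfl, h1.fderiv]
    rfl
  rw [h2]
  have h3 : pdir b v z = (pdir b v z).re • (1 : ℂ) + (pdir b v z).im • Complex.I := by
    apply Complex.ext <;> simp
  conv_lhs => rw [h3]
  rw [map_add, map_smul, map_smul]
  unfold pdir
  simp only [Complex.real_smul, Bool.false_eq_true, if_false, if_true]
  ring

theorem pdir_re {u : ℂ → ℂ} (hu : ContDiff ℝ ∞ u) (b : Bool) :
    pdir b (fun z => ((u z).re : ℂ)) = fun z => ((pdir b u z).re : ℂ) := by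
  funext z
  have h1 := (Complex.ofRealCLM.comp Complex.reCLM).hasFDerivAt.comp z
    (hu.differentiable (by simp) z).hasFDerivAt
  unfold pdir
  have h2 : (fun z => ((u z).re : ℂ)) = (Complex.ofRealCLM.comp Complex.reCLM) ∘ u := by
    funext z
    simp
  rw [h2, h1.fderiv]
  simp

theorem pdir_im {u : ℂ → ℂ} (hu : ContDiff ℝ ∞ u) (b : Bool) :
    pdir b (fun z => ((u z).im : ℂ)) = fun z => ((pdir b u z).im : ℂ) := by
  funext z
  have h1 := (Complex.ofRealCLM.comp Complex.imCLM).hasFDerivAt.comp z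
    (hu.differentiable (by simp) z).hasFDerivAt
  unfold pdir
  have h2 : (fun z => ((u z).im : ℂ)) = (Complex.ofRealCLM.comp Complex.imCLM) ∘ u := by
    funext z
    simp
  rw [h2, h1.fderiv]
  simp

theorem smooth_re {u : ℂ → ℂ} (hu : ContDiff ℝ ∞ u) : ContDiff ℝ ∞ fun z => ((u z).re : ℂ) :=
  (Complex.ofRealCLM.comp Complex.reCLM).contDiff.comp hu

theorem smooth_im {u : ℂ → ℂ} (hu : ContDiff ℝ ∞ u) : ContDiff ℝ ∞ fun z => ((u z).im : ℂ) :=
  (Complex.ofRealCLM.comp Complex.imCLM).contDiff.comp hu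

theorem CT.add (hF : ∀ i, ContDiff ℝ ∞ (F i)) (hG : ∀ i, ContDiff ℝ ∞ (G i))
    (hf : ContDiff ℝ ∞ f) (hg : ContDiff ℝ ∞ g) (h1 : CT l n F f) (h2 : CT l n G g) :
    CT l n (fun i z => F i z + G i z) (fun z => f z + g z) := by
  have hb : TendstoLocallyUniformly (fun i z => F i z + G i z) (fun z => f z + g z) l :=
    tlu_add (fun i => (hF i).continuous) (fun i => (hG i).continuous) hf.continuous
      hg.continuous h1.tlu h2.tlu
  induction n generalizing F G f g with
  | zero => exact CT.zero hb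
  | succ n ih =>
    refine CT.succ hb fun b => ?_
    rw [pdir_add hf hg b, show (fun i => pdir b fun z => F i z + G i z) =
      fun i z => pdir b (F i) z + pdir b (G i) z from
      funext fun i => pdir_add (hF i) (hG i) b]
    have hF' : ∀ i, ContDiff ℝ ∞ (pdir b (F i)) := fun i => pdir_smooth (hF i) b
    have hG' : ∀ i, ContDiff ℝ ∞ (pdir b (G i)) := fun i => pdir_smooth (hG i) b
    exact ih hF' hG' (pdir_smooth hf b) (pdir_smooth hg b) (h1.pd1 b) (h2.pd1 b)
      (tlu_add (fun i => (hF' i).continuous) (fun i => (hG' i).continuous)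
        (pdir_smooth hf b).continuous (pdir_smooth hg b).continuous (h1.pd1 b).tlu
        (h2.pd1 b).tlu)

theorem CT.mul (hF : ∀ i, ContDiff ℝ ∞ (F i)) (hG : ∀ i, ContDiff ℝ ∞ (G i))
    (hf : ContDiff ℝ ∞ f) (hg : ContDiff ℝ ∞ g) (h1 : CT l n F f) (h2 : CT l n G g) :
    CT l n (fun i z => F i z * G i z) (fun z => f z * g z) := by
  induction n generalizing F G f g with
  | zero =>
    exact CT.zero (tlu_mul (fun i => (hF i).continuous) (fun i => (hG i).continuous)
      hf.continuous hg.continuous h1.tlu h2.tlu)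
  | succ n ih =>
    refine CT.succ (tlu_mul (fun i => (hF i).continuous) (fun i => (hG i).continuous)
      hf.continuous hg.continuous h1.tlu h2.tlu) fun b => ?_
    rw [pdir_mul hf hg b, show (fun i => pdir b fun z => F i z * G i z) =
      fun i z => F i z * pdir b (G i) z + pdir b (F i) z * G i z
      from funext fun i => pdir_mul (hF i) (hG i) b]
    have hF' : ∀ i, ContDiff ℝ ∞ (pdir b (F i)) := fun i => pdir_smooth (hF i) b
    have hG' : ∀ i, ContDiff ℝ ∞ (pdir b (G i)) := fun i => pdir_smooth (hG i) b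
    have e1 := ih hF hG' hf (pdir_smooth hg b) (h1.mono (Nat.le_succ n)) (h2.pd1 b)
    have e2 := ih hF' hG (pdir_smooth hf b) hg (h1.pd1 b) (h2.mono (Nat.le_succ n))
    exact e1.add (fun i => (hF i).mul (hG' i)) (fun i => (hF' i).mul (hG i))
      (hf.mul (pdir_smooth hg b)) ((pdir_smooth hf b).mul hg) e2

theorem CT.re (hF : ∀ i, ContDiff ℝ ∞ (F i)) (hf : ContDiff ℝ ∞ f) (h1 : CT l n F f) :
    CT l n (fun i z => ((F i z).re : ℂ)) (fun z => ((f z).re : ℂ)) := by
  have hp : Continuous fun z : ℂ => (z.re : ℂ) := by fun_prop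
  induction n generalizing F f with
  | zero => exact CT.zero (tlu_post hp (fun i => (hF i).continuous) hf.continuous h1.tlu)
  | succ n ih =>
    refine CT.succ (tlu_post hp (fun i => (hF i).continuous) hf.continuous h1.tlu) fun b => ?_
    rw [pdir_re hf b, show (fun i => pdir b fun z => ((F i z).re : ℂ)) =
      fun i z => ((pdir b (F i) z).re : ℂ) from
      funext fun i => pdir_re (hF i) b]
    exact ih (fun i => pdir_smooth (hF i) b) (pdir_smooth hf b) (h1.pd1 b)

theorem CT.im (hF : ∀ i, ContDiff ℝ ∞ (F i)) (hf : ContDiff ℝ ∞ f) (h1 : CT l n F f) :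
    CT l n (fun i z => ((F i z).im : ℂ)) (fun z => ((f z).im : ℂ)) := by
  have hp : Continuous fun z : ℂ => (z.im : ℂ) := by fun_prop
  induction n generalizing F f with
  | zero => exact CT.zero (tlu_post hp (fun i => (hF i).continuous) hf.continuous h1.tlu)
  | succ n ih =>
    refine CT.succ (tlu_post hp (fun i => (hF i).continuous) hf.continuous h1.tlu) fun b => ?_
    rw [pdir_im hf b, show (fun i => pdir b fun z => ((F i z).im : ℂ)) =
      fun i z => ((pdir b (F i) z).im : ℂ) from
      funext fun i => pdir_im (hF i) b]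
    exact ih (fun i => pdir_smooth (hF i) b) (pdir_smooth hf b) (h1.pd1 b)

end conv

theorem CT.comp {ι : Type*} {l : Filter ι} {n : ℕ} {F G : ι → ℂ → ℂ} {f g : ℂ → ℂ}
    (hF : ∀ i, ContDiff ℝ ∞ (F i)) (hG : ∀ i, ContDiff ℝ ∞ (G i)) (hf : ContDiff ℝ ∞ f)
    (hg : ContDiff ℝ ∞ g) (h1 : CT l n F f) (h2 : CT l n G g) :
    CT l n (fun i => F i ∘ G i) (f ∘ g) := by
  have hb : ∀ {F : ι → ℂ → ℂ} {f : ℂ → ℂ}, (∀ i, ContDiff ℝ ∞ (F i)) → ContDiff ℝ ∞ f →
      TendstoLocallyUniformly F f l →
      TendstoLocallyUniformly (fun i => F i ∘ G i) (f ∘ g) l := by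
    intro F f hF hf h
    exact tlu_comp (F := F) (G := G) (f := f) (g := g) (fun i => (hF i).continuous)
      (fun i => (hG i).continuous) hf.continuous hg.continuous h h2.tlu
  induction n generalizing F f with
  | zero => exact CT.zero (hb hF hf h1.tlu)
  | succ n ih =>
    refine CT.succ (hb hF hf h1.tlu) fun b => ?_
    have e0 : pdir b (f ∘ g) = fun z =>
        pdir false f (g z) * ((pdir b g z).re : ℂ) +
        pdir true f (g z) * ((pdir b g z).im : ℂ) :=
      pdir_comp hf hg b
    have e1 : (fun i => pdir b (F i ∘ G i)) = fun i z =>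
        pdir false (F i) (G i z) *
          ((pdir b (G i) z).re : ℂ) +
        pdir true (F i) (G i z) *
          ((pdir b (G i) z).im : ℂ) :=
      funext fun i => pdir_comp (hF i) (hG i) b
    rw [e0, e1]
    have h2' := h2.mono (Nat.le_succ n)
    have hFs : ∀ (c : Bool) i, ContDiff ℝ ∞ (pdir c (F i)) :=
      fun c i => pdir_smooth (hF i) c
    have hGs : ∀ i, ContDiff ℝ ∞ (pdir b (G i)) := fun i => pdir_smooth (hG i) b
    have hfs : ∀ c : Bool, ContDiff ℝ ∞ (pdir c f) := fun c => pdir_smooth hf c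
    have hgs : ContDiff ℝ ∞ (pdir b g) := pdir_smooth hg b
    have a1 := ih (hFs false) (hfs false) (h1.pd1 false) h2'
    have a2 := ih (hFs true) (hfs true) (h1.pd1 true) h2'
    have b1 := (h2.pd1 b).re hGs hgs
    have b2 := (h2.pd1 b).im hGs hgs
    have c1 := a1.mul (fun i => (hFs false i).comp (hG i)) (fun i => smooth_re (hGs i))
      ((hfs false).comp hg) (smooth_re hgs) b1
    have c2 := a2.mul (fun i => (hFs true i).comp (hG i)) (fun i => smooth_im (hGs i))
      ((hfs true).comp hg) (smooth_im hgs) b2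
    exact c1.add (fun i => ((hFs false i).comp (hG i)).mul (smooth_re (hGs i)))
      (fun i => ((hFs true i).comp (hG i)).mul (smooth_im (hGs i)))
      (((hfs false).comp hg).mul (smooth_re hgs)) (((hfs true).comp hg).mul (smooth_im hgs)) c2

theorem tendsto_iff {ι : Type*} {l : Filter ι} {g : ι → DiffC} {h : DiffC} :
    Tendsto g l (𝓝 h) ↔ (∀ n, CT l n (fun i => ((g i : Equiv.Perm ℂ) : ℂ → ℂ)) (h : Equiv.Perm ℂ)) ∧
      (∀ n, CT l n (fun i => (((g i)⁻¹ : DiffC) : Equiv.Perm ℂ)) ((h⁻¹ : DiffC) : Equiv.Perm ℂ)) := by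
  rw [isInducing_emb.tendsto_nhds_iff, tendsto_pi_nhds]
  have key : ∀ q, Tendsto (fun i => emb (g i) q) l (𝓝 (emb h q)) ↔
      TendstoLocallyUniformly (fun i => pd q.1 (((if q.2 then g i else (g i)⁻¹ : DiffC) :
        Equiv.Perm ℂ) : ℂ → ℂ)) (pd q.1 (((if q.2 then h else h⁻¹ : DiffC) :
        Equiv.Perm ℂ) : ℂ → ℂ)) l := by
    intro q
    exact ContinuousMap.tendsto_iff_tendstoLocallyUniformly
  constructor
  · intro H
    refine ⟨fun n w _ => ?_, fun n w _ => ?_⟩
    · have := (key (w, true)).1 (H (w, true))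
      exact this
    · have := (key (w, false)).1 (H (w, false))
      exact this
  · rintro ⟨H1, H2⟩ ⟨w, b⟩
    refine (key (w, b)).2 ?_
    cases b with
    | true => exact H1 w.length w le_rfl
    | false => exact H2 w.length w le_rfl

instance : IsTopologicalGroup DiffC where
  continuous_mul := by
    rw [continuous_iff_continuousAt]
    rintro ⟨g, h⟩
    have t1 : Tendsto (fun p : DiffC × DiffC => p.1) (𝓝 (g, h)) (𝓝 g) :=
      continuous_fst.tendsto (g, h)
    have t2 : Tendsto (fun p : DiffC × DiffC => p.2) (𝓝 (g, h)) (𝓝 h) :=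
      continuous_snd.tendsto (g, h)
    rw [tendsto_iff] at t1 t2
    have t3 : Tendsto (fun p : DiffC × DiffC => p.1 * p.2) (𝓝 (g, h)) (𝓝 (g * h)) := by
      rw [tendsto_iff]
      refine ⟨fun n => ?_, fun n => ?_⟩
      · have := (t1.1 n).comp (fun p => p.1.2.1) (fun p => p.2.2.1) g.2.1 h.2.1 (t2.1 n)
        exact this
      · have := (t2.2 n).comp (fun p => (p.2⁻¹).2.1) (fun p => (p.1⁻¹).2.1) (h⁻¹).2.1
          (g⁻¹).2.1 (t1.2 n)
        have e1 : (fun i : DiffC × DiffC => (((i.1 * i.2)⁻¹ : DiffC) : Equiv.Perm ℂ) : DiffC × DiffC → ℂ → ℂ) =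
            fun i => (((i.2)⁻¹ : DiffC) : Equiv.Perm ℂ) ∘ (((i.1)⁻¹ : DiffC) : Equiv.Perm ℂ) := by
          funext i z
          rw [mul_inv_rev]
          rfl
        have e2 : ((((g * h)⁻¹ : DiffC) : Equiv.Perm ℂ) : ℂ → ℂ) =
            (((h)⁻¹ : DiffC) : Equiv.Perm ℂ) ∘ (((g)⁻¹ : DiffC) : Equiv.Perm ℂ) := by
          rw [mul_inv_rev]
          rfl
        rw [e1, e2]
        exact this
    exact t3
  continuous_inv := by
    rw [continuous_iff_continuousAt]
    intro g
    have t1 : Tendsto (fun p : DiffC => p) (𝓝 g) (𝓝 g) := tendsto_id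
    rw [tendsto_iff] at t1
    have t3 : Tendsto (fun p : DiffC => p⁻¹) (𝓝 g) (𝓝 g⁻¹) := by
      rw [tendsto_iff]
      refine ⟨t1.2, fun n => ?_⟩
      simpa only [inv_inv] using t1.1 n
    exact t3

end Pool.Agent.H75B
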