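import Pool.Agent.H75B.Defs

set_option autoImplicit false

open scoped ContDiff
open Set Filter Topology

namespace Pool.Agent.H75B

open Pool.Agent.H45F Pool.Agent.H75S

/-- the derivative of the displacement of an inverse -/
theorem fderiv_inv_eq {G H : ℂ → ℂ} (hG : ContDiff ℝ ∞ G) (hH : ContDiff ℝ ∞ H)
    (hGH : ∀ z, G (H z) = z) (z : ℂ) :
    fderiv ℝ (fun w => H w - w) z =
      -(fderiv ℝ (fun w => G w - w) (H z) +
        (fderiv ℝ (fun w => G w - w) (H z)).comp (fderiv ℝ (fun w => H w - w) z)) := by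
  have hv : ContDiff ℝ ∞ (fun w => G w - w) := hG.sub contDiff_id
  have hu : ContDiff ℝ ∞ (fun w => H w - w) := hH.sub contDiff_id
  have hvd : HasFDerivAt (fun y => G y - y) (fderiv ℝ (fun y => G y - y) (H z)) (H z) :=
    (hv.differentiable (by simp) (H z)).hasFDerivAt
  have hHd : HasFDerivAt H (fderiv ℝ (fun w => H w - w) z + ContinuousLinearMap.id ℝ ℂ) z := by
    have h := (hu.differentiable (by simp) z).hasFDerivAt.add (hasFDerivAt_id z)
    refine h.congr_of_eventuallyEq (Eventually.of_forall fun w => ?_)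
    simp
  have h2 := (hvd.comp z hHd).neg
  have h3 : HasFDerivAt (fun w => H w - w) (-((fderiv ℝ (fun y => G y - y) (H z)).comp
      (fderiv ℝ (fun w => H w - w) z + ContinuousLinearMap.id ℝ ℂ))) z := by
    refine h2.congr_of_eventuallyEq (Eventually.of_forall fun w => ?_)
    simp [hGH w]
  calc fderiv ℝ (fun w => H w - w) z = _ := h3.fderiv
    _ = _ := by rw [ContinuousLinearMap.comp_add, ContinuousLinearMap.comp_id, add_comm]

theorem inv_bound (j : ℕ) : ∃ C : ℝ, 1 ≤ C ∧ ∀ (G H : ℂ → ℂ) (δ : ℝ), ContDiff ℝ ∞ G →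
    ContDiff ℝ ∞ H → (∀ z, G (H z) = z) → 0 ≤ δ → δ ≤ 1 / 2 →
    (∀ i ≤ j, ∀ z, ‖iteratedFDeriv ℝ i (fun w => G w - w) z‖ ≤ δ) →
    ∀ i < j, ∀ z, ‖iteratedFDeriv ℝ i (fderiv ℝ (fun w => H w - w)) z‖ ≤ C * δ := by
  induction j with
  | zero => exact ⟨1, le_rfl, fun G H δ _ _ _ _ _ _ i hi => absurd hi (Nat.not_lt_zero i)⟩
  | succ j ih =>
    obtain ⟨C, hC1, ih⟩ := ih
    set K : ℝ := (j.factorial : ℝ) * (1 + C) ^ j with hK
    have hK0 : 0 ≤ K := by positivity
    refine ⟨C + 2 * (K + 2 ^ j * (K * C)), by nlinarith [show (0 : ℝ) ≤ 2 * (K + 2 ^ j * (K * C)) by positivity], ?_⟩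
    intro G H δ hG hH hGH hδ0 hδ hv i hi z
    have ihB := ih G H δ hG hH hGH hδ0 hδ (fun i hi z => hv i (by omega) z)
    rcases Nat.lt_or_ge i j with hij | hij
    · refine (ihB i hij z).trans ?_
      have : 0 ≤ 2 * (K + 2 ^ j * (K * C)) * δ := by positivity
      nlinarith
    have hij : i = j := by omega
    subst hij
    have hvs : ContDiff ℝ ∞ (fun w => G w - w) := hG.sub contDiff_id
    have hus : ContDiff ℝ ∞ (fun w => H w - w) := hH.sub contDiff_id
    have hdv : ContDiff ℝ ∞ (fderiv ℝ (fun w => G w - w)) := hvs.fderiv_right (m := ∞) (by simp)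
    have hdu : ContDiff ℝ ∞ (fderiv ℝ (fun w => H w - w)) := hus.fderiv_right (m := ∞) (by simp)
    -- derivatives of `H`
    have hH' : ∀ m, 1 ≤ m → m ≤ i → ∀ y, ‖iteratedFDeriv ℝ m H y‖ ≤ (1 + C) ^ m := by
      intro m hm hmi y
      obtain ⟨k, rfl⟩ : ∃ k, m = k + 1 := ⟨m - 1, by omega⟩
      have h1 : fderiv ℝ H = (fderiv ℝ (fun w => H w - w)) + fun _ => ContinuousLinearMap.id ℝ ℂ := by
        funext x
        have h := (hus.differentiable (by simp) x).hasFDerivAt.add (hasFDerivAt_id x)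
        have h' : HasFDerivAt H (fderiv ℝ (fun w => H w - w) x + ContinuousLinearMap.id ℝ ℂ) x := by
          refine h.congr_of_eventuallyEq (Eventually.of_forall fun w => ?_)
          simp
        exact h'.fderiv
      rw [← norm_iteratedFDeriv_fderiv, h1, iteratedFDeriv_add_apply
        (hdu.contDiffAt.of_le (by exact_mod_cast le_top)) contDiffAt_const]
      have h2 : ‖iteratedFDeriv ℝ k (fun _ : ℂ => ContinuousLinearMap.id ℝ ℂ) y‖ ≤ 1 := by
        rcases Nat.eq_zero_or_pos k with rfl | hk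
        · rw [norm_iteratedFDeriv_zero]
          exact ContinuousLinearMap.norm_id_le
        · rw [iteratedFDeriv_const_of_ne (by omega)]
          simp
      have h3 := ihB k (by omega) y
      have h4 : C * δ ≤ C := by nlinarith
      calc _ ≤ C * δ + 1 := (norm_add_le _ _).trans (add_le_add h3 h2)
        _ ≤ 1 + C := by linarith
        _ ≤ (1 + C) ^ (k + 1) := le_self_pow₀ (by linarith) (by omega)
    -- derivatives of `A`
    have hA : ∀ m ≤ i, ∀ y, ‖iteratedFDeriv ℝ m (fderiv ℝ (fun w => G w - w) ∘ H) y‖ ≤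
        K * δ := by
      intro m hm y
      have h := norm_iteratedFDeriv_comp_le (n := m) (C := δ) (D := 1 + C) hdv hH
        (by exact_mod_cast le_top) y
        (fun k hk => by
          rw [norm_iteratedFDeriv_fderiv]
          exact hv (k + 1) (by omega) _)
        (fun k hk1 hk => hH' k hk1 (by omega) y)
      refine h.trans ?_
      have h1 : (m.factorial : ℝ) ≤ i.factorial := by exact_mod_cast Nat.factorial_le hm
      have h2 : (1 + C) ^ m ≤ (1 + C) ^ i := pow_le_pow_right₀ (by linarith) hm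
      calc (m.factorial : ℝ) * δ * (1 + C) ^ m ≤ i.factorial * δ * (1 + C) ^ i := by
            gcongr
        _ = K * δ := by rw [hK]; ring
    have hA0 : ‖iteratedFDeriv ℝ 0 (fderiv ℝ (fun w => G w - w) ∘ H) z‖ ≤ δ := by
      rw [norm_iteratedFDeriv_zero, Function.comp_apply]
      have h := hv 1 (by omega) (H z)
      rwa [← norm_iteratedFDeriv_fderiv, norm_iteratedFDeriv_zero] at h
    -- the equation
    have hBeq : fderiv ℝ (fun w => H w - w) = -((fderiv ℝ (fun w => G w - w) ∘ H) +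
        fun y => ContinuousLinearMap.compL ℝ ℂ ℂ ℂ ((fderiv ℝ (fun w => G w - w) ∘ H) y)
          (fderiv ℝ (fun w => H w - w) y)) := by
      funext y
      exact fderiv_inv_eq hG hH hGH y
    have hAs : ContDiff ℝ ∞ (fderiv ℝ (fun w => G w - w) ∘ H) := hdv.comp hH
    have hABs : ContDiff ℝ ∞ (fun y => ContinuousLinearMap.compL ℝ ℂ ℂ ℂ
        ((fderiv ℝ (fun w => G w - w) ∘ H) y) (fderiv ℝ (fun w => H w - w) y)) :=
      ((ContinuousLinearMap.compL ℝ ℂ ℂ ℂ).isBoundedBilinearMap.contDiff).comp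
        (hAs.prodMk hdu)
    have hbil := (ContinuousLinearMap.compL ℝ ℂ ℂ ℂ).norm_iteratedFDeriv_le_of_bilinear_of_le_one
      (n := i) hAs hdu z (by exact_mod_cast le_top) (ContinuousLinearMap.norm_compL_le ℝ ℂ ℂ ℂ)
    set X : ℝ := ‖iteratedFDeriv ℝ i (fderiv ℝ (fun w => H w - w)) z‖ with hX
    have hX0 : 0 ≤ X := norm_nonneg _
    have hsum : X ≤ ‖iteratedFDeriv ℝ i (fderiv ℝ (fun w => G w - w) ∘ H) z‖ +
        ‖iteratedFDeriv ℝ i (fun y => ContinuousLinearMap.compL ℝ ℂ ℂ ℂ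
          ((fderiv ℝ (fun w => G w - w) ∘ H) y) (fderiv ℝ (fun w => H w - w) y)) z‖ := by
      conv_lhs => rw [hX, hBeq]
      rw [iteratedFDeriv_neg_apply, norm_neg, iteratedFDeriv_add_apply
        (hAs.contDiffAt.of_le (by exact_mod_cast le_top))
        (hABs.contDiffAt.of_le (by exact_mod_cast le_top))]
      exact norm_add_le _ _
    rw [Finset.sum_range_succ'] at hbil
    have hrest : ∑ k ∈ Finset.range i, ((i.choose (k + 1) : ℕ) : ℝ) *
        ‖iteratedFDeriv ℝ (k + 1) (fderiv ℝ (fun w => G w - w) ∘ H) z‖ *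
        ‖iteratedFDeriv ℝ (i - (k + 1)) (fderiv ℝ (fun w => H w - w)) z‖ ≤
        2 ^ i * (K * C * δ) := by
      calc _ ≤ ∑ k ∈ Finset.range i, ((i.choose (k + 1) : ℕ) : ℝ) * (K * C * δ) := by
            refine Finset.sum_le_sum fun k hk => ?_
            have hk := Finset.mem_range.1 hk
            rw [mul_assoc]
            refine mul_le_mul_of_nonneg_left ?_ (Nat.cast_nonneg _)
            calc _ ≤ (K * δ) * (C * δ) :=
                  mul_le_mul (hA (k + 1) (by omega) z) (ihB _ (by omega) z) (norm_nonneg _)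
                    (by positivity)
              _ ≤ K * C * δ := by
                  have : 0 ≤ K * C * δ := by positivity
                  nlinarith
        _ = (∑ k ∈ Finset.range i, ((i.choose (k + 1) : ℕ) : ℝ)) * (K * C * δ) := by
            rw [Finset.sum_mul]
        _ ≤ 2 ^ i * (K * C * δ) := by
            refine mul_le_mul_of_nonneg_right ?_ (by positivity)
            have h1 := Nat.sum_range_choose i
            rw [Finset.sum_range_succ'] at h1
            have h2 : ∑ k ∈ Finset.range i, i.choose (k + 1) ≤ 2 ^ i := by omega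
            exact_mod_cast h2
    have h0 : ((i.choose 0 : ℕ) : ℝ) *
        ‖iteratedFDeriv ℝ 0 (fderiv ℝ (fun w => G w - w) ∘ H) z‖ *
        ‖iteratedFDeriv ℝ (i - 0) (fderiv ℝ (fun w => H w - w)) z‖ ≤ δ * X := by
      rw [Nat.choose_zero_right, Nat.cast_one, one_mul, Nat.sub_zero]
      exact mul_le_mul_of_nonneg_right hA0 hX0
    have hfin : X ≤ K * δ + (2 ^ i * (K * C * δ) + δ * X) :=
      hsum.trans (add_le_add (hA i le_rfl z) (hbil.trans (add_le_add hrest h0)))
    have hCδ : 0 ≤ C * δ := by positivity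
    nlinarith [mul_nonneg (sub_nonneg.2 hδ) hX0]

/-- Inverses of small diffeomorphisms are small. -/
theorem small_inv (R : ℝ) (r : ℕ) {ε : ℝ} (hε : 0 < ε) :
    ∃ (r' : ℕ) (ε' : ℝ), 0 < ε' ∧ ∀ g : DiffC, Small R r' ε' g → Small R r ε (g⁻¹ : DiffC) := by
  obtain ⟨C, hC1, hC⟩ := inv_bound r
  have hC0 : 0 < C := by linarith
  refine ⟨r, min (1 / 2) (min ε (ε / C)), by positivity, fun g hg => ?_⟩
  set δ : ℝ := min (1 / 2) (min ε (ε / C)) with hδ
  have hδ0 : 0 ≤ δ := by positivity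
  have hδ1 : δ ≤ 1 / 2 := min_le_left _ _
  have hδ2 : δ ≤ ε := (min_le_right _ _).trans (min_le_left _ _)
  have hδ3 : C * δ ≤ ε := by
    have : δ ≤ ε / C := (min_le_right _ _).trans (min_le_right _ _)
    rw [le_div_iff₀ hC0] at this
    linarith
  have hinv : ((g⁻¹ : DiffC) : Equiv.Perm ℂ) = (g : Equiv.Perm ℂ)⁻¹ := rfl
  have hGH : ∀ z, (g : Equiv.Perm ℂ) (((g⁻¹ : DiffC) : Equiv.Perm ℂ) z) = z := by
    intro z
    rw [hinv]
    exact Equiv.apply_symm_apply _ z
  refine ⟨fun z hz => ?_, fun j hj z => ?_⟩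
  · have h1 := hg.1 z hz
    rw [hinv, Equiv.Perm.inv_eq_iff_eq, h1]
  · rcases Nat.eq_zero_or_pos j with rfl | hj0
    · rw [norm_iteratedFDeriv_zero]
      have h1 := hg.2 0 (Nat.zero_le _) (((g⁻¹ : DiffC) : Equiv.Perm ℂ) z)
      rw [norm_iteratedFDeriv_zero, hGH z] at h1
      rw [norm_sub_rev]
      exact h1.trans hδ2
    · obtain ⟨k, rfl⟩ : ∃ k, j = k + 1 := ⟨j - 1, by omega⟩
      rw [← norm_iteratedFDeriv_fderiv]
      exact (hC _ _ δ g.2.1 g.2.2.1 hGH hδ0 hδ1 hg.2 k (by omega) z).trans hδ3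

end Pool.Agent.H75B
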