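import Pool.Agent.H75B.Baire
import Pool.Agent.H75B.Nhds
import Pool.Agent.H75B.Inv

set_option autoImplicit false

open scoped ContDiff commutatorElement
open Set Filter Topology

namespace Pool.Agent.H75B

open Pool.Agent.H45F Pool.Agent.H75S Pool.Agent.H75T

universe u

theorem small_subset (R : ℝ) {V : Set DiffC} (hV : V ∈ NF R) :
    ∃ (r : ℕ) (ε : ℝ), 0 < ε ∧ ∀ g : DiffC, Small R r ε g → g ∈ V := by
  obtain ⟨r, ε, hε, h⟩ := exists_small_subset R hV
  obtain ⟨r', ε', hε', h'⟩ := small_inv R r hε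
  refine ⟨max r r', min ε ε', lt_min hε hε', fun g hg => h g ?_ (h' g ?_)⟩
  · exact hg.mono (le_max_left _ _) (min_le_left _ _)
  · exact hg.mono (le_max_right _ _) (min_le_right _ _)

variable {E : Type u} [Group E] (p : E →* DiffC) (hp : Function.Surjective p)
  (hc : p.ker ≤ Subgroup.center E) (hE : commutator E = ⊤)
  {A : Type*} [AddCommGroup A] (φ : p.ker →* Multiplicative A)

include hp hc hE in
/-- the extension by `A` splits locally -/
theorem local_section [Countable A]
    (htf : ∀ (n : ℕ) (a : A), n ≠ 0 → n • a = 0 → a = 0)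
    (hred : ∀ a : A, (∀ n : ℕ, n ≠ 0 → ∃ b : A, n • b = a) → a = 0) (R : ℝ) :
    ∃ (r : ℕ) (ε : ℝ), 0 < ε ∧ ∃ s : DiffC → E, (∀ g, p (s g) = g) ∧
      ∀ g h : DiffC, Small R r ε g → Small R r ε h → Small R r ε (g * h : DiffC) →
        val φ (s g * s h * (s (g * h))⁻¹) = 0 := by
  classical
  obtain ⟨k, R', hk⟩ := locally_perfect (commutator_diffC_eq_top p hp hE) R
  obtain ⟨r, ε, hε, hS⟩ := small_relations_list p hp hc hE φ htf hred (3 * k) R'
  obtain ⟨r', ε', hε', hsub⟩ := small_subset R (hk _ (small_mem R' r hε))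
  have hrep : ∀ g : DiffC, ∃ x : E, p x = g ∧ (Small R r' ε' g → ∃ L : List (E × E),
      L.length = k ∧ (∀ q ∈ L, Small R' r ε (p q.1) ∧ Small R' r ε (p q.2)) ∧ x = lw L) := by
    intro g
    by_cases hs : Small R r' ε' g
    · obtain ⟨L, h1, h2, h3⟩ := hsub g hs
      refine ⟨lw (L.map fun q => (lft p hp q.1, lft p hp q.2)), ?_, fun _ => ⟨_, ?_, ?_, rfl⟩⟩
      · rw [map_lw, List.map_map, h3]
        congr 1
        conv_rhs => rw [← List.map_id L]
        apply List.map_congr_left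
        intro q _
        simp [p_lft]
      · rw [List.length_map, h1]
      · intro q hq
        rw [List.mem_map] at hq
        obtain ⟨q', hq', rfl⟩ := hq
        simp only [p_lft]
        exact h2 q' hq'
    · exact ⟨lft p hp g, p_lft p hp g, fun h => absurd h hs⟩
  choose s hs1 hs2 using hrep
  refine ⟨r', ε', hε', s, hs1, fun g h hg hh hgh => ?_⟩
  obtain ⟨L1, l1, s1, e1⟩ := hs2 g hg
  obtain ⟨L2, l2, s2, e2⟩ := hs2 h hh
  obtain ⟨L3, l3, s3, e3⟩ := hs2 (g * h) hgh
  set L4 : List (E × E) := (L1 ++ L2) ++ (L3.reverse.map fun q => (q.2, q.1)) with hL4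
  have e : lw L4 = s g * s h * (s (g * h))⁻¹ := by
    rw [hL4, lw_append, lw_append, lw_inv, e1, e2, e3]
  have hker : lw L4 ∈ p.ker := by
    rw [MonoidHom.mem_ker, e, map_mul, map_inv, map_mul, hs1, hs1, hs1]; group
  rw [← e]
  refine hS L4 ?_ ?_ hker
  · rw [hL4]; simp [l1, l2, l3]; ring
  · intro q hq
    rw [hL4, List.mem_append, List.mem_append, List.mem_map] at hq
    rcases hq with (hq | hq) | ⟨q', hq', rfl⟩
    · exact s1 q hq
    · exact s2 q hq
    · rw [List.mem_reverse] at hq'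
      exact ⟨(s3 q' hq').2, (s3 q' hq').1⟩

include hp hc hE in
/-- With local presentability there are no nonzero homomorphisms. -/
theorem val_eq_zero' [Countable A]
    (htf : ∀ (n : ℕ) (a : A), n ≠ 0 → n • a = 0 → a = 0)
    (hred : ∀ a : A, (∀ n : ℕ, n ≠ 0 → ∃ b : A, n • b = a) → a = 0)
    (hLE : LocallyPresented.{u}) {z : E} (hz : z ∈ p.ker) :
    val φ z = 0 := by
  classical
  have := kerE_normal p hc φ
  obtain ⟨L, hL⟩ := exists_list_of_commutator_top hE z
  obtain ⟨R, hR⟩ := exists_radius_list (L.map (fun q => p q.1) ++ L.map (fun q => p q.2))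
  have hR1 : ∀ q ∈ L, p q.1 ∈ discSub R := fun q hq =>
    hR _ (List.mem_append_left _ (List.mem_map_of_mem hq))
  have hR2 : ∀ q ∈ L, p q.2 ∈ discSub R := fun q hq =>
    hR _ (List.mem_append_right _ (List.mem_map_of_mem hq))
  obtain ⟨r', ε', hε', s, hs1, hs2⟩ := local_section p hp hc hE φ htf hred R
  set r'' : ℕ := max r' 1 with hr''
  set ε'' : ℝ := min ε' (1 / 2) with hε''
  have hε''0 : 0 < ε'' := lt_min hε' (by norm_num)
  obtain ⟨hgen, hext⟩ := hLE R r'' ε'' (le_max_right _ _) hε''0 (min_le_right _ _)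
  have hmono : ∀ {g : DiffC}, Small R r'' ε'' g → Small R r' ε' g := fun h =>
    h.mono (le_max_left _ _) (min_le_left _ _)
  obtain ⟨σ, hσ⟩ := hext (E ⧸ kerE p φ) (fun g => (QuotientGroup.mk (s g) : E ⧸ kerE p φ)) (by
    intro g h hgs hhs hghs
    have h1 := hs2 g h (hmono hgs) (hmono hhs) (hmono hghs)
    have hk : s g * s h * (s (g * h))⁻¹ ∈ p.ker := by
      rw [MonoidHom.mem_ker, map_mul, map_inv, map_mul, hs1, hs1, hs1]; group
    have h2 : s g * s h * (s (g * h))⁻¹ ∈ kerE p φ := ⟨hk, h1⟩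
    have h3 : (QuotientGroup.mk (s g * s h * (s (g * h))⁻¹) : E ⧸ kerE p φ) = 1 :=
      (QuotientGroup.eq_one_iff _).mpr h2
    rw [QuotientGroup.mk_mul, QuotientGroup.mk_inv, QuotientGroup.mk_mul] at h3
    exact (mul_inv_eq_one.mp h3).symm)
  let pb : E ⧸ kerE p φ →* DiffC := QuotientGroup.lift (kerE p φ) p (fun x hx => hx.1)
  have hpb : ∀ x : E, pb (QuotientGroup.mk x) = p x := fun x => rfl
  have hpbc : pb.ker ≤ Subgroup.center (E ⧸ kerE p φ) := by
    intro x hx
    obtain ⟨x, rfl⟩ := QuotientGroup.mk_surjective x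
    have hx' : x ∈ p.ker := by
      rw [MonoidHom.mem_ker, ← hpb]; exact hx
    rw [Subgroup.mem_center_iff]
    intro y
    obtain ⟨y, rfl⟩ := QuotientGroup.mk_surjective y
    rw [← QuotientGroup.mk_mul, ← QuotientGroup.mk_mul, Subgroup.mem_center_iff.mp (hc hx') y]
  have hσp : ∀ g : discSub R, pb (σ g) = g := by
    intro g
    have h1 : (g : DiffC) ∈ Subgroup.closure {g : DiffC | Small R r'' ε'' g} := hgen g.2
    have h2 : ∀ x ∈ Subgroup.closure {g : DiffC | Small R r'' ε'' g},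
        ∃ hx : x ∈ discSub R, pb (σ ⟨x, hx⟩) = x := by
      intro x hx
      induction hx using Subgroup.closure_induction with
      | mem x hx =>
        have hx' : x ∈ discSub R := hx.1
        refine ⟨hx', ?_⟩
        rw [hσ ⟨x, hx'⟩ hx]
        exact hs1 x
      | one => exact ⟨(discSub R).one_mem, by
          have : (⟨1, (discSub R).one_mem⟩ : discSub R) = 1 := rfl
          rw [this, map_one, map_one]⟩
      | mul x y _ _ hx hy =>
        obtain ⟨hx1, hx2⟩ := hx
        obtain ⟨hy1, hy2⟩ := hy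
        refine ⟨(discSub R).mul_mem hx1 hy1, ?_⟩
        have : (⟨x * y, (discSub R).mul_mem hx1 hy1⟩ : discSub R) = ⟨x, hx1⟩ * ⟨y, hy1⟩ := rfl
        rw [this, map_mul, map_mul, hx2, hy2]
      | inv x _ hx =>
        obtain ⟨hx1, hx2⟩ := hx
        refine ⟨(discSub R).inv_mem hx1, ?_⟩
        have : (⟨x⁻¹, (discSub R).inv_mem hx1⟩ : discSub R) = ⟨x, hx1⟩⁻¹ := rfl
        rw [this, map_inv, map_inv, hx2]
    exact (h2 g h1).2
  have hdisc : ∀ L' : List (E × E), (∀ q ∈ L', p q.1 ∈ discSub R) → (∀ q ∈ L', p q.2 ∈ discSub R) →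
      ∃ h : lw (L'.map fun q => (p q.1, p q.2)) ∈ discSub R,
        (QuotientGroup.mk (lw L') : E ⧸ kerE p φ) = σ ⟨_, h⟩ := by
    intro L'
    induction L' with
    | nil =>
      intro _ _
      refine ⟨(discSub R).one_mem, ?_⟩
      have : (⟨lw (([] : List (E × E)).map fun q => (p q.1, p q.2)), (discSub R).one_mem⟩ :
        discSub R) = 1 := rfl
      rw [this, map_one]; rfl
    | cons q L' ih =>
      intro h1 h2
      obtain ⟨h3, h4⟩ := ih (fun q hq => h1 q (List.mem_cons_of_mem _ hq))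
        (fun q hq => h2 q (List.mem_cons_of_mem _ hq))
      have hq1 := h1 q List.mem_cons_self
      have hq2 := h2 q List.mem_cons_self
      have h5 : ⁅p q.1, p q.2⁆ ∈ discSub R := by
        rw [commutatorElement_def]
        exact (discSub R).mul_mem ((discSub R).mul_mem ((discSub R).mul_mem hq1 hq2)
          ((discSub R).inv_mem hq1)) ((discSub R).inv_mem hq2)
      have e1 : lw ((q :: L').map fun q => (p q.1, p q.2)) =
          ⁅p q.1, p q.2⁆ * lw (L'.map fun q => (p q.1, p q.2)) := by simp [lw]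
      refine ⟨by rw [e1]; exact (discSub R).mul_mem h5 h3, ?_⟩
      have e2 : lw (q :: L') = ⁅q.1, q.2⁆ * lw L' := by simp [lw]
      have e3 : (⟨lw ((q :: L').map fun q => (p q.1, p q.2)), by
          rw [e1]; exact (discSub R).mul_mem h5 h3⟩ : discSub R) =
          ⁅(⟨p q.1, hq1⟩ : discSub R), ⟨p q.2, hq2⟩⁆ *
            ⟨lw (L'.map fun q => (p q.1, p q.2)), h3⟩ := by
        refine Subtype.ext (e1.trans ?_)
        simp [commutatorElement_def]
      rw [e3, map_mul, ← h4, e2, QuotientGroup.mk_mul]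
      congr 1
      have e4 : (QuotientGroup.mk ⁅q.1, q.2⁆ : E ⧸ kerE p φ) =
          ⁅(QuotientGroup.mk q.1 : E ⧸ kerE p φ), QuotientGroup.mk q.2⁆ := by
        simp only [commutatorElement_def, QuotientGroup.mk_mul, QuotientGroup.mk_inv]
      rw [e4, map_commutatorElement]
      exact commutator_eq_of pb hpbc (by rw [hpb, hσp]) (by rw [hpb, hσp])
  obtain ⟨h6, h7⟩ := hdisc L hR1 hR2
  have h8 : lw (L.map fun q => (p q.1, p q.2)) = 1 := by
    rw [← map_lw]
    have : lw L = z := hL.symm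
    rw [this]; exact hz
  have h9 : (⟨lw (L.map fun q => (p q.1, p q.2)), h6⟩ : discSub R) = 1 := Subtype.ext h8
  rw [h9, map_one, QuotientGroup.eq_one_iff] at h7
  have h10 : z ∈ kerE p φ := by rw [hL]; exact h7
  exact h10.2

end Pool.Agent.H75B
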