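import Pool.Agent.H75S.Cond

set_option autoImplicit false

open scoped ContDiff
open Set Filter Topology

namespace Pool.Agent.H75B

open Pool.Agent.H45F Pool.Agent.H75S

/-- first order partial derivatives: `false` is the direction `1`, `true` the direction `I` -/
noncomputable def pdir (b : Bool) (f : ℂ → ℂ) (z : ℂ) : ℂ :=
  fderiv ℝ f z (if b then Complex.I else 1)

/-- iterated partial derivatives (the first letter is applied first) -/
noncomputable def pd : List Bool → (ℂ → ℂ) → ℂ → ℂ
  | [], f => f
  | b :: w, f => pd w (pdir b f)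

theorem pdir_smooth {f : ℂ → ℂ} (hf : ContDiff ℝ ∞ f) (b : Bool) : ContDiff ℝ ∞ (pdir b f) :=
  (hf.fderiv_right (m := ∞) (by simp)).clm_apply contDiff_const

theorem pd_smooth {f : ℂ → ℂ} (hf : ContDiff ℝ ∞ f) (w : List Bool) : ContDiff ℝ ∞ (pd w f) := by
  induction w generalizing f with
  | nil => exact hf
  | cons b w ih => exact ih (pdir_smooth hf b)

/-- the partial derivatives of `g` (`true`) and of `g⁻¹` (`false`), as continuous maps -/
noncomputable def emb (g : DiffC) : List Bool × Bool → C(ℂ, ℂ) := fun q =>
  ⟨pd q.1 (((if q.2 then g else g⁻¹ : DiffC) : Equiv.Perm ℂ) : ℂ → ℂ),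
    (pd_smooth (if q.2 then g else g⁻¹ : DiffC).2.1 q.1).continuous⟩

/-- the `C^∞` compact-open topology -/
noncomputable instance topD : TopologicalSpace DiffC :=
  TopologicalSpace.induced emb inferInstance

theorem isInducing_emb : IsInducing emb := ⟨rfl⟩

theorem emb_injective : Function.Injective emb := by
  intro g h hgh
  have h1 : emb g ([], true) = emb h ([], true) := by rw [hgh]
  apply Subtype.ext
  apply Equiv.ext
  intro z
  exact congrArg (fun F : C(ℂ, ℂ) => F z) h1

theorem isEmbedding_emb : IsEmbedding emb := ⟨isInducing_emb, emb_injective⟩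

instance : T2Space DiffC := isEmbedding_emb.t2Space

instance : SecondCountableTopology DiffC := isEmbedding_emb.secondCountableTopology

end Pool.Agent.H75B
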