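import Pool.Agent.H75B.Alg

set_option autoImplicit false

open scoped ContDiff
open Set Filter Topology

namespace Pool.Agent.H75B

open Pool.Agent.H45F Pool.Agent.H75S

theorem strip {G Γ : Type*} [Group G] [Group Γ] {V : Set G} {s : G → Γ}
    (hs : ∀ g ∈ V, ∀ h ∈ V, g * h ∈ V → s (g * h) = s g * s h) (a b : ℕ → G) (N : ℕ)
    (h1 : ∀ j < N, (a j)⁻¹ * a (j + 1) ∈ V) (h2 : ∀ j < N, (b j)⁻¹ * b (j + 1) ∈ V)
    (h3 : ∀ j ≤ N, (a j)⁻¹ * b j ∈ V) (h4 : ∀ j < N, (a j)⁻¹ * b (j + 1) ∈ V) :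
    s ((a 0)⁻¹ * b 0) * ((List.range N).map fun j => s ((b j)⁻¹ * b (j + 1))).prod =
      ((List.range N).map fun j => s ((a j)⁻¹ * a (j + 1))).prod * s ((a N)⁻¹ * b N) := by
  induction N with
  | zero => simp
  | succ N ih =>
    have e1 : (a N)⁻¹ * b N * ((b N)⁻¹ * b (N + 1)) = (a N)⁻¹ * b (N + 1) := by group
    have e2 : (a N)⁻¹ * a (N + 1) * ((a (N + 1))⁻¹ * b (N + 1)) = (a N)⁻¹ * b (N + 1) := by group
    have h5 := hs _ (h3 N (Nat.le_succ N)) _ (h2 N (Nat.lt_succ_self N)) (by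
      rw [e1]
      exact h4 N (Nat.lt_succ_self N))
    have h6 := hs _ (h1 N (Nat.lt_succ_self N)) _ (h3 (N + 1) le_rfl) (by
      rw [e2]
      exact h4 N (Nat.lt_succ_self N))
    rw [e1] at h5
    rw [e2] at h6
    have h7 := ih (fun j hj => h1 j (hj.trans (Nat.lt_succ_self N)))
      (fun j hj => h2 j (hj.trans (Nat.lt_succ_self N)))
      (fun j hj => h3 j (hj.trans (Nat.le_succ N)))
      (fun j hj => h4 j (hj.trans (Nat.lt_succ_self N)))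
    rw [List.range_succ, List.map_append, List.map_append, List.prod_append, List.prod_append,
      ← mul_assoc, h7, List.map_singleton, List.map_singleton, List.prod_singleton,
      List.prod_singleton, mul_assoc, mul_assoc, ← h5, ← h6]

theorem unif_cont {𝒦 : Set DiffC} (hK : IsCompact 𝒦) {R' : ℝ} {H : DiffC → ℝ → DiffC}
    (hH : ContinuousOn (fun q : DiffC × ℝ => H q.1 q.2) (𝒦 ×ˢ Icc (0 : ℝ) 1))
    (hd : ∀ g ∈ 𝒦, ∀ s ∈ Icc (0 : ℝ) 1, H g s ∈ discSub R') {V : Set DiffC} (hV : V ∈ NF R') :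
    ∃ U ∈ 𝓝 (1 : DiffC), ∃ η : ℝ, 0 < η ∧ ∀ p ∈ 𝒦, ∀ p' ∈ 𝒦, ∀ s ∈ Icc (0 : ℝ) 1,
      ∀ s' ∈ Icc (0 : ℝ) 1, p⁻¹ * p' ∈ U → |s - s'| < η → (H p s)⁻¹ * H p' s' ∈ V := by
  obtain ⟨W, hW, hWV⟩ := mem_nhdsWithin_iff_exists_mem_nhds_inter.1 hV
  obtain ⟨D, hD⟩ : ∃ D : DiffC × DiffC × ℝ × ℝ → DiffC × ℝ,
    D = fun x => (x.1⁻¹ * x.2.1, x.2.2.1 - x.2.2.2) := ⟨_, rfl⟩
  obtain ⟨S, hS⟩ : ∃ S : Set (DiffC × DiffC × ℝ × ℝ),
    S = 𝒦 ×ˢ 𝒦 ×ˢ Icc (0 : ℝ) 1 ×ˢ Icc (0 : ℝ) 1 := ⟨_, rfl⟩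
  have hSc : IsCompact S := by
    rw [hS]
    exact hK.prod (hK.prod (isCompact_Icc.prod isCompact_Icc))
  have hDc : Continuous D := by
    rw [hD]
    exact (continuous_fst.inv.mul continuous_snd.fst).prodMk
      (continuous_snd.snd.fst.sub continuous_snd.snd.snd)
  have key : ∀ᶠ x in comap D (𝓝 ((1 : DiffC), (0 : ℝ))) ⊓ 𝓟 S,
      (H x.1 x.2.2.1)⁻¹ * H x.2.1 x.2.2.2 ∈ W := by
    by_contra hcon
    rw [Filter.not_eventually] at hcon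
    have hne := Filter.frequently_iff_neBot.1 hcon
    have hu := Ultrafilter.of_le (comap D (𝓝 ((1 : DiffC), (0 : ℝ))) ⊓ 𝓟 S ⊓
      𝓟 {x | ¬ (H x.1 x.2.2.1)⁻¹ * H x.2.1 x.2.2.2 ∈ W})
    obtain ⟨u, hu'⟩ : ∃ u, u = Ultrafilter.of (comap D (𝓝 ((1 : DiffC), (0 : ℝ))) ⊓ 𝓟 S ⊓
      𝓟 {x | ¬ (H x.1 x.2.2.1)⁻¹ * H x.2.1 x.2.2.2 ∈ W}) := ⟨_, rfl⟩
    rw [← hu'] at hu
    have hu1 : (u : Filter (DiffC × DiffC × ℝ × ℝ)) ≤ comap D (𝓝 ((1 : DiffC), (0 : ℝ))) :=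
      hu.trans (inf_le_left.trans inf_le_left)
    have hu2 : (u : Filter (DiffC × DiffC × ℝ × ℝ)) ≤ 𝓟 S :=
      hu.trans (inf_le_left.trans inf_le_right)
    have hu3 : (u : Filter (DiffC × DiffC × ℝ × ℝ)) ≤
        𝓟 {x | ¬ (H x.1 x.2.2.1)⁻¹ * H x.2.1 x.2.2.2 ∈ W} := hu.trans inf_le_right
    obtain ⟨x, hxS, hx⟩ := hSc.ultrafilter_le_nhds u hu2
    have hDx : D x = ((1 : DiffC), (0 : ℝ)) :=
      tendsto_nhds_unique ((hDc.tendsto x).mono_left hx) (tendsto_comap.mono_left hu1)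
    rw [hD] at hDx
    have hx1 : x.1⁻¹ * x.2.1 = 1 := congrArg Prod.fst hDx
    have hx2 : x.2.2.1 - x.2.2.2 = 0 := congrArg Prod.snd hDx
    have hx1' : x.1 = x.2.1 := inv_mul_eq_one.1 hx1
    have hx2' : x.2.2.1 = x.2.2.2 := sub_eq_zero.1 hx2
    rw [hS] at hxS hu2
    have hSev := Filter.le_principal_iff.1 hu2
    have t1 : Tendsto (fun y : DiffC × DiffC × ℝ × ℝ => H y.1 y.2.2.1) u
        (𝓝 (H x.1 x.2.2.1)) := by
      have h1 := hH (x.1, x.2.2.1) ⟨hxS.1, hxS.2.2.1⟩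
      refine Tendsto.comp (f := fun y : DiffC × DiffC × ℝ × ℝ => (y.1, y.2.2.1)) h1 ?_
      refine tendsto_nhdsWithin_iff.2 ⟨?_, ?_⟩
      · exact ((continuous_fst.prodMk continuous_snd.snd.fst).tendsto x).mono_left hx
      · filter_upwards [hSev] with y hy
        exact ⟨hy.1, hy.2.2.1⟩
    have t2 : Tendsto (fun y : DiffC × DiffC × ℝ × ℝ => H y.2.1 y.2.2.2) u
        (𝓝 (H x.2.1 x.2.2.2)) := by
      have h1 := hH (x.2.1, x.2.2.2) ⟨hxS.2.1, hxS.2.2.2⟩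
      refine Tendsto.comp (f := fun y : DiffC × DiffC × ℝ × ℝ => (y.2.1, y.2.2.2)) h1 ?_
      refine tendsto_nhdsWithin_iff.2 ⟨?_, ?_⟩
      · exact ((continuous_snd.fst.prodMk continuous_snd.snd.snd).tendsto x).mono_left hx
      · filter_upwards [hSev] with y hy
        exact ⟨hy.2.1, hy.2.2.2⟩
    have t3 := t1.inv.mul t2
    rw [← hx1', ← hx2', inv_mul_cancel] at t3
    have h5 := t3 hW
    have h6 := Filter.le_principal_iff.1 hu3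
    have h7 : (∅ : Set (DiffC × DiffC × ℝ × ℝ)) ∈ (u : Filter (DiffC × DiffC × ℝ × ℝ)) := by
      filter_upwards [h5, h6] with y hy1 hy2
      exact hy2 hy1
    exact Ultrafilter.empty_notMem h7
  rw [Filter.eventually_inf_principal] at key
  obtain ⟨A, hA, hAs⟩ := mem_comap.1 key
  obtain ⟨U, hU, B, hB, hUB⟩ := mem_nhds_prod_iff.1 hA
  obtain ⟨η, hη, hηB⟩ := Metric.mem_nhds_iff.1 hB
  refine ⟨U, hU, η, hη, fun p hp p' hp' s hs s' hs' hpU hss => ?_⟩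
  apply hWV
  refine ⟨?_, (discSub R').mul_mem ((discSub R').inv_mem (hd p hp s hs)) (hd p' hp' s' hs')⟩
  have h1 : ((p, p', s, s') : DiffC × DiffC × ℝ × ℝ) ∈ D ⁻¹' A := by
    apply hUB
    rw [hD]
    refine ⟨hpU, hηB ?_⟩
    rw [Metric.mem_ball, Real.dist_eq, sub_zero]
    exact hss
  have h2 := hAs h1 (by rw [hS]; exact ⟨hp, hp', hs, hs'⟩)
  exact h2

end Pool.Agent.H75B
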