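import Mathlib

set_option autoImplicit false

open scoped ContDiff
open Set Filter Topology

namespace Pool.Agent.H75B

theorem log_unique_gen {A : Type*} [TopologicalSpace A] [PreconnectedSpace A] {l l' : A → ℂ}
    (hl : Continuous l) (hl' : Continuous l')
    (h : ∀ z, Complex.exp (l z) = Complex.exp (l' z)) {z₀ : A} (h0 : l z₀ = l' z₀) : l = l' :=
  Complex.isCoveringMap_exp.eq_of_comp_eq hl hl' (funext fun z => Subtype.ext (h z)) z₀ h0

theorem log_unique {l l' : ℂ → ℂ} (hl : Continuous l) (hl' : Continuous l')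
    (h : ∀ z, Complex.exp (l z) = Complex.exp (l' z)) {z₀ : ℂ} (h0 : l z₀ = l' z₀) : l = l' :=
  log_unique_gen hl hl' h h0

/-- a continuous logarithm of a smooth function is smooth -/
theorem log_smooth {D l : ℂ → ℂ} (hD : ContDiff ℝ ∞ D) (hl : Continuous l)
    (h : ∀ z, Complex.exp (l z) = D z) : ContDiff ℝ ∞ l := by
  rw [contDiff_iff_contDiffAt]
  intro z₀
  have h0 : D z₀ ≠ 0 := by rw [← h z₀]; exact Complex.exp_ne_zero _
  have hev : l =ᶠ[𝓝 z₀] fun z => l z₀ + Complex.log (D z / D z₀) := by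
    have hc : Tendsto (fun z => l z - l z₀) (𝓝 z₀) (𝓝 0) := by
      have := (hl.tendsto z₀).sub_const (l z₀)
      simpa using this
    have hb : ∀ᶠ z in 𝓝 z₀, ‖l z - l z₀‖ < 1 := by
      have := hc.norm
      rw [norm_zero] at this
      exact this.eventually_lt_const one_pos
    filter_upwards [hb] with z hz
    have him : |(l z - l z₀).im| < 1 := lt_of_le_of_lt (Complex.abs_im_le_norm _) hz
    rw [abs_lt] at him
    have hpi : (3 : ℝ) < Real.pi := Real.pi_gt_three
    have h1 : D z / D z₀ = Complex.exp (l z - l z₀) := by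
      rw [Complex.exp_sub, h, h]
    rw [h1, Complex.log_exp (by linarith) (by linarith)]
    ring
  refine ContDiffAt.congr_of_eventuallyEq ?_ hev
  refine contDiffAt_const.add ?_
  have hq : ContDiffAt ℝ ∞ (fun z => D z / D z₀) z₀ := by
    have := hD.contDiffAt (x := z₀)
    exact this.div_const _
  have hlog : ContDiffAt ℝ ∞ Complex.log (D z₀ / D z₀) := by
    rw [div_self h0]
    exact (Complex.contDiffAt_log (by simp)).restrict_scalars ℝ
  exact ContDiffAt.comp (g := Complex.log) z₀ hlog hq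

theorem exists_log (D : ℂ → ℂ) (hD : ContDiff ℝ ∞ D) (h0 : ∀ z, D z ≠ 0) (R : ℝ)
    (hR : ∀ z, R ≤ ‖z‖ → D z = 1) :
    ∃ l : ℂ → ℂ, ContDiff ℝ ∞ l ∧ (∀ z, Complex.exp (l z) = D z) ∧ ∀ z, R ≤ ‖z‖ → l z = 0 := by
  rcases le_or_gt R 0 with hR0 | hR0
  · refine ⟨fun _ => 0, contDiff_const, fun z => ?_, fun _ _ => rfl⟩
    rw [hR z (hR0.trans (norm_nonneg z)), Complex.exp_zero]
  have hsc : IsSimplyConnected (univ : Set ℂ) := by
    have : ContractibleSpace (univ : Set ℂ) :=
      Convex.contractibleSpace (convex_univ (𝕜 := ℝ) (E := ℂ)) univ_nonempty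
    exact (inferInstance : SimplyConnectedSpace (univ : Set ℂ))
  obtain ⟨f, hfc, hf⟩ := Complex.exists_continuousOn_eqOn_exp_comp (X := ℂ) (U := univ) hsc
    isOpen_univ (g := D) hD.continuous.continuousOn (by
      rintro ⟨z, -, hz⟩
      exact h0 z hz)
  rw [continuousOn_univ] at hfc
  have hf' : ∀ z, Complex.exp (f z) = D z := fun z => hf (mem_univ z)
  set c : ℂ := f (R : ℂ) with hc
  have hcR : Complex.exp c = 1 := by
    rw [hc, hf', hR]
    simp [abs_of_pos hR0]
  -- f is constant on the outside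
  have hconst : (fun q : ℝ × ℝ => f ((((R + |q.1| : ℝ) : ℂ)) * Complex.exp ((q.2 : ℂ) * Complex.I)))
      = fun _ => c := by
    refine log_unique_gen (z₀ := (0, 0)) ?_ continuous_const ?_ ?_
    · exact hfc.comp (by fun_prop)
    · rintro ⟨s, θ⟩
      simp only
      rw [hf', hcR, hR]
      rw [norm_mul, Complex.norm_exp_ofReal_mul_I, mul_one, Complex.norm_real, Real.norm_eq_abs]
      have : 0 ≤ |s| := abs_nonneg s
      rw [abs_of_pos (by linarith)]
      linarith
    · simp [hc]
  refine ⟨fun z => f z - c, ?_, ?_, ?_⟩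
  · refine log_smooth hD (hfc.sub continuous_const) ?_
    intro z
    rw [Complex.exp_sub, hf', hcR, div_one]
  · intro z
    rw [Complex.exp_sub, hf', hcR, div_one]
  · intro z hz
    have h2 := congrFun hconst (‖z‖ - R, Complex.arg z)
    simp only at h2
    have h3 : R + |‖z‖ - R| = ‖z‖ := by
      rw [abs_of_nonneg (by linarith)]; ring
    rw [h3, Complex.norm_mul_exp_arg_mul_I] at h2
    change f z - c = 0
    rw [h2, sub_self]

end Pool.Agent.H75B
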