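import Pool.Agent.H75B.Region
import Pool.Agent.H75B.Log
import Pool.Agent.H75B.Conv

set_option autoImplicit false

open scoped ContDiff
open Set Filter Topology

namespace Pool.Agent.H75B

open Pool.Agent.H45F Pool.Agent.H75S

theorem Dh_smooth {h : ℝ} (hh : h ≠ 0) (g : DiffC) : ContDiff ℝ ∞ (Dh h g) := by
  have h1 : ContDiff ℝ ∞ ((g : Equiv.Perm ℂ) : ℂ → ℂ) := g.2.1
  have h2 : ContDiff ℝ ∞ (((g⁻¹ : DiffC) : Equiv.Perm ℂ) : ℂ → ℂ) := (g⁻¹ : DiffC).2.1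
  exact ((h1.comp (h2.add contDiff_const)).sub contDiff_id).div_const _

theorem Dh_ne {h : ℝ} (hh : h ≠ 0) (g : DiffC) (z : ℂ) : Dh h g z ≠ 0 := by
  intro h0
  have hc : (h : ℂ) ≠ 0 := Complex.ofReal_ne_zero.2 hh
  unfold Dh at h0
  rw [div_eq_zero_iff, or_iff_left hc, sub_eq_zero] at h0
  have h1 : (g : Equiv.Perm ℂ) (((g⁻¹ : DiffC) : Equiv.Perm ℂ) z) = z := by
    exact Equiv.apply_symm_apply (g : Equiv.Perm ℂ) z
  have h2 := (g : Equiv.Perm ℂ).injective (h0.trans h1.symm)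
  apply hc
  simpa using h2

/-- `g⁻¹ z = z` and `g (z + h) = z + h` -/
theorem Dh_one {R h : ℝ} (hh : 0 < h) (hh1 : h ≤ 1) {g : DiffC} (hg : g ∈ discSub R) {z : ℂ}
    (hz : R + 1 ≤ ‖z‖) : Dh h g z = 1 := by
  have hc : (h : ℂ) ≠ 0 := Complex.ofReal_ne_zero.2 hh.ne'
  have h1 : ((g⁻¹ : DiffC) : Equiv.Perm ℂ) z = z :=
    (discSub R).inv_mem hg z (by linarith)
  have h2 : (g : Equiv.Perm ℂ) (z + (h : ℂ)) = z + (h : ℂ) := by
    refine hg _ ?_
    have h3 : ‖z‖ ≤ ‖z + (h : ℂ)‖ + ‖(h : ℂ)‖ := by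
      calc ‖z‖ = ‖(z + (h : ℂ)) - (h : ℂ)‖ := by rw [add_sub_cancel_right]
        _ ≤ _ := norm_sub_le _ _
    rw [Complex.norm_real, Real.norm_eq_abs, abs_of_pos hh] at h3
    linarith
  unfold Dh
  rw [h1, h2, add_sub_cancel_left, div_self hc]

open Classical in
/-- the logarithm of `Dh h g` which vanishes far away -/
noncomputable def Lam (R h : ℝ) (g : DiffC) : ℂ → ℂ :=
  if H : g ∈ discSub R ∧ 0 < h ∧ h ≤ 1 then
    Classical.choose (exists_log (Dh h g) (Dh_smooth H.2.1.ne' g) (Dh_ne H.2.1.ne' g) (R + 1)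
      (fun _ hz => Dh_one H.2.1 H.2.2 H.1 hz))
  else fun _ => 0

theorem Lam_spec {R h : ℝ} {g : DiffC} (hg : g ∈ discSub R) (hh : 0 < h) (hh1 : h ≤ 1) :
    ContDiff ℝ ∞ (Lam R h g) ∧ (∀ z, Complex.exp (Lam R h g z) = Dh h g z) ∧
      ∀ z, R + 1 ≤ ‖z‖ → Lam R h g z = 0 := by
  have H : g ∈ discSub R ∧ 0 < h ∧ h ≤ 1 := ⟨hg, hh, hh1⟩
  have he : Lam R h g = Classical.choose (exists_log (Dh h g) (Dh_smooth H.2.1.ne' g)
      (Dh_ne H.2.1.ne' g) (R + 1) (fun _ hz => Dh_one H.2.1 H.2.2 H.1 hz)) := by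
    unfold Lam
    rw [dif_pos H]
  rw [he]
  exact Classical.choose_spec (exists_log (Dh h g) (Dh_smooth H.2.1.ne' g)
      (Dh_ne H.2.1.ne' g) (R + 1) (fun _ hz => Dh_one H.2.1 H.2.2 H.1 hz))

namespace La

theorem far (R : ℝ) : R + 1 ≤ ‖((R + 1 : ℝ) : ℂ)‖ := by
  rw [Complex.norm_real, Real.norm_eq_abs]
  exact le_abs_self _

end La

/-- by uniqueness (log_unique) -/
theorem Lam_one {R h : ℝ} (hh : 0 < h) (hh1 : h ≤ 1) (z : ℂ) : Lam R h 1 z = 0 := by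
  obtain ⟨h1, h2, h3⟩ := Lam_spec (R := R) (discSub R).one_mem hh hh1
  have hc : (h : ℂ) ≠ 0 := Complex.ofReal_ne_zero.2 hh.ne'
  have h4 : Lam R h 1 = fun _ => 0 := by
    refine log_unique h1.continuous continuous_const (fun z => ?_)
      (z₀ := ((R + 1 : ℝ) : ℂ)) (h3 _ (La.far R))
    rw [h2, Complex.exp_zero]
    unfold Dh
    have h5 : (((1 : DiffC)⁻¹ : DiffC) : Equiv.Perm ℂ) z = z := by
      rw [inv_one, Subgroup.coe_one, Equiv.Perm.one_apply]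
    have h6 : ((1 : DiffC) : Equiv.Perm ℂ) (z + (h : ℂ)) = z + (h : ℂ) := by
      rw [Subgroup.coe_one, Equiv.Perm.one_apply]
    rw [h5, h6, add_sub_cancel_left, div_self hc]
  rw [h4]

namespace La

theorem CT_const {ι : Type*} (l : Filter ι) (n : ℕ) (f : ℂ → ℂ) :
    CT l n (fun _ => f) f := by
  intro w _ u hu x
  exact ⟨univ, univ_mem, Eventually.of_forall fun _ _ _ => refl_mem_uniformity hu⟩

theorem CT_congr {ι : Type*} {l : Filter ι} {n : ℕ} {F F' : ι → ℂ → ℂ} {f : ℂ → ℂ}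
    (h : CT l n F f) (he : ∀ᶠ i in l, F' i = F i) : CT l n F' f := by
  intro w hw u hu x
  obtain ⟨t, ht, h1⟩ := h w hw u hu x
  refine ⟨t, ht, ?_⟩
  filter_upwards [h1, he] with i h2 h3
  intro y hy
  rw [h3]
  exact h2 y hy

theorem CT_Dh {ι : Type*} {l : Filter ι} {h : ℝ} {g : ι → DiffC} {g₀ : DiffC}
    (hlim : Tendsto g l (𝓝 g₀)) (n : ℕ) : CT l n (fun i => Dh h (g i)) (Dh h g₀) := by
  obtain ⟨hA, hB⟩ := tendsto_iff.1 hlim
  have sG : ∀ k : DiffC, ContDiff ℝ ∞ ((k : Equiv.Perm ℂ) : ℂ → ℂ) := fun k => k.2.1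
  have sT : ContDiff ℝ ∞ (fun _ : ℂ => (h : ℂ)) := contDiff_const
  have h1 : CT l n (fun i z => (((g i)⁻¹ : DiffC) : Equiv.Perm ℂ) z + (h : ℂ))
      (fun z => ((g₀⁻¹ : DiffC) : Equiv.Perm ℂ) z + (h : ℂ)) :=
    CT.add (G := fun _ _ => (h : ℂ)) (g := fun _ => (h : ℂ))
      (fun i => sG _) (fun _ => sT) (sG _) sT (hB n) (CT_const l n _)
  have h2 := CT.comp (fun i => sG (g i)) (fun i => (sG ((g i)⁻¹)).add sT) (sG g₀)
    ((sG g₀⁻¹).add sT) (hA n) h1
  have sN : ContDiff ℝ ∞ (fun z : ℂ => -z) := contDiff_neg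
  have h3 := CT.add (G := fun _ z => -z) (g := fun z => -z)
      (fun i => (sG (g i)).comp ((sG ((g i)⁻¹)).add sT)) (fun _ => sN)
      ((sG g₀).comp ((sG g₀⁻¹).add sT)) sN h2 (CT_const l n _)
  have sI : ContDiff ℝ ∞ (fun _ : ℂ => (h : ℂ)⁻¹) := contDiff_const
  have h4 := CT.mul (G := fun _ _ => (h : ℂ)⁻¹) (g := fun _ => (h : ℂ)⁻¹)
      (fun i => ((sG (g i)).comp ((sG ((g i)⁻¹)).add sT)).add sN) (fun _ => sI)
      (((sG g₀).comp ((sG g₀⁻¹).add sT)).add sN) sI h3 (CT_const l n _)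
  have e : ∀ k : DiffC, Dh h k = fun z => ((((k : Equiv.Perm ℂ) : ℂ → ℂ) ∘
      fun z => ((k⁻¹ : DiffC) : Equiv.Perm ℂ) z + (h : ℂ)) z + -z) * (h : ℂ)⁻¹ := by
    intro k
    funext z
    rfl
  rw [e g₀, show (fun i => Dh h (g i)) = fun i z => ((((g i : Equiv.Perm ℂ) : ℂ → ℂ) ∘
      fun z => (((g i)⁻¹ : DiffC) : Equiv.Perm ℂ) z + (h : ℂ)) z + -z) * (h : ℂ)⁻¹ from
      funext fun i => e (g i)]
  exact h4

/-- a smooth function equal to the logarithm near `1` -/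
theorem exists_Lg : ∃ Lg : ℂ → ℂ, ContDiff ℝ ∞ Lg ∧ ∀ z, ‖z - 1‖ < 1 / 2 → Lg z = Complex.log z := by
  let b : ContDiffBump (1 : ℂ) := ⟨1 / 2, 3 / 4, by norm_num, by norm_num⟩
  have hb : b.rIn = 1 / 2 := rfl
  have hb' : b.rOut = 3 / 4 := rfl
  refine ⟨fun z => b z • Complex.log z, ?_, ?_⟩
  · rw [contDiff_iff_contDiffAt]
    intro z
    rcases lt_or_ge (dist z 1) 1 with hz | hz
    · have hre : 0 < z.re := by
        have h1 : |(z - 1).re| ≤ ‖z - 1‖ := Complex.abs_re_le_norm _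
        rw [Complex.sub_re, Complex.one_re] at h1
        rw [dist_eq_norm] at hz
        have := abs_lt.1 (h1.trans_lt hz)
        linarith [this.1]
      exact b.contDiff.contDiffAt.smul
        ((Complex.contDiffAt_log (Or.inl hre)).restrict_scalars ℝ)
    · have h1 : (fun z => b z • Complex.log z) =ᶠ[𝓝 z] fun _ => 0 := by
        have h2 : (Metric.closedBall (1 : ℂ) (3 / 4))ᶜ ∈ 𝓝 z := by
          refine Metric.isClosed_closedBall.isOpen_compl.mem_nhds ?_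
          rw [mem_compl_iff, Metric.mem_closedBall, not_le]
          linarith
        filter_upwards [h2] with w hw
        rw [mem_compl_iff, Metric.mem_closedBall, not_le] at hw
        rw [b.zero_of_le_dist (by rw [hb']; exact hw.le), zero_smul]
      exact contDiffAt_const.congr_of_eventuallyEq h1
  · intro z hz
    have h1 : b z = 1 := b.one_of_mem_closedBall (by
      rw [Metric.mem_closedBall, dist_eq_norm, hb]
      exact hz.le)
    show b z • Complex.log z = Complex.log z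
    rw [h1, one_smul]

end La

theorem Lam_CT {ι : Type*} {l : Filter ι} {R h : ℝ} (hh : 0 < h) (hh1 : h ≤ 1) {g : ι → DiffC}
    {g₀ : DiffC} (hg : ∀ i, g i ∈ discSub R) (hg₀ : g₀ ∈ discSub R) (hlim : Tendsto g l (𝓝 g₀)) :
    ∀ n, CT l n (fun i => Lam R h (g i)) (Lam R h g₀) := by
  intro n
  obtain ⟨s0, e0, z0⟩ := Lam_spec hg₀ hh hh1
  obtain ⟨Lg, hLg, hLl⟩ := La.exists_Lg
  have sE : ContDiff ℝ ∞ (fun z => Complex.exp (-(Lam R h g₀ z))) :=
    (Complex.contDiff_exp (𝕜 := ℝ)).comp s0.neg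
  have hq : ∀ m, CT l m (fun i z => Dh h (g i) z * Complex.exp (-(Lam R h g₀ z)))
      (fun z => Dh h g₀ z * Complex.exp (-(Lam R h g₀ z))) := fun m =>
    CT.mul (G := fun _ z => Complex.exp (-(Lam R h g₀ z)))
      (g := fun z => Complex.exp (-(Lam R h g₀ z)))
      (fun i => Dh_smooth hh.ne' (g i)) (fun _ => sE) (Dh_smooth hh.ne' g₀) sE
      (La.CT_Dh hlim m) (La.CT_const l m _)
  have hq1 : (fun z => Dh h g₀ z * Complex.exp (-(Lam R h g₀ z))) = fun _ => (1 : ℂ) := by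
    funext z
    rw [← e0 z, ← Complex.exp_add, add_neg_cancel, Complex.exp_zero]
  rw [hq1] at hq
  have sq : ∀ i, ContDiff ℝ ∞ (fun z => Dh h (g i) z * Complex.exp (-(Lam R h g₀ z))) :=
    fun i => (Dh_smooth hh.ne' (g i)).mul sE
  have hqf : ∀ i z, R + 1 ≤ ‖z‖ → Dh h (g i) z * Complex.exp (-(Lam R h g₀ z)) = 1 := by
    intro i z hz
    rw [Dh_one hh hh1 (hg i) hz, z0 z hz, neg_zero, Complex.exp_zero, mul_one]
  have hev : ∀ᶠ i in l, ∀ z, ‖Dh h (g i) z * Complex.exp (-(Lam R h g₀ z)) - 1‖ < 1 / 2 := by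
    have h1 := (hq 0).tlu.tendstoLocallyUniformlyOn (s := Metric.closedBall (0 : ℂ) (R + 1))
    rw [tendstoLocallyUniformlyOn_iff_tendstoUniformlyOn_of_compact
      (isCompact_closedBall (0 : ℂ) (R + 1)), Metric.tendstoUniformlyOn_iff] at h1
    filter_upwards [h1 (1 / 2) (by norm_num)] with i hi
    intro z
    rcases le_or_gt (R + 1) ‖z‖ with hz | hz
    · rw [hqf i z hz, sub_self, norm_zero]
      norm_num
    · have h2 := hi z (by rw [Metric.mem_closedBall, dist_zero_right]; exact hz.le)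
      rw [dist_comm, dist_eq_norm] at h2
      exact h2
  have hfin : CT l n (fun i z => Lam R h g₀ z +
      (Lg ∘ fun z => Dh h (g i) z * Complex.exp (-(Lam R h g₀ z))) z)
      (fun z => Lam R h g₀ z + (Lg ∘ fun _ => (1 : ℂ)) z) :=
    CT.add (F := fun _ z => Lam R h g₀ z) (f := fun z => Lam R h g₀ z)
      (fun _ => s0) (fun i => hLg.comp (sq i)) s0 (hLg.comp contDiff_const)
      (La.CT_const l n _)
      (CT.comp (F := fun _ => Lg) (fun _ => hLg) sq hLg contDiff_const (La.CT_const l n _) (hq n))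
  have hlog1 : Lg 1 = 0 := by
    rw [hLl 1 (by rw [sub_self, norm_zero]; norm_num), Complex.log_one]
  have hlim0 : (fun z => Lam R h g₀ z + (Lg ∘ fun _ => (1 : ℂ)) z) = Lam R h g₀ := by
    funext z
    rw [Function.comp_apply, hlog1, add_zero]
  rw [hlim0] at hfin
  refine La.CT_congr hfin ?_
  filter_upwards [hev] with i hi
  obtain ⟨s1, e1, z1⟩ := Lam_spec (hg i) hh hh1
  refine log_unique (z₀ := ((R + 1 : ℝ) : ℂ)) s1.continuous
    (s0.continuous.add (hLg.comp (sq i)).continuous) (fun z => ?_) ?_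
  · have h3 : Dh h (g i) z * Complex.exp (-(Lam R h g₀ z)) ≠ 0 :=
      mul_ne_zero (Dh_ne hh.ne' _ _) (Complex.exp_ne_zero _)
    rw [e1, Function.comp_apply, hLl _ (hi z), Complex.exp_add, Complex.exp_log h3,
      mul_left_comm, ← Complex.exp_add, add_neg_cancel, Complex.exp_zero, mul_one]
  · rw [z1 _ (La.far R), z0 _ (La.far R), Function.comp_apply, hqf i _ (La.far R), hlog1, add_zero]

end Pool.Agent.H75B
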