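import Pool.Agent.H75B.Umlauf

set_option autoImplicit false

open Set Filter Topology

namespace Pool.Agent.H75B

namespace NR

/-- the component in the direction `θ` -/
noncomputable def P (θ : ℝ) (w : ℂ) : ℝ := w.re * Real.cos θ + w.im * Real.sin θ

theorem P_add (θ : ℝ) (a b : ℂ) : P θ (a + b) = P θ a + P θ b := by
  unfold P
  rw [Complex.add_re, Complex.add_im]
  ring

theorem P_smul (θ s : ℝ) (a : ℂ) : P θ ((s : ℂ) * a) = s * P θ a := by
  unfold P
  rw [Complex.re_ofReal_mul, Complex.im_ofReal_mul]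
  ring

theorem P_exp (θ ρ φ : ℝ) :
    P θ ((ρ : ℂ) * Complex.exp ((φ : ℂ) * Complex.I)) = ρ * Real.cos (φ - θ) := by
  rw [P_smul]
  unfold P
  rw [Complex.exp_ofReal_mul_I_re, Complex.exp_ofReal_mul_I_im, Real.cos_sub]

theorem P_le (θ : ℝ) (w : ℂ) : P θ w ≤ ‖w‖ := by
  have h1 : P θ w ^ 2 ≤ ‖w‖ ^ 2 := by
    rw [← Complex.normSq_eq_norm_sq, Complex.normSq_apply]
    unfold P
    have h2 := Real.sin_sq_add_cos_sq θ
    nlinarith [sq_nonneg (w.re * Real.sin θ - w.im * Real.cos θ), sq_nonneg w.re,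
      sq_nonneg w.im]
  exact le_of_sq_le_sq h1 (norm_nonneg _)

/-- if the distance decreases less than expected, the component is small -/
theorem P_lt {D : ℂ} {ρ θ : ℝ} (hρ : 0 < ρ)
    (h : ‖D‖ < ‖D - (ρ : ℂ) * Complex.exp ((θ : ℂ) * Complex.I)‖) : P θ D < ρ / 2 := by
  have h1 : ‖D‖ ^ 2 < ‖D - (ρ : ℂ) * Complex.exp ((θ : ℂ) * Complex.I)‖ ^ 2 :=
    pow_lt_pow_left₀ h (norm_nonneg _) (by norm_num)
  rw [← Complex.normSq_eq_norm_sq, ← Complex.normSq_eq_norm_sq, Complex.normSq_apply,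
    Complex.normSq_apply, Complex.sub_re, Complex.sub_im, Complex.re_ofReal_mul,
    Complex.im_ofReal_mul, Complex.exp_ofReal_mul_I_re, Complex.exp_ofReal_mul_I_im] at h1
  have h2 := Real.sin_sq_add_cos_sq θ
  have h3 : 2 * ρ * P θ D < ρ ^ 2 := by
    have e : ρ ^ 2 = ρ ^ 2 * (Real.sin θ ^ 2 + Real.cos θ ^ 2) := by rw [h2, mul_one]
    rw [e]
    unfold P
    nlinarith
  nlinarith

/-- an argument for a vector not opposite to the direction `a` -/
theorem exists_arg {w : ℂ} {a : ℝ} (hw : w ≠ 0) (h : -(‖w‖ / 2) < P a w) :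
    ∃ β : ℝ, w = ((‖w‖ : ℝ) : ℂ) * Complex.exp (((a + β : ℝ) : ℂ) * Complex.I) ∧
      |β| < 2 * Real.pi / 3 := by
  set v : ℂ := w * Complex.exp (((-a : ℝ) : ℂ) * Complex.I) with hv
  have hn : ‖v‖ = ‖w‖ := by
    rw [hv, norm_mul, Complex.norm_exp_ofReal_mul_I, mul_one]
  have hre : v.re = P a w := by
    rw [hv, Complex.mul_re, Complex.exp_ofReal_mul_I_re, Complex.exp_ofReal_mul_I_im,
      Real.cos_neg, Real.sin_neg]
    unfold P
    ring
  refine ⟨v.arg, ?_, ?_⟩
  · have h1 := Complex.norm_mul_exp_arg_mul_I v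
    have h2 : w = v * Complex.exp (((a : ℝ) : ℂ) * Complex.I) := by
      rw [hv, mul_assoc, ← Complex.exp_add]
      have : ((-a : ℝ) : ℂ) * Complex.I + ((a : ℝ) : ℂ) * Complex.I = 0 := by
        push_cast; ring
      rw [this, Complex.exp_zero, mul_one]
    rw [← hn]
    conv_lhs => rw [h2, ← h1]
    rw [mul_assoc, ← Complex.exp_add]
    congr 2
    push_cast
    ring
  · by_contra hcon
    push Not at hcon
    have h1 : Real.cos v.arg = v.re / ‖v‖ := by
      rw [Complex.cos_arg]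
      rintro h0
      rw [h0, norm_zero] at hn
      exact hw (norm_eq_zero.1 hn.symm)
    have h2 : Real.cos |v.arg| ≤ Real.cos (2 * Real.pi / 3) :=
      Real.cos_le_cos_of_nonneg_of_le_pi (by positivity) (Complex.abs_arg_le_pi v) hcon
    have h3 : Real.cos (2 * Real.pi / 3) = -(1 / 2) := by
      have : 2 * Real.pi / 3 = Real.pi - Real.pi / 3 := by ring
      rw [this, Real.cos_pi_sub, Real.cos_pi_div_three]
    rw [Real.cos_abs, h1, h3, hre, hn] at h2
    have hwp : 0 < ‖w‖ := norm_pos_iff.2 hw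
    rw [div_le_iff₀ hwp] at h2
    linarith

/-- the hypotheses -/
structure Hy (m M B κ h τ : ℝ) (N : ℕ) (z : ℕ → ℂ) (α r : ℕ → ℝ) : Prop where
  hm : 0 < m
  hmM : m ≤ M
  hB : 0 ≤ B
  hτ : 0 < τ
  hBτ : B * M * τ ≤ 1 / 20
  hκ0 : 0 ≤ κ
  hκ : κ ≤ 1 / 20
  hh : 0 < h
  hhM : M * h ≤ m * τ / 400
  hhτ : h ≤ τ / 4
  hr : ∀ k < N, m ≤ r k ∧ r k ≤ M
  hz : ∀ k < N, z (k + 1) - z k = ((h * r k : ℝ) : ℂ) * Complex.exp ((α k : ℂ) * Complex.I)
  hα : ∀ k < N, ∀ l < N, |α k - α l| ≤ B * ‖z k - z l‖ + κ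

namespace Hy

variable {m M B κ h τ : ℝ} {N : ℕ} {z : ℕ → ℂ} {α r : ℕ → ℝ} (H : Hy m M B κ h τ N z α r)

include H

theorem M_pos : 0 < M := lt_of_lt_of_le H.hm H.hmM

theorem r_pos {k : ℕ} (hk : k < N) : 0 < h * r k :=
  mul_pos H.hh (lt_of_lt_of_le H.hm (H.hr k hk).1)

theorem r_le {k : ℕ} (hk : k < N) : h * r k ≤ M * h := by
  have := mul_le_mul_of_nonneg_left (H.hr k hk).2 H.hh.le
  linarith

theorem norm_step {k : ℕ} (hk : k < N) : ‖z (k + 1) - z k‖ = h * r k := by
  rw [H.hz k hk, norm_mul, Complex.norm_exp_ofReal_mul_I, mul_one, Complex.norm_real,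
    Real.norm_of_nonneg (H.r_pos hk).le]

theorem dist_le {i j : ℕ} (hij : i ≤ j) (hj : j ≤ N) : ‖z j - z i‖ ≤ M * h * ((j : ℝ) - i) := by
  induction j, hij using Nat.le_induction with
  | base => simp
  | succ j hij ih =>
    have h1 := ih (by omega)
    have h2 := H.norm_step (show j < N by omega)
    have h3 := H.r_le (show j < N by omega)
    have h4 : ‖z (j + 1) - z i‖ ≤ ‖z (j + 1) - z j‖ + ‖z j - z i‖ := by
      have := norm_add_le (z (j + 1) - z j) (z j - z i)
      rwa [sub_add_sub_cancel] at this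
    push_cast
    nlinarith

theorem ang {p q : ℕ} (hpq : p ≤ q) (hq : q < N) (hd : ((q : ℝ) - p) * h ≤ τ) :
    |α p - α q| ≤ 1 / 10 := by
  have h1 := H.hα p (by omega) q hq
  have h2 := H.dist_le hpq hq.le
  rw [norm_sub_rev] at h2
  have h3 : M * h * ((q : ℝ) - p) ≤ M * τ := by
    have := mul_le_mul_of_nonneg_left hd H.M_pos.le
    linarith
  have h4 : B * ‖z p - z q‖ ≤ B * (M * τ) := mul_le_mul_of_nonneg_left (h2.trans h3) H.hB
  have h5 := H.hBτ
  have h6 := H.hκ
  nlinarith

theorem ang' {p q : ℕ} (hpq : p ≤ q) (hq : q < N) (hd : ((q : ℝ) - p) * h ≤ τ) :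
    |α q - α p| ≤ 1 / 10 := by
  rw [abs_sub_comm]
  exact H.ang hpq hq hd

theorem P_self {k : ℕ} (hk : k < N) : P (α k) (z (k + 1) - z k) = h * r k := by
  rw [H.hz k hk, P_exp, sub_self, Real.cos_zero, mul_one]

theorem P_step {k : ℕ} (hk : k < N) {θ : ℝ} (hθ : |α k - θ| ≤ 1 / 10) :
    99 / 100 * (m * h) ≤ P θ (z (k + 1) - z k) := by
  rw [H.hz k hk, P_exp]
  have h1 := Real.one_sub_sq_div_two_le_cos (x := α k - θ)
  have h2 : (α k - θ) ^ 2 ≤ (1 / 10) ^ 2 := sq_le_sq' (by linarith [(abs_le.1 hθ).1]) (abs_le.1 hθ).2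
  have h3 : 99 / 100 ≤ Real.cos (α k - θ) := by linarith
  have h4 : m * h ≤ h * r k := by
    have := mul_le_mul_of_nonneg_left (H.hr k hk).1 H.hh.le
    linarith
  have h5 := mul_pos H.hm H.hh
  nlinarith

theorem P_sum {i j : ℕ} (hij : i ≤ j) (hj : j ≤ N) {θ : ℝ}
    (hθ : ∀ q, i ≤ q → q < j → |α q - θ| ≤ 1 / 10) :
    99 / 100 * (m * h) * ((j : ℝ) - i) ≤ P θ (z j - z i) := by
  induction j, hij using Nat.le_induction with
  | base => simp [P]
  | succ j hij ih =>
    have h1 := ih (by omega) (fun q hq hqj => hθ q hq (by omega))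
    have h2 := H.P_step (show j < N by omega) (hθ j hij (by omega))
    have h3 : P θ (z (j + 1) - z i) = P θ (z (j + 1) - z j) + P θ (z j - z i) := by
      rw [← P_add, sub_add_sub_cancel]
    rw [h3]
    push_cast
    linarith

theorem P_nonneg {i j : ℕ} (hij : i ≤ j) (hj : j ≤ N) {θ : ℝ}
    (hθ : ∀ q, i ≤ q → q < j → |α q - θ| ≤ 1 / 10) : 0 ≤ P θ (z j - z i) := by
  refine le_trans ?_ (H.P_sum hij hj hθ)
  have h1 := mul_pos H.hm H.hh
  have h2 : (i : ℝ) ≤ j := by exact_mod_cast hij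
  have h3 : 0 ≤ (j : ℝ) - i := by linarith
  positivity

/-- points of an edge -/
theorem edge {j : ℕ} (hj : j < N) {x : ℂ} (hx : x ∈ segment ℝ (z j) (z (j + 1))) :
    ∃ s : ℝ, 0 ≤ s ∧ s ≤ 1 ∧ x - z j = (s : ℂ) * (z (j + 1) - z j) ∧
      z (j + 1) - x = ((1 - s : ℝ) : ℂ) * (z (j + 1) - z j) ∧ ‖x - z j‖ ≤ M * h ∧
      ‖z (j + 1) - x‖ ≤ M * h := by
  rw [segment_eq_image'] at hx
  obtain ⟨s, ⟨hs0, hs1⟩, rfl⟩ := hx
  have h1 := H.norm_step hj
  have h2 := H.r_le hj
  have h3 := H.r_pos hj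
  have e1 : z j + s • (z (j + 1) - z j) - z j = (s : ℂ) * (z (j + 1) - z j) := by
    rw [Complex.real_smul]; ring
  have e2 : z (j + 1) - (z j + s • (z (j + 1) - z j)) =
      ((1 - s : ℝ) : ℂ) * (z (j + 1) - z j) := by
    rw [Complex.real_smul]; push_cast; ring
  refine ⟨s, hs0, hs1, e1, e2, ?_, ?_⟩
  · rw [e1, norm_mul, Complex.norm_real, Real.norm_of_nonneg hs0, h1]
    nlinarith
  · rw [e2, norm_mul, Complex.norm_real, Real.norm_of_nonneg (by linarith), h1]
    nlinarith

/-- intervals of length between `τ / 2` and `τ` -/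
theorem far {i j : ℕ} (hij : i < j) (hj : j ≤ N) (h1 : τ / 2 ≤ ((j : ℝ) - i) * h)
    (h2 : ((j : ℝ) - i) * h ≤ τ) : m * τ / 4 < ‖z i - z j‖ := by
  rw [norm_sub_rev]
  refine lt_of_lt_of_le ?_ (P_le (α i) _)
  refine lt_of_lt_of_le ?_ (H.P_sum hij.le hj (fun q hq hqj => H.ang' hq (by omega) ?_))
  · have h3 := mul_pos H.hm H.hτ
    have h4 := mul_le_mul_of_nonneg_left h1 H.hm.le
    nlinarith
  · refine le_trans (mul_le_mul_of_nonneg_right ?_ H.hh.le) h2
    have : (q : ℝ) ≤ j := by exact_mod_cast hqj.le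
    linarith

/-- (A) ordinary edges are disjoint -/
theorem edges_disj {k l : ℕ} (hlN : l ≤ N)
    (hmin : ∀ i j, k ≤ i → i < j → j ≤ l → j + k < i + l → τ / 2 ≤ ((j : ℝ) - i) * h →
      m * τ / 4 < ‖z i - z j‖) {i j : ℕ} (hki : k ≤ i) (hij : i + 2 ≤ j) (hjl : j + 1 ≤ l) :
    Disjoint (segment ℝ (z i) (z (i + 1))) (segment ℝ (z j) (z (j + 1))) := by
  rw [Set.disjoint_left]
  intro x hx hx'
  obtain ⟨s, hs0, hs1, hs, -, hn, -⟩ := H.edge (show i < N by omega) hx
  obtain ⟨s', hs0', hs1', hs', -, hn', -⟩ := H.edge (show j < N by omega) hx'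
  have hmt := mul_pos H.hm H.hτ
  have hmh := mul_pos H.hm H.hh
  have hhM := H.hhM
  have hhτ := H.hhτ
  have h1 : ‖z i - z j‖ ≤ 2 * (M * h) := by
    have := norm_sub_le (x - z j) (x - z i)
    rw [sub_sub_sub_cancel_left] at this
    linarith
  have h2 : ((j : ℝ) - i) * h < τ / 2 := by
    by_contra hcon
    push Not at hcon
    have := hmin i j hki (by omega) (by omega) (by omega) hcon
    linarith
  have hθ : ∀ q, i ≤ q → q < j + 1 → |α q - α i| ≤ 1 / 10 := by
    intro q hq hqj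
    refine H.ang' hq (by omega) ?_
    have h3 : (q : ℝ) ≤ j := by exact_mod_cast (by omega : q ≤ j)
    have h4 := mul_le_mul_of_nonneg_right (show (q : ℝ) - i ≤ j - i by linarith) H.hh.le
    linarith [H.hτ]
  have h3 := H.P_self (show i < N by omega)
  have h4 : P (α i) (x - z i) ≤ h * r i := by
    rw [hs, P_smul, h3]
    have := H.r_pos (show i < N by omega)
    nlinarith
  have h5 : 0 ≤ P (α i) (x - z j) := by
    rw [hs', P_smul]
    have := H.P_step (show j < N by omega) (hθ j (by omega) (by omega))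
    have h6 : 0 ≤ P (α i) (z (j + 1) - z j) := by linarith
    positivity
  have h6 := H.P_sum (show i + 1 ≤ j by omega) (show j ≤ N by omega)
    (fun q hq hqj => hθ q (by omega) (by omega))
  have h7 : P (α i) (x - z i) = P (α i) (x - z j) + (P (α i) (z j - z (i + 1)) +
      P (α i) (z (i + 1) - z i)) := by
    rw [← P_add, ← P_add]
    congr 1
    ring
  have h8 : (1 : ℝ) ≤ (j : ℝ) - (i + 1 : ℕ) := by
    have : ((i + 2 : ℕ) : ℝ) ≤ j := by exact_mod_cast hij
    push_cast at this ⊢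
    linarith
  have h9 : 0 < 99 / 100 * (m * h) * ((j : ℝ) - (i + 1 : ℕ)) := by positivity
  linarith

/-- (B) the closing edge is disjoint from the ordinary edges -/
theorem closing_disj {k l : ℕ} (hlN : l ≤ N)
    (hmin : ∀ i j, k ≤ i → i < j → j ≤ l → j + k < i + l → τ / 2 ≤ ((j : ℝ) - i) * h →
      m * τ / 4 < ‖z i - z j‖) (hnear : ‖z k - z l‖ ≤ m * τ / 4)
    (hk : P (α k) (z l - z k) < h * r k / 2)
    (hl : P (α (l - 1)) (z l - z k) < h * r (l - 1) / 2)
    {j : ℕ} (hkj : k + 1 ≤ j) (hjl : j + 2 ≤ l) :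
    Disjoint (segment ℝ (z j) (z (j + 1))) (segment ℝ (z l) (z k)) := by
  rw [Set.disjoint_left]
  intro x hx hx'
  obtain ⟨s, hs0, hs1, hs, hs2, hn, hn2⟩ := H.edge (show j < N by omega) hx
  have hmt := mul_pos H.hm H.hτ
  have hmh := mul_pos H.hm H.hh
  have hhM := H.hhM
  have hhτ := H.hhτ
  rw [segment_symm, segment_eq_image'] at hx'
  obtain ⟨t, ⟨ht0, ht1⟩, hxt0⟩ := hx'
  have hxt : z k + t • (z l - z k) = x := hxt0
  have e1 : x - z k = (t : ℂ) * (z l - z k) := by
    rw [← hxt, Complex.real_smul]; ring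
  have e2 : z l - x = ((1 - t : ℝ) : ℂ) * (z l - z k) := by
    rw [← hxt, Complex.real_smul]; push_cast; ring
  have hD : ‖z l - z k‖ ≤ m * τ / 4 := by rwa [norm_sub_rev]
  have n1 : ‖x - z k‖ = t * ‖z l - z k‖ := by
    rw [e1, norm_mul, Complex.norm_real, Real.norm_of_nonneg ht0]
  have n2 : ‖z l - x‖ = (1 - t) * ‖z l - z k‖ := by
    rw [e2, norm_mul, Complex.norm_real, Real.norm_of_nonneg (by linarith)]
  have hD0 : 0 ≤ ‖z l - z k‖ := norm_nonneg _
  rcases le_total t (1 / 2) with ht | ht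
  · -- near z k
    have h0 : ‖x - z k‖ ≤ m * τ / 8 := by
      rw [n1]; nlinarith
    have h1 : ‖z k - z j‖ ≤ m * τ / 8 + M * h := by
      have := norm_sub_le (x - z j) (x - z k)
      rw [sub_sub_sub_cancel_left] at this
      linarith
    have h2 : ((j : ℝ) - k) * h < τ / 2 := by
      by_contra hcon
      push Not at hcon
      have := hmin k j le_rfl (by omega) (by omega) (by omega) hcon
      linarith
    have hθ : ∀ q, k ≤ q → q < j + 1 → |α q - α k| ≤ 1 / 10 := by
      intro q hq hqj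
      refine H.ang' hq (by omega) ?_
      have h3 : (q : ℝ) ≤ j := by exact_mod_cast (by omega : q ≤ j)
      have h4 := mul_le_mul_of_nonneg_right (show (q : ℝ) - k ≤ j - k by linarith) H.hh.le
      linarith [H.hτ]
    have h3 := H.P_self (show k < N by omega)
    have h4 : P (α k) (x - z k) < h * r k := by
      rw [e1, P_smul]
      have := H.r_pos (show k < N by omega)
      nlinarith
    have h5 : 0 ≤ P (α k) (x - z j) := by
      rw [hs, P_smul]
      have := H.P_step (show j < N by omega) (hθ j (by omega) (by omega))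
      have h6 : 0 ≤ P (α k) (z (j + 1) - z j) := by linarith
      positivity
    have h6 := H.P_nonneg (show k + 1 ≤ j by omega) (show j ≤ N by omega)
      (fun q hq hqj => hθ q (by omega) (by omega))
    have h7 : P (α k) (x - z k) = P (α k) (x - z j) + (P (α k) (z j - z (k + 1)) +
        P (α k) (z (k + 1) - z k)) := by
      rw [← P_add, ← P_add]
      congr 1
      ring
    linarith
  · -- near z l
    have h0 : ‖z l - x‖ ≤ m * τ / 8 := by
      rw [n2]; nlinarith
    have h1 : ‖z (j + 1) - z l‖ ≤ m * τ / 8 + M * h := by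
      have := norm_sub_le (z (j + 1) - x) (z l - x)
      rw [sub_sub_sub_cancel_right] at this
      linarith
    have h2 : ((l : ℝ) - (j + 1 : ℕ)) * h < τ / 2 := by
      by_contra hcon
      push Not at hcon
      have := hmin (j + 1) l (by omega) (by omega) le_rfl (by omega) hcon
      linarith
    have hθ : ∀ q, j ≤ q → q < l → |α q - α (l - 1)| ≤ 1 / 10 := by
      intro q hq hqj
      refine H.ang (by omega) (by omega) ?_
      have h3 : (j : ℝ) ≤ q := by exact_mod_cast hq
      have h5 : ((l - 1 : ℕ) : ℝ) = (l : ℝ) - 1 := by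
        rw [Nat.cast_sub (by omega)]; simp
      rw [h5]
      have h4 := mul_le_mul_of_nonneg_right
        (show (l : ℝ) - 1 - q ≤ (l - (j + 1 : ℕ)) by push_cast; linarith) H.hh.le
      linarith [H.hτ]
    have el : l - 1 + 1 = l := by omega
    have h3 := H.P_self (show l - 1 < N by omega)
    rw [el] at h3
    have h4 : P (α (l - 1)) (z l - x) < h * r (l - 1) := by
      rw [e2, P_smul]
      have := H.r_pos (show l - 1 < N by omega)
      nlinarith
    have h5 : 0 ≤ P (α (l - 1)) (z (j + 1) - x) := by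
      rw [hs2, P_smul]
      have := H.P_step (show j < N by omega) (hθ j (by omega) (by omega))
      have h6 : 0 ≤ P (α (l - 1)) (z (j + 1) - z j) := by linarith
      have h7 : 0 ≤ 1 - s := by linarith
      positivity
    have h6 := H.P_nonneg (show j + 1 ≤ l - 1 by omega) (show l - 1 ≤ N by omega)
      (θ := α (l - 1)) (fun q hq hqj => hθ q (by omega) (by omega))
    have h7 : P (α (l - 1)) (z l - x) = P (α (l - 1)) (z (j + 1) - x) +
        (P (α (l - 1)) (z (l - 1) - z (j + 1)) + P (α (l - 1)) (z l - z (l - 1))) := by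
      rw [← P_add, ← P_add]
      congr 1
      ring
    linarith

/-- the polygon argument -/
theorem poly {k l : ℕ} (hkl : k < l) (hlN : l ≤ N) (hlong : τ < ((l : ℝ) - k) * h)
    (hmin : ∀ i j, k ≤ i → i < j → j ≤ l → j + k < i + l → τ / 2 ≤ ((j : ℝ) - i) * h →
      m * τ / 4 < ‖z i - z j‖) (hnear : ‖z k - z l‖ ≤ m * τ / 4) : False := by
  have hmt := mul_pos H.hm H.hτ
  have hmh := mul_pos H.hm H.hh
  have hhM := H.hhM
  have hhτ := H.hhτ
  have hh := H.hh
  have hτ := H.hτ
  obtain ⟨d, rfl⟩ : ∃ d, l = k + d := ⟨l - k, by omega⟩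
  have hd : τ < (d : ℝ) * h := by
    have e : (((k + d : ℕ) : ℝ) - k) * h = d * h := by push_cast; ring
    rwa [e] at hlong
  have hd5 : 5 ≤ d := by
    by_contra hcon
    have h1 : d ≤ 4 := by omega
    have h2 : (d : ℝ) ≤ 4 := by exact_mod_cast h1
    have h3 := mul_le_mul_of_nonneg_right h2 hh.le
    linarith
  set l := k + d with hldef
  set D : ℂ := z l - z k with hDdef
  have hDle : ‖D‖ ≤ m * τ / 4 := by rw [hDdef, norm_sub_rev]; exact hnear
  have el : l - 1 + 1 = l := by omega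
  -- the two neighbouring pairs
  have hn1 : m * τ / 4 < ‖z (k + 1) - z l‖ := by
    refine hmin (k + 1) l (by omega) (by omega) le_rfl (by omega) ?_
    rw [hldef]
    push_cast
    nlinarith
  have hn2 : m * τ / 4 < ‖z k - z (l - 1)‖ := by
    refine hmin k (l - 1) le_rfl (by omega) (by omega) (by omega) ?_
    have h5 : ((l - 1 : ℕ) : ℝ) = (k : ℝ) + d - 1 := by
      rw [Nat.cast_sub (by omega), hldef]; push_cast; ring
    rw [h5]
    nlinarith
  have hk : P (α k) D < h * r k / 2 := by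
    refine P_lt (H.r_pos (by omega)) ?_
    rw [← H.hz k (by omega)]
    have e : D - (z (k + 1) - z k) = -(z (k + 1) - z l) := by rw [hDdef]; ring
    rw [e, norm_neg]
    linarith
  have hl : P (α (l - 1)) D < h * r (l - 1) / 2 := by
    refine P_lt (H.r_pos (by omega)) ?_
    rw [← H.hz (l - 1) (by omega), el]
    have e : D - (z l - z (l - 1)) = -(z k - z (l - 1)) := by rw [hDdef]; ring
    rw [e, norm_neg]
    linarith
  have hDlow : 99 / 100 * (m * τ / 4) ≤ ‖D‖ := by
    have h1 : ‖z (k + 1) - z l‖ ≤ ‖z (k + 1) - z k‖ + ‖D‖ := by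
      have := norm_sub_le (z (k + 1) - z k) D
      rw [hDdef, sub_sub_sub_cancel_right] at this
      exact this
    have h2 := H.norm_step (show k < N by omega)
    have h3 := H.r_le (show k < N by omega)
    linarith
  have hD0 : -D ≠ 0 := by
    intro h0
    rw [neg_eq_zero] at h0
    rw [h0, norm_zero] at hDlow
    linarith
  obtain ⟨β, hβ, hβ2⟩ := exists_arg (a := α (l - 1)) hD0 (by
    have e : P (α (l - 1)) (-D) = -P (α (l - 1)) D := by unfold P; simp; ring
    rw [e, norm_neg]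
    have h3 := H.r_le (show l - 1 < N by omega)
    linarith)
  rw [norm_neg] at hβ
  have hDpos : 0 < ‖D‖ := by linarith
  have hpi := Real.pi_gt_three
  -- the turning at z k
  have hturn : |α k - (α (l - 1) + β)| < Real.pi := by
    have h1 := H.hα k (by omega) (l - 1) (by omega)
    have h2 : ‖z k - z (l - 1)‖ ≤ m * τ / 4 + M * h := by
      have h3 : ‖z k - z (l - 1)‖ ≤ ‖z l - z (l - 1)‖ + ‖D‖ := by
        have := norm_sub_le (z l - z (l - 1)) D
        rw [hDdef, sub_sub_sub_cancel_left] at this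
        exact this
      have h4 := H.norm_step (show l - 1 < N by omega)
      rw [el] at h4
      have h5 := H.r_le (show l - 1 < N by omega)
      linarith
    have h3 : B * ‖z k - z (l - 1)‖ ≤ B * (M * τ) := by
      refine mul_le_mul_of_nonneg_left (h2.trans ?_) H.hB
      have h6 : m * τ ≤ M * τ := mul_le_mul_of_nonneg_right H.hmM hτ.le
      linarith
    have h4 := H.hBτ
    have h5 := H.hκ
    rw [abs_le] at h1
    rw [abs_lt] at hβ2 ⊢
    constructor <;> nlinarith
  -- the closed polygon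
  refine umlauf (d + 1) (by omega) (fun i => z (k + i % (d + 1)))
    (fun i => if i % (d + 1) < d then α (k + i % (d + 1)) else α (l - 1) + β)
    (fun i => if i % (d + 1) < d then h * r (k + i % (d + 1)) else ‖D‖)
    (fun i => by simp only [Nat.add_mod_right]) (fun i => by simp only [Nat.add_mod_right])
    (fun i => ?_) (fun i => ?_) (fun i => ?_) (fun i j hij hji => ?_)
  · -- positive lengths
    split_ifs with hi
    · exact H.r_pos (by omega)
    · exact hDpos
  · -- the edges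
    have ha := Nat.mod_lt i (show 0 < d + 1 by omega)
    have hmod := Nat.mod_add_mod i (d + 1) 1
    set a := i % (d + 1) with hadef
    rw [← hmod]
    rcases Nat.lt_or_ge a d with had | had
    · rw [if_pos had, if_pos had, Nat.mod_eq_of_lt (show a + 1 < d + 1 by omega)]
      exact H.hz (k + a) (by omega)
    · have had' : a = d := by omega
      rw [if_neg (by omega), if_neg (by omega), had', Nat.mod_self, add_zero]
      have e : z k - z (k + d) = -D := by rw [hDdef, hldef]; ring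
      rw [e]
      exact hβ
  · -- the turnings
    have ha := Nat.mod_lt i (show 0 < d + 1 by omega)
    have hmod := Nat.mod_add_mod i (d + 1) 1
    set a := i % (d + 1) with hadef
    rw [← hmod]
    rcases Nat.lt_or_ge a d with had | had
    · rw [Nat.mod_eq_of_lt (show a + 1 < d + 1 by omega), if_pos had]
      by_cases had2 : a + 1 < d
      · rw [if_pos had2]
        have := H.ang' (show k + a ≤ k + (a + 1) by omega) (by omega) (by
          push_cast
          nlinarith)
        linarith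
      · rw [if_neg had2]
        have e : l - 1 = k + a := by omega
        rw [e, add_sub_cancel_left]
        linarith
    · have had' : a = d := by omega
      rw [had', Nat.mod_self, if_pos (by omega), if_neg (by omega), add_zero]
      exact hturn
  · -- disjointness
    have key : ∀ a b, a < d + 1 → b < d + 1 → a + 2 ≤ b → b + 2 ≤ a + (d + 1) →
        Disjoint (segment ℝ (z (k + a)) (z (k + (a + 1) % (d + 1))))
          (segment ℝ (z (k + b)) (z (k + (b + 1) % (d + 1)))) := by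
      intro a b ha hb hab hba
      rw [Nat.mod_eq_of_lt (show a + 1 < d + 1 by omega)]
      rcases Nat.lt_or_ge b d with hbd | hbd
      · rw [Nat.mod_eq_of_lt (show b + 1 < d + 1 by omega)]
        exact H.edges_disj hlN hmin (show k ≤ k + a by omega) (show k + a + 2 ≤ k + b by omega)
          (show k + b + 1 ≤ l by omega)
      · have hbd' : b = d := by omega
        rw [hbd', Nat.mod_self, add_zero]
        exact H.closing_disj hlN hmin hnear hk hl (show k + 1 ≤ k + a by omega)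
          (show k + a + 2 ≤ l by omega)
    have ha := Nat.mod_lt i (show 0 < d + 1 by omega)
    have hb := Nat.mod_lt j (show 0 < d + 1 by omega)
    have hmod := Nat.mod_add_mod i (d + 1) 1
    have hmod' := Nat.mod_add_mod j (d + 1) 1
    rw [← hmod, ← hmod']
    have hi := Nat.div_add_mod i (d + 1)
    obtain ⟨t, rfl⟩ : ∃ t, j = i + t := ⟨j - i, by omega⟩
    have hj : (i + t) % (d + 1) = (i % (d + 1) + t) % (d + 1) := (Nat.mod_add_mod i (d + 1) t).symm
    rw [hj] at hb ⊢
    set a := i % (d + 1) with hadef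
    rcases Nat.lt_or_ge (a + t) (d + 1) with hat | hat
    · rw [Nat.mod_eq_of_lt hat] at hb ⊢
      exact key a (a + t) ha hb (by omega) (by omega)
    · have e : (a + t) % (d + 1) = a + t - (d + 1) := by
        rw [Nat.mod_eq_sub_mod hat, Nat.mod_eq_of_lt (by omega)]
      rw [e] at hb ⊢
      exact (key (a + t - (d + 1)) a hb ha (by omega) (by omega)).symm

theorem main : ∀ d k : ℕ, 0 < d → k + d ≤ N → τ / 2 ≤ (d : ℝ) * h →
    m * τ / 4 < ‖z k - z (k + d)‖ := by
  intro d
  induction d using Nat.strong_induction_on with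
  | _ d ih =>
    intro k hd hN hdh
    have e : (((k + d : ℕ) : ℝ) - k) = d := by push_cast; ring
    by_cases hle : (d : ℝ) * h ≤ τ
    · exact H.far (by omega) hN (by rw [e]; exact hdh) (by rw [e]; exact hle)
    · push Not at hle
      by_contra hcon
      push Not at hcon
      refine H.poly (show k < k + d by omega) hN (by rw [e]; exact hle)
        (fun i j hki hij hjl hlt hτ' => ?_) hcon
      obtain ⟨d', rfl⟩ : ∃ d', j = i + d' := ⟨j - i, by omega⟩
      refine ih d' (by omega) i (by omega) (by omega) ?_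
      have e' : (((i + d' : ℕ) : ℝ) - i) = d' := by push_cast; ring
      rwa [e'] at hτ'

end Hy

end NR

theorem no_return {m M B κ h τ : ℝ} (hm : 0 < m) (hmM : m ≤ M) (hB : 0 ≤ B) (hτ : 0 < τ)
    (hBτ : B * M * τ ≤ 1 / 20) (hκ0 : 0 ≤ κ) (hκ : κ ≤ 1 / 20) (hh : 0 < h)
    (hhM : M * h ≤ m * τ / 400) (hhτ : h ≤ τ / 4)
    {N : ℕ} {z : ℕ → ℂ} {α r : ℕ → ℝ} (hr : ∀ k < N, m ≤ r k ∧ r k ≤ M)
    (hz : ∀ k < N, z (k + 1) - z k = ((h * r k : ℝ) : ℂ) * Complex.exp ((α k : ℂ) * Complex.I))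
    (hα : ∀ k < N, ∀ l < N, |α k - α l| ≤ B * ‖z k - z l‖ + κ)
    {k l : ℕ} (hkl : k < l) (hlN : l ≤ N) (hd : τ / 2 ≤ ((l : ℝ) - k) * h) :
    m * τ / 4 < ‖z k - z l‖ := by
  have H : NR.Hy m M B κ h τ N z α r :=
    ⟨hm, hmM, hB, hτ, hBτ, hκ0, hκ, hh, hhM, hhτ, hr, hz, hα⟩
  obtain ⟨d, rfl⟩ : ∃ d, l = k + d := ⟨l - k, by omega⟩
  refine H.main d k (by omega) hlN ?_
  have e : (((k + d : ℕ) : ℝ) - k) = d := by push_cast; ring
  rwa [e] at hd

end Pool.Agent.H75B
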