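import Pool.Agent.H75B.NoReturn

/-!
# A discrete orbit with slowly turning direction leaves every disc
-/

set_option autoImplicit false

open Set Filter Topology

namespace Pool.Agent.H75B

theorem nontrap (R m M B : ℝ) (hm : 0 < m) (hmM : m ≤ M) (hB : 0 ≤ B) :
    ∃ T h₀ : ℝ, 0 < T ∧ 0 < h₀ ∧ ∀ h : ℝ, 0 < h → h ≤ h₀ → ∀ N : ℕ, T ≤ N * h →
      ∀ (z : ℕ → ℂ) (α r : ℕ → ℝ), (∀ k ≤ N, ‖z k‖ ≤ R) → (∀ k < N, m ≤ r k ∧ r k ≤ M) →
      (∀ k < N, z (k + 1) - z k = ((h * r k : ℝ) : ℂ) * Complex.exp ((α k : ℂ) * Complex.I)) →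
      (∀ k < N, ∀ l < N, |α k - α l| ≤ B * ‖z k - z l‖ + 1 / 20) → False := by
  have hM : 0 < M := lt_of_lt_of_le hm hmM
  obtain ⟨τ, hτdef⟩ : ∃ τ : ℝ, τ = 1 / (20 * (B + 1) * M) := ⟨_, rfl⟩
  have hτ : 0 < τ := by rw [hτdef]; positivity
  have hBτ : B * M * τ ≤ 1 / 20 := by
    rw [hτdef, mul_one_div, div_le_div_iff₀ (by positivity) (by norm_num)]
    nlinarith
  have hρ : 0 < m * τ / 8 := by positivity
  obtain ⟨t, _, htf, htc⟩ := (isCompact_closedBall (0 : ℂ) R).finite_cover_balls hρ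
  obtain ⟨q, hq⟩ : ∃ q : ℕ, q = htf.toFinset.card := ⟨_, rfl⟩
  refine ⟨((q : ℝ) + 1) * τ, min (τ / 4) (m * τ / (400 * M)), by positivity,
    lt_min (by positivity) (by positivity), ?_⟩
  intro h hh hh0 N hN z α r hzR hr hz hα
  have hhτ : h ≤ τ / 4 := le_trans hh0 (min_le_left _ _)
  have hhM : M * h ≤ m * τ / 400 := by
    have h1 : h ≤ m * τ / (400 * M) := le_trans hh0 (min_le_right _ _)
    calc M * h ≤ M * (m * τ / (400 * M)) := mul_le_mul_of_nonneg_left h1 hM.le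
      _ = m * τ / 400 := by field_simp
  obtain ⟨n₀, hn₀⟩ : ∃ n : ℕ, n = ⌈τ / (2 * h)⌉₊ := ⟨_, rfl⟩
  have hpos : 0 < τ / (2 * h) := by positivity
  have hn1 : τ / (2 * h) ≤ n₀ := by rw [hn₀]; exact Nat.le_ceil _
  have hn2 : (n₀ : ℝ) < τ / (2 * h) + 1 := by rw [hn₀]; exact Nat.ceil_lt_add_one hpos.le
  have hn3 : τ / 2 ≤ n₀ * h := by
    have h1 := mul_le_mul_of_nonneg_right hn1 hh.le
    have h2 : τ / (2 * h) * h = τ / 2 := by field_simp
    linarith
  have hn4 : (n₀ : ℝ) * h ≤ τ := by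
    have h1 := mul_le_mul_of_nonneg_right hn2.le hh.le
    have h2 : (τ / (2 * h) + 1) * h = τ / 2 + h := by field_simp
    linarith
  have hn0 : 0 < n₀ := by rw [hn₀]; exact Nat.ceil_pos.mpr hpos
  have hqN : q * n₀ ≤ N := by
    have h1 : ((q : ℝ) * n₀) * h ≤ N * h := by
      have h2 : (q : ℝ) * (n₀ * h) ≤ q * τ := mul_le_mul_of_nonneg_left hn4 (Nat.cast_nonneg q)
      have h3 : ((q : ℝ) + 1) * τ = q * τ + τ := by ring
      have h4 : ((q : ℝ) * n₀) * h = q * (n₀ * h) := by ring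
      linarith
    have h2 := le_of_mul_le_mul_right h1 hh
    exact_mod_cast h2
  have hc : ∀ i : ℕ, i ≤ q → ∃ x ∈ htf.toFinset, dist (z (i * n₀)) x < m * τ / 8 := by
    intro i hi
    have h1 : i * n₀ ≤ N := le_trans (Nat.mul_le_mul_right _ hi) hqN
    have h2 : z (i * n₀) ∈ Metric.closedBall (0 : ℂ) R := by
      rw [mem_closedBall_zero_iff]
      exact hzR _ h1
    have h3 := htc h2
    rw [Set.mem_iUnion₂] at h3
    obtain ⟨x, hx, hx2⟩ := h3
    exact ⟨x, htf.mem_toFinset.mpr hx, hx2⟩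
  choose! c hc1 hc2 using hc
  have hcard : htf.toFinset.card < (Finset.range (q + 1)).card := by
    rw [Finset.card_range, ← hq]
    exact Nat.lt_succ_self q
  have hmaps : ∀ i ∈ Finset.range (q + 1), c i ∈ htf.toFinset := by
    intro i hi
    exact hc1 i (Nat.lt_succ_iff.mp (Finset.mem_range.mp hi))
  obtain ⟨i, hi, j, hj, hij, hcij⟩ :=
    Finset.exists_ne_map_eq_of_card_lt_of_maps_to hcard hmaps
  have hi' : i ≤ q := Nat.lt_succ_iff.mp (Finset.mem_range.mp hi)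
  have hj' : j ≤ q := Nat.lt_succ_iff.mp (Finset.mem_range.mp hj)
  have key : ∀ i j : ℕ, i ≤ q → j ≤ q → i < j → c i = c j → False := by
    intro i j hi hj hij hcij
    have hkl : i * n₀ < j * n₀ := Nat.mul_lt_mul_of_pos_right hij hn0
    have hlN : j * n₀ ≤ N := le_trans (Nat.mul_le_mul_right _ hj) hqN
    have hd : τ / 2 ≤ (((j * n₀ : ℕ) : ℝ) - ((i * n₀ : ℕ) : ℝ)) * h := by
      have h1 : ((i : ℝ) + 1) ≤ j := by exact_mod_cast hij
      have h2 : ((i : ℝ) + 1) * (n₀ * h) ≤ j * (n₀ * h) :=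
        mul_le_mul_of_nonneg_right h1 (by positivity)
      push_cast
      have h3 : ((j : ℝ) * n₀ - i * n₀) * h = j * (n₀ * h) - i * (n₀ * h) := by ring
      rw [h3]
      have h4 : ((i : ℝ) + 1) * (n₀ * h) = i * (n₀ * h) + n₀ * h := by ring
      linarith
    have h1 := no_return hm hmM hB hτ hBτ (by norm_num : (0 : ℝ) ≤ 1 / 20) le_rfl hh hhM hhτ hr
      hz hα hkl hlN hd
    have h2 := hc2 i hi
    have h3 := hc2 j hj
    rw [← hcij] at h3
    have h4 : dist (z (i * n₀)) (z (j * n₀)) < m * τ / 8 + m * τ / 8 :=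
      lt_of_le_of_lt (dist_triangle_right _ _ (c i)) (add_lt_add h2 h3)
    rw [dist_eq_norm] at h4
    linarith
  rcases lt_or_gt_of_ne hij with h | h
  · exact key i j hi' hj' h hcij
  · exact key j i hj' hi' h hcij.symm

end Pool.Agent.H75B
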