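import Pool.Agent.H75B.Conv
import Pool.Agent.H75B.Nhds
import Pool.Agent.H75B.Inv

/-!
# One-sided convergence of diffeomorphisms with support in a fixed disc
-/

set_option autoImplicit false

open scoped ContDiff
open Set Filter Topology

namespace Pool.Agent.H75B

open Pool.Agent.H45F Pool.Agent.H75S

namespace On

theorem small_of_pd {R : ℝ} {r : ℕ} {ε : ℝ} (hε : 0 < ε) {g : DiffC} (hgR : g ∈ discSub R)
    (hg : ∀ w : List Bool, w.length ≤ r → ∀ z ∈ Metric.closedBall (0 : ℂ) R,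
      ‖pd w (fun z => (g : Equiv.Perm ℂ) z) z - pd w (fun z => z) z‖ < ε / 2 ^ r) :
    Small R r ε g := by
  obtain ⟨η, hη⟩ : ∃ η, η = ε / 2 ^ r := ⟨_, rfl⟩
  have hη0 : 0 < η := by rw [hη]; positivity
  rw [← hη] at hg
  refine ⟨hgR, ?_⟩
  intro j hj z
  have hsm : ContDiff ℝ ∞ (fun w => (g : Equiv.Perm ℂ) w - w) := g.2.1.sub contDiff_id
  by_cases hz : z ∈ Metric.closedBall (0 : ℂ) R
  · have h2 : ‖iteratedFDeriv ℝ j (fun w => (g : Equiv.Perm ℂ) w - w) z‖ ≤ 2 ^ j * η := by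
      apply Nh.iter_le_pd j hsm
      intro w hw
      have h3 := hg w (by rw [hw]; exact hj) z hz
      have h4 := congrFun (Nh.pd_sub (f := fun z => (g : Equiv.Perm ℂ) z) (g := fun z => z)
        g.2.1 contDiff_id w) z
      rw [h4]
      exact h3.le
    refine h2.trans ?_
    have h3 : (2 : ℝ) ^ j ≤ 2 ^ r := pow_le_pow_right₀ (by norm_num) hj
    calc (2 : ℝ) ^ j * η ≤ 2 ^ r * η := mul_le_mul_of_nonneg_right h3 hη0.le
      _ = ε := by rw [hη]; field_simp
  · have h2 : tsupport (fun w => (g : Equiv.Perm ℂ) w - w) ⊆ Metric.closedBall (0 : ℂ) R := by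
      apply closure_minimal _ Metric.isClosed_closedBall
      intro w hw
      rw [Function.mem_support] at hw
      rw [mem_closedBall_zero_iff]
      by_contra hcon
      push Not at hcon
      exact hw (by rw [hgR w hcon.le, sub_self])
    have h3 : z ∉ Function.support (iteratedFDeriv ℝ j (fun w => (g : Equiv.Perm ℂ) w - w)) :=
      fun h => hz (h2 (support_iteratedFDeriv_subset j h))
    rw [Function.notMem_support] at h3
    rw [h3, norm_zero]
    exact hε.le

theorem CT.const {ι : Type*} {l : Filter ι} (n : ℕ) {f : ℂ → ℂ} :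
    CT l n (fun _ : ι => f) f := by
  intro w _ u hu x
  exact ⟨univ, univ_mem, Eventually.of_forall fun _ y _ => refl_mem_uniformity hu⟩

theorem eventually_small {ι : Type*} {l : Filter ι} {k : ι → DiffC} {R : ℝ}
    (hk : ∀ᶠ i in l, k i ∈ discSub R)
    (hct : ∀ n, CT l n (fun i => ((k i : Equiv.Perm ℂ) : ℂ → ℂ)) (fun z => z)) (r : ℕ) {ε : ℝ}
    (hε : 0 < ε) : ∀ᶠ i in l, Small R r ε (k i) := by
  have hfin : {w : List Bool | w.length ≤ r}.Finite := List.finite_length_le Bool r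
  have h1 : ∀ᶠ i in l, ∀ w ∈ {w : List Bool | w.length ≤ r},
      ∀ z ∈ Metric.closedBall (0 : ℂ) R,
        ‖pd w (fun z => (k i : Equiv.Perm ℂ) z) z - pd w (fun z => z) z‖ < ε / 2 ^ r := by
    rw [hfin.eventually_all]
    intro w hw
    have h2 := hct r w hw
    have h3 : TendstoUniformlyOn (fun i => pd w ((k i : Equiv.Perm ℂ) : ℂ → ℂ))
        (pd w (fun z => z)) l (Metric.closedBall (0 : ℂ) R) :=
      (tendstoLocallyUniformly_iff_forall_isCompact.1 h2) _ (isCompact_closedBall 0 R)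
    rw [Metric.tendstoUniformlyOn_iff] at h3
    filter_upwards [h3 (ε / 2 ^ r) (by positivity)] with i hi z hz
    have h4 := hi z hz
    rw [dist_comm, dist_eq_norm] at h4
    exact h4
  filter_upwards [h1, hk] with i hi hiR
  exact small_of_pd hε hiR hi

end On

theorem tendsto_of_CT {ι : Type*} {l : Filter ι} {g : ι → DiffC} {h : DiffC} {R : ℝ}
    (hg : ∀ᶠ i in l, g i ∈ discSub R) (hh : h ∈ discSub R)
    (hct : ∀ n, CT l n (fun i => ((g i : Equiv.Perm ℂ) : ℂ → ℂ)) (h : Equiv.Perm ℂ)) :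
    Tendsto g l (𝓝 h) := by
  obtain ⟨k, hk⟩ : ∃ k : ι → DiffC, ∀ i, k i = g i * h⁻¹ := ⟨fun i => g i * h⁻¹, fun _ => rfl⟩
  have hkR : ∀ᶠ i in l, k i ∈ discSub R := by
    filter_upwards [hg] with i hi
    rw [hk]
    exact (discSub R).mul_mem hi ((discSub R).inv_mem hh)
  have hkct : ∀ n, CT l n (fun i => ((k i : Equiv.Perm ℂ) : ℂ → ℂ)) (fun z => z) := by
    intro n
    have h1 := (hct n).comp (fun i => (g i).2.1) (fun _ => (h⁻¹).2.1) h.2.1 (h⁻¹).2.1
      (On.CT.const (l := l) n (f := ((h⁻¹ : DiffC) : Equiv.Perm ℂ)))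
    have e1 : (fun i => ((k i : Equiv.Perm ℂ) : ℂ → ℂ)) =
        fun i => ((g i : Equiv.Perm ℂ) : ℂ → ℂ) ∘ ((h⁻¹ : DiffC) : Equiv.Perm ℂ) := by
      funext i
      rw [hk]
      rfl
    have e2 : (fun z : ℂ => z) =
        ((h : Equiv.Perm ℂ) : ℂ → ℂ) ∘ ((h⁻¹ : DiffC) : Equiv.Perm ℂ) := by
      funext z
      show z = ((h * h⁻¹ : DiffC) : Equiv.Perm ℂ) z
      rw [mul_inv_cancel]
      rfl
    rw [e1, e2]
    exact h1
  have hk1 : Tendsto k l (𝓝 1) := by
    intro V hV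
    have hV' : V ∈ 𝓝[(discSub R : Set DiffC)] 1 := mem_nhdsWithin_of_mem_nhds hV
    obtain ⟨r, ε, hε, hVs⟩ := exists_small_subset R hV'
    obtain ⟨r', ε', hε', hinv⟩ := small_inv R r hε
    show ∀ᶠ i in l, k i ∈ V
    filter_upwards [On.eventually_small hkR hkct r hε, On.eventually_small hkR hkct r' hε']
      with i h1 h2
    exact hVs _ h1 (hinv _ h2)
  have h1 : Tendsto (fun i => k i * h) l (𝓝 (1 * h)) := hk1.mul_const h
  rw [one_mul] at h1
  refine h1.congr fun i => ?_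
  rw [hk, inv_mul_cancel_right]

end Pool.Agent.H75B
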