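import Pool.Agent.H75B.NonTrap

set_option autoImplicit false

open scoped ContDiff
open Set Filter Topology

namespace Pool.Agent.H75B

/-- smooth functions with bounds, zero off the disc of radius `R` -/
structure Bd (R B : ℝ) (Λ : ℂ → ℂ) : Prop where
  smooth : ContDiff ℝ ∞ Λ
  zero : ∀ z, R ≤ ‖z‖ → Λ z = 0
  bound : ∀ z, ‖Λ z‖ ≤ B
  lip : ∀ z w, ‖Λ z - Λ w‖ ≤ B * ‖z - w‖
  lip' : ∀ z w, ‖fderiv ℝ Λ z - fderiv ℝ Λ w‖ ≤ B * ‖z - w‖

/-- orbits of the maps `z + h exp (t_k Λ z)` -/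
def IsOrb (h : ℝ) (Λ : ℂ → ℂ) (t : ℕ → ℝ) (y : ℕ → ℂ) : Prop :=
  ∀ k, y (k + 1) = y k + (h : ℂ) * Complex.exp ((t k : ℂ) * Λ (y k))

theorem orb_t_diff {h κ : ℝ} {t : ℕ → ℝ} (ht : ∀ k, |t (k + 1) - t k| ≤ κ * h) (a : ℕ) :
    ∀ n : ℕ, |t (a + n) - t a| ≤ κ * h * n := by
  intro n
  induction n with
  | zero => simp
  | succ n ih =>
    have h1 := ht (a + n)
    have h2 : t (a + (n + 1)) - t a = (t (a + n + 1) - t (a + n)) + (t (a + n) - t a) := by
      rw [← add_assoc]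
      ring
    rw [h2]
    push_cast
    have h3 := abs_add_le (t (a + n + 1) - t (a + n)) (t (a + n) - t a)
    linarith

theorem inside_bound (R B : ℝ) (hB : 0 ≤ B) : ∃ T h₀ κ : ℝ, 0 < T ∧ 0 < h₀ ∧ 0 < κ ∧
    ∀ h : ℝ, 0 < h → h ≤ h₀ → ∀ Λ : ℂ → ℂ, Bd R B Λ → ∀ t : ℕ → ℝ, (∀ k, t k ∈ Icc (0 : ℝ) 1) →
      (∀ k, |t (k + 1) - t k| ≤ κ * h) → ∀ y : ℕ → ℂ, IsOrb h Λ t y →
      ∀ k N : ℕ, (∀ i ≤ N, ‖y (k + i)‖ ≤ R + 1) → N * h < T := by
  obtain ⟨T₀, h₀, hT₀, hh₀, H⟩ := nontrap (R + 1) (Real.exp (-B)) (Real.exp B) B (Real.exp_pos _)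
    (Real.exp_le_exp.2 (by linarith)) hB
  have hden : 0 < 20 * (B + 1) * (T₀ + 1) := by positivity
  refine ⟨T₀ + 1, min h₀ 1, 1 / (20 * (B + 1) * (T₀ + 1)), by linarith, lt_min hh₀ one_pos,
    one_div_pos.2 hden, ?_⟩
  intro h hh hhm Λ hΛ t ht htd y hy k N hN
  by_contra hcon
  have hcon' : T₀ + 1 ≤ N * h := not_lt.1 hcon
  have hh1 : h ≤ h₀ := hhm.trans (min_le_left _ _)
  have hh2 : h ≤ 1 := hhm.trans (min_le_right _ _)
  obtain ⟨N', hN'⟩ : ∃ N', N' = ⌈T₀ / h⌉₊ := ⟨_, rfl⟩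
  have h1 : T₀ ≤ N' * h := by
    rw [← div_le_iff₀ hh, hN']
    exact Nat.le_ceil _
  have h2 : (N' : ℝ) * h ≤ T₀ + 1 := by
    have h3 : (N' : ℝ) < T₀ / h + 1 := by
      rw [hN']
      exact Nat.ceil_lt_add_one (div_nonneg hT₀.le hh.le)
    have h4 : (N' : ℝ) * h ≤ (T₀ / h + 1) * h := mul_le_mul_of_nonneg_right h3.le hh.le
    have h5 : (T₀ / h + 1) * h = T₀ + h := by
      field_simp
    linarith
  have h3 : N' ≤ N := by
    have h4 : (N' : ℝ) * h ≤ N * h := h2.trans hcon'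
    exact_mod_cast le_of_mul_le_mul_right h4 hh
  have habs : ∀ i, |t i| ≤ 1 := fun i => abs_le.2 ⟨by linarith [(ht i).1], (ht i).2⟩
  refine H h hh hh1 N' h1 (fun i => y (k + i)) (fun i => t (k + i) * (Λ (y (k + i))).im)
    (fun i => Real.exp (t (k + i) * (Λ (y (k + i))).re)) (fun i hi => hN i (hi.trans h3)) ?_ ?_ ?_
  · intro i _
    have e1 : |t (k + i) * (Λ (y (k + i))).re| ≤ B := by
      rw [abs_mul]
      have e2 := (Complex.abs_re_le_norm (Λ (y (k + i)))).trans (hΛ.bound _)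
      have e3 := mul_le_mul (habs (k + i)) e2 (abs_nonneg _) zero_le_one
      linarith
    rw [abs_le] at e1
    exact ⟨Real.exp_le_exp.2 e1.1, Real.exp_le_exp.2 e1.2⟩
  · intro i _
    have e1 := hy (k + i)
    have e2 : y (k + (i + 1)) = y (k + i) + (h : ℂ) * Complex.exp ((t (k + i) : ℂ) * Λ (y (k + i))) := e1
    rw [e2, add_sub_cancel_left]
    have e3 : (t (k + i) : ℂ) * Λ (y (k + i)) = ((t (k + i) * (Λ (y (k + i))).re : ℝ) : ℂ) +
        ((t (k + i) * (Λ (y (k + i))).im : ℝ) : ℂ) * Complex.I := by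
      conv_lhs => rw [← Complex.re_add_im (Λ (y (k + i)))]
      push_cast
      ring
    rw [e3, Complex.exp_add, Complex.ofReal_mul h, Complex.ofReal_exp]
    ring
  · have key : ∀ i j : ℕ, j ≤ i → i < N' →
        |t (k + i) * (Λ (y (k + i))).im - t (k + j) * (Λ (y (k + j))).im| ≤
          B * ‖y (k + i) - y (k + j)‖ + 1 / 20 := by
      intro i j hji hi
      have e1 : t (k + i) * (Λ (y (k + i))).im - t (k + j) * (Λ (y (k + j))).im =
          t (k + i) * ((Λ (y (k + i))).im - (Λ (y (k + j))).im) +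
            (t (k + i) - t (k + j)) * (Λ (y (k + j))).im := by ring
      have e2 : |(Λ (y (k + i))).im - (Λ (y (k + j))).im| ≤ B * ‖y (k + i) - y (k + j)‖ := by
        have e3 := Complex.abs_im_le_norm (Λ (y (k + i)) - Λ (y (k + j)))
        rw [Complex.sub_im] at e3
        exact e3.trans (hΛ.lip _ _)
      have e4 : |t (k + i) * ((Λ (y (k + i))).im - (Λ (y (k + j))).im)| ≤ B * ‖y (k + i) - y (k + j)‖ := by
        rw [abs_mul]
        have e5 := mul_le_mul (habs (k + i)) e2 (abs_nonneg _) zero_le_one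
        linarith
      have e6 : |t (k + i) - t (k + j)| ≤ 1 / (20 * (B + 1)) := by
        obtain ⟨n, rfl⟩ := Nat.exists_eq_add_of_le hji
        have e7 := orb_t_diff htd (k + j) n
        rw [add_assoc] at e7
        refine e7.trans ?_
        have e8 : (n : ℝ) * h ≤ T₀ + 1 := by
          have e9 : (n : ℝ) ≤ N' := by
            have : n ≤ N' := by omega
            exact_mod_cast this
          exact (mul_le_mul_of_nonneg_right e9 hh.le).trans h2
        have e10 : 1 / (20 * (B + 1) * (T₀ + 1)) * h * n = (1 / (20 * (B + 1) * (T₀ + 1))) * ((n : ℝ) * h) := by ring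
        rw [e10]
        refine (mul_le_mul_of_nonneg_left e8 (one_div_pos.2 hden).le).trans (le_of_eq ?_)
        field_simp
      have e11 : |(t (k + i) - t (k + j)) * (Λ (y (k + j))).im| ≤ 1 / 20 := by
        rw [abs_mul]
        have e12 := (Complex.abs_im_le_norm (Λ (y (k + j)))).trans (hΛ.bound _)
        have e13 := mul_le_mul e6 e12 (abs_nonneg _) (by positivity)
        refine e13.trans ?_
        rw [div_mul_eq_mul_div, one_mul, div_le_div_iff₀ (by positivity) (by norm_num)]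
        linarith
      rw [e1]
      exact (abs_add_le _ _).trans (add_le_add e4 e11)
    intro i hi j hj
    rcases le_total j i with hji | hij
    · exact key i j hji hi
    · have e1 := key j i hij hj
      rw [abs_sub_comm, norm_sub_rev]
      exact e1

theorem exit_forever {R B h : ℝ} (hR : 0 ≤ R) (hh : 0 < h) (hhB : h * Real.exp B ≤ 1)
    {Λ : ℂ → ℂ} (hΛ : Bd R B Λ) {t : ℕ → ℝ} (ht : ∀ k, t k ∈ Icc (0 : ℝ) 1) {y : ℕ → ℂ}
    (hy : IsOrb h Λ t y) {k : ℕ} (h1 : ‖y k‖ ≤ R + 1) (h2 : R + 1 < ‖y (k + 1)‖) :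
    ∀ l : ℕ, k + 1 ≤ l → R + 1 < ‖y l‖ ∧ 0 < (y l).re ∧
      y l = y (k + 1) + ((((l : ℝ) - (k + 1)) * h : ℝ) : ℂ) := by
  have hstep : ∀ l, R ≤ ‖y l‖ → y (l + 1) = y l + (h : ℂ) := by
    intro l hl
    rw [hy l, hΛ.zero _ hl, mul_zero, Complex.exp_zero, mul_one]
  have hsq : ∀ z : ℂ, ‖z + (h : ℂ)‖ ^ 2 = ‖z‖ ^ 2 + 2 * h * z.re + h ^ 2 := by
    intro z
    rw [Complex.sq_norm, Complex.sq_norm, Complex.normSq_apply, Complex.normSq_apply, Complex.add_re, Complex.add_im,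
      Complex.ofReal_re, Complex.ofReal_im]
    ring
  have hRk : R ≤ ‖y k‖ := by
    by_contra hc
    have hc' : ‖y k‖ < R := not_le.1 hc
    have e1 : ‖y (k + 1)‖ ≤ ‖y k‖ + h * Real.exp B := by
      rw [hy k]
      refine (norm_add_le _ _).trans ?_
      rw [norm_mul, Complex.norm_exp, Complex.norm_real, Real.norm_of_nonneg hh.le]
      have e2 : ((t k : ℂ) * Λ (y k)).re ≤ B := by
        rw [Complex.re_ofReal_mul]
        have e3 : |(Λ (y k)).re| ≤ B := (Complex.abs_re_le_norm _).trans (hΛ.bound _)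
        have e4 := (abs_le.1 e3).2
        have e5 := hΛ.bound (y k)
        have e6 : 0 ≤ B := (norm_nonneg _).trans e5
        have e7 := ht k
        nlinarith [e7.1, e7.2]
      have e8 := mul_le_mul_of_nonneg_left (Real.exp_le_exp.2 e2) hh.le
      linarith
    linarith
  have hk1 : y (k + 1) = y k + (h : ℂ) := hstep k hRk
  have hre : 0 < (y (k + 1)).re := by
    have e1 := hsq (y k)
    rw [← hk1] at e1
    have e2 : ‖y k‖ ^ 2 < ‖y (k + 1)‖ ^ 2 :=
      pow_lt_pow_left₀ (lt_of_le_of_lt h1 h2) (norm_nonneg _) two_ne_zero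
    have e3 : 0 < h * (2 * (y k).re + h) := by nlinarith
    have e4 : 0 < 2 * (y k).re + h := (pos_iff_pos_of_mul_pos e3).1 hh
    rw [hk1, Complex.add_re, Complex.ofReal_re]
    linarith
  intro l hl
  induction l, hl using Nat.le_induction with
  | base =>
    refine ⟨h2, hre, ?_⟩
    push_cast
    ring
  | succ l hl ih =>
    obtain ⟨i1, i2, i3⟩ := ih
    have e1 := hstep l (by linarith)
    have e2 := hsq (y l)
    rw [← e1] at e2
    refine ⟨?_, ?_, ?_⟩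
    · have e3 : ‖y l‖ ^ 2 ≤ ‖y (l + 1)‖ ^ 2 := by
        have e4 : 0 ≤ 2 * h * (y l).re := by positivity
        have e5 : 0 ≤ h ^ 2 := sq_nonneg _
        linarith
      exact lt_of_lt_of_le i1 (le_of_sq_le_sq e3 (norm_nonneg _))
    · rw [e1, Complex.add_re, Complex.ofReal_re]
      linarith
    · rw [e1, i3]
      push_cast
      ring

/-- the orbit map: start at `z - n h`, then `k` steps -/
noncomputable def YY (h : ℝ) (Λ : ℂ → ℂ) (t : ℕ → ℝ) (n : ℕ) : ℕ → ℂ → ℂ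
  | 0, z => z - ((n * h : ℝ) : ℂ)
  | k + 1, z => YY h Λ t n k z + (h : ℂ) * Complex.exp ((t k : ℂ) * Λ (YY h Λ t n k z))

theorem YY_orb (h : ℝ) (Λ : ℂ → ℂ) (t : ℕ → ℝ) (n : ℕ) (z : ℂ) :
    IsOrb h Λ t (fun k => YY h Λ t n k z) := fun _ => rfl

end Pool.Agent.H75B
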