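import Pool.Agent.H75B.Orb
import Pool.Agent.H75B.Defs

set_option autoImplicit false

open scoped ContDiff
open Set Filter Topology

namespace Pool.Agent.H75B

open Pool.Agent.H45F Pool.Agent.H75S

/-- the difference quotient of the displacement of `g ∘ (translation by h) ∘ g⁻¹` -/
noncomputable def Dh (h : ℝ) (g : DiffC) (z : ℂ) : ℂ :=
  ((g : Equiv.Perm ℂ) (((g⁻¹ : DiffC) : Equiv.Perm ℂ) z + (h : ℂ)) - z) / (h : ℂ)

variable {R h : ℝ} {Λ : ℂ → ℂ} {t : ℕ → ℝ} {n : ℕ} {z : ℂ}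

/-- free motion -/
theorem YY_free (K : ℕ)
    (h0 : ∀ k < K, (t k : ℂ) * Λ (z - ((((n : ℝ) - k) * h : ℝ) : ℂ)) = 0) :
    YY h Λ t n K z = z - ((((n : ℝ) - K) * h : ℝ) : ℂ) := by
  induction K with
  | zero => simp [YY]
  | succ K ih =>
    have h1 := ih (fun k hk => h0 k (Nat.lt_succ_of_lt hk))
    have h2 := h0 K (Nat.lt_succ_self K)
    show YY h Λ t n K z + (h : ℂ) * Complex.exp ((t K : ℂ) * Λ (YY h Λ t n K z)) = _
    rw [h1, h2, Complex.exp_zero, mul_one]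
    push_cast
    ring

theorem YY_free_end (h0 : ∀ k < n, (t k : ℂ) * Λ (z - ((((n : ℝ) - k) * h : ℝ) : ℂ)) = 0) :
    YY h Λ t n n z = z := by
  rw [YY_free n h0]
  simp

/-- L. where `Λ = 0` the orbit moves by `h` -/
theorem region_left (hΛ : ∀ z, R ≤ ‖z‖ → Λ z = 0) (hh : 0 ≤ h) (hR : 0 ≤ R) (hz : z.re ≤ -R) :
    YY h Λ t n n z = z := by
  apply YY_free_end
  intro k hk
  have hk' : (k : ℝ) ≤ n := by exact_mod_cast hk.le
  have h1 : 0 ≤ ((n : ℝ) - k) * h := mul_nonneg (by linarith) hh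
  rw [hΛ _ ?_, mul_zero]
  have h2 := Complex.abs_re_le_norm (z - ((((n : ℝ) - k) * h : ℝ) : ℂ))
  rw [Complex.sub_re, Complex.ofReal_re] at h2
  refine le_trans ?_ h2
  rw [abs_of_nonpos (by linarith)]
  linarith

theorem region_im (hΛ : ∀ z, R ≤ ‖z‖ → Λ z = 0) (hz : R ≤ |z.im|) : YY h Λ t n n z = z := by
  apply YY_free_end
  intro k hk
  rw [hΛ _ ?_, mul_zero]
  have h2 := Complex.abs_im_le_norm (z - ((((n : ℝ) - k) * h : ℝ) : ℂ))
  rw [Complex.sub_im, Complex.ofReal_im, sub_zero] at h2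
  exact le_trans hz h2

/-- z_k = z_0 + k h for k ≤ K, and re z_K ≥ R, after that it stays outside -/
theorem region_right (hΛ : ∀ z, R ≤ ‖z‖ → Λ z = 0) (hh : 0 ≤ h) {K : ℕ} (hK : K ≤ n)
    (ht : ∀ k < K, t k = 0) (hz : ((n : ℝ) - K) * h + R ≤ z.re) : YY h Λ t n n z = z := by
  apply YY_free_end
  intro k hk
  rcases lt_or_ge k K with h1 | h1
  · rw [ht k h1, Complex.ofReal_zero, zero_mul]
  · have hk' : (K : ℝ) ≤ k := by exact_mod_cast h1
    rw [hΛ _ ?_, mul_zero]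
    have h2 := Complex.abs_re_le_norm (z - ((((n : ℝ) - k) * h : ℝ) : ℂ))
    rw [Complex.sub_re, Complex.ofReal_re] at h2
    refine le_trans ?_ (le_trans (le_abs_self _) h2)
    have h3 : 0 ≤ ((k : ℝ) - K) * h := mul_nonneg (by linarith) hh
    linarith

/-- z_k = z_0 + k h for k ≤ K (outside), z_K = z - (n-K) h, then each step is g (g⁻¹ · + h) -/
theorem region_g (hh : 0 < h) (hR : 0 ≤ R) {g : DiffC} (hg : g ∈ discSub R)
    (hΛ : ∀ z, R ≤ ‖z‖ → Λ z = 0) (hD : ∀ z, Complex.exp (Λ z) = Dh h g z) {K : ℕ} (hK : K ≤ n)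
    (ht : ∀ k, K ≤ k → k < n → t k = 1) (hz : z.re ≤ ((n : ℝ) - K) * h - R) :
    YY h Λ t n n z = (g : Equiv.Perm ℂ) z := by
  have hnorm : ∀ k ≤ K, R ≤ ‖z - ((((n : ℝ) - k) * h : ℝ) : ℂ)‖ := by
    intro k hk
    have hk' : (k : ℝ) ≤ K := by exact_mod_cast hk
    have h2 := Complex.abs_re_le_norm (z - ((((n : ℝ) - k) * h : ℝ) : ℂ))
    rw [Complex.sub_re, Complex.ofReal_re] at h2
    have h3 : 0 ≤ ((K : ℝ) - k) * h := mul_nonneg (by linarith) hh.le
    refine le_trans ?_ h2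
    rw [abs_of_nonpos (by linarith)]
    linarith
  have key : ∀ j : ℕ, K + j ≤ n → YY h Λ t n (K + j) z =
      (g : Equiv.Perm ℂ) (z - ((((n : ℝ) - K) * h : ℝ) : ℂ) + (j : ℂ) * (h : ℂ)) := by
    intro j
    induction j with
    | zero =>
      intro _
      rw [Nat.add_zero, Nat.cast_zero, zero_mul, add_zero, hg _ (hnorm K le_rfl)]
      exact YY_free K (fun k hk => by rw [hΛ _ (hnorm k hk.le), mul_zero])
    | succ j ih =>
      intro hj
      have h1 := ih (by omega)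
      show YY h Λ t n (K + j) z +
        (h : ℂ) * Complex.exp ((t (K + j) : ℂ) * Λ (YY h Λ t n (K + j) z)) = _
      have hh' : (h : ℂ) ≠ 0 := by exact_mod_cast hh.ne'
      have h2 : ((g⁻¹ : DiffC) : Equiv.Perm ℂ) (YY h Λ t n (K + j) z) =
          z - ((((n : ℝ) - K) * h : ℝ) : ℂ) + (j : ℂ) * (h : ℂ) := by
        rw [h1, Subgroup.coe_inv]
        exact Equiv.symm_apply_apply _ _
      rw [ht (K + j) (by omega) (by omega), Complex.ofReal_one, one_mul, hD, Dh, h2,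
        mul_div_cancel₀ _ hh', add_sub_cancel]
      congr 1
      push_cast
      ring
  have h1 := key (n - K) (by omega)
  rw [show K + (n - K) = n by omega] at h1
  rw [h1]
  congr 1
  rw [Nat.cast_sub hK]
  push_cast
  ring

end Pool.Agent.H75B
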