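import Mathlib

set_option autoImplicit false

open Set Filter Topology

namespace Pool.Agent.H75B

namespace Um

/-- arguments of vectors in the right half plane -/
theorem arg_div_rhp {a b : ℂ} (ha : 0 < a.re) (hb : 0 < b.re) : (b / a).arg = b.arg - a.arg := by
  have ha0 : a ≠ 0 := by rintro rfl; simp at ha
  have hb0 : b ≠ 0 := by rintro rfl; simp at hb
  have h1 := Complex.abs_arg_lt_pi_div_two_iff.2 (Or.inl ha)
  have h2 := Complex.abs_arg_lt_pi_div_two_iff.2 (Or.inl hb)
  have hp := Real.pi_pos
  rw [abs_lt] at h1 h2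
  have h3 : a.arg ≠ Real.pi := by
    intro h
    linarith
  have h4 : (a⁻¹).arg = -a.arg := by rw [Complex.arg_inv, if_neg h3]
  rw [div_eq_mul_inv, (Complex.arg_mul_eq_add_arg_iff hb0 (inv_ne_zero ha0)).2, h4]
  · ring
  · rw [h4]
    constructor <;> linarith

theorem compact_seg (p q : ℂ) : IsCompact (segment ℝ p q) := by
  rw [segment_eq_image]
  exact isCompact_Icc.image (by fun_prop)

/-- the square identity -/
theorem square {p q p' q' : ℂ} (h : Disjoint (segment ℝ p q) (segment ℝ p' q')) :
    ((q' - p) / (p' - p)).arg + ((q' - q) / (q' - p)).arg =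
      ((p' - q) / (p' - p)).arg + ((q' - q) / (p' - q)).arg := by
  obtain ⟨f, u, v, h1, h2, h3⟩ := geometric_hahn_banach_compact_closed (convex_segment p q)
    (compact_seg p q) (convex_segment p' q') (compact_seg p' q').isClosed h
  obtain ⟨ζ, hζ⟩ : ∃ ζ : ℂ, ∀ z, f z = (ζ * z).re := by
    refine ⟨⟨f 1, -f Complex.I⟩, fun z => ?_⟩
    have h4 : z = z.re • (1 : ℂ) + z.im • Complex.I := by
      apply Complex.ext <;> simp
    have h5 : f z = z.re * f 1 + z.im * f Complex.I := by
      conv_lhs => rw [h4]
      rw [map_add, map_smul, map_smul]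
      rfl
    rw [h5, Complex.mul_re]
    ring
  have hpos : ∀ a ∈ segment ℝ p q, ∀ b ∈ segment ℝ p' q', 0 < (ζ * (b - a)).re := by
    intro a ha b hb
    have h4 := h1 a ha
    have h5 := h3 b hb
    rw [← hζ, map_sub]
    linarith
  have h00 := hpos p (left_mem_segment ℝ p q) p' (left_mem_segment ℝ p' q')
  have h10 := hpos p (left_mem_segment ℝ p q) q' (right_mem_segment ℝ p' q')
  have h01 := hpos q (right_mem_segment ℝ p q) p' (left_mem_segment ℝ p' q')
  have h11 := hpos q (right_mem_segment ℝ p q) q' (right_mem_segment ℝ p' q')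
  have hζ0 : ζ ≠ 0 := by
    rintro rfl
    simp at h00
  have key : ∀ a b : ℂ, 0 < (ζ * a).re → 0 < (ζ * b).re →
      (b / a).arg = (ζ * b).arg - (ζ * a).arg := by
    intro a b ha hb
    rw [← arg_div_rhp ha hb, mul_div_mul_left _ _ hζ0]
  rw [key _ _ h00 h10, key _ _ h10 h11, key _ _ h00 h01, key _ _ h01 h11]
  ring

/-- the triangle identity -/
theorem arg_tri {w : ℂ} (hw : w ∈ Complex.slitPlane) :
    (1 + w).arg + (w / (1 + w)).arg = w.arg := by
  have hp := Real.pi_pos
  have hw0 : w ≠ 0 := Complex.slitPlane_ne_zero hw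
  have h1w : 1 + w ≠ 0 := by
    intro h
    have : w = -1 := by linear_combination h
    rw [this, Complex.mem_slitPlane_iff] at hw
    simp at hw
    linarith
  have him : (w / (1 + w)).im = w.im / Complex.normSq (1 + w) := by
    rw [Complex.div_im]
    simp only [Complex.add_re, Complex.one_re, Complex.add_im, Complex.one_im, zero_add]
    ring
  have hn : 0 < Complex.normSq (1 + w) := Complex.normSq_pos.2 h1w
  have hang : (((1 + w).arg + (w / (1 + w)).arg : ℝ) : Real.Angle) = (w.arg : Real.Angle) := by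
    rw [Real.Angle.coe_add, ← Complex.arg_mul_coe_angle h1w (div_ne_zero hw0 h1w),
      mul_div_cancel₀ _ h1w]
  rw [Real.Angle.angle_eq_iff_two_pi_dvd_sub] at hang
  obtain ⟨k, hk⟩ := hang
  have m1 := Complex.arg_mem_Ioc w
  have m2 := Complex.arg_mem_Ioc (1 + w)
  have m3 := Complex.arg_mem_Ioc (w / (1 + w))
  have hk0 : k = 0 := by
    rcases lt_trichotomy w.im 0 with hi | hi | hi
    · have a1 := Complex.arg_neg_iff.2 hi
      have a2 : (1 + w).arg < 0 := Complex.arg_neg_iff.2 (by simpa using hi)
      have a3 : (w / (1 + w)).arg < 0 := Complex.arg_neg_iff.2 (by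
        rw [him]
        exact div_neg_of_neg_of_pos hi hn)
      have b1 : (k : ℝ) < 1 := by
        by_contra hcon
        push Not at hcon
        nlinarith [m1.1]
      have b2 : (-1 : ℝ) < k := by
        by_contra hcon
        push Not at hcon
        nlinarith [m2.1, m3.1]
      have b1' : k < 1 := by exact_mod_cast b1
      have b2' : -1 < k := by exact_mod_cast b2
      omega
    · have hre : 0 < w.re := by
        rcases Complex.mem_slitPlane_iff.1 hw with h | h
        · exact h
        · exact absurd hi h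
      have a1 : w.arg = 0 := by
        rw [Complex.arg_eq_zero_iff]
        exact ⟨hre.le, hi⟩
      have a2 : (1 + w).arg = 0 := by
        rw [Complex.arg_eq_zero_iff]
        refine ⟨?_, by simpa using hi⟩
        simp only [Complex.add_re, Complex.one_re]
        linarith
      rw [a1, a2, sub_zero, zero_add] at hk
      have b1 : (k : ℝ) < 1 := by
        by_contra hcon
        push Not at hcon
        nlinarith [m3.2]
      have b2 : (-1 : ℝ) < k := by
        by_contra hcon
        push Not at hcon
        nlinarith [m3.1]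
      have b1' : k < 1 := by exact_mod_cast b1
      have b2' : -1 < k := by exact_mod_cast b2
      omega
    · have a1 := Complex.arg_nonneg_iff.2 hi.le
      have a2 : 0 ≤ (1 + w).arg := Complex.arg_nonneg_iff.2 (by simpa using hi.le)
      have a3 : 0 ≤ (w / (1 + w)).arg := Complex.arg_nonneg_iff.2 (by
        rw [him]
        positivity)
      have a4 : w.arg < Real.pi := Complex.arg_lt_pi_iff.2 (Or.inr hi.ne')
      have a5 : (1 + w).arg < Real.pi := Complex.arg_lt_pi_iff.2 (Or.inr (by simpa using hi.ne'))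
      have a6 : (w / (1 + w)).arg ≤ Real.pi := m3.2
      have a7 : 0 < w.arg := by
        rcases a1.lt_or_eq with h | h
        · exact h
        · exfalso
          have := (Complex.arg_eq_zero_iff.1 h.symm).2
          linarith
      have b1 : (k : ℝ) < 1 := by
        by_contra hcon
        push Not at hcon
        nlinarith
      have b2 : (-1 : ℝ) < k := by
        by_contra hcon
        push Not at hcon
        nlinarith
      have b1' : k < 1 := by exact_mod_cast b1
      have b2' : -1 < k := by exact_mod_cast b2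
      omega
  rw [hk0] at hk
  simp at hk
  linarith

/-- the chord from `c i` to `c (i + 1 + k)` -/
def V (c : ℕ → ℂ) (i k : ℕ) : ℂ := c (i + 1 + k) - c i

/-- its argument -/
noncomputable def φ (c : ℕ → ℂ) (α : ℕ → ℝ) (i k : ℕ) : ℝ :=
  α i + ∑ m ∈ Finset.range k, (V c i (m + 1) / V c i m).arg

theorem φ_zero (c : ℕ → ℂ) (α : ℕ → ℝ) (i : ℕ) : φ c α i 0 = α i := by
  simp [φ]

theorem φ_succ (c : ℕ → ℂ) (α : ℕ → ℝ) (i k : ℕ) :
    φ c α i (k + 1) = φ c α i k + (V c i (k + 1) / V c i k).arg := by
  unfold φ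
  rw [Finset.sum_range_succ]
  ring

end Um

open Um

theorem umlauf (N : ℕ) (hN : 3 ≤ N) (c : ℕ → ℂ) (α r : ℕ → ℝ) (hc : ∀ i, c (i + N) = c i)
    (hα : ∀ i, α (i + N) = α i) (hr : ∀ i, 0 < r i)
    (he : ∀ i, c (i + 1) - c i = (r i : ℂ) * Complex.exp ((α i : ℂ) * Complex.I))
    (ht : ∀ i, |α (i + 1) - α i| < Real.pi)
    (hs : ∀ i j, i + 2 ≤ j → j + 2 ≤ i + N →
      Disjoint (segment ℝ (c i) (c (i + 1))) (segment ℝ (c j) (c (j + 1)))) : False := by
  have hp := Real.pi_pos
  -- edges are nonzero
  have hedge : ∀ i, c (i + 1) - c i ≠ 0 := by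
    intro i
    rw [he i]
    exact mul_ne_zero (by exact_mod_cast (hr i).ne') (Complex.exp_ne_zero _)
  -- chords are nonzero
  have hV : ∀ i k, k + 2 ≤ N → V c i k ≠ 0 := by
    intro i k hk h
    unfold V at h
    rcases Nat.eq_zero_or_pos k with rfl | hk0
    · exact hedge i h
    rcases Nat.lt_or_ge (k + 2) N with hk2 | hk2
    · have h1 := hs i (i + 1 + k) (by omega) (by omega)
      rw [Set.disjoint_left] at h1
      apply h1 (left_mem_segment ℝ (c i) (c (i + 1)))
      rw [← sub_eq_zero.1 h]
      exact left_mem_segment ℝ _ _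
    · have h1 : k + 2 = N := le_antisymm hk hk2
      apply hedge (i + 1 + k)
      rw [sub_eq_zero.1 h, show i + 1 + k + 1 = i + N by omega, hc, sub_self]
  -- symmetric chords
  have hflip : ∀ i k l, k + l + 2 = N → V c (i + 1 + k) l = -V c i k := by
    intro i k l h
    unfold V
    rw [show i + 1 + k + 1 + l = i + N by omega, hc]
    ring
  -- (2)
  have h2 : ∀ k, k + 3 ≤ N → ∀ i,
      φ c α (i + 1) k - φ c α i (k + 1) = (V c (i + 1) k / V c i (k + 1)).arg := by
    intro k
    induction k with
    | zero =>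
      intro _ i
      rw [φ_zero, φ_succ, φ_zero]
      have e0 : V c i 0 = (r i : ℂ) * Complex.exp ((α i : ℂ) * Complex.I) := he i
      have e1 : V c (i + 1) 0 = (r (i + 1) : ℂ) * Complex.exp ((α (i + 1) : ℂ) * Complex.I) :=
        he (i + 1)
      have e2 : V c i (0 + 1) = V c i 0 + V c (i + 1) 0 := by
        unfold V
        rw [show i + 1 + (0 + 1) = i + 1 + 1 + 0 by omega]
        ring
      obtain ⟨w, hw⟩ : ∃ w, w = V c (i + 1) 0 / V c i 0 := ⟨_, rfl⟩
      have hV0 : V c i 0 ≠ 0 := hV i 0 (by omega)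
      have hwe : w = ((r (i + 1) / r i : ℝ) : ℂ) *
          (Complex.cos ((α (i + 1) - α i : ℝ) : ℂ) +
            Complex.sin ((α (i + 1) - α i : ℝ) : ℂ) * Complex.I) := by
        rw [hw, e0, e1, ← Complex.exp_mul_I]
        have hri : (r i : ℂ) ≠ 0 := by exact_mod_cast (hr i).ne'
        rw [div_eq_iff (mul_ne_zero hri (Complex.exp_ne_zero _))]
        push_cast
        rw [show (r (i + 1) : ℂ) / (r i : ℂ) *
            Complex.exp (((α (i + 1) : ℂ) - (α i : ℂ)) * Complex.I) *
            ((r i : ℂ) * Complex.exp ((α i : ℂ) * Complex.I)) =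
            ((r (i + 1) : ℂ) / (r i : ℂ) * (r i : ℂ)) *
            (Complex.exp (((α (i + 1) : ℂ) - (α i : ℂ)) * Complex.I) *
              Complex.exp ((α i : ℂ) * Complex.I)) by ring, div_mul_cancel₀ _ hri,
          ← Complex.exp_add]
        congr 2
        ring
      have hab := abs_lt.1 (ht i)
      have hwarg : w.arg = α (i + 1) - α i := by
        rw [hwe]
        exact Complex.arg_mul_cos_add_sin_mul_I (div_pos (hr _) (hr _)) ⟨hab.1, hab.2.le⟩
      have hw0 : w ≠ 0 := by
        rw [hw]
        exact div_ne_zero (hV _ 0 (by omega)) hV0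
      have hslit : w ∈ Complex.slitPlane := by
        rw [Complex.mem_slitPlane_iff_arg]
        exact ⟨by rw [hwarg]; exact hab.2.ne, hw0⟩
      have h3 := arg_tri hslit
      have e3 : V c i (0 + 1) / V c i 0 = 1 + w := by
        rw [e2, hw]
        field_simp
      have e4 : V c (i + 1) 0 / V c i (0 + 1) = w / (1 + w) := by
        rw [← e3, hw, div_div_div_cancel_right₀ hV0]
      rw [e3, e4]
      linarith
    | succ k ih =>
      intro hk i
      have h1 := ih (by omega) i
      have h3 := square (hs i (i + k + 2) (by omega) (by omega))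
      have e1 : c (i + k + 2 + 1) - c i = V c i (k + 1 + 1) := by
        unfold V
        rw [show i + 1 + (k + 1 + 1) = i + k + 2 + 1 by omega]
      have e2 : c (i + k + 2) - c i = V c i (k + 1) := by
        unfold V
        rw [show i + 1 + (k + 1) = i + k + 2 by omega]
      have e3 : c (i + k + 2 + 1) - c (i + 1) = V c (i + 1) (k + 1) := by
        unfold V
        rw [show i + 1 + 1 + (k + 1) = i + k + 2 + 1 by omega]
      have e4 : c (i + k + 2) - c (i + 1) = V c (i + 1) k := by
        unfold V
        rw [show i + 1 + 1 + k = i + k + 2 by omega]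
      rw [e1, e2, e3, e4] at h3
      rw [φ_succ c α (i + 1) k, φ_succ c α i (k + 1)]
      linarith
  -- (3)
  have hK1 : ∀ i k, k + 3 ≤ N →
      φ c α (i + 1 + (k + 1)) (N - 3 - k) - φ c α i (k + 1) =
        φ c α (i + 1 + k) (N - 2 - k) - φ c α i k := by
    intro i k hk
    have h1 := h2 (N - 3 - k) (by omega) (i + 1 + k)
    rw [show N - 3 - k + 1 = N - 2 - k by omega, show i + 1 + k + 1 = i + 1 + (k + 1) by omega,
      hflip i (k + 1) (N - 3 - k) (by omega), hflip i k (N - 2 - k) (by omega),
      neg_div_neg_eq] at h1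
    rw [φ_succ c α i k]
    linarith
  have hK2 : ∀ i k, k + 3 ≤ N →
      φ c α (i + 1 + 1 + k) (N - 2 - k) - φ c α (i + 1) k =
        φ c α (i + 1 + (k + 1)) (N - 3 - k) - φ c α i (k + 1) := by
    intro i k hk
    have h1 := h2 k hk i
    have h3 := φ_succ c α (i + 1 + 1 + k) (N - 3 - k)
    rw [show N - 3 - k + 1 = N - 2 - k by omega, hflip (i + 1) k (N - 2 - k) (by omega)] at h3
    have h4 := hflip i (k + 1) (N - 3 - k) (by omega)
    rw [show i + 1 + (k + 1) = i + 1 + 1 + k by omega] at h4 ⊢
    rw [h4, neg_div_neg_eq] at h3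
    linarith
  -- the constant
  have hconst : ∀ k, k + 2 ≤ N →
      φ c α (1 + 1 + k) (N - 2 - k) - φ c α 1 k = φ c α (1 + 1) (N - 2) - α 1 := by
    intro k
    induction k with
    | zero =>
      intro _
      rw [φ_zero]
      rfl
    | succ k ih =>
      intro hk
      rw [← ih (by omega), ← hK1 1 k (by omega), show N - 3 - k = N - 2 - (k + 1) by omega]
  have hA := hconst (N - 2) (by omega)
  rw [Nat.sub_self, φ_zero, show 1 + 1 + (N - 2) = 0 + N by omega, hα] at hA
  have hB := hK2 0 0 (by omega)
  have hC := hK1 0 0 (by omega)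
  rw [hC] at hB
  simp only [φ_zero, zero_add, add_zero, Nat.sub_zero] at hB
  -- so `φ 1 (N - 2) = α 0`
  have hD : φ c α 1 (N - 2) = α 0 := by
    linarith
  -- the arguments are arguments
  have hE : ∀ k, k + 2 ≤ N → ∀ i,
      (‖V c i k‖ : ℂ) * Complex.exp ((φ c α i k : ℂ) * Complex.I) = V c i k := by
    intro k
    induction k with
    | zero =>
      intro _ i
      have e0 : V c i 0 = (r i : ℂ) * Complex.exp ((α i : ℂ) * Complex.I) := he i
      rw [φ_zero, e0, norm_mul, Complex.norm_exp_ofReal_mul_I, mul_one, Complex.norm_real,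
        Real.norm_of_nonneg (hr i).le]
    | succ k ih =>
      intro hk i
      have h1 := ih (by omega) i
      have h3 := Complex.norm_mul_exp_arg_mul_I (V c i (k + 1) / V c i k)
      have hne : V c i k ≠ 0 := hV i k (by omega)
      have h4 : V c i (k + 1) = V c i k * (V c i (k + 1) / V c i k) := by
        field_simp
      have h5 : (‖V c i (k + 1)‖ : ℂ) = (‖V c i k‖ : ℂ) * (‖V c i (k + 1) / V c i k‖ : ℂ) := by
        rw [norm_div]
        have : (‖V c i k‖ : ℂ) ≠ 0 := by exact_mod_cast (norm_pos_iff.2 hne).ne'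
        push_cast
        field_simp
      calc (‖V c i (k + 1)‖ : ℂ) * Complex.exp ((φ c α i (k + 1) : ℂ) * Complex.I)
          = ((‖V c i k‖ : ℂ) * Complex.exp ((φ c α i k : ℂ) * Complex.I)) *
            ((‖V c i (k + 1) / V c i k‖ : ℂ) *
              Complex.exp (((V c i (k + 1) / V c i k).arg : ℂ) * Complex.I)) := by
            rw [h5, φ_succ, Complex.ofReal_add, add_mul, Complex.exp_add]
            ring
        _ = V c i k * (V c i (k + 1) / V c i k) := by rw [h1, h3]
        _ = V c i (k + 1) := h4.symm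
  have hF := hE (N - 2) (by omega) 1
  have hG := hE 0 (by omega) 0
  have hH := hflip 0 0 (N - 2) (by omega)
  have hI : V c 1 (N - 2) = -V c 0 0 := hH
  rw [hD, hI, norm_neg] at hF
  rw [φ_zero] at hG
  rw [hG] at hF
  have hJ := hV 0 0 (by omega)
  have : (2 : ℂ) * V c 0 0 = 0 := by linear_combination hF
  exact hJ (by simpa using this)

end Pool.Agent.H75B
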