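import Pool.Agent.H75B.Bnd
import Pool.Agent.H75B.One

set_option autoImplicit false

open scoped ContDiff
open Set Filter Topology

namespace Pool.Agent.H75B

open Pool.Agent.H45F Pool.Agent.H75S

/-- `z ↦ z + h (exp (s Λ (z - x)) - 1)` (junk 1 if this is not a diffeomorphism; `dif` is in H75S/Cluster.lean) -/
noncomputable def Cj (h : ℝ) (Λ : ℂ → ℂ) (s x : ℝ) : DiffC :=
  dif (fun z => (h : ℂ) * (Complex.exp ((s : ℂ) * Λ (z - (x : ℂ))) - 1))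

namespace WC

theorem exp_lip {B : ℝ} {a b : ℂ} (ha : ‖a‖ ≤ B) (hb : ‖b‖ ≤ B) :
    ‖Complex.exp a - Complex.exp b‖ ≤ Real.exp B * ‖a - b‖ := by
  refine Convex.norm_image_sub_le_of_norm_deriv_le (s := Metric.closedBall (0 : ℂ) B)
    (fun x _ => Complex.differentiable_exp x) (fun x hx => ?_) (convex_closedBall 0 B)
    (by simpa using hb) (by simpa using ha)
  rw [Complex.deriv_exp, Complex.norm_exp]
  refine Real.exp_le_exp.2 ?_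
  rw [Metric.mem_closedBall, dist_zero_right] at hx
  exact ((le_abs_self _).trans (Complex.abs_re_le_norm x)).trans hx

theorem smooth_disp {Λ : ℂ → ℂ} (hΛ : ContDiff ℝ ∞ Λ) (h s x : ℝ) :
    ContDiff ℝ ∞ (fun z : ℂ => (h : ℂ) * (Complex.exp ((s : ℂ) * Λ (z - (x : ℂ))) - 1)) := by
  have h1 : ContDiff ℝ ∞ (fun z : ℂ => Λ (z - (x : ℂ))) :=
    hΛ.comp (contDiff_id.sub contDiff_const)
  have h2 : ContDiff ℝ ∞ (fun z : ℂ => (s : ℂ) * Λ (z - (x : ℂ))) := contDiff_const.mul h1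
  have h3 : ContDiff ℝ ∞ (fun z : ℂ => Complex.exp ((s : ℂ) * Λ (z - (x : ℂ)))) :=
    (Complex.contDiff_exp (𝕜 := ℝ)).comp h2
  exact contDiff_const.mul (h3.sub contDiff_const)

theorem far_norm {R x : ℝ} {z : ℂ} (hz : R + |x| ≤ ‖z‖) : R ≤ ‖z - (x : ℂ)‖ := by
  have h1 := norm_sub_norm_le z (x : ℂ)
  rw [Complex.norm_real, Real.norm_eq_abs] at h1
  linarith

theorem disp_zero {R h s x : ℝ} {Λ : ℂ → ℂ} (hΛ : ∀ z, R ≤ ‖z‖ → Λ z = 0) {z : ℂ}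
    (hz : R + |x| ≤ ‖z‖) :
    (h : ℂ) * (Complex.exp ((s : ℂ) * Λ (z - (x : ℂ))) - 1) = 0 := by
  rw [hΛ _ (far_norm hz), mul_zero, Complex.exp_zero, sub_self, mul_zero]

theorem good_disp {R B h s x : ℝ} {Λ : ℂ → ℂ} (hΛ : Bd R B Λ) (_hB : 0 ≤ B) (hh : 0 < h)
    (hhB : h * (B * Real.exp B) ≤ 1 / 2) (hs : s ∈ Icc (0 : ℝ) 1) :
    good (fun z : ℂ => (h : ℂ) * (Complex.exp ((s : ℂ) * Λ (z - (x : ℂ))) - 1)) := by
  refine ⟨smooth_disp hΛ.smooth h s x, ⟨R + |x|, fun z hz => disp_zero hΛ.zero hz⟩,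
    fun z w => ?_⟩
  have hb : ∀ y, ‖(s : ℂ) * Λ y‖ ≤ B := by
    intro y
    rw [norm_mul, Complex.norm_real, Real.norm_eq_abs, abs_of_nonneg hs.1]
    calc s * ‖Λ y‖ ≤ 1 * B := mul_le_mul hs.2 (hΛ.bound y) (norm_nonneg _) zero_le_one
      _ = B := one_mul B
  have h1 := exp_lip (hb (z - (x : ℂ))) (hb (w - (x : ℂ)))
  have h2 : ‖(s : ℂ) * Λ (z - (x : ℂ)) - (s : ℂ) * Λ (w - (x : ℂ))‖ ≤ B * ‖z - w‖ := by
    rw [← mul_sub, norm_mul, Complex.norm_real, Real.norm_eq_abs, abs_of_nonneg hs.1]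
    have h3 := hΛ.lip (z - (x : ℂ)) (w - (x : ℂ))
    rw [sub_sub_sub_cancel_right] at h3
    calc s * ‖Λ (z - (x : ℂ)) - Λ (w - (x : ℂ))‖ ≤ 1 * (B * ‖z - w‖) :=
          mul_le_mul hs.2 h3 (norm_nonneg _) zero_le_one
      _ = _ := one_mul _
  have h4 : (h : ℂ) * (Complex.exp ((s : ℂ) * Λ (z - (x : ℂ))) - 1) -
      (h : ℂ) * (Complex.exp ((s : ℂ) * Λ (w - (x : ℂ))) - 1) =
      (h : ℂ) * (Complex.exp ((s : ℂ) * Λ (z - (x : ℂ))) -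
        Complex.exp ((s : ℂ) * Λ (w - (x : ℂ)))) := by ring
  show ‖(h : ℂ) * (Complex.exp ((s : ℂ) * Λ (z - (x : ℂ))) - 1) -
      (h : ℂ) * (Complex.exp ((s : ℂ) * Λ (w - (x : ℂ))) - 1)‖ ≤ _
  rw [h4, norm_mul, Complex.norm_real, Real.norm_eq_abs, abs_of_pos hh]
  have h5 : Real.exp B * ‖(s : ℂ) * Λ (z - (x : ℂ)) - (s : ℂ) * Λ (w - (x : ℂ))‖ ≤
      Real.exp B * (B * ‖z - w‖) := mul_le_mul_of_nonneg_left h2 (Real.exp_pos B).le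
  calc h * ‖Complex.exp ((s : ℂ) * Λ (z - (x : ℂ))) - Complex.exp ((s : ℂ) * Λ (w - (x : ℂ)))‖
      ≤ h * (Real.exp B * (B * ‖z - w‖)) := mul_le_mul_of_nonneg_left (h1.trans h5) hh.le
    _ = (h * (B * Real.exp B)) * ‖z - w‖ := by ring
    _ ≤ 1 / 2 * ‖z - w‖ := mul_le_mul_of_nonneg_right hhB (norm_nonneg _)

end WC

/-- for Bd R B Λ, 0 ≤ s ≤ 1 and h B exp B ≤ 1/2 the displacement is smooth, compactly supported, 1/2-Lipschitz: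
`good` (see dif_app, good in H75S/Cluster.lean) -/
theorem Cj_app {R B h s x : ℝ} {Λ : ℂ → ℂ} (hΛ : Bd R B Λ) (hB : 0 ≤ B) (hh : 0 < h)
    (hhB : h * (B * Real.exp B) ≤ 1 / 2) (hs : s ∈ Icc (0 : ℝ) 1) (z : ℂ) :
    (Cj h Λ s x : Equiv.Perm ℂ) z =
      z + (h : ℂ) * (Complex.exp ((s : ℂ) * Λ (z - (x : ℂ))) - 1) :=
  dif_app (WC.good_disp hΛ hB hh hhB hs) z

/-- the product C_0 C_1 ⋯ C_{n-1}, C_j = Cj h Λ (τ j) ((j+1) h) -/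
noncomputable def Wd (h : ℝ) (Λ : ℂ → ℂ) (τ : ℕ → ℝ) : ℕ → DiffC
  | 0 => 1
  | n + 1 => Wd h Λ τ n * Cj h Λ (τ n) (((n : ℝ) + 1) * h)

namespace WC

theorem Wd_aux {R B h : ℝ} {Λ : ℂ → ℂ} (hΛ : Bd R B Λ) (hB : 0 ≤ B) (hh : 0 < h)
    (hhB : h * (B * Real.exp B) ≤ 1 / 2) {τ : ℕ → ℝ} (hτ : ∀ j, τ j ∈ Icc (0 : ℝ) 1) (n : ℕ)
    (z : ℂ) (m : ℕ) (hm : m ≤ n) :
    (Wd h Λ τ m : Equiv.Perm ℂ)
      (YY h Λ (fun k => τ (n - 1 - k)) n (n - m) z + ((m * h : ℝ) : ℂ)) =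
      YY h Λ (fun k => τ (n - 1 - k)) n n z := by
  induction m with
  | zero =>
    rw [Nat.sub_zero]
    simp [Wd]
  | succ m ih =>
    obtain ⟨v, hv⟩ : ∃ v, v = YY h Λ (fun k => τ (n - 1 - k)) n (n - (m + 1)) z := ⟨_, rfl⟩
    have h1 : YY h Λ (fun k => τ (n - 1 - k)) n (n - m) z =
        v + (h : ℂ) * Complex.exp ((τ m : ℂ) * Λ v) := by
      have e1 : n - m = (n - (m + 1)) + 1 := by omega
      have e2 : n - 1 - (n - (m + 1)) = m := by omega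
      rw [e1]
      show YY h Λ (fun k => τ (n - 1 - k)) n (n - (m + 1)) z + (h : ℂ) *
        Complex.exp (((τ (n - 1 - (n - (m + 1))) : ℝ) : ℂ) *
          Λ (YY h Λ (fun k => τ (n - 1 - k)) n (n - (m + 1)) z)) = _
      rw [e2, ← hv]
    have h2 := ih (by omega)
    rw [h1] at h2
    rw [← h2, ← hv]
    show (Wd h Λ τ m : Equiv.Perm ℂ) ((Cj h Λ (τ m) (((m : ℝ) + 1) * h) : Equiv.Perm ℂ)
      (v + (((m + 1 : ℕ) * h : ℝ) : ℂ))) = _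
    rw [Cj_app hΛ hB hh hhB (hτ m)]
    congr 1
    have e3 : v + (((m + 1 : ℕ) * h : ℝ) : ℂ) - ((((m : ℝ) + 1) * h : ℝ) : ℂ) = v := by
      push_cast
      ring
    rw [e3]
    push_cast
    ring

end WC

/-
M1. With E_j v = v + h exp (τ j Λ v):  C_j (v + (j+1) h) = E_j v + j h, so (Wd m) (v + m h) = E_0 (E_1 (… E_{m-1} v)), and
YY h Λ (fun k => τ (n-1-k)) n n z = E_0 (… (E_{n-1} (z - n h))).
-/
theorem Wd_app {R B h : ℝ} {Λ : ℂ → ℂ} (hΛ : Bd R B Λ) (hB : 0 ≤ B) (hh : 0 < h)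
    (hhB : h * (B * Real.exp B) ≤ 1 / 2) {τ : ℕ → ℝ} (hτ : ∀ j, τ j ∈ Icc (0 : ℝ) 1) (n : ℕ)
    (z : ℂ) : (Wd h Λ τ n : Equiv.Perm ℂ) z = YY h Λ (fun k => τ (n - 1 - k)) n n z := by
  have h1 := WC.Wd_aux hΛ hB hh hhB hτ n z n le_rfl
  rw [Nat.sub_self] at h1
  rw [← h1]
  congr 1
  show z = z - ((n * h : ℝ) : ℂ) + ((n * h : ℝ) : ℂ)
  rw [sub_add_cancel]

namespace WC

theorem pdir_const (b : Bool) (c : ℂ) : pdir b (fun _ => c) = fun _ => 0 := by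
  funext z
  unfold pdir
  simp

theorem CT_scalar {ι : Type*} {l : Filter ι} {c : ι → ℂ} {c₀ : ℂ} (h : Tendsto c l (𝓝 c₀))
    (n : ℕ) : CT l n (fun i _ => c i) (fun _ => c₀) := by
  have hb : TendstoLocallyUniformly (fun i (_ : ℂ) => c i) (fun _ => c₀) l := by
    intro u hu x
    refine ⟨univ, univ_mem, ?_⟩
    have h1 := (tendsto_const_nhds (x := c₀)).prodMk_nhds h
    have h2 : Tendsto (fun i => (c₀, c i)) l (uniformity ℂ) := by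
      refine Filter.Tendsto.mono_right h1 ?_
      exact nhds_le_uniformity c₀
    filter_upwards [h2 hu] with i hi
    intro y _
    exact hi
  cases n with
  | zero => exact CT.zero hb
  | succ n =>
    refine CT.succ hb fun b => ?_
    rw [pdir_const]
    have e : (fun i : ι => pdir b (fun _ : ℂ => c i)) = fun _ => fun _ => 0 :=
      funext fun i => pdir_const b (c i)
    rw [e]
    exact La.CT_const l n _

theorem CT_disp {ι : Type*} {l : Filter ι} {Λ : ι → ℂ → ℂ} {Λ₀ : ℂ → ℂ}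
    (hΛ : ∀ i, ContDiff ℝ ∞ (Λ i)) (hΛ₀ : ContDiff ℝ ∞ Λ₀) {s : ι → ℝ} {s₀ : ℝ}
    (hs : Tendsto s l (𝓝 s₀)) (h x : ℝ) (n : ℕ) (hct : CT l n Λ Λ₀) :
    CT l n (fun i z => z + (h : ℂ) * (Complex.exp ((s i : ℂ) * Λ i (z - (x : ℂ))) - 1))
      (fun z => z + (h : ℂ) * (Complex.exp ((s₀ : ℂ) * Λ₀ (z - (x : ℂ))) - 1)) := by
  have sT : ContDiff ℝ ∞ (fun z : ℂ => z - (x : ℂ)) := contDiff_id.sub contDiff_const
  have sC : ∀ c : ℂ, ContDiff ℝ ∞ (fun _ : ℂ => c) := fun c => contDiff_const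
  have h1 : CT l n (fun i => Λ i ∘ fun z : ℂ => z - (x : ℂ)) (Λ₀ ∘ fun z : ℂ => z - (x : ℂ)) :=
    CT.comp (G := fun _ z => z - (x : ℂ)) hΛ (fun _ => sT) hΛ₀ sT hct (La.CT_const l n _)
  have s1 : ∀ i, ContDiff ℝ ∞ (Λ i ∘ fun z : ℂ => z - (x : ℂ)) := fun i => (hΛ i).comp sT
  have s1' : ContDiff ℝ ∞ (Λ₀ ∘ fun z : ℂ => z - (x : ℂ)) := hΛ₀.comp sT
  have h2 : CT l n (fun i _ => (s i : ℂ)) (fun _ => (s₀ : ℂ)) :=
    CT_scalar ((Complex.continuous_ofReal.tendsto s₀).comp hs) n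
  have h3 := CT.mul (fun i => sC (s i : ℂ)) s1 (sC (s₀ : ℂ)) s1' h2 h1
  have s3 : ∀ i, ContDiff ℝ ∞ fun z => (s i : ℂ) * (Λ i ∘ fun z : ℂ => z - (x : ℂ)) z :=
    fun i => (sC _).mul (s1 i)
  have s3' : ContDiff ℝ ∞ fun z => (s₀ : ℂ) * (Λ₀ ∘ fun z : ℂ => z - (x : ℂ)) z :=
    (sC _).mul s1'
  have sE : ContDiff ℝ ∞ Complex.exp := Complex.contDiff_exp (𝕜 := ℝ)
  have h4 := CT.comp (F := fun _ => Complex.exp) (fun _ => sE) s3 sE s3'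
    (La.CT_const l n _) h3
  have s4 := fun i => sE.comp (s3 i)
  have s4' := sE.comp s3'
  have h5 := CT.add (G := fun _ _ => (-1 : ℂ)) (g := fun _ => (-1 : ℂ)) s4 (fun _ => sC _) s4'
    (sC _) h4 (La.CT_const l n _)
  have s5 := fun i => (s4 i).add (sC (-1))
  have s5' := s4'.add (sC (-1))
  have h6 := CT.mul (F := fun _ _ => (h : ℂ)) (f := fun _ => (h : ℂ)) (fun _ => sC _) s5
    (sC _) s5' (La.CT_const l n _) h5
  have s6 := fun i => (sC (h : ℂ)).mul (s5 i)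
  have s6' := (sC (h : ℂ)).mul s5'
  have h7 := CT.add (F := fun _ z => z) (f := fun z => z) (fun _ => contDiff_id) s6
    contDiff_id s6' (La.CT_const l n _) h6
  simpa only [Function.comp_apply, sub_eq_add_neg] using h7

theorem Cj_cont {𝒦 : Set DiffC} {R B h : ℝ} (hR : 𝒦 ⊆ discSub R) (hB : 0 ≤ B) (hh : 0 < h)
    (hh1 : h ≤ 1) (hhB : h * (B * Real.exp B) ≤ 1 / 2) (hbd : ∀ g ∈ 𝒦, Bd (R + 1) B (Lam R h g))
    {c : ℝ} (hc : c ∈ Icc (0 : ℝ) 1) (x : ℝ) :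
    ContinuousOn (fun q : DiffC × ℝ => Cj h (Lam R h q.1) (q.2 * c) x)
      (𝒦 ×ˢ Icc (0 : ℝ) 1) := by
  rw [continuousOn_iff_continuous_domRestrict, continuous_iff_continuousAt]
  intro p
  have hs : ∀ i : (𝒦 ×ˢ Icc (0 : ℝ) 1 : Set (DiffC × ℝ)), i.1.2 * c ∈ Icc (0 : ℝ) 1 := fun i =>
    ⟨mul_nonneg i.2.2.1 hc.1, mul_le_one₀ i.2.2.2 hc.1 hc.2⟩
  have hmem : ∀ i : (𝒦 ×ˢ Icc (0 : ℝ) 1 : Set (DiffC × ℝ)),
      Cj h (Lam R h i.1.1) (i.1.2 * c) x ∈ discSub (R + 1 + |x|) := by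
    intro i z hz
    rw [Cj_app (hbd _ i.2.1) hB hh hhB (hs i), disp_zero (hbd _ i.2.1).zero hz, add_zero]
  refine tendsto_of_CT (R := R + 1 + |x|) (Eventually.of_forall hmem) (hmem p) fun n => ?_
  have hg : Tendsto (fun i : (𝒦 ×ˢ Icc (0 : ℝ) 1 : Set (DiffC × ℝ)) => i.1.1) (𝓝 p)
      (𝓝 p.1.1) := (continuous_fst.comp continuous_subtype_val).tendsto p
  have hsl : Tendsto (fun i : (𝒦 ×ˢ Icc (0 : ℝ) 1 : Set (DiffC × ℝ)) => i.1.2 * c) (𝓝 p)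
      (𝓝 (p.1.2 * c)) :=
    ((continuous_snd.comp continuous_subtype_val).mul continuous_const).tendsto p
  have h1 := CT_disp (fun i : (𝒦 ×ˢ Icc (0 : ℝ) 1 : Set (DiffC × ℝ)) =>
    (Lam_spec (hR i.2.1) hh hh1).1) (Lam_spec (hR p.2.1) hh hh1).1 hsl h x n
    (Lam_CT hh hh1 (fun i : (𝒦 ×ˢ Icc (0 : ℝ) 1 : Set (DiffC × ℝ)) => hR i.2.1) (hR p.2.1) hg n)
  have e : ∀ i : (𝒦 ×ˢ Icc (0 : ℝ) 1 : Set (DiffC × ℝ)),
      ((Cj h (Lam R h i.1.1) (i.1.2 * c) x : Equiv.Perm ℂ) : ℂ → ℂ) = fun z =>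
        z + (h : ℂ) * (Complex.exp (((i.1.2 * c : ℝ) : ℂ) * Lam R h i.1.1 (z - (x : ℂ))) - 1) :=
    fun i => funext fun z => Cj_app (hbd _ i.2.1) hB hh hhB (hs i) z
  show CT (𝓝 p) n (fun i : (𝒦 ×ˢ Icc (0 : ℝ) 1 : Set (DiffC × ℝ)) =>
    ((Cj h (Lam R h i.1.1) (i.1.2 * c) x : Equiv.Perm ℂ) : ℂ → ℂ))
    ((Cj h (Lam R h p.1.1) (p.1.2 * c) x : Equiv.Perm ℂ) : ℂ → ℂ)
  rw [e p, show (fun i : (𝒦 ×ˢ Icc (0 : ℝ) 1 : Set (DiffC × ℝ)) =>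
    ((Cj h (Lam R h i.1.1) (i.1.2 * c) x : Equiv.Perm ℂ) : ℂ → ℂ)) = fun i z =>
      z + (h : ℂ) * (Complex.exp (((i.1.2 * c : ℝ) : ℂ) * Lam R h i.1.1 (z - (x : ℂ))) - 1) from
      funext e]
  exact h1

end WC

/-
M2. Continuity: (g,s) ↦ Cj h (Lam R h g) (s χ) x is continuous on 𝒦 × [0,1] (tendsto_of_CT: CT of z + h (exp (s χ Λ_g (z-x)) - 1) from Lam_CT,
CT.comp with the translation, multiplication with the scalars s_i → s, and exp; supports in the disc of radius |R| + 1 + |x|), and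
DiffC is a topological group.  For 𝒦 ⊆ discSub R compact use exists_bound for B (given here as a hypothesis).
-/
theorem Wd_cont {𝒦 : Set DiffC} {R B h : ℝ} (hR : 𝒦 ⊆ discSub R) (hB : 0 ≤ B) (hh : 0 < h)
    (hh1 : h ≤ 1) (hhB : h * (B * Real.exp B) ≤ 1 / 2) (hbd : ∀ g ∈ 𝒦, Bd (R + 1) B (Lam R h g))
    {χ : ℕ → ℝ} (hχ : ∀ j, χ j ∈ Icc (0 : ℝ) 1) (n : ℕ) :
    ContinuousOn (fun q : DiffC × ℝ => Wd h (Lam R h q.1) (fun j => q.2 * χ j) n)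
      (𝒦 ×ˢ Icc (0 : ℝ) 1) := by
  induction n with
  | zero => exact continuousOn_const
  | succ n ih => exact ih.mul (WC.Cj_cont hR hB hh hh1 hhB hbd (hχ n) _)

end Pool.Agent.H75B
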